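import Mathlib

/-! Auxiliary polynomial for the subspace theorem over the rationals: counting and Siegel. -/

open MvPolynomial Finset

namespace US76.A10

theorem mom {m : ℕ} {T : Type} (t : Fin m → Finset T) (g : Fin m → T → ℝ)
    (h0 : ∀ h, ∑ x ∈ t h, g h x = 0) (h1 : ∀ h, ∀ x ∈ t h, |g h x| ≤ 1) :
    ∑ e ∈ Fintype.piFinset t, (∑ h, g h (e h)) ^ 2 ≤ m * ((Fintype.piFinset t).card : ℝ) := by
  classical
  have e1 : ∑ e ∈ Fintype.piFinset t, (∑ h, g h (e h)) ^ 2
      = ∑ h, ∑ k, ∑ e ∈ Fintype.piFinset t, g h (e h) * g k (e k) := by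
    simp_rw [sq, Finset.sum_mul_sum]
    rw [Finset.sum_comm]
    exact Finset.sum_congr rfl fun h _ => Finset.sum_comm
  have e2 : ∀ h k, h ≠ k → ∑ e ∈ Fintype.piFinset t, g h (e h) * g k (e k) = 0 := by
    intro h k hk
    have := Finset.prod_univ_sum t
      (fun l x => (if l = h then g h x else 1) * (if l = k then g k x else 1))
    simp only [Finset.prod_mul_distrib, Finset.prod_ite_eq', Finset.mem_univ, if_true] at this
    rw [← this]
    refine Finset.prod_eq_zero (Finset.mem_univ h) ?_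
    simp [hk, h0]
  rw [e1]
  calc ∑ h, ∑ k, ∑ e ∈ Fintype.piFinset t, g h (e h) * g k (e k)
      ≤ ∑ _h : Fin m, ((Fintype.piFinset t).card : ℝ) := by
        refine Finset.sum_le_sum fun h _ => ?_
        rw [Finset.sum_eq_single h (fun k _ hk => e2 h k (Ne.symm hk)) (by simp)]
        calc ∑ e ∈ Fintype.piFinset t, g h (e h) * g h (e h)
            ≤ ∑ _e ∈ Fintype.piFinset t, (1 : ℝ) := by
              refine Finset.sum_le_sum fun e he => ?_
              have := h1 h (e h) (Fintype.mem_piFinset.1 he h)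
              have h2 := abs_le.1 this
              nlinarith [h2.1, h2.2]
          _ = _ := by simp
    _ = _ := by simp

theorem mean {N : ℕ} (r : ℕ) (hr : 0 < r) (i : Fin N) :
    ∑ x ∈ piAntidiag (univ : Finset (Fin N)) r, ((x i : ℝ) / r - 1 / N) = 0 := by
  classical
  have hN : (0 : ℝ) < N := by exact_mod_cast Fin.pos i
  have hr' : (0 : ℝ) < r := by exact_mod_cast hr
  have e1 : ∀ j : Fin N, ∑ x ∈ piAntidiag (univ : Finset (Fin N)) r, (x j : ℝ)
      = ∑ x ∈ piAntidiag (univ : Finset (Fin N)) r, (x i : ℝ) := by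
    intro j
    refine Finset.sum_bij' (fun x _ => x ∘ Equiv.swap i j) (fun x _ => x ∘ Equiv.swap i j)
      ?_ ?_ ?_ ?_ ?_
    · intro x hx
      simp only [mem_piAntidiag, mem_univ, implies_true, and_true] at hx ⊢
      rw [← hx]; exact Equiv.sum_comp (Equiv.swap i j) x
    · intro x hx
      simp only [mem_piAntidiag, mem_univ, implies_true, and_true] at hx ⊢
      rw [← hx]; exact Equiv.sum_comp (Equiv.swap i j) x
    · intro x _; funext l; simp
    · intro x _; funext l; simp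
    · intro x _; simp
  have e2 : (N : ℝ) * ∑ x ∈ piAntidiag (univ : Finset (Fin N)) r, (x i : ℝ)
      = r * ((piAntidiag (univ : Finset (Fin N)) r).card : ℝ) := by
    calc (N : ℝ) * ∑ x ∈ piAntidiag (univ : Finset (Fin N)) r, (x i : ℝ)
        = ∑ j : Fin N, ∑ x ∈ piAntidiag (univ : Finset (Fin N)) r, (x j : ℝ) := by
          simp [e1]
      _ = ∑ x ∈ piAntidiag (univ : Finset (Fin N)) r, ∑ j : Fin N, (x j : ℝ) := Finset.sum_comm
      _ = ∑ _x ∈ piAntidiag (univ : Finset (Fin N)) r, (r : ℝ) := by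
          refine Finset.sum_congr rfl fun x hx => ?_
          simp only [mem_piAntidiag, mem_univ, implies_true, and_true] at hx
          exact_mod_cast hx
      _ = _ := by simp [mul_comm]
  rw [Finset.sum_sub_distrib, ← Finset.sum_div, Finset.sum_const, nsmul_eq_mul]
  field_simp
  linarith

open Classical in
/-- CNT2: few exponent vectors are unbalanced in a given coordinate. -/
theorem cnt2 {N m : ℕ} (r : Fin m → ℕ) (hr : ∀ h, 0 < r h) (i : Fin N) (η : ℝ) (hη : 0 < η)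
    (hm : 0 < m) :
    (((Fintype.piFinset fun h => piAntidiag (univ : Finset (Fin N)) (r h)).filter
        fun e => ∑ h, (e h i : ℝ) / r h < (m : ℝ) / N - m * η).card : ℝ) * (m * η ^ 2)
      ≤ (Fintype.piFinset fun h => piAntidiag (univ : Finset (Fin N)) (r h)).card := by
  have hN : (1 : ℝ) ≤ N := by exact_mod_cast Fin.pos i
  have hm' : (0 : ℝ) < m := by exact_mod_cast hm
  have h := mom (fun h => piAntidiag (univ : Finset (Fin N)) (r h))
    (fun h x => (x i : ℝ) / r h - 1 / N) (fun h => mean (r h) (hr h) i) (by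
      intro h x hx
      simp only [mem_piAntidiag, mem_univ, implies_true, and_true] at hx
      have hr' : (0 : ℝ) < r h := by exact_mod_cast hr h
      have h1 : x i ≤ r h := hx ▸ Finset.single_le_sum (fun _ _ => Nat.zero_le _) (mem_univ i)
      have h2 : (x i : ℝ) / r h ≤ 1 := (div_le_one hr').2 (by exact_mod_cast h1)
      have h3 : (0 : ℝ) ≤ (x i : ℝ) / r h := by positivity
      have h4 : (1 : ℝ) / N ≤ 1 := (div_le_one (by linarith)).2 hN
      have h5 : (0 : ℝ) ≤ 1 / N := by positivity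
      rw [abs_le]; constructor <;> linarith)
  set S := Fintype.piFinset fun h => piAntidiag (univ : Finset (Fin N)) (r h)
  have h2 : ((S.filter fun e => ∑ h, (e h i : ℝ) / r h < (m : ℝ) / N - m * η).card : ℝ)
      * (m * η) ^ 2 ≤ ∑ e ∈ S, (∑ h, ((e h i : ℝ) / r h - 1 / N)) ^ 2 := by
    calc _ = ∑ _e ∈ S.filter fun e => ∑ h, (e h i : ℝ) / r h < (m : ℝ) / N - m * η,
          (m * η) ^ 2 := by simp
      _ ≤ ∑ e ∈ S.filter fun e => ∑ h, (e h i : ℝ) / r h < (m : ℝ) / N - m * η,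
          (∑ h, ((e h i : ℝ) / r h - 1 / N)) ^ 2 := by
          refine Finset.sum_le_sum fun e he => ?_
          have h3 := (Finset.mem_filter.1 he).2
          have h4 : ∑ h, ((e h i : ℝ) / r h - 1 / N) = ∑ h, (e h i : ℝ) / r h - m / N := by
            rw [Finset.sum_sub_distrib]; simp [div_eq_mul_inv]
          rw [h4]
          have h5 : 0 < (m : ℝ) * η := by positivity
          nlinarith
      _ ≤ _ := Finset.sum_le_sum_of_subset_of_nonneg (Finset.filter_subset _ _)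
          fun _ _ _ => sq_nonneg _
  refine le_of_mul_le_mul_left ?_ hm'
  nlinarith

section norm
variable {σ : Type}

/-- The sum of the absolute values of the coefficients. -/
noncomputable def nrm (p : MvPolynomial σ ℤ) : ℝ := ∑ e ∈ p.support, |((coeff e p : ℤ) : ℝ)|

theorem nrm_nonneg (p : MvPolynomial σ ℤ) : 0 ≤ nrm p :=
  Finset.sum_nonneg fun _ _ => abs_nonneg _

theorem nrm_eq (p : MvPolynomial σ ℤ) (s : Finset (σ →₀ ℕ)) (hs : p.support ⊆ s) :
    nrm p = ∑ e ∈ s, |((coeff e p : ℤ) : ℝ)| :=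
  Finset.sum_subset hs fun e _ he => by simp [notMem_support_iff.1 he]

theorem coeff_le (p : MvPolynomial σ ℤ) (e : σ →₀ ℕ) : |((coeff e p : ℤ) : ℝ)| ≤ nrm p := by
  by_cases he : e ∈ p.support
  · exact Finset.single_le_sum (f := fun e => |((coeff e p : ℤ) : ℝ)|)
      (fun _ _ => abs_nonneg _) he
  · simp [notMem_support_iff.1 he, nrm_nonneg]

theorem nrm_add (p q : MvPolynomial σ ℤ) : nrm (p + q) ≤ nrm p + nrm q := by
  classical
  rw [nrm_eq (p + q) _ support_add, nrm_eq p _ (Finset.subset_union_left (s₂ := q.support)),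
    nrm_eq q _ (Finset.subset_union_right (s₁ := p.support)), ← Finset.sum_add_distrib]
  refine Finset.sum_le_sum fun e _ => ?_
  rw [coeff_add, Int.cast_add]; exact abs_add_le _ _

theorem nrm_sum {ι : Type} (s : Finset ι) (f : ι → MvPolynomial σ ℤ) :
    nrm (∑ i ∈ s, f i) ≤ ∑ i ∈ s, nrm (f i) := by
  classical
  induction s using Finset.induction_on with
  | empty => simp [nrm]
  | insert a s ha ih =>
    rw [Finset.sum_insert ha, Finset.sum_insert ha]
    exact (nrm_add _ _).trans (by linarith)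

theorem nrm_monomial (e : σ →₀ ℕ) (c : ℤ) : nrm (monomial e c) = |(c : ℝ)| := by
  classical
  rw [nrm_eq _ {e} support_monomial_subset]; simp

theorem nrm_mul (p q : MvPolynomial σ ℤ) : nrm (p * q) ≤ nrm p * nrm q := by
  conv_lhs => rw [p.as_sum, q.as_sum, Finset.sum_mul_sum]
  refine (nrm_sum _ _).trans ?_
  rw [nrm, nrm, Finset.sum_mul_sum]
  refine Finset.sum_le_sum fun a _ => (nrm_sum _ _).trans (Finset.sum_le_sum fun b _ => ?_)
  rw [monomial_mul, nrm_monomial, Int.cast_mul, abs_mul]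

theorem nrm_one : nrm (1 : MvPolynomial σ ℤ) = 1 := by
  have := nrm_monomial (0 : σ →₀ ℕ) 1
  simpa using this

theorem nrm_pow (p : MvPolynomial σ ℤ) (k : ℕ) : nrm (p ^ k) ≤ nrm p ^ k := by
  induction k with
  | zero => simp [nrm_one]
  | succ k ih =>
    rw [pow_succ, pow_succ]
    exact (nrm_mul _ _).trans (mul_le_mul_of_nonneg_right ih (nrm_nonneg _))

theorem nrm_prod {ι : Type} (s : Finset ι) (f : ι → MvPolynomial σ ℤ) :
    nrm (∏ i ∈ s, f i) ≤ ∏ i ∈ s, nrm (f i) := by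
  classical
  induction s using Finset.induction_on with
  | empty => simp [nrm_one]
  | insert a s ha ih =>
    rw [Finset.prod_insert ha, Finset.prod_insert ha]
    exact (nrm_mul _ _).trans (mul_le_mul_of_nonneg_left ih (nrm_nonneg _))

end norm

attribute [local instance] Matrix.seminormedAddCommGroup in
theorem sieg {α β : Type} [Fintype α] [Fintype β] (A : Matrix α β ℤ) (K : ℝ) (hK : 1 ≤ K)
    (hA : ∀ a b, |(A a b : ℝ)| ≤ K) (h : 2 * Fintype.card α ≤ Fintype.card β)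
    (hβ : 0 < Fintype.card β) :
    ∃ t : β → ℤ, t ≠ 0 ∧ A.mulVec t = 0 ∧ ∀ b, |(t b : ℝ)| ≤ Fintype.card β * K := by
  have hβ' : (1 : ℝ) ≤ Fintype.card β := by exact_mod_cast hβ
  have h1 : (1 : ℝ) ≤ Fintype.card β * K := by nlinarith
  rcases Nat.eq_zero_or_pos (Fintype.card α) with h0 | h0
  · have := Fintype.card_eq_zero_iff.1 h0
    obtain ⟨b⟩ := Fintype.card_pos_iff.1 hβ
    refine ⟨fun _ => 1, fun h => ?_, Subsingleton.elim _ _, fun _ => by simpa using h1⟩
    simpa using congrFun h b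
  obtain ⟨t, ht, hAt, hn⟩ := Int.Matrix.exists_ne_zero_int_vec_norm_le A (by omega) h0
  refine ⟨t, ht, hAt, fun b => ?_⟩
  have h2 : ‖A‖ ≤ K := (Matrix.norm_le_iff (by linarith)).2 fun a b => by
    simpa [Int.norm_eq_abs] using hA a b
  have h3 : (2 : ℝ) * Fintype.card α ≤ Fintype.card β := by exact_mod_cast h
  have h4 : (0 : ℝ) < Fintype.card α := by exact_mod_cast h0
  have h5 : (1 : ℝ) ≤ Fintype.card β * max 1 ‖A‖ := by nlinarith [le_max_left 1 ‖A‖]
  calc |(t b : ℝ)| = ‖t b‖ := (Int.norm_eq_abs _).symm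
    _ ≤ ‖t‖ := norm_le_pi_norm t b
    _ ≤ _ := hn
    _ ≤ (Fintype.card β * max 1 ‖A‖) ^ (1 : ℝ) :=
        Real.rpow_le_rpow_of_exponent_le h5 ((div_le_one (by linarith)).2 (by linarith))
    _ ≤ _ := by
        rw [Real.rpow_one]
        exact mul_le_mul_of_nonneg_left (max_le hK h2) (by linarith)

theorem wt {m N : ℕ} (h : Fin m) (e : Fin m × Fin N →₀ ℕ) :
    Finsupp.weight (fun hi : Fin m × Fin N => if hi.1 = h then 1 else 0) e = ∑ i, e (h, i) := by
  rw [Finsupp.weight_eq_sum, Fintype.sum_prod_type, Finset.sum_eq_single h]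
  · simp
  · intro k _ hk; simp [hk]
  · simp

theorem hom {m N : ℕ} (B : Matrix (Fin N) (Fin N) ℤ) (d : Fin m × Fin N →₀ ℕ) (c : ℤ)
    (h : Fin m) :
    IsWeightedHomogeneous (fun hi : Fin m × Fin N => if hi.1 = h then 1 else 0)
      (aeval (fun hi : Fin m × Fin N => ∑ j, C (B hi.2 j) * X (hi.1, j)) (monomial d c) :
        MvPolynomial (Fin m × Fin N) ℤ) (∑ i, d (h, i)) := by
  rw [aeval_monomial, Finsupp.prod_fintype _ _ (by simp), ← wt, Finsupp.weight_eq_sum]
  refine IsWeightedHomogeneous.C_mul ?_ c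
  refine IsWeightedHomogeneous.prod _ _ _ fun hi _ => IsWeightedHomogeneous.pow ?_ _
  refine IsWeightedHomogeneous.sum _ _ _ fun j _ => IsWeightedHomogeneous.C_mul ?_ _
  exact isWeightedHomogeneous_X ℤ (fun hi : Fin m × Fin N => if hi.1 = h then 1 else 0) (hi.1, j)

theorem nrm_sub {m N : ℕ} (B : Matrix (Fin N) (Fin N) ℤ) (b : ℝ)
    (hb : ∀ i, ∑ j, |(B i j : ℝ)| ≤ b) (d : Fin m × Fin N →₀ ℕ) (c : ℤ) :
    nrm (aeval (fun hi : Fin m × Fin N => ∑ j, C (B hi.2 j) * X (hi.1, j)) (monomial d c) :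
        MvPolynomial (Fin m × Fin N) ℤ) ≤ |(c : ℝ)| * b ^ (∑ h, ∑ i, d (h, i)) := by
  rw [aeval_monomial, Finsupp.prod_fintype _ _ (by simp), ← Fintype.sum_prod_type',
    ← Finset.prod_pow_eq_pow_sum]
  refine (nrm_mul _ _).trans (mul_le_mul (le_of_eq (nrm_monomial 0 c)) ?_ (nrm_nonneg _)
    (abs_nonneg _))
  refine (nrm_prod _ _).trans (Finset.prod_le_prod (fun _ _ => nrm_nonneg _) fun hi _ => ?_)
  refine (nrm_pow _ _).trans (pow_le_pow_left₀ (nrm_nonneg _) ?_ _)
  refine (nrm_sum _ _).trans (le_trans (Finset.sum_le_sum fun j _ => ?_) (hb hi.2))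
  rw [C_mul_X_eq_monomial, nrm_monomial]

theorem card_le {N m : ℕ} (r : Fin m → ℕ) :
    (Fintype.piFinset fun h => piAntidiag (univ : Finset (Fin N)) (r h)).card
      ≤ (2 ^ N) ^ (∑ h, r h) := by
  rw [Fintype.card_piFinset, ← Finset.prod_pow_eq_pow_sum]
  refine Finset.prod_le_prod' fun h _ => ?_
  calc (piAntidiag (univ : Finset (Fin N)) (r h)).card
      ≤ (Fintype.piFinset fun _ : Fin N => range (r h + 1)).card := by
        refine Finset.card_le_card fun x hx => Fintype.mem_piFinset.2 fun i => ?_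
        simp only [mem_piAntidiag, mem_univ, implies_true, and_true] at hx
        have h1 : x i ≤ r h := hx ▸ Finset.single_le_sum (fun _ _ => Nat.zero_le _) (mem_univ i)
        exact Finset.mem_range.2 (by omega)
    _ = (r h + 1) ^ N := by simp
    _ ≤ (2 ^ r h) ^ N := Nat.pow_le_pow_left Nat.lt_two_pow_self _
    _ = _ := by rw [← pow_mul, ← pow_mul, mul_comm]

/-- AUX: a nonzero multihomogeneous integer polynomial with small coefficients all of whose
transforms have only balanced monomials. -/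
theorem aux (N : ℕ) (hN : 0 < N) (V : Type) [Fintype V] (B : V → Matrix (Fin N) (Fin N) ℤ)
    (η : ℝ) (hη : 0 < η) :
    ∃ (m0 : ℕ) (K : ℝ), 1 ≤ K ∧ ∀ m, m0 ≤ m → ∀ r : Fin m → ℕ, (∀ h, 0 < r h) →
      ∃ P : MvPolynomial (Fin m × Fin N) ℤ, P ≠ 0 ∧ (∀ e ∈ P.support, ∀ h, ∑ i, e (h, i) = r h) ∧
        (∑ e ∈ P.support, |((coeff e P : ℤ) : ℝ)| ≤ K ^ (∑ h, r h)) ∧
        ∀ v, ∀ Q : MvPolynomial (Fin m × Fin N) ℤ,
          Q = aeval (fun hi : Fin m × Fin N => ∑ j, C (B v hi.2 j) * X (hi.1, j)) P →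
          (∑ e ∈ Q.support, |((coeff e Q : ℤ) : ℝ)| ≤ K ^ (∑ h, r h)) ∧
          ∀ e ∈ Q.support, (∀ h, ∑ i, e (h, i) = r h) ∧
            ∀ i, (m : ℝ) / N - m * η ≤ ∑ h, (e (h, i) : ℝ) / r h := by
  classical
  set b : ℝ := 1 + ∑ v, ∑ i, ∑ j, |(B v i j : ℝ)| with hb
  have hb0 : (0 : ℝ) ≤ ∑ v, ∑ i, ∑ j, |(B v i j : ℝ)| := by positivity
  have hb1 : 1 ≤ b := by linarith
  have hbB : ∀ v i, ∑ j, |(B v i j : ℝ)| ≤ b := fun v i => by
    have h1 : ∑ j, |(B v i j : ℝ)| ≤ ∑ i, ∑ j, |(B v i j : ℝ)| :=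
      Finset.single_le_sum (f := fun i => ∑ j, |(B v i j : ℝ)|) (fun _ _ => by positivity)
        (mem_univ i)
    have h2 : ∑ i, ∑ j, |(B v i j : ℝ)| ≤ ∑ v, ∑ i, ∑ j, |(B v i j : ℝ)| :=
      Finset.single_le_sum (f := fun v => ∑ i, ∑ j, |(B v i j : ℝ)|) (fun _ _ => by positivity)
        (mem_univ v)
    linarith
  obtain ⟨m0, hm0⟩ := exists_nat_gt (2 * Fintype.card V * N / η ^ 2)
  have h2N : (1 : ℝ) ≤ 2 ^ N := one_le_pow₀ (by norm_num)
  refine ⟨m0, (2 ^ N * b) ^ 2, one_le_pow₀ (by nlinarith), fun m hm r hr => ?_⟩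
  have hmm : (m0 : ℝ) ≤ m := by exact_mod_cast hm
  have hm1 : 2 * Fintype.card V * N < (m : ℝ) * η ^ 2 :=
    (div_lt_iff₀ (by positivity)).1 (hm0.trans_le hmm)
  have hm2 : (0 : ℝ) < m * η ^ 2 := lt_of_le_of_lt (by positivity) hm1
  have hmpos : 0 < m := by
    rcases Nat.eq_zero_or_pos m with h | h
    · simp [h] at hm2
    · exact h
  set S := Fintype.piFinset fun h => piAntidiag (univ : Finset (Fin N)) (r h) with hS
  set R := ∑ h, r h with hR
  have hmem : ∀ a : Fin m → Fin N → ℕ, a ∈ S ↔ ∀ h, ∑ i, a h i = r h := fun a => by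
    simp [hS, Fintype.mem_piFinset]
  set Bad := S.filter fun a => ∃ i, ∑ h, (a h i : ℝ) / r h < (m : ℝ) / N - m * η with hBad
  have hcard : 2 * (Fintype.card V * Bad.card) ≤ S.card := by
    have h1 : Bad.card ≤ ∑ i : Fin N,
        (S.filter fun a => ∑ h, (a h i : ℝ) / r h < (m : ℝ) / N - m * η).card := by
      refine le_trans (Finset.card_le_card fun a ha => ?_) Finset.card_biUnion_le
      obtain ⟨h1, i, hi⟩ := Finset.mem_filter.1 ha
      exact Finset.mem_biUnion.2 ⟨i, mem_univ _, Finset.mem_filter.2 ⟨h1, hi⟩⟩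
    have h2 : (Bad.card : ℝ) * (m * η ^ 2) ≤ N * S.card := by
      calc (Bad.card : ℝ) * (m * η ^ 2) ≤ (∑ i : Fin N,
            ((S.filter fun a => ∑ h, (a h i : ℝ) / r h < (m : ℝ) / N - m * η).card : ℝ))
              * (m * η ^ 2) := mul_le_mul_of_nonneg_right (by exact_mod_cast h1) hm2.le
        _ ≤ ∑ _i : Fin N, (S.card : ℝ) := by
            rw [Finset.sum_mul]
            exact Finset.sum_le_sum fun i _ => cnt2 r hr i η hη hmpos
        _ = _ := by simp
    have hN' : (0 : ℝ) < N := by exact_mod_cast hN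
    have h3 : (N : ℝ) * (2 * (Fintype.card V * Bad.card)) ≤ N * S.card := by
      have : (0 : ℝ) ≤ Bad.card := by positivity
      nlinarith
    exact_mod_cast le_of_mul_le_mul_left h3 hN'
  have hSpos : 0 < S.card := Finset.card_pos.2 ⟨fun h => Pi.single ⟨0, hN⟩ (r h),
    (hmem _).2 fun h => by simp⟩
  let φ : (Fin m → Fin N → ℕ) → (Fin m × Fin N →₀ ℕ) :=
    fun a => Finsupp.equivFunOnFinite.symm fun hi => a hi.1 hi.2
  have hφ : ∀ a hi, φ a hi = a hi.1 hi.2 := fun a hi => rfl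
  have hφi : Function.Injective φ := fun a a' h => by
    funext k i; rw [← hφ a (k, i), h]; rfl
  have hφR : ∀ a : S, ∑ h, ∑ i, φ a (h, i) = R := fun a =>
    Finset.sum_congr rfl fun h _ => (hmem _).1 a.2 h
  let sub : V → MvPolynomial (Fin m × Fin N) ℤ →ₐ[ℤ] MvPolynomial (Fin m × Fin N) ℤ :=
    fun v => aeval fun hi : Fin m × Fin N => ∑ j, C (B v hi.2 j) * X (hi.1, j)
  have hsub : ∀ v (a : S) (c : ℤ), nrm (sub v (monomial (φ a) c)) ≤ |(c : ℝ)| * b ^ R :=
    fun v a c => hφR a ▸ nrm_sub (B v) b (hbB v) (φ a) c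
  have hbR : 1 ≤ b ^ R := one_le_pow₀ hb1
  obtain ⟨t, ht, hAt, htb⟩ := sieg
    (Matrix.of fun (x : V × Bad) (a : S) => coeff (φ x.2) (sub x.1 (monomial (φ a) 1))) (b ^ R) hbR
    (fun x a => (coeff_le _ _).trans ((hsub x.1 a 1).trans (by simp)))
    (by simpa using hcard) (by simpa using hSpos)
  have hD : (S.card : ℝ) ≤ (2 ^ N) ^ R := by exact_mod_cast card_le (N := N) r
  have hD0 : (0 : ℝ) ≤ S.card := by positivity
  have htb' : ∀ a, |(t a : ℝ)| ≤ (2 ^ N) ^ R * b ^ R := fun a =>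
    (htb a).trans (mul_le_mul_of_nonneg_right (by simpa using hD) (by linarith))
  have hfin : ∑ a : S, |(t a : ℝ)| * b ^ R ≤ ((2 ^ N * b) ^ 2) ^ R := by
    calc ∑ a : S, |(t a : ℝ)| * b ^ R ≤ ∑ _a : S, (2 ^ N) ^ R * b ^ R * b ^ R :=
          Finset.sum_le_sum fun a _ => mul_le_mul_of_nonneg_right (htb' a) (by linarith)
      _ = S.card * ((2 ^ N) ^ R * b ^ R * b ^ R) := by simp
      _ ≤ (2 ^ N) ^ R * ((2 ^ N) ^ R * b ^ R * b ^ R) :=
          mul_le_mul_of_nonneg_right hD (by positivity)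
      _ = _ := by rw [← pow_mul (2 ^ N * b : ℝ), mul_comm 2 R, pow_mul (2 ^ N * b : ℝ), mul_pow]; ring
  have hco : ∀ a : S, coeff (φ a) (∑ a : S, monomial (φ a) (t a)) = t a := fun a => by
    rw [coeff_sum, Finset.sum_eq_single a]
    · simp
    · intro a' _ h
      rw [coeff_monomial, if_neg fun h' => h (Subtype.ext (hφi h'))]
    · simp
  refine ⟨∑ a : S, monomial (φ a) (t a), fun h => ht (funext fun a => ?_), fun e he h => ?_, ?_,
    fun v Q hQ => ?_⟩
  · rw [← hco a, h]; simp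
  · obtain ⟨a, -, ha⟩ := Finset.mem_biUnion.1 (support_sum he)
    rw [Finset.mem_singleton.1 (support_monomial_subset ha)]
    exact (hmem _).1 a.2 h
  · refine (nrm_sum _ _).trans (le_trans (Finset.sum_le_sum fun a _ => ?_) hfin)
    rw [nrm_monomial]; exact le_mul_of_one_le_right (abs_nonneg _) hbR
  have hQ' : Q = ∑ a : S, sub v (monomial (φ a) (t a)) := by rw [hQ, map_sum]
  refine ⟨?_, fun e he => ?_⟩
  · rw [hQ']
    exact (nrm_sum _ _).trans ((Finset.sum_le_sum fun a _ => hsub v a _).trans hfin)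
  have h1 : ∀ h, ∑ i, e (h, i) = r h := fun h => by
    rw [hQ'] at he
    obtain ⟨a, -, ha⟩ := Finset.mem_biUnion.1 (support_sum he)
    rw [← wt, hom (B v) (φ a) (t a) h (mem_support_iff.1 ha)]
    exact (hmem _).1 a.2 h
  refine ⟨h1, fun i => not_lt.1 fun hi => mem_support_iff.1 he ?_⟩
  have h2 : (fun h i => e (h, i)) ∈ Bad := Finset.mem_filter.2 ⟨(hmem _).2 h1, i, hi⟩
  have h3 := congrFun hAt (v, ⟨_, h2⟩)
  have h4 : φ (fun h i => e (h, i)) = e := by ext hi; rfl
  simp only [Matrix.mulVec, dotProduct, Matrix.of_apply, h4, Pi.zero_apply] at h3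
  rw [hQ', coeff_sum, ← h3]
  refine Finset.sum_congr rfl fun a _ => ?_
  rw [show monomial (φ a) (t a) = t a • monomial (φ a) (1 : ℤ) by simp [smul_monomial], map_smul,
    coeff_smul, smul_eq_mul, mul_comm]

end US76.A10
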