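import Pool.Agent.Lib.SU76.Defs
import Pool.Agent.Lib.SU76.Aux10

/-! Row AUX: the auxiliary polynomial. -/

namespace Pool.Agent.SU76

open Finset Real MvPolynomial

namespace AUX

theorem lin_lin {m N : ℕ} (A B : Mx N) (h : B * A = 1) (P : Pl m N) : lin A (lin B P) = P := by
  unfold lin
  rw [bind₁_bind₁]
  have : (fun x : Fin m × Fin N => bind₁ (fun x : Fin m × Fin N => ∑ i, C (A x.2 i) * X (x.1, i))
      (∑ i, C (B x.2 i) * X (x.1, i) : Pl m N)) = (X : Fin m × Fin N → Pl m N) := by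
    funext x
    simp only [map_sum, map_mul, bind₁_C_right, bind₁_X_right, Finset.mul_sum]
    rw [Finset.sum_comm]
    have e : ∀ k, ∑ i, (C (B x.2 i) * (C (A i k) * X (x.1, k)) : Pl m N)
        = C ((B * A) x.2 k) * X (x.1, k) := fun k => by
      rw [Matrix.mul_apply, map_sum, Finset.sum_mul]
      exact Finset.sum_congr rfl fun i _ => by rw [map_mul, mul_assoc]
    simp only [e, h, Matrix.one_apply]
    rw [Finset.sum_eq_single x.2]
    · simp
    · intro k _ hk; simp [Ne.symm hk]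
    · simp
  rw [this, bind₁_X_left]; rfl

theorem aux0 : St_AUX := by
  intro V _ N A A' θ hA hθ
  obtain ⟨m0, K, hK, H⟩ := US76.A10.aux (N + 1) N.succ_pos V A' θ hθ
  refine ⟨m0 + 1, log K, by omega, log_nonneg hK, fun r hr => ?_⟩
  obtain ⟨P, h0, h1, h2, h3⟩ := H (m0 + 1) (by omega) r hr
  have e : K ^ (∑ h, r h) = exp (log K * ∑ h, (r h : ℝ)) := by
    rw [exp_mul, exp_log (by linarith), ← Nat.cast_sum, rpow_natCast]
  rw [e] at h2 h3
  refine ⟨P, h0, h1, h2, fun v => ?_⟩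
  obtain ⟨h4, h5⟩ := h3 v (lin (A' v) P) rfl
  exact ⟨lin (A' v) P, (lin_lin _ _ (mul_eq_one_comm.1 (hA v)) P).symm,
    fun d hd => (h5 d hd).1, h4, fun d hd => (h5 d hd).2⟩

theorem cn2 : St_CN2 := by
  intro m N r θ i hm hr hθ
  have := US76.A10.cnt2 r hr i θ hθ hm
  simp only [Finset.piAntidiag_univ_fin_eq_antidiagonalTuple] at this
  unfold Ex
  exact this

end AUX

theorem aAUX (_ : St_NRM) (_ : St_CN2) : St_AUX := AUX.aux0

end Pool.Agent.SU76
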