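import Pool.Agent.Lib.SU76.Defs

/-! Row B1: the new large primes below `X ^ 3` are few and carry almost all of the defect. -/

namespace Pool.Agent.SU76

open Finset Real

namespace B1

theorem fac_ge (p : ℕ) : (1 : ℝ) ≤ 1 + 1 / (p : ℝ) := by
  have : (0 : ℝ) ≤ 1 / (p : ℝ) := by positivity
  linarith

theorem one_le_tt (R : Finset ℕ) : 1 ≤ tt R := by
  unfold tt
  refine le_trans (le_of_eq (prod_const_one (s := R)).symm) ?_
  exact prod_le_prod (fun _ _ => zero_le_one) fun p _ => fac_ge p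

theorem tt_pos (R : Finset ℕ) : 0 < tt R := lt_of_lt_of_le one_pos (one_le_tt R)

theorem tt_sdiff {R R' : Finset ℕ} (h : R ⊆ R') : tt R' = tt R * tt (R' \ R) := by
  unfold tt
  rw [← prod_sdiff h, mul_comm]

theorem tt_mono {R R' : Finset ℕ} (h : R ⊆ R') : tt R ≤ tt R' := by
  rw [tt_sdiff h]
  exact le_mul_of_one_le_right (tt_pos R).le (one_le_tt _)

theorem pw (C v : ℝ) (hC : 0 ≤ C) (h0 : 0 ≤ v) (h1 : v ≤ 1) (n : ℕ) :
    (1 + C * v) ^ n ≤ 1 + ((1 + C) ^ n - 1) * v := by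
  induction n with
  | zero => simp
  | succ n ih =>
    have hB : 1 ≤ (1 + C) ^ n := one_le_pow₀ (by linarith)
    have h2 : 0 ≤ 1 + C * v := by positivity
    rw [pow_succ, pow_succ]
    refine (mul_le_mul_of_nonneg_right ih h2).trans ?_
    generalize (1 + C) ^ n = B at *
    have h3 : 0 ≤ C * (B - 1) * v * (1 - v) :=
      mul_nonneg (mul_nonneg (mul_nonneg hC (by linarith)) h0) (by linarith)
    nlinarith

variable {r : ℕ}

/-- A large prime that appears in the limit object but not at level `d`. -/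
def Nw (S : Lo r) (d : Fin r → ℕ) (i : Fin r) (p : ℕ) : Prop :=
  p.Prime ∧ S.M0 < p ∧ S.de i p ∈ S.D i ∧ ¬ S.de i p ∣ d i

theorem P_sub (hK : St_KIT) (S : Lo r) (i : Fin r) {e d : ℕ} (he : e ∈ S.D i) (hd : d ∣ e) :
    S.P i d ⊆ S.P i e := by
  intro p hp
  have h1 := (hK r S i).1
  obtain ⟨a, b, c⟩ := (h1 p d (S.odd i d (S.dvd i e he d hd))).mp hp
  exact (h1 p e (S.odd i e he)).mpr ⟨a, b, c.trans hd⟩

theorem ex_mul (S : Lo r) (i : Fin r) {d : ℕ} (hd : d ∈ S.D i) (f : ℕ → ℕ) (T : Finset ℕ) :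
    (∀ p ∈ T, f p ∈ S.D i) → ∃ e ∈ S.D i, d ∣ e ∧ ∀ p ∈ T, f p ∣ e := by
  induction T using Finset.induction_on with
  | empty => exact fun _ => ⟨d, hd, dvd_rfl, by simp⟩
  | insert a T _ ih =>
    intro h
    obtain ⟨e, he, hde, hT⟩ := ih fun p hp => h p (mem_insert_of_mem hp)
    refine ⟨Nat.lcm e (f a), S.lcm i e he _ (h a (mem_insert_self _ _)),
      hde.trans (Nat.dvd_lcm_left _ _), fun p hp => ?_⟩
    rcases mem_insert.mp hp with rfl | hp
    · exact Nat.dvd_lcm_right _ _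
    · exact (hT p hp).trans (Nat.dvd_lcm_left _ _)

theorem low (hK : St_KIT) (S : Lo r) (d : Fin r → ℕ) (hd : ∀ i, d i ∈ S.D i) (T : Fin r → Finset ℕ)
    (hT : ∀ i, ∀ p ∈ T i, Nw S d i p) : ∏ i, tt (T i) < S.Th d := by
  have h1 : ∀ i, ∃ e ∈ S.D i, d i ∣ e ∧ ∀ p ∈ T i, S.de i p ∣ e := fun i =>
    ex_mul S i (hd i) (S.de i) (T i) fun p hp => (hT i p hp).2.2.1
  choose e he hde hTe using h1
  have hlt : ∏ i, tt (S.P i (e i)) < S.ka := S.lt e he
  have hpos : 0 < ∏ i, tt (S.P i (d i)) := prod_pos fun i _ => tt_pos _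
  unfold Lo.Th
  rw [lt_div_iff₀ hpos, ← prod_mul_distrib]
  refine lt_of_le_of_lt (prod_le_prod (fun i _ => (mul_pos (tt_pos _) (tt_pos _)).le) fun i _ => ?_) hlt
  rw [tt_sdiff (P_sub hK S i (he i) (hde i)), mul_comm]
  refine mul_le_mul_of_nonneg_left (tt_mono fun p hp => ?_) (tt_pos _).le
  obtain ⟨a, b, _, c⟩ := hT i p hp
  have h2 := (hK r S i).1
  refine mem_sdiff.mpr ⟨(h2 p _ (S.odd i _ (he i))).mpr ⟨a, b, hTe i p hp⟩, fun h => c ?_⟩
  exact ((h2 p _ (S.odd i _ (hd i))).mp h).2.2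

theorem single (hK : St_KIT) (S : Lo r) (d : Fin r → ℕ) (hd : ∀ i, d i ∈ S.D i) (i : Fin r) (p : ℕ)
    (hp : Nw S d i p) : 1 + 1 / (p : ℝ) < S.Th d := by
  have h := low hK S d hd (fun j => if j = i then {p} else ∅) (by
    intro j p' hp'
    by_cases hj : j = i
    · rw [if_pos hj, mem_singleton] at hp'
      rw [hj, hp']
      exact hp
    · rw [if_neg hj] at hp'
      exact absurd hp' (notMem_empty _))
  rw [prod_eq_single i (fun j _ hj => by simp [hj, tt]) (by simp)] at h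
  simpa [tt] using h

theorem up (hK : St_KIT) (S : Lo r) (C0 : ℝ)
    (hRK : ∀ (R : Finset ℕ) (Z : ℝ), 1 ≤ Z → (∀ p ∈ R, Z ≤ p ∧ p + 1 ∈ S.M.smoothNumbers) →
      tt R ≤ 1 + C0 * Z ^ (-(5 / 6 : ℝ)))
    (d : Fin r → ℕ) (hd : ∀ i, d i ∈ S.D i) (T : Fin r → Finset ℕ) (Z : ℝ) (hZ : 1 ≤ Z)
    (hT : ∀ i p, Nw S d i p → (p : ℝ) ≤ Z → p ∈ T i) (η : ℝ) (hη : 0 < η) :
    S.Th d ≤ (1 + η) * ((∏ i, tt (T i)) * (1 + C0 * Z ^ (-(5 / 6 : ℝ))) ^ r) := by
  classical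
  obtain ⟨e, he, hap⟩ := S.ap η hη
  have hap' : S.ka ≤ (1 + η) * ∏ i, tt (S.P i (e i)) := hap
  have hpos : 0 < ∏ i, tt (S.P i (d i)) := prod_pos fun i _ => tt_pos _
  unfold Lo.Th
  rw [div_le_iff₀ hpos, mul_assoc]
  refine hap'.trans (mul_le_mul_of_nonneg_left ?_ (by linarith))
  have hc : (1 + C0 * Z ^ (-(5 / 6 : ℝ))) ^ r = ∏ _i : Fin r, (1 + C0 * Z ^ (-(5 / 6 : ℝ))) := by
    rw [prod_const, card_univ, Fintype.card_fin]
  rw [hc, ← prod_mul_distrib, ← prod_mul_distrib]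
  refine prod_le_prod (fun i _ => (tt_pos _).le) fun i _ => ?_
  have hl : Nat.lcm (e i) (d i) ∈ S.D i := S.lcm i _ (he i) _ (hd i)
  refine (tt_mono (P_sub hK S i hl (Nat.dvd_lcm_left _ _))).trans ?_
  rw [tt_sdiff (P_sub hK S i hl (Nat.dvd_lcm_right _ _)), mul_comm]
  refine mul_le_mul_of_nonneg_right ?_ (tt_pos _).le
  obtain ⟨k1, k2, -⟩ := hK r S i
  have hsp : tt (S.P i (Nat.lcm (e i) (d i)) \ S.P i (d i)) =
      tt ((S.P i (Nat.lcm (e i) (d i)) \ S.P i (d i)).filter fun p : ℕ => (p : ℝ) ≤ Z) *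
      tt ((S.P i (Nat.lcm (e i) (d i)) \ S.P i (d i)).filter fun p : ℕ => ¬ (p : ℝ) ≤ Z) := by
    unfold tt
    rw [prod_filter_mul_prod_filter_not]
  rw [hsp]
  refine mul_le_mul (tt_mono fun p hp => ?_) (hRK _ Z hZ fun p hp => ?_) (tt_pos _).le (tt_pos _).le
  · obtain ⟨h1, h2⟩ := mem_filter.mp hp
    obtain ⟨h3, h4⟩ := mem_sdiff.mp h1
    obtain ⟨a, b, -⟩ := (k1 p _ (S.odd i _ hl)).mp h3
    exact hT i p ⟨a, b, (k2 _ hl p h3).1, fun h => h4 ((k1 p _ (S.odd i _ (hd i))).mpr ⟨a, b, h⟩)⟩ h2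
  · obtain ⟨h1, h2⟩ := mem_filter.mp hp
    exact ⟨(not_le.mp h2).le, (k2 _ hl p (mem_sdiff.mp h1).1).2.2⟩

theorem size (ka Q l : ℝ) (n : ℕ) (hn : (n : ℝ) = l) (hka : 1 ≤ ka) (hQ : 0 ≤ Q) (h2 : 2 ≤ l)
    (hl : 2 * ka * (Q + 1) ≤ l) : 2 * ka * Q ^ n * (Q + 1) ≤ exp (l ^ 4) := by
  have h1 : l ≤ exp l := by have := add_one_le_exp l; linarith
  have h3 : Q ≤ exp l := by nlinarith
  have h4 : Q ^ n ≤ exp (l * l) := by
    refine (pow_le_pow_left₀ hQ h3 n).trans (le_of_eq ?_)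
    rw [← exp_nat_mul, hn]
  have h5 : 2 * ka * Q ^ n * (Q + 1) = (2 * ka * (Q + 1)) * Q ^ n := by ring
  have h6 : (2 * ka * (Q + 1)) * Q ^ n ≤ exp l * exp (l * l) :=
    mul_le_mul (hl.trans h1) h4 (by positivity) (exp_pos _).le
  rw [h5]
  refine h6.trans ?_
  rw [← exp_add, exp_le_exp]
  have h7 : 4 ≤ l * l := by nlinarith
  have h8 : l ^ 4 = (l * l) * (l * l) := by ring
  nlinarith

/-- A large prime of `D i` is the order attached to a prime of polynomial size. -/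
theorem prime_lb (hK : St_KIT) (hKEY : St_KEY) (S : Lo r) : ∃ c2 l0 : ℕ, ∀ i l, l0 ≤ l → l.Prime →
    l ∈ S.D i → ∃ p : ℕ, p.Prime ∧ S.M0 < p ∧ S.de i p = l ∧ (p : ℝ) ≤ (l : ℝ) ^ c2 := by
  obtain ⟨c1, c2, hkey⟩ := hKEY S.M
  have e1 : ∀ᶠ l : ℕ in Filter.atTop, (l : ℝ) ^ c1 / 2 ^ l < 1 :=
    (tendsto_pow_const_div_const_pow_of_one_lt c1 (by norm_num : (1 : ℝ) < 2)).eventually
      (gt_mem_nhds one_pos)
  have e2 : ∀ᶠ l : ℕ in Filter.atTop, ∀ i, 2 * S.ka * ((S.Q i : ℝ) + 1) ≤ l :=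
    Filter.eventually_all.mpr fun i => tendsto_natCast_atTop_atTop.eventually_ge_atTop _
  obtain ⟨l0, hl0⟩ := Filter.eventually_atTop.mp (e1.and e2)
  refine ⟨c2, l0, fun i l hl hp hD => ?_⟩
  obtain ⟨f1, f2⟩ := hl0 l hl
  obtain ⟨k1, k2, k3, -, k5, k6, k7⟩ := hK r S i
  obtain ⟨n, hns, hnle, hnw⟩ := k3 l hD
  obtain ⟨m, hms, hmle, hmw⟩ := k3 1 (S.one i)
  have hQ : (2 : ℝ) ≤ S.Q i := by exact_mod_cast k6
  have hl2 : (2 : ℝ) ≤ l := by exact_mod_cast hp.two_le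
  have hm0 : (0 : ℝ) < m := by exact_mod_cast Nat.pos_of_ne_zero hms.1
  have hQl : (0 : ℝ) < (S.Q i : ℝ) ^ l := by positivity
  have hsz := size S.ka (S.Q i) l l rfl k7.le (by linarith) hl2 (f2 i)
  have hsub := P_sub hK S i hD (one_dvd l)
  have hq1 : S.Q i + 1 ∈ S.M.smoothNumbers := S.qs i
  have heq : ((n * (S.Q i + 1) : ℕ) : ℝ) / ((S.Q i ^ l * m : ℕ) : ℝ) =
      tt (S.P i l \ S.P i 1) * (1 + S.z i l) := by
    unfold Lo.w at hnw hmw
    rw [tt_sdiff hsub] at hnw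
    have hz1 : S.z i 1 = 1 / (S.Q i : ℝ) := by unfold Lo.z; rw [pow_one]
    rw [hz1, pow_one] at hmw
    have hQ0 : (S.Q i : ℝ) ≠ 0 := by linarith
    have hm' : (m : ℝ) = ((S.Q i : ℝ) + 1) * tt (S.P i 1) := by
      rw [eq_div_iff hQ0] at hmw
      rw [← hmw]
      field_simp
    have hn' : (n : ℝ) = (1 + S.z i l) * (tt (S.P i 1) * tt (S.P i l \ S.P i 1)) * (S.Q i : ℝ) ^ l := by
      rw [eq_div_iff hQl.ne'] at hnw
      exact hnw.symm
    push_cast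
    rw [div_eq_iff (by positivity), hn', hm']
    ring
  have hz0 : 0 < S.z i l := by unfold Lo.z; positivity
  have hzle : S.z i l ≤ 1 / (l : ℝ) ^ c1 := by
    unfold Lo.z
    refine one_div_le_one_div_of_le (by positivity) ?_
    rw [div_lt_one (by positivity)] at f1
    exact f1.le.trans (pow_le_pow_left₀ (by norm_num) hQ l)
  have hka : 0 ≤ 2 * S.ka := by linarith
  obtain ⟨p, hpm, hple⟩ := hkey l (1 + S.z i l) (S.P i l \ S.P i 1) (n * (S.Q i + 1)) (S.Q i ^ l * m) hl2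
    (Nat.mul_mem_smoothNumbers hns hq1) (Nat.mul_mem_smoothNumbers (k5 l) hms)
    (by
      push_cast
      exact (mul_le_mul_of_nonneg_right hnle (by linarith)).trans hsz)
    (by
      push_cast
      refine le_trans ?_ hsz
      rw [pow_one] at hmle
      have h1 : (m : ℝ) ≤ 2 * S.ka * ((S.Q i : ℝ) + 1) := by nlinarith
      have h2 := mul_le_mul_of_nonneg_left h1 hQl.le
      linarith)
    (by
      intro h
      rw [h, div_self (by push_cast; positivity)] at heq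
      have h1 := one_le_tt (S.P i l \ S.P i 1)
      nlinarith)
    (fun p hp' => by
      have h1 := (mem_sdiff.mp hp').1
      exact ⟨((k1 p l (S.odd i l hD)).mp h1).1.one_le, (k2 l hD p h1).2.2⟩)
    heq (by rw [add_sub_cancel_left, abs_of_pos hz0]; exact hzle)
  obtain ⟨h1, h2⟩ := mem_sdiff.mp hpm
  obtain ⟨a, b, c⟩ := (k1 p l (S.odd i l hD)).mp h1
  refine ⟨p, a, b, ?_, hple⟩
  rcases (Nat.dvd_prime hp).mp c with h | h
  · exact absurd ((k1 p 1 odd_one).mpr ⟨a, b, by rw [h]⟩) h2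
  · exact h

theorem ev_log (A : ℝ) (hA : 0 < A) (n : ℕ) : ∃ X1 : ℝ, ∀ X, X1 ≤ X → A * log X ^ n < X := by
  have h := (isLittleO_pow_log_id_atTop (n := n)).def (c := 1 / (2 * A)) (by positivity)
  obtain ⟨X1, hX⟩ := Filter.eventually_atTop.mp (h.and (Filter.eventually_gt_atTop 0))
  refine ⟨X1, fun X hX1 => ?_⟩
  obtain ⟨h1, h2⟩ := hX X hX1
  rw [id, norm_eq_abs, norm_eq_abs, abs_of_pos h2] at h1
  have h3 := mul_le_mul_of_nonneg_left ((le_abs_self _).trans h1) hA.le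
  have h4 : A * (1 / (2 * A) * X) = X / 2 := by field_simp
  linarith

end B1

open B1 in
theorem aB1 (hK : St_KIT) (hKEY : St_KEY) (hSP : St_SP) (hCNT : St_CNT) (hRK : St_RK) : St_B1 := by
  classical
  intro r S c hc
  obtain ⟨c2, l0, hlb⟩ := prime_lb hK hKEY S
  obtain ⟨K, N1, hK1, hsp⟩ := hSP r S
  obtain ⟨N2, hcnt⟩ := hCNT S.M (3 * (c2 + 1))
  obtain ⟨C0, hC0, hrk⟩ := hRK S.M
  have hKr : (1 : ℝ) ≤ K := by exact_mod_cast hK1
  obtain ⟨X1, hX1⟩ := ev_log (c * (3 * K) ^ c2) (by positivity) c2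
  refine ⟨r * (N1 * N2), (1 + C0) ^ (r + 1), max (max X1 1) (max c (max l0 3)), ?_⟩
  intro x d X hTr hX hx hTh
  have hXa : X1 ≤ X := le_trans (le_trans (le_max_left _ _) (le_max_left _ _)) hX
  have hXb : 1 ≤ X := le_trans (le_trans (le_max_right _ _) (le_max_left _ _)) hX
  have hxc : c ≤ x := le_trans (le_trans (le_max_left _ _) (le_max_right _ _)) hx
  have hxl : (l0 : ℝ) ≤ x :=
    le_trans (le_trans (le_trans (le_max_left _ _) (le_max_right _ _)) (le_max_right _ _)) hx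
  have hx3 : (3 : ℝ) ≤ x :=
    le_trans (le_trans (le_trans (le_max_right _ _) (le_max_right _ _)) (le_max_right _ _)) hx
  have hX0 : 0 < X := by linarith
  have hZ : (1 : ℝ) ≤ X ^ 3 := one_le_pow₀ hXb
  have hd : ∀ i, d i ∈ S.D i := fun i => (hTr i).1
  -- every new prime is at least `X / c`
  have hbig : ∀ i p, Nw S d i p → X ≤ c * p := by
    intro i p hp
    have h1 := (single hK S d hd i p hp).trans_le hTh
    have h2 : (0 : ℝ) < p := by exact_mod_cast hp.1.pos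
    have h3 : 1 / (p : ℝ) < c / X := by linarith
    rw [div_lt_div_iff₀ h2 hX0] at h3
    linarith
  -- every prime of `D i` above `x` is at least a power of `X`
  have hlow : ∀ i l, l.Prime → l ∈ S.D i → x < l → X ≤ c * (l : ℝ) ^ c2 := by
    intro i l hl hD hxl'
    have h0 : l0 ≤ l := by
      have : l0 ≤ x := by exact_mod_cast hxl
      omega
    obtain ⟨p, a, b, h1, h2⟩ := hlb i l h0 hl hD
    have h3 : Nw S d i p := ⟨a, b, by rw [h1]; exact hD, by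
      rw [h1]
      intro h
      have := (hTr i).2.1 l hl h
      omega⟩
    exact (hbig i p h3).trans (mul_le_mul_of_nonneg_left h2 (by linarith))
  set T : Fin r → Finset ℕ := fun i => (range (⌊X ^ 3⌋₊ + 1)).filter (Nw S d i) with hTdef
  have hTm : ∀ i p, p ∈ T i ↔ Nw S d i p ∧ (p : ℝ) ≤ X ^ 3 := by
    intro i p
    rw [hTdef]
    simp only [mem_filter, mem_range, Nat.lt_succ_iff]
    rw [Nat.le_floor_iff (by linarith), and_comm]
  have hTP : ∀ i p, Nw S d i p → p ∈ S.P i (S.de i p) := fun i p hp =>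
    ((hK r S i).1 p _ (S.odd i _ hp.2.2.1)).mpr ⟨hp.1, hp.2.1, dvd_rfl⟩
  have hcard : ∀ i, (T i).card ≤ N1 * N2 := by
    intro i
    set L : Finset ℕ := (range (⌊X ^ 3⌋₊ + 1)).filter fun l => l.Prime ∧ l ∈ S.D i ∧ x < l with hL
    have hLm : ∀ l, l ∈ L ↔ (l.Prime ∧ l ∈ S.D i ∧ x < l) ∧ (l : ℝ) ≤ X ^ 3 := by
      intro l
      rw [hL]
      simp only [mem_filter, mem_range, Nat.lt_succ_iff]
      rw [Nat.le_floor_iff (by linarith), and_comm]
    have hL1 : L.card ≤ N1 := by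
      refine hsp i (X ^ 3) L hZ fun l hl => ?_
      obtain ⟨⟨a, b, c'⟩, e⟩ := (hLm l).mp hl
      refine ⟨a, b, ?_, e⟩
      by_contra hlt
      have h1 : (l : ℝ) ≤ 3 * K * log X := by
        rw [log_pow] at hlt
        push_cast at hlt
        linarith [not_le.mp hlt]
      have h2 : (l : ℝ) ^ c2 ≤ (3 * K) ^ c2 * log X ^ c2 := by
        rw [← mul_pow]
        exact pow_le_pow_left₀ (by positivity) h1 c2
      have h3 := hlow i l a b c'
      have h4 := hX1 X hXa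
      have h5 := mul_le_mul_of_nonneg_left h2 (by linarith : (0 : ℝ) ≤ c)
      rw [← mul_assoc] at h5
      linarith
    have hcov : T i ⊆ L.biUnion fun l => (T i).filter fun p => p ≡ 1 [MOD l] := by
      intro p hp
      obtain ⟨hN, hple⟩ := (hTm i p).mp hp
      have h1 : ¬ ∀ l, l.Prime → l ∣ S.de i p → l ≤ x := fun h => hN.2.2.2 ((hTr i).2.2 _ hN.2.2.1 h)
      push Not at h1
      obtain ⟨l, a, b, c'⟩ := h1
      have h2 : p ≡ 1 [MOD l] := ((hK r S i).2.1 _ hN.2.2.1 p (hTP i p hN)).2.1.of_dvd b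
      have h3 : l ≤ p := by
        have h4 := (Nat.modEq_iff_dvd' hN.1.one_le).mp h2.symm
        have h5 := hN.1.two_le
        have := Nat.le_of_dvd (by omega) h4
        omega
      refine mem_biUnion.mpr ⟨l, (hLm l).mpr ⟨⟨a, S.dvd i _ hN.2.2.1 l b, c'⟩, ?_⟩,
        mem_filter.mpr ⟨hp, h2⟩⟩
      exact le_trans (by exact_mod_cast h3) hple
    refine (card_le_card hcov).trans ((card_biUnion_le_card_mul _ _ N2 fun l hl => ?_).trans
      (Nat.mul_le_mul_right _ hL1))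
    obtain ⟨⟨a, b, c'⟩, -⟩ := (hLm l).mp hl
    have hxl' : (x : ℝ) ≤ l := by exact_mod_cast c'.le
    refine hcnt l _ (S.odd i l b) (by exact_mod_cast hx3.trans hxl') fun p hp => ?_
    obtain ⟨h1, h2⟩ := mem_filter.mp hp
    obtain ⟨hN, hple⟩ := (hTm i p).mp h1
    refine ⟨((hK r S i).2.1 _ hN.2.2.1 p (hTP i p hN)).2.2, ?_, h2⟩
    have h3 : X ≤ (l : ℝ) ^ (c2 + 1) := by
      refine (hlow i l a b c').trans ?_
      rw [pow_succ']
      exact mul_le_mul_of_nonneg_right (hxc.trans hxl') (by positivity)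
    have h4 : (p : ℝ) ≤ (l : ℝ) ^ (3 * (c2 + 1)) := by
      rw [mul_comm, pow_mul]
      exact hple.trans (pow_le_pow_left₀ hX0.le h3 3)
    exact_mod_cast h4
  have hRm : ∀ y : Fin r × ℕ, y ∈ (univ.biUnion fun i => ({i} : Finset (Fin r)) ×ˢ T i) ↔
      y.1 ∈ (univ : Finset (Fin r)) ∧ y.2 ∈ T y.1 := by
    intro y
    simp only [mem_biUnion, mem_univ, true_and, mem_product, mem_singleton]
    constructor
    · rintro ⟨i, h1, h2⟩
      rw [h1]
      exact h2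
    · exact fun h => ⟨y.1, rfl, h⟩
  refine ⟨univ.biUnion fun i => ({i} : Finset (Fin r)) ×ˢ T i, ?_, ?_, ?_⟩
  · refine (card_biUnion_le_card_mul _ _ (N1 * N2) fun i _ => ?_).trans (by simp)
    rw [card_product, card_singleton, one_mul]
    exact hcard i
  · intro y hy
    obtain ⟨hN, hple⟩ := (hTm _ _).mp ((hRm y).mp hy).2
    exact ⟨((hK r S y.1).2.1 _ hN.2.2.1 _ (hTP _ _ hN)).2.2, hbig _ _ hN, hple⟩
  · rw [prod_finset_product _ univ T hRm]
    have hpos : 0 < ∏ i, tt (T i) := prod_pos fun i _ => tt_pos _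
    have hv0 : 0 < X ^ (-(5 / 2 : ℝ)) := rpow_pos_of_pos hX0 _
    have hv1 : X ^ (-(5 / 2 : ℝ)) ≤ 1 := rpow_le_one_of_one_le_of_nonpos hXb (by norm_num)
    have hZv : (X ^ 3) ^ (-(5 / 6 : ℝ)) = X ^ (-(5 / 2 : ℝ)) := by
      rw [← rpow_natCast, ← rpow_mul hX0.le]
      norm_num
    have h1 := low hK S d hd T fun i p hp => ((hTm i p).mp hp).1
    have h2 := up hK S C0 hrk d hd T (X ^ 3) hZ (fun i p a b => (hTm i p).mpr ⟨a, b⟩) _ hv0
    rw [hZv] at h2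
    have h3 := pw C0 _ (by linarith) hv0.le hv1 (r + 1)
    change |S.Th d / ∏ i, tt (T i) - 1| ≤ _
    generalize X ^ (-(5 / 2 : ℝ)) = v at *
    have h4 : 1 ≤ S.Th d / ∏ i, tt (T i) := by
      rw [le_div_iff₀ hpos]
      linarith
    have h5 : S.Th d / ∏ i, tt (T i) ≤ (1 + C0 * v) ^ (r + 1) := by
      rw [div_le_iff₀ hpos]
      refine h2.trans ?_
      have h6 : 1 + v ≤ 1 + C0 * v := by nlinarith
      have h7 : 0 ≤ (∏ i, tt (T i)) * (1 + C0 * v) ^ r := by positivity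
      refine (mul_le_mul_of_nonneg_right h6 h7).trans (le_of_eq ?_)
      ring
    rw [abs_of_nonneg (by linarith)]
    nlinarith

end Pool.Agent.SU76
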