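import Mathlib
import Pool.Agent.Lib.MP_14338b_nt.Def

/-! Definitions and block statements: smooth unitary superperfect numbers. -/

namespace Pool.Agent.SU76

open Finset Real Pool.Agent.Lib.MP_14338b_nt

/-! ### The three main statements -/

def St_MAIN : Prop := ∀ M al be : ℕ, 0 < al → 0 < be →
  {x : ℕ × ℕ | x.1 ∈ M.smoothNumbers ∧ 0 < x.2 ∧ usigma x.1 = al * x.2 ∧ usigma x.2 = be * x.1}.Finite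

def St_BF : Prop := ∀ M : ℕ, ∃ C : ℕ, 1 ≤ C ∧ ∀ (a b a' b' : ℕ) (B h : ℝ), a ∈ M.smoothNumbers →
  b ∈ M.smoothNumbers → 0 < a' → 0 < b' → 3 ≤ B → 1 ≤ h → (a : ℝ) ≤ exp B → (b : ℝ) ≤ exp B →
  (a' : ℝ) ≤ exp h → (b' : ℝ) ≤ exp h → a * a' ≠ b * b' →
  exp (-(C * h ^ C * log B)) ≤ |(a : ℝ) * a' / (b * b') - 1|

/-- Up to sign a quotient of two smooth numbers of size at most `Z`. -/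
def Un (M : ℕ) (Z : ℝ) (y : ℚ) : Prop :=
  ∃ a b : ℕ, a ∈ M.smoothNumbers ∧ b ∈ M.smoothNumbers ∧ (a : ℝ) ≤ Z ∧ (b : ℝ) ≤ Z ∧ |y| = a / b

def St_EV : Prop := ∀ (M n : ℕ) (ε : ℝ), 0 < ε → ∃ (F : Finset ℚ) (Z0 : ℝ), ∀ (Z : ℝ) (ι : Type) (s : Finset ι)
  (y : ι → ℚ) (i0 : ι), Z0 ≤ Z → s.card ≤ n → i0 ∈ s → (∀ i ∈ s, Un M Z (y i)) →
  |((∑ i ∈ s, y i : ℚ) : ℝ)| ≤ Z ^ (-ε) * |(y i0 : ℝ)| → ∃ i ∈ s, y i * y i0 < 0 ∧ y i / y i0 ∈ F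

/-! ### Number theory -/

/-- The primes above `M0` dividing `N`. -/
def big (M0 N : ℕ) : Finset ℕ := N.primeFactors.filter (M0 < ·)

noncomputable def tt (R : Finset ℕ) : ℝ := ∏ p ∈ R, (1 + 1 / (p : ℝ))

/-- The limit object. -/
structure Lo (r : ℕ) where
  M0 : ℕ
  M : ℕ
  q : Fin r → ℕ
  a : Fin r → ℕ
  D : Fin r → Set ℕ
  kn : ℕ
  kd : ℕ
  h3 : 3 ≤ M0
  hM : M0 < M
  qp : ∀ i, (q i).Prime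
  qle : ∀ i, q i ≤ M0
  qinj : Function.Injective q
  a1 : ∀ i, 1 ≤ a i
  qs : ∀ i, q i ^ a i + 1 ∈ M.smoothNumbers
  kns : kn ∈ M.smoothNumbers
  kds : kd ∈ M.smoothNumbers
  odd : ∀ i, ∀ e ∈ D i, Odd e
  one : ∀ i, 1 ∈ D i
  dvd : ∀ i, ∀ e ∈ D i, ∀ d, d ∣ e → d ∈ D i
  lcm : ∀ i, ∀ e ∈ D i, ∀ d ∈ D i, Nat.lcm e d ∈ D i
  sq : ∀ i, ∀ e ∈ D i, ∀ p ∈ big M0 ((q i ^ a i) ^ e + 1),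
    ¬ p ^ 2 ∣ (q i ^ a i) ^ e + 1 ∧ p + 1 ∈ M.smoothNumbers
  lt : ∀ e : Fin r → ℕ, (∀ i, e i ∈ D i) → ∏ i, tt (big M0 ((q i ^ a i) ^ e i + 1)) < (kn : ℝ) / kd
  ap : ∀ η : ℝ, 0 < η → ∃ e : Fin r → ℕ, (∀ i, e i ∈ D i) ∧
    (kn : ℝ) / kd ≤ (1 + η) * ∏ i, tt (big M0 ((q i ^ a i) ^ e i + 1))

namespace Lo
variable {r : ℕ} (S : Lo r)

def Q (i : Fin r) : ℕ := S.q i ^ S.a i
def A (i : Fin r) (e : ℕ) : ℕ := S.Q i ^ e + 1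
def P (i : Fin r) (e : ℕ) : Finset ℕ := big S.M0 (S.A i e)
noncomputable def de (i : Fin r) (p : ℕ) : ℕ := orderOf (-(S.Q i : ZMod p))
noncomputable def z (i : Fin r) (e : ℕ) : ℝ := 1 / (S.Q i : ℝ) ^ e
noncomputable def w (i : Fin r) (e : ℕ) : ℝ := (1 + S.z i e) * tt (S.P i e)
noncomputable def ka : ℝ := (S.kn : ℝ) / S.kd
noncomputable def Th (d : Fin r → ℕ) : ℝ := S.ka / ∏ i, tt (S.P i (d i))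

/-- `d i` is the largest element of `D i` all of whose prime factors are at most `x`. -/
def Tr (x : ℕ) (d : Fin r → ℕ) : Prop := ∀ i, d i ∈ S.D i ∧ (∀ l, l.Prime → l ∣ d i → l ≤ x) ∧
  ∀ e ∈ S.D i, (∀ l, l.Prime → l ∣ e → l ≤ x) → e ∣ d i

def Bad (d : Fin r → ℕ) : Prop := ∃ I : Finset (Fin r), I.Nonempty ∧ S.Th d = ∏ i ∈ I, (1 + S.z i (d i))

end Lo

def St_N0 : Prop := ∀ M : ℕ, {x : ℕ × ℕ | 2 ≤ x.1 ∧ 2 ≤ x.2 ∧ x.1 ^ x.2 + 1 ∈ M.smoothNumbers}.Finite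

def St_RK : Prop := ∀ M : ℕ, ∃ C : ℝ, 1 ≤ C ∧ ∀ (R : Finset ℕ) (Z : ℝ), 1 ≤ Z →
  (∀ p ∈ R, Z ≤ p ∧ p + 1 ∈ M.smoothNumbers) → tt R ≤ 1 + C * Z ^ (-(5 / 6 : ℝ))

def St_CNT : Prop := ∀ M c : ℕ, ∃ N : ℕ, ∀ (y : ℕ) (R : Finset ℕ), Odd y → 3 ≤ y →
  (∀ p ∈ R, p + 1 ∈ M.smoothNumbers ∧ p ≤ y ^ c ∧ p ≡ 1 [MOD y]) → R.card ≤ N

def St_G : Prop := ∀ M al be : ℕ, 0 < al → 0 < be → ∃ (M0 : ℕ) (K : Finset ℚ), 3 ≤ M0 ∧ M ≤ M0 ∧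
  (∀ κ ∈ K, 0 < κ) ∧ ∀ A B : ℕ, A ∈ M.smoothNumbers → 0 < B → usigma A = al * B → usigma B = be * A →
    (∀ q ∈ A.primeFactors, ∀ p ∈ big M0 (q ^ A.factorization q + 1),
      ¬ p ^ 2 ∣ q ^ A.factorization q + 1 ∧ p + 1 ∈ M0.smoothNumbers) ∧
    ∃ κ ∈ K, ∏ q ∈ A.primeFactors,
      ((1 + 1 / (q : ℝ) ^ A.factorization q) * tt (big M0 (q ^ A.factorization q + 1))) = κ

def St_LP : Prop := ∀ r : ℕ, IsEmpty (Lo r)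

def St_KIT : Prop := ∀ (r : ℕ) (S : Lo r) (i : Fin r),
  (∀ p e, Odd e → (p ∈ S.P i e ↔ p.Prime ∧ S.M0 < p ∧ S.de i p ∣ e)) ∧
  (∀ e ∈ S.D i, ∀ p ∈ S.P i e, S.de i p ∈ S.D i ∧ p ≡ 1 [MOD S.de i p] ∧ p + 1 ∈ S.M.smoothNumbers) ∧
  (∀ e ∈ S.D i, ∃ n ∈ S.M.smoothNumbers, (n : ℝ) ≤ 2 * S.ka * (S.Q i : ℝ) ^ e ∧ S.w i e = n / (S.Q i : ℝ) ^ e) ∧
  (∀ e ∈ S.D i, ∀ d, d ∣ e → d ≠ e → S.w i e ≠ S.w i d) ∧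
  (∀ e, S.Q i ^ e ∈ S.M.smoothNumbers) ∧ 2 ≤ S.Q i ∧ 1 < S.ka

def St_KEY : Prop := ∀ M : ℕ, ∃ c1 c2 : ℕ, ∀ (y E : ℝ) (R : Finset ℕ) (a b : ℕ), 2 ≤ y →
  a ∈ M.smoothNumbers → b ∈ M.smoothNumbers → (a : ℝ) ≤ exp (y ^ 4) → (b : ℝ) ≤ exp (y ^ 4) → a ≠ b →
  (∀ p ∈ R, 1 ≤ p ∧ p + 1 ∈ M.smoothNumbers) → (a : ℝ) / b = tt R * E → |E - 1| ≤ 1 / y ^ c1 →
  ∃ p ∈ R, (p : ℝ) ≤ y ^ c2

def St_VAL : Prop := ∀ (r : ℕ) (S : Lo r), ∃ J : ℕ, ∀ i l, l.Prime → l ^ J ∉ S.D i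

def St_SP : Prop := ∀ (r : ℕ) (S : Lo r), ∃ K N : ℕ, 1 ≤ K ∧ ∀ (i : Fin r) (Y : ℝ) (T : Finset ℕ), 1 ≤ Y →
  (∀ l ∈ T, l.Prime ∧ l ∈ S.D i ∧ K * log Y ≤ l ∧ (l : ℝ) ≤ Y) → T.card ≤ N

def St_TR : Prop := ∀ (r : ℕ) (S : Lo r), ∃ C : ℝ, 1 ≤ C ∧ ∀ x : ℕ, 3 ≤ x → ∃ d, S.Tr x d ∧
  (∀ i, log (d i) ≤ C * log x ^ 2) ∧ ∀ Z : ℝ, 1 ≤ Z →
    (∀ i l, l.Prime → l ∈ S.D i → x < l → Z ≤ l) → S.Th d ≤ 1 + C * Z ^ (-(1 / 2 : ℝ))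

def St_GR : Prop := ∀ (r : ℕ) (S : Lo r), ∃ A : ℕ, ∀ (d : Fin r → ℕ) (L : ℝ), (∀ i, d i ∈ S.D i) → 2 ≤ L →
  (∀ i, log (d i) ≤ L) → ¬ S.Bad d → exp (-L ^ A) ≤ S.Th d - 1

def St_B1 : Prop := ∀ (r : ℕ) (S : Lo r) (c : ℝ), 1 ≤ c → ∃ (N : ℕ) (C X0 : ℝ), ∀ (x : ℕ) (d : Fin r → ℕ) (X : ℝ),
  S.Tr x d → X0 ≤ X → X0 ≤ x → S.Th d ≤ 1 + c / X → ∃ R : Finset (Fin r × ℕ), R.card ≤ N ∧
    (∀ y ∈ R, y.2 + 1 ∈ S.M.smoothNumbers ∧ X ≤ c * y.2 ∧ (y.2 : ℝ) ≤ X ^ 3) ∧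
    |S.Th d / ∏ y ∈ R, (1 + 1 / (y.2 : ℝ)) - 1| ≤ C * X ^ (-(5 / 2 : ℝ))

def St_B2 : Prop := ∀ (M r N : ℕ) (c C : ℝ) (q : Fin r → ℕ), 1 ≤ c → (∀ i, (q i).Prime ∧ q i < M) → 2 < M →
  Function.Injective q → ∃ X0 : ℝ, ∀ (g : Fin r → ℕ) (I : Finset (Fin r)) (i0 : Fin r) (R : Finset (Fin r × ℕ)) (X : ℝ),
    i0 ∈ I → X = (q i0 : ℝ) ^ g i0 → X0 ≤ X → (∀ i ∈ I, X ≤ (q i : ℝ) ^ g i) → R.card ≤ N →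
    (∀ y ∈ R, y.2 + 1 ∈ M.smoothNumbers ∧ X ≤ c * y.2 ∧ (y.2 : ℝ) ≤ X ^ 3) →
    C * X ^ (-(5 / 2 : ℝ)) < |(∏ i ∈ I, (1 + 1 / (q i : ℝ) ^ g i)) / ∏ y ∈ R, (1 + 1 / (y.2 : ℝ)) - 1|

/-- No bad truncation at large `x`. -/
def St_BAD : Prop := ∀ (r : ℕ) (S : Lo r), ∃ x1 : ℕ, ∀ (x : ℕ) (d : Fin r → ℕ), x1 ≤ x → S.Tr x d → ¬ S.Bad d

/-! ### Linear forms in logarithms -/

section bf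
open Polynomial

noncomputable def De (k : ℕ) : ℝ[X] := C (1 / (k.factorial : ℝ)) * ∏ j ∈ range k, (X + C ((j : ℝ) + 1))

noncomputable def Pp (h s t : ℕ) : ℝ[X] := De s * De h ^ t

def St_DEN : Prop := ∀ h s t : ℕ, 1 ≤ h → s < h →
  (∀ l m : ℕ, ∃ z : ℤ, ((Nat.lcmUpto h : ℕ) : ℝ) ^ m * (hasseDeriv m (Pp h s t)).eval (l : ℝ) = z) ∧
  ((Nat.lcmUpto h : ℕ) : ℝ) ≤ exp (6 * h) ∧ (∀ k, 0 ≤ (Pp h s t).coeff k) ∧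
  (Pp h s t).natDegree = s + h * t ∧ Pp h s t ≠ 0 ∧
  ∀ (x : ℝ) (m : ℕ), 0 ≤ x → |(hasseDeriv m (Pp h s t)).eval x| ≤ (3 * (2 + (x + 1) / h)) ^ (h * (t + 1))

def St_ZERO : Prop := ∀ (ι : Type) (I : Finset ι) (α : ι → ℝ) (P : ι → ℝ[X]) (D : ℕ), Set.InjOn α I →
  (∀ i ∈ I, 0 < α i) → (∀ i ∈ I, (P i).natDegree < D) →
  (∀ l ∈ Icc 1 (I.card * D), ∑ i ∈ I, (P i).eval (l : ℝ) * α i ^ l = 0) → ∀ i ∈ I, P i = 0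

/-- Taylor coefficient of order `k` at `x` of `P z * exp (om * z)`. -/
noncomputable def jet (P : ℝ[X]) (om x : ℝ) (k : ℕ) : ℝ :=
  ∑ s ∈ range (k + 1), (hasseDeriv s P).eval x * (om ^ (k - s) / (k - s).factorial) * exp (om * x)

def St_EXT : Prop := ∀ (ι : Type) (I : Finset ι) (A om : ι → ℝ) (P : ι → ℝ[X]) (Ω ε ρ σ y : ℝ) (R τ : ℕ),
  (∀ i ∈ I, ∀ k, 0 ≤ (P i).coeff k) → (∀ i ∈ I, |om i| ≤ Ω) → 0 ≤ ε → 1 ≤ τ → 1 ≤ R → (R : ℝ) ≤ ρ → 0 < σ → 0 ≤ y → y ≤ ρ →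
  (∀ l ∈ Icc 1 R, ∀ k < τ, |∑ i ∈ I, A i * jet (P i) (om i) l k| ≤ ε) →
  |∑ i ∈ I, A i * ((P i).eval y * exp (om i * y))| ≤
    ε * exp (4 * τ * ρ) + (ρ / σ) ^ (R * τ) * ∑ i ∈ I, |A i| * ((P i).eval (ρ + σ) * exp (Ω * (ρ + σ)))

/-- The data of the auxiliary function. -/
structure Bk (n : ℕ) where
  u : Fin (n + 1) → ℕ
  v : Fin (n + 1) → ℕ
  b : Fin (n + 1) → ℤ
  E : ℕ
  h : ℕ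
  H : ℝ
  u0 : ∀ i, 0 < u i
  v0 : ∀ i, 0 < v i
  H1 : 1 ≤ H
  uH : ∀ i, (u i : ℝ) ≤ exp H
  vH : ∀ i, (v i : ℝ) ≤ exp H
  b0 : b (Fin.last n) ≠ 0
  hE : 1000 * ((n : ℝ) + 1) * H ≤ E
  hJ : exp (100 * (((5 * n + 7) * (n + 2) : ℕ) + 1)) ≤ E
  hb : ∀ i, 2 * |(b i : ℝ)| * (E : ℝ) ^ (5 * n + 3) ≤ exp h
  h1 : 1 ≤ h

namespace Bk
variable {n : ℕ} (S : Bk n)

def J (_ : Bk n) : ℕ := (5 * n + 7) * (n + 2)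
def τ : ℕ := S.E ^ (5 * n + 7)
def L : ℕ := S.E ^ (5 * n + 3)
def L0 : ℕ := S.E ^ (5 * n + 6)
noncomputable def lg (i : Fin (n + 1)) : ℝ := log ((S.u i : ℝ) / S.v i)
noncomputable def La : ℝ := ∑ i, S.b i * S.lg i
def I : Finset (ℕ × ℕ × (Fin (n + 1) → ℕ)) :=
  range S.h ×ˢ range S.L0 ×ˢ Fintype.piFinset fun _ => range S.L
noncomputable def om (la : Fin (n + 1) → ℕ) : ℝ := ∑ i, la i * S.lg i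
def mu (la : Fin (n + 1) → ℕ) (r : Fin n) : ℤ :=
  S.b (Fin.last n) * la r.castSucc - S.b r.castSucc * la (Fin.last n)
noncomputable def ph (p : ℕ × ℕ × (Fin (n + 1) → ℕ) → ℤ) (m0 : ℕ) (m : Fin n → ℕ) (x : ℝ) : ℝ :=
  ∑ k ∈ S.I, (p k : ℝ) * (∏ r, (S.mu k.2.2 r : ℝ) ^ m r) *
    ((hasseDeriv m0 (Pp S.h k.1 k.2.1)).eval x * exp (S.om k.2.2 * x))
/-- Vanishing at stage `j`. -/
def Van (p : ℕ × ℕ × (Fin (n + 1) → ℕ) → ℤ) (j : ℕ) : Prop :=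
  ∀ l ∈ Icc 1 (S.E ^ j * S.h), ∀ (m0 : ℕ) (m : Fin n → ℕ), m0 + ∑ r, m r ≤ (S.J + 1 - j) * S.τ → S.ph p m0 m l = 0
def Sm (p : ℕ × ℕ × (Fin (n + 1) → ℕ) → ℤ) : Prop :=
  ∀ k ∈ S.I, |(p k : ℝ)| ≤ exp (10 * (S.J + 1) * S.τ * S.h)

end Bk

def St_BS : Prop := ∀ (n : ℕ) (S : Bk n), ∃ p, (∃ k ∈ S.I, p k ≠ 0) ∧ S.Sm p ∧ S.Van p 0

/-- Small jets at the nodes of stage `j`. -/
def St_BJ : Prop := ∀ (n : ℕ) (S : Bk n) p (j : ℕ), j < S.J → |S.La| ≤ 1 → S.Sm p → S.Van p j → ∀ (m0 : ℕ) (m : Fin n → ℕ),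
  m0 + ∑ r, m r ≤ (S.J - j) * S.τ → ∀ l ∈ Icc 1 (S.E ^ j * S.h), ∀ k < S.τ,
    |∑ x ∈ S.I, ((p x : ℝ) * ∏ r, (S.mu x.2.2 r : ℝ) ^ m r) *
      jet (hasseDeriv m0 (Pp S.h x.1 x.2.1)) (S.om x.2.2) l k| ≤ |S.La| * exp ((S.E : ℝ) ^ (S.J + 5 * n + 9) * S.h)

def St_BX : Prop := ∀ (n : ℕ) (S : Bk n) p (j : ℕ), j < S.J → S.Sm p → S.Van p j →
  |S.La| ≤ exp (-((S.E : ℝ) ^ (S.J + 5 * n + 10) * S.h)) → S.Van p (j + 1)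

def St_BFC : Prop := ∀ n : ℕ, ∃ C : ℕ, 1 ≤ C ∧ ∀ (u v : Fin n → ℕ) (b : Fin n → ℤ) (H B : ℝ), 1 ≤ H → 3 ≤ B →
  (∀ i, 0 < u i ∧ 0 < v i ∧ (u i : ℝ) ≤ exp H ∧ (v i : ℝ) ≤ exp H) → (∀ i, |(b i : ℝ)| ≤ B) → b ≠ 0 →
  (∀ c : Fin n → ℤ, ∑ i, c i * log ((u i : ℝ) / v i) = 0 → c = 0) →
  exp (-(C * H ^ C * log B)) ≤ |∑ i, b i * log ((u i : ℝ) / v i)|

end bf

/-! ### The subspace theorem over the rationals -/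

section sub
open MvPolynomial

/-- A family of places: each is at most the usual absolute value, the product is at least one. -/
def PF {V : Type} [Fintype V] (f : V → AbsoluteValue ℤ ℝ) : Prop :=
  (∀ v y, f v y ≤ |(y : ℝ)|) ∧ ∀ y, y ≠ 0 → 1 ≤ ∏ v, f v y

/-- Weighted norm of an integer polynomial. -/
noncomputable def nw {σ : Type} [Fintype σ] (g : AbsoluteValue ℤ ℝ) (θ : σ → ℝ) (P : MvPolynomial σ ℤ) : ℝ :=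
  ∑ d ∈ P.support, g (P.coeff d) * ∏ s, θ s ^ d s

noncomputable def l1 {σ : Type} (P : MvPolynomial σ ℤ) : ℝ := ∑ d ∈ P.support, |((P.coeff d : ℤ) : ℝ)|

def St_NRM : Prop := ∀ (σ : Type) [Fintype σ],
  (∀ (g : AbsoluteValue ℤ ℝ) (θ : σ → ℝ), (∀ s, 0 ≤ θ s) →
    (∀ P, 0 ≤ nw g θ P) ∧ (∀ P Q, nw g θ (P + Q) ≤ nw g θ P + nw g θ Q) ∧
    (∀ P Q, nw g θ (P * Q) ≤ nw g θ P * nw g θ Q) ∧ (∀ c, nw g θ (C c) = g c) ∧ (∀ s, nw g θ (X s) = θ s) ∧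
    (∀ P d, g (P.coeff d) * ∏ s, θ s ^ d s ≤ nw g θ P) ∧
    (∀ (κ : Type) (I : Finset κ) (F : κ → MvPolynomial σ ℤ), nw g θ (∑ k ∈ I, F k) ≤ ∑ k ∈ I, nw g θ (F k) ∧
      nw g θ (∏ k ∈ I, F k) ≤ ∏ k ∈ I, nw g θ (F k)) ∧
    ∀ (τ : Type) [Fintype τ] (φ : τ → MvPolynomial σ ℤ) (b : τ → ℝ) (P : MvPolynomial τ ℤ),
      (∀ t, nw g θ (φ t) ≤ b t) → nw g θ (bind₁ φ P) ≤ nw g b P) ∧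
  ∃ g : AbsoluteValue ℤ ℝ, (∀ y, g y = |(y : ℝ)|) ∧ ∀ P : MvPolynomial σ ℤ, l1 P = nw g (fun _ => 1) P

abbrev Mx (N : ℕ) := Matrix (Fin N) (Fin N) ℤ
abbrev Pl (m N : ℕ) := MvPolynomial (Fin m × Fin N) ℤ

def Hom {m N : ℕ} (r : Fin m → ℕ) (P : Pl m N) : Prop := ∀ d ∈ P.support, ∀ h, ∑ i, d (h, i) = r h

/-- `P (A X)` in each block of variables. -/
noncomputable def lin {m N : ℕ} (A : Mx N) (P : Pl m N) : Pl m N :=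
  bind₁ (fun x => ∑ i, C (A x.2 i) * X (x.1, i)) P

def Bal {m N : ℕ} (r : Fin m → ℕ) (θ : ℝ) (P : Pl m N) : Prop :=
  ∀ d ∈ P.support, ∀ i, (m : ℝ) / N - m * θ ≤ ∑ h, (d (h, i) : ℝ) / r h

def Aux {V : Type} {m N : ℕ} (A : V → Mx N) (r : Fin m → ℕ) (θ c : ℝ) (P : Pl m N) : Prop :=
  P ≠ 0 ∧ Hom r P ∧ l1 P ≤ exp (c * ∑ h, (r h : ℝ)) ∧
    ∀ v, ∃ Pv, P = lin (A v) Pv ∧ Hom r Pv ∧ l1 Pv ≤ exp (c * ∑ h, (r h : ℝ)) ∧ Bal r θ Pv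

/-- Exponent arrays of multidegree `r`. -/
def Ex {m : ℕ} (N : ℕ) (r : Fin m → ℕ) : Finset (Fin m → Fin N → ℕ) :=
  Fintype.piFinset fun h => Finset.Nat.antidiagonalTuple N (r h)

def St_CN2 : Prop := ∀ (m N : ℕ) (r : Fin m → ℕ) (θ : ℝ) (i : Fin N), 1 ≤ m → (∀ h, 1 ≤ r h) → 0 < θ →
  (((Ex N r).filter fun j => ∑ h, (j h i : ℝ) / r h < (m : ℝ) / N - m * θ).card : ℝ) * (m * θ ^ 2) ≤ (Ex N r).card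

def St_AUX : Prop := ∀ (V : Type) [Fintype V] (N : ℕ) (A A' : V → Mx (N + 1)) (θ : ℝ), (∀ v, A v * A' v = 1) → 0 < θ →
  ∃ (m : ℕ) (c : ℝ), 1 ≤ m ∧ 0 ≤ c ∧ ∀ r : Fin m → ℕ, (∀ h, 1 ≤ r h) → ∃ P, Aux A r θ c P

/-- `X h = sum_j s h j * eta h j + t h * e h`; the variable `(h, none)` is `t h`. -/
noncomputable def par {m N : ℕ} (η : Fin m → Fin N → Fin (N + 1) → ℤ) (e : Fin m → Fin (N + 1)) (P : Pl m (N + 1)) :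
    MvPolynomial (Fin m × Option (Fin N)) ℤ :=
  bind₁ (fun x => ∑ j, C (η x.1 j x.2) * X (x.1, some j) + if x.2 = e x.1 then X (x.1, none) else 0) P

def Pi {V : Type} {N : ℕ} (f : V → AbsoluteValue ℤ ℝ) (A : V → Mx N) (c : V → Fin N → ℝ) (Q : ℝ) (y : Fin N → ℤ) : Prop :=
  ∀ v i, f v ((A v).mulVec y i) ≤ Q ^ c v i

def St_EST : Prop := ∀ (V : Type) [Fintype V] (f : V → AbsoluteValue ℤ ℝ) (N : ℕ) (A : V → Mx (N + 1))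
  (c : V → Fin (N + 1) → ℝ), PF f → ∑ v, ∑ i, c v i < 0 → ∃ θ : ℝ, 0 < θ ∧ ∀ (m : ℕ) (c0 : ℝ), 1 ≤ m → ∃ Q0 : ℝ,
    ∀ (r : Fin m → ℕ) (Q : Fin m → ℝ) (R : ℝ) (P : Pl m (N + 1)) (η : Fin m → Fin N → Fin (N + 1) → ℤ)
      (e : Fin m → Fin (N + 1)), (∀ h, 1 ≤ r h) → (∀ h, Q0 ≤ Q h) →
      (∀ h, R ≤ r h * log (Q h) ∧ r h * log (Q h) ≤ (1 + θ) * R) → Aux A r θ c0 P →
      (∀ h j, Pi f A c (Q h) (η h j)) → ∀ k ∈ (par η e P).support, θ < ∑ h, (k (h, none) : ℝ) / r h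

/-- `P (xi + X)` over the rationals. -/
noncomputable def sh {σ : Type} (ξ : σ → ℚ) (P : MvPolynomial σ ℤ) : MvPolynomial σ ℚ :=
  aeval (fun h => X h + C (ξ h)) P

def St_RED : Prop := ∀ (m N : ℕ) (r : Fin m → ℕ) (P : Pl m (N + 1)) (η : Fin m → Fin N → Fin (N + 1) → ℤ)
  (w : Fin m → Fin (N + 1) → ℤ) (i1 i2 : Fin m → Fin (N + 1)) (θ : ℝ), P ≠ 0 → Hom r P →
  (∀ h, LinearIndependent ℤ (η h)) → (∀ h j, w h ⬝ᵥ η h j = 0) → (∀ h, i1 h ≠ i2 h) → (∀ h, w h (i1 h) ≠ 0) →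
  (∀ k ∈ (par η i1 P).support, θ < ∑ h, (k (h, none) : ℝ) / r h) →
  ∃ P' : MvPolynomial (Fin m) ℤ, P' ≠ 0 ∧ (∀ d ∈ P'.support, ∀ h, d h ≤ r h) ∧ l1 P' ≤ l1 P ∧
    ∀ k ∈ (sh (fun h => -((w h (i2 h) : ℚ) / w h (i1 h))) P').support, θ < ∑ h, (k h : ℝ) / r h

def St_ROTH : Prop := ∀ (m : ℕ) (θ : ℝ), 0 < θ → ∃ ω : ℝ, 0 < ω ∧ ∀ (r : Fin m → ℕ) (ξ : Fin m → ℚ)
  (P : MvPolynomial (Fin m) ℤ) (Y : ℝ), P ≠ 0 → 0 ≤ Y → (∀ h, 1 ≤ r h) → (∀ d ∈ P.support, ∀ h, d h ≤ r h) →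
  l1 P ≤ exp Y → (∀ h h', h < h' → (r h' : ℝ) ≤ ω * r h) →
  (∀ h, Y + ∑ h', (r h' : ℝ) ≤ ω * r h * log (ξ h).den) → ∃ k ∈ (sh ξ P).support, ∑ h, (k h : ℝ) / r h ≤ θ

def St_HT : Prop := ∀ (V : Type) [Fintype V] (f : V → AbsoluteValue ℤ ℝ) (N : ℕ) (A A' : V → Mx (N + 1))
  (c : V → Fin (N + 1) → ℝ), PF f → (∀ v, A v * A' v = 1) → ∑ v, ∑ i, c v i < 0 →
  ∃ (W : Finset (Fin (N + 1) → ℤ)) (γ Q0 : ℝ), (∀ w ∈ W, w ≠ 0) ∧ 0 < γ ∧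
    ∀ (Q : ℝ) (η : Fin N → Fin (N + 1) → ℤ), Q0 ≤ Q → LinearIndependent ℤ η → (∀ j, Pi f A c Q (η j)) →
      (∃ w ∈ W, ∀ j, w ⬝ᵥ η j = 0) ∨ ∃ (w : Fin (N + 1) → ℤ) (i1 i2 : Fin (N + 1)), i1 ≠ i2 ∧ w i1 ≠ 0 ∧
        (∀ j, w ⬝ᵥ η j = 0) ∧ Q ^ γ ≤ ((w i2 : ℚ) / w i1).den

def St_SUBC : Prop := ∀ (V : Type) [Fintype V] (f : V → AbsoluteValue ℤ ℝ) (N : ℕ) (A A' : V → Mx (N + 1))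
  (c : V → Fin (N + 1) → ℝ), PF f → (∀ v, A v * A' v = 1) → ∑ v, ∑ i, c v i < 0 →
  ∃ (W : Finset (Fin (N + 1) → ℤ)) (Q0 : ℝ), (∀ w ∈ W, w ≠ 0) ∧
    ∀ (Q : ℝ) (η : Fin N → Fin (N + 1) → ℤ), Q0 ≤ Q → LinearIndependent ℤ η → (∀ j, Pi f A c Q (η j)) →
      ∃ w ∈ W, ∀ j, w ⬝ᵥ η j = 0

def St_SUBH : Prop := ∀ (V : Type) [Fintype V] (f : V → AbsoluteValue ℤ ℝ) (N : ℕ) (A A' : V → Mx (N + 1))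
  (δ κ : ℝ), PF f → (∀ v, A v * A' v = 1) → 0 < δ →
  ∃ (W : Finset (Fin (N + 1) → ℤ)) (Q0 : ℝ), (∀ w ∈ W, w ≠ 0) ∧
    ∀ (Q : ℝ) (β : V → Fin (N + 1) → ℝ) (η : Fin N → Fin (N + 1) → ℤ), Q0 ≤ Q → (∀ v i, 0 < β v i ∧ β v i ≤ Q ^ κ) →
      ∏ v, ∏ i, β v i ≤ Q ^ (-δ) → LinearIndependent ℤ η → (∀ v j i, f v ((A v).mulVec (η j) i) ≤ β v i) →
      ∃ w ∈ W, ∀ j, w ⬝ᵥ η j = 0

/-- Evertse's lemma. -/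
def St_EVL : Prop := ∀ n : ℕ, ∃ C : ℝ, 1 ≤ C ∧ ∀ (x : Fin n → Fin n → ℝ) (μ : Fin n → ℝ), LinearIndependent ℝ x →
  Monotone μ → (∀ j i, |x j i| ≤ μ j) → ∃ (ξ : Fin n → Fin n → ℤ) (pm : Equiv.Perm (Fin n)),
    (∀ j, ξ j j = 1) ∧ (∀ j l, j < l → ξ j l = 0) ∧
    (∀ i j, |∑ l, ξ j l * x l (pm i)| ≤ C * min (μ i) (μ j)) ∧
    ∀ (k : Fin n) (a : Fin n → ℝ) (t : ℝ), (∀ l, k < l → a l = 0) → (∀ i, i ≤ k → |∑ l, a l * x l (pm i)| ≤ t) →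
      ∀ i, |∑ l, a l * x l i| ≤ C * t

/-- Successive minima. -/
def St_MIN : Prop := ∀ (n : ℕ) (Λ : AddSubgroup (Fin n → ℤ)) (b : Fin n → ℝ), Λ.index ≠ 0 → (∀ i, 0 < b i) →
  (∏ i, b i ≤ Λ.index ∨ ∃ x ∈ Λ, x ≠ 0 ∧ ∀ i, |(x i : ℝ)| ≤ b i) ∧
  ∃ (y : Fin n → Fin n → ℤ) (μ : Fin n → ℝ), (∀ j, y j ∈ Λ) ∧ LinearIndependent ℤ y ∧ Monotone μ ∧ (∀ j, 0 < μ j) ∧
    (∀ j i, |(y j i : ℝ)| ≤ μ j * b i) ∧ ∀ x ∈ Λ, ∀ k : Fin n, (∀ i, |(x i : ℝ)| < μ k * b i) →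
      ∃ (a0 : ℤ) (a : Fin n → ℤ), a0 ≠ 0 ∧ a0 • x = ∑ j, a j • y j ∧ ∀ j, k ≤ j → a j = 0

def St_GEO : Prop := ∀ n : ℕ, ∃ C : ℝ, 1 ≤ C ∧ ∀ (Λ : AddSubgroup (Fin n → ℤ)) (b : Fin n → ℝ), Λ.index ≠ 0 →
  (∀ i, 0 < b i) → ∃ (y : Fin n → Fin n → ℤ) (μ : Fin n → ℝ) (pm : Equiv.Perm (Fin n)), (∀ j, y j ∈ Λ) ∧
    LinearIndependent ℤ y ∧ Monotone μ ∧ (∀ j, 0 < μ j) ∧
    (∀ i j, |(y j (pm i) : ℝ)| ≤ C * min (μ i) (μ j) * b (pm i)) ∧ (∏ j, μ j) * ∏ i, b i ≤ C * Λ.index ∧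
    ∀ x ∈ Λ, ∀ k : Fin n, (∀ i, |(x i : ℝ)| < μ k * b i) →
      ∃ (a0 : ℤ) (a : Fin n → ℤ), a0 ≠ 0 ∧ a0 • x = ∑ j, a j • y j ∧ ∀ j, k ≤ j → a j = 0

/-- Exterior powers: `e` lists the subsets with as many elements as `Ici k`. -/
def St_WDG : Prop := ∀ (n : ℕ) (k : Fin n) (V : Type) (A A' : V → Mx n), (∀ v, A v * A' v = 1) →
  ∃ (N : ℕ) (e : Fin (N + 1) → Finset (Fin n)) (B B' : V → Mx (N + 1)) (ψ : (Fin (N + 1) → ℤ) → Fin n → ℤ),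
    Function.Injective e ∧ (∀ I, I ∈ Set.range e ↔ I.card = (Ici k).card) ∧ (∀ v, B v * B' v = 1) ∧
    (∀ w, w ≠ 0 → ψ w ≠ 0) ∧ ∀ y : Fin n → Fin n → ℤ, LinearIndependent ℤ y →
      ∃ (η : Fin N → Fin (N + 1) → ℤ) (J : Fin N → Finset (Fin n)), LinearIndependent ℤ η ∧
        (∀ j, J j ≠ Ici k ∧ (J j).card = (Ici k).card) ∧
        (∀ w, (∀ j, w ⬝ᵥ η j = 0) → ∀ l, l < k → ψ w ⬝ᵥ y l = 0) ∧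
        ∀ v (g : AbsoluteValue ℤ ℝ) j I (t : ℝ),
          (∀ φ : Fin n → Fin n, Set.BijOn φ (e I) (J j) → ∏ i ∈ e I, g ((A v).mulVec (y (φ i)) i) ≤ t) →
          g ((B v).mulVec (η j) I) ≤ n.factorial * t

/-- The places `none` (archimedean) and `some q`, `q` a prime below `M`. -/
abbrev Plc (M : ℕ) := Option {q : ℕ // q ∈ M.primesBelow}

noncomputable def av (M : ℕ) : Plc M → ℚ → ℝ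
  | none, y => |(y : ℝ)|
  | some q, y => (padicNorm q.1 y : ℝ)

def St_PLC : Prop := ∀ M : ℕ, (∃ f : Plc M → AbsoluteValue ℤ ℝ, PF f ∧ ∀ v (y : ℤ), f v y = av M v y) ∧
  (∀ v y y', av M v (y * y') = av M v y * av M v y') ∧ (∀ v y, y ≠ 0 → 0 < av M v y) ∧
  (∀ Z y, Un M Z y → ∏ v, av M v y = 1) ∧
  ∀ (n : ℕ) (A A' : Plc M → Mx n) (x : Fin n → ℤ), A none * A' none = 1 → (∀ v i, (A v).mulVec x i ≠ 0) →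
    ∃ Λ : AddSubgroup (Fin n → ℤ), Λ.index ≠ 0 ∧
      (Λ.index : ℝ) * ∏ q, ∏ i, av M (some q) ((A (some q)).mulVec x i : ℤ) ≤ 1 ∧
      ∀ y, y ∈ Λ ↔ ∀ q i, av M (some q) ((A (some q)).mulVec ((A' none).mulVec y) i : ℤ) ≤
        av M (some q) ((A (some q)).mulVec x i : ℤ)

/-- Minima with a gap. -/
def St_GAP : Prop := ∀ (M n : ℕ) (A A' : Plc M → Mx n) (ε : ℝ), (∀ v, A v * A' v = 1) → 0 < ε →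
  ∃ C κ δ H0 : ℝ, 1 ≤ C ∧ 0 < δ ∧ 2 ≤ H0 ∧ ∀ (x : Fin n → ℤ) (H : ℝ), H0 ≤ H →
    (∀ i, |(x i : ℝ)| ≤ H) → (∀ v i, (A v).mulVec x i ≠ 0) →
    ∏ v, ∏ i, av M v ((A v).mulVec x i : ℤ) ≤ H ^ (-ε) →
    ∃ (y : Fin n → Fin n → ℤ) (μ : Fin n → ℝ) (pm : Equiv.Perm (Fin n)) (k : Fin n), LinearIndependent ℤ y ∧
      Monotone μ ∧ (∀ j, 0 < μ j ∧ μ j ≤ H ^ κ) ∧ (∀ j, j < k → μ j ≤ H ^ (-δ) * μ k) ∧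
      (∀ i j, av M none ((A none).mulVec (y j) (pm i) : ℤ) ≤
        C * min (μ i) (μ j) * av M none ((A none).mulVec x (pm i) : ℤ)) ∧
      (∀ q i j, av M (some q) ((A (some q)).mulVec (y j) i : ℤ) ≤ av M (some q) ((A (some q)).mulVec x i : ℤ)) ∧
      (∏ j, μ j) * ∏ v, ∏ i, av M v ((A v).mulVec x i : ℤ) ≤ C ∧ (∃ j, j < k) ∧
      ∃ (a0 : ℤ) (a : Fin n → ℤ), a0 ≠ 0 ∧ a0 • x = ∑ j, a j • y j ∧ ∀ j, k ≤ j → a j = 0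

def St_SUB : Prop := ∀ (M n : ℕ) (A A' : Plc M → Mx n) (ε : ℝ), (∀ v, A v * A' v = 1) → 0 < ε →
  ∃ (W : Finset (Fin n → ℤ)) (H0 : ℝ), (∀ w ∈ W, w ≠ 0) ∧ ∀ (x : Fin n → ℤ) (H : ℝ), H0 ≤ H →
    (∀ i, |(x i : ℝ)| ≤ H) → (∀ v i, (A v).mulVec x i ≠ 0) →
    ∏ v, ∏ i, av M v ((A v).mulVec x i : ℤ) ≤ H ^ (-ε) → ∃ w ∈ W, w ⬝ᵥ x = 0

/-- One linear relation for a short sum of units. -/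
def St_EV0 : Prop := ∀ (M n : ℕ) (ε : ℝ), 0 < ε → ∃ (F : Finset ℚ) (W : Finset (Fin (n + 1) → ℤ)) (Z0 : ℝ),
  ∀ (Z : ℝ) (y : Fin (n + 1) → ℚ) (i0 : Fin (n + 1)), Z0 ≤ Z → (∀ i, Un M Z (y i)) →
    |((∑ i, y i : ℚ) : ℝ)| ≤ Z ^ (-ε) * |(y i0 : ℝ)| →
    (∃ i j, i ≠ j ∧ y i / y j ∈ F) ∨ ∃ w ∈ W, (∃ i j, w i ≠ w j) ∧ ∑ i, (w i : ℚ) * y i = 0

def St_EV1 : Prop := ∀ (M n : ℕ) (ε : ℝ), 0 < ε → ∃ (F : Finset ℚ) (Z0 : ℝ), ∀ (Z : ℝ) (ι : Type) (s : Finset ι)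
  (y : ι → ℚ) (i0 : ι), Z0 ≤ Z → s.card ≤ n → i0 ∈ s → (∀ i ∈ s, Un M Z (y i)) →
  |((∑ i ∈ s, y i : ℚ) : ℝ)| ≤ Z ^ (-ε) * |(y i0 : ℝ)| → ∃ i ∈ s, ∃ j ∈ s, i ≠ j ∧ y i / y j ∈ F

end sub

end Pool.Agent.SU76
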