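import Mathlib
import Pool.Agent.Lib.SU76.Defs

/-! Row B2: the second-order logarithmic relation cannot be too small. -/

namespace Pool.Agent.SU76

open Finset Real

namespace B2

theorem lg0 (x : ℝ) (h : |x| ≤ 1 / 2) : |log (1 - x)| ≤ 2 * |x| := by
  have h1 := Real.abs_log_sub_add_sum_range_le (x := x) (by linarith) 0
  simp only [Finset.range_zero, Finset.sum_empty, zero_add, pow_one] at h1
  refine h1.trans ?_
  rw [div_le_iff₀ (by linarith)]
  nlinarith [abs_nonneg x]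

theorem lg2 (x : ℝ) (h : |x| ≤ 1 / 2) : |2 * log (1 - x) + 2 * x + x ^ 2| ≤ 4 * |x| ^ 3 := by
  have h1 := Real.abs_log_sub_add_sum_range_le (x := x) (by linarith) 2
  have h2 : (∑ i ∈ range 2, x ^ (i + 1) / ((i : ℝ) + 1)) = x + x ^ 2 / 2 := by
    simp only [Finset.sum_range_succ, Finset.range_zero, Finset.sum_empty]
    norm_num
  rw [h2] at h1
  have h3 : |x| ^ (2 + 1) / (1 - |x|) ≤ 2 * |x| ^ 3 := by
    rw [div_le_iff₀ (by linarith)]
    have : 0 ≤ |x| ^ 3 := by positivity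
    norm_num
    nlinarith
  have h4 : 2 * log (1 - x) + 2 * x + x ^ 2 = 2 * (x + x ^ 2 / 2 + log (1 - x)) := by ring
  rw [h4, abs_mul, abs_two]
  linarith

theorem ana {α β : Type} [DecidableEq α] (I I' : Finset α) (R : Finset β) (z : α → ℝ) (v : β → ℝ) (η a : ℝ)
    (hI : I' ⊆ I) (hz : ∀ i ∈ I, 0 ≤ z i ∧ z i ≤ a) (hv : ∀ y ∈ R, 0 ≤ v y ∧ v y ≤ a) (ha : a ≤ 1 / 2)
    (hd : ∀ i ∈ I, i ∉ I' → z i ≤ a ^ 3) (hη : η ≤ 1 / 2)
    (h : |(∏ i ∈ I, (1 + z i)) * ∏ y ∈ R, (1 - v y) - 1| ≤ η) :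
    |∑ i ∈ I', (2 * z i - z i ^ 2) + ∑ y ∈ R, (-(2 * v y) - v y ^ 2)| ≤
      4 * η + 4 * (I.card + R.card) * a ^ 3 := by
  set W := (∏ i ∈ I, (1 + z i)) * ∏ y ∈ R, (1 - v y) with hW
  have hL : |log W| ≤ 2 * η := by
    have h1 := lg0 (1 - W) (by rw [abs_sub_comm]; linarith)
    rw [sub_sub_cancel, abs_sub_comm] at h1
    linarith
  have hlog : log W = ∑ i ∈ I, log (1 + z i) + ∑ y ∈ R, log (1 - v y) := by
    have n1 : ∀ i ∈ I, 1 + z i ≠ 0 := fun i hi => by have := (hz i hi).1; positivity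
    have n2 : ∀ y ∈ R, 1 - v y ≠ 0 := fun y hy => by have := (hv y hy).2; linarith [ne_of_gt (show (0:ℝ) < 1 - v y by linarith)]
    rw [hW, Real.log_mul (Finset.prod_ne_zero_iff.2 n1) (Finset.prod_ne_zero_iff.2 n2),
      Real.log_prod n1, Real.log_prod n2]
  have e1 : ∀ i ∈ I, |2 * log (1 + z i) - (if i ∈ I' then 2 * z i - z i ^ 2 else 0)| ≤ 4 * a ^ 3 := by
    intro i hi
    obtain ⟨h0, h1⟩ := hz i hi
    have hx : |-z i| = z i := by rw [abs_neg, abs_of_nonneg h0]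
    split_ifs with hi'
    · have h2 := lg2 (-z i) (by rw [hx]; linarith)
      rw [hx] at h2
      have h3 : 2 * log (1 + z i) - (2 * z i - z i ^ 2) = 2 * log (1 - -z i) + 2 * -z i + (-z i) ^ 2 := by
        rw [sub_neg_eq_add]; ring
      rw [h3]
      have : z i ^ 3 ≤ a ^ 3 := pow_le_pow_left₀ h0 h1 3
      linarith
    · have h2 := lg0 (-z i) (by rw [hx]; linarith)
      rw [hx, sub_neg_eq_add] at h2
      rw [sub_zero, abs_mul, abs_two]
      have := hd i hi hi'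
      linarith
  have e2 : ∀ y ∈ R, |2 * log (1 - v y) - (-(2 * v y) - v y ^ 2)| ≤ 4 * a ^ 3 := by
    intro y hy
    obtain ⟨h0, h1⟩ := hv y hy
    have hx : |v y| = v y := abs_of_nonneg h0
    have h2 := lg2 (v y) (by rw [hx]; linarith)
    rw [hx] at h2
    have h3 : 2 * log (1 - v y) - (-(2 * v y) - v y ^ 2) = 2 * log (1 - v y) + 2 * v y + v y ^ 2 := by ring
    rw [h3]
    have : v y ^ 3 ≤ a ^ 3 := pow_le_pow_left₀ h0 h1 3
    linarith
  have s1 : |∑ i ∈ I, (2 * log (1 + z i) - (if i ∈ I' then 2 * z i - z i ^ 2 else 0))| ≤ I.card * (4 * a ^ 3) := by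
    refine (Finset.abs_sum_le_sum_abs _ _).trans ?_
    simpa using Finset.sum_le_card_nsmul I _ _ e1
  have s2 : |∑ y ∈ R, (2 * log (1 - v y) - (-(2 * v y) - v y ^ 2))| ≤ R.card * (4 * a ^ 3) := by
    refine (Finset.abs_sum_le_sum_abs _ _).trans ?_
    simpa using Finset.sum_le_card_nsmul R _ _ e2
  have s3 : ∑ i ∈ I, (if i ∈ I' then 2 * z i - z i ^ 2 else 0) = ∑ i ∈ I', (2 * z i - z i ^ 2) := by
    rw [← Finset.sum_filter, Finset.filter_mem_eq_inter, Finset.inter_eq_right.2 hI]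
  rw [Finset.sum_sub_distrib, s3, ← Finset.mul_sum] at s1
  rw [Finset.sum_sub_distrib, ← Finset.mul_sum] at s2
  rw [hlog] at hL
  obtain ⟨a1, a2⟩ := abs_le.1 s1
  obtain ⟨a3, a4⟩ := abs_le.1 s2
  obtain ⟨a5, a6⟩ := abs_le.1 hL
  rw [abs_le]
  constructor <;> linarith

theorem num_ge (p p' g g' : ℕ) (hp : p.Prime) (hp' : p'.Prime) (h : p' = p → g' = g) (f : ℚ)
    (hf : f = (2 / (p' : ℚ) ^ g') / (-(1 / ((p : ℚ) ^ g) ^ 2))) : p ^ g ≤ f.num.natAbs := by
  have hp0 : (p : ℚ) ≠ 0 := Nat.cast_ne_zero.2 hp.ne_zero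
  have hp0' : (p' : ℚ) ≠ 0 := Nat.cast_ne_zero.2 hp'.ne_zero
  have hf0 : f ≠ 0 := by
    rw [hf]
    refine div_ne_zero (div_ne_zero two_ne_zero (pow_ne_zero _ hp0')) (neg_ne_zero.2 ?_)
    exact div_ne_zero one_ne_zero (pow_ne_zero _ (pow_ne_zero _ hp0))
  have hn : 0 < f.num.natAbs := Int.natAbs_pos.2 (Rat.num_ne_zero.2 hf0)
  have h1 : (f.num : ℚ) * (p' : ℚ) ^ g' = -(2 * ((p : ℚ) ^ g) ^ 2 * f.den) := by
    rw [← Rat.mul_den_eq_num f]
    have : f * (p' : ℚ) ^ g' = -(2 * ((p : ℚ) ^ g) ^ 2) := by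
      rw [hf]; field_simp
    linear_combination (f.den : ℚ) * this
  have h2 : f.num * (p' : ℤ) ^ g' = -(2 * ((p : ℤ) ^ g) ^ 2 * f.den) := by exact_mod_cast h1
  have h3 : f.num.natAbs * p' ^ g' = 2 * (p ^ g) ^ 2 * f.den := by
    have := congrArg Int.natAbs h2
    simpa [Int.natAbs_mul, Int.natAbs_pow] using this
  refine Nat.le_of_dvd hn ?_
  by_cases hpp : p' = p
  · rw [h hpp, hpp] at h3
    have hpos : 0 < p ^ g := pow_pos hp.pos g
    refine ⟨2 * f.den, Nat.eq_of_mul_eq_mul_right hpos ?_⟩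
    rw [h3]; ring
  · have hc : Nat.Coprime (p ^ g) (p' ^ g') :=
      Nat.Coprime.pow g g' ((Nat.coprime_primes hp hp').2 (Ne.symm hpp))
    refine hc.dvd_of_dvd_mul_right ⟨2 * p ^ g * f.den, ?_⟩
    rw [h3]; ring

theorem sm_pow {M a : ℕ} (h : a ∈ M.smoothNumbers) (k : ℕ) : a ^ k ∈ M.smoothNumbers := by
  rw [Nat.mem_smoothNumbers'] at h ⊢
  intro p hp hd
  exact h p hp (hp.dvd_of_dvd_pow hd)

theorem sm_prime {M p : ℕ} (hp : p.Prime) (h : p < M) : p ∈ M.smoothNumbers := by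
  rw [Nat.mem_smoothNumbers']
  intro l hl hd
  rw [(Nat.prime_dvd_prime_iff_eq hl hp).1 hd]
  exact h

theorem un2 {M b : ℕ} {Z : ℝ} (hM : 2 < M) (hb : b ∈ M.smoothNumbers) (hZ : 2 ≤ Z) (hbZ : (b : ℝ) ≤ Z)
    (y : ℚ) (hy : |y| = 2 / b) : Un M Z y :=
  ⟨2, b, sm_prime Nat.prime_two hM, hb, by exact_mod_cast hZ, hbZ, by exact_mod_cast hy⟩

theorem un1 {M b : ℕ} {Z : ℝ} (hb : b ∈ M.smoothNumbers) (hZ : 2 ≤ Z) (hbZ : (b : ℝ) ^ 2 ≤ Z)
    (y : ℚ) (hy : |y| = 1 / (b : ℚ) ^ 2) : Un M Z y :=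
  ⟨1, b ^ 2, by simpa using sm_pow hb 0, sm_pow hb 2, by push_cast; linarith, by exact_mod_cast hbZ,
    by exact_mod_cast hy⟩

end B2

open B2 in
theorem aB2 (hEV : St_EV) : St_B2 := by
  classical
  intro M r N c C q hc hq hM hinj
  obtain ⟨F, Z0, hF⟩ := hEV M (2 * r + 2 * N) (1 / 32) (by norm_num)
  set K : ℝ := 4 * |C| + 4 * (r + N) * c ^ 3 + 2 * c with hK
  have hc3 : 0 ≤ 4 * ((r : ℝ) + N) * c ^ 3 := by positivity
  have hC0 := abs_nonneg C
  have hK2 : 2 ≤ K := by linarith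
  refine ⟨max (max Z0 ((∑ f ∈ F, (f.num.natAbs : ℝ)) + 1)) (K ^ 4), ?_⟩
  intro g I i0 R X hi0 hX hX0 hI hR hy
  by_contra hcon
  rw [not_lt] at hcon
  have hXZ : Z0 ≤ X := ((le_max_left _ _).trans (le_max_left _ _)).trans hX0
  have hXB : (∑ f ∈ F, (f.num.natAbs : ℝ)) + 1 ≤ X := ((le_max_right _ _).trans (le_max_left _ _)).trans hX0
  have hXK : K ^ 4 ≤ X := (le_max_right _ _).trans hX0
  have hXpos : 0 < X := lt_of_lt_of_le (by positivity) hXK
  set t : ℝ := X ^ (1 / 4 : ℝ) with ht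
  have ht0 : 0 < t := Real.rpow_pos_of_pos hXpos _
  have ht4 : t ^ 4 = X := by
    rw [ht, ← Real.rpow_natCast, ← Real.rpow_mul hXpos.le]; norm_num
  have htK : K ≤ t := by
    by_contra hlt
    have := pow_lt_pow_left₀ (not_le.1 hlt) ht0.le (n := 4) (by norm_num)
    linarith
  have ht10 : X ^ (-(5 / 2 : ℝ)) = 1 / t ^ 10 := by
    rw [ht, ← Real.rpow_natCast, ← Real.rpow_mul hXpos.le, Real.rpow_neg hXpos.le, one_div]; norm_num
  have ht1 : (X ^ 8) ^ (-(1 / 32 : ℝ)) = 1 / t := by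
    rw [ht, ← Real.rpow_natCast, ← Real.rpow_mul hXpos.le, one_div (X ^ (1 / 4 : ℝ)), ← Real.rpow_neg hXpos.le]
    norm_num
  have ht2 : 2 ≤ t := hK2.trans htK
  have htX : t ≤ X := by
    rw [← ht4]; exact le_self_pow₀ (by linarith) (by norm_num)
  have hX2 : 2 ≤ X := ht2.trans htX
  have hX8 : X ≤ X ^ 8 := le_self_pow₀ (by linarith) (by norm_num)
  have hX38 : (X ^ 3 + 1) ^ 2 ≤ X ^ 8 := by
    have h1 : 1 ≤ X ^ 3 := one_le_pow₀ (by linarith)
    have h2 : X ^ 3 + 1 ≤ X ^ 4 := by nlinarith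
    calc (X ^ 3 + 1) ^ 2 ≤ (X ^ 4) ^ 2 := pow_le_pow_left₀ (by positivity) h2 2
      _ = X ^ 8 := by ring
  have hsq : ∀ b : ℝ, 0 ≤ b → b ≤ X ^ 3 + 1 → b ^ 2 ≤ X ^ 8 := fun b h0 h1 =>
    (pow_le_pow_left₀ h0 h1 2).trans hX38
  have hln : ∀ b : ℝ, b ≤ X ^ 3 + 1 → b ≤ X ^ 8 := fun b h1 => by
    have h2 : 0 ≤ X ^ 3 := by positivity
    exact (h1.trans (le_self_pow₀ (by linarith) (by norm_num))).trans hX38
  set I' := I.filter (fun i => (q i : ℝ) ^ g i ≤ X ^ 3) with hI'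
  have hi0' : i0 ∈ I' := by
    rw [hI', Finset.mem_filter]
    exact ⟨hi0, by rw [← hX]; exact le_self_pow₀ (by linarith) (by norm_num)⟩
  have hp0 : ∀ y ∈ R, (0 : ℝ) < y.2 := fun y h => by
    have h1 := (hy y h).2.1
    by_contra h2
    have h3 : (y.2 : ℝ) = 0 := le_antisymm (not_lt.1 h2) (Nat.cast_nonneg _)
    rw [h3] at h1; linarith
  have hqpos : ∀ i, (0 : ℝ) < (q i : ℝ) ^ g i := fun i => pow_pos (Nat.cast_pos.2 (hq i).1.pos) _
  have haX : c / X ≤ 1 / 2 := by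
    rw [div_le_iff₀ hXpos]; linarith
  have h1c : 1 / X ≤ c / X := div_le_div_of_nonneg_right hc hXpos.le
  have hprod : (∏ i ∈ I, (1 + 1 / (q i : ℝ) ^ g i)) / ∏ y ∈ R, (1 + 1 / (y.2 : ℝ)) =
      (∏ i ∈ I, (1 + 1 / (q i : ℝ) ^ g i)) * ∏ y ∈ R, (1 - 1 / ((y.2 : ℝ) + 1)) := by
    rw [div_eq_mul_inv, ← Finset.prod_inv_distrib]
    refine congrArg _ (Finset.prod_congr rfl fun y h => ?_)
    have := hp0 y h
    field_simp
    ring
  rw [hprod, ht10] at hcon
  have hη : C * (1 / t ^ 10) ≤ |C| * (1 / t ^ 10) := mul_le_mul_of_nonneg_right (le_abs_self C) (by positivity)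
  have htt : t ≤ t ^ 10 := le_self_pow₀ (by linarith) (by norm_num)
  have hη2 : |C| * (1 / t ^ 10) ≤ 1 / 2 := by
    rw [mul_one_div, div_le_iff₀ (by positivity)]; linarith
  have hA := ana I I' R (fun i => 1 / (q i : ℝ) ^ g i) (fun y => 1 / ((y.2 : ℝ) + 1)) (|C| * (1 / t ^ 10)) (c / X)
    (Finset.filter_subset _ _)
    (fun i hi => ⟨by have := hqpos i; positivity,
      (one_div_le_one_div_of_le hXpos (hI i hi)).trans h1c⟩)
    (fun y h => ⟨by positivity, by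
      have h1 := (hy y h).2.1
      have h2 := hp0 y h
      rw [div_le_div_iff₀ (by positivity) hXpos]; nlinarith⟩) haX
    (fun i hi hi' => by
      have h1 : X ^ 3 ≤ (q i : ℝ) ^ g i := by
        by_contra h2
        exact hi' (Finset.mem_filter.2 ⟨hi, (not_le.1 h2).le⟩)
      refine (one_div_le_one_div_of_le (by positivity) h1).trans ?_
      rw [← one_div_pow]
      exact pow_le_pow_left₀ (by positivity) h1c 3) hη2 (hcon.trans hη)
  let Y : (Fin r ⊕ Fin r) ⊕ ((Fin r × ℕ) ⊕ (Fin r × ℕ)) → ℚ :=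
    Sum.elim (Sum.elim (fun i => 2 / (q i : ℚ) ^ g i) (fun i => -(1 / ((q i : ℚ) ^ g i) ^ 2)))
      (Sum.elim (fun y => -(2 / ((y.2 : ℚ) + 1))) (fun y => -(1 / ((y.2 : ℚ) + 1) ^ 2)))
  have hIc : I.card ≤ r := by simpa using Finset.card_le_univ I
  have hI'c : I'.card ≤ r := by simpa using Finset.card_le_univ I'
  have hqq : ∀ i, (0 : ℚ) < (q i : ℚ) ^ g i := fun i => pow_pos (Nat.cast_pos.2 (hq i).1.pos) _
  obtain ⟨j, hj, hneg, hjF⟩ := hF (X ^ 8) _ ((I'.disjSum I').disjSum (R.disjSum R)) Y (Sum.inl (Sum.inr i0))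
    (hXZ.trans hX8) (by simp only [Finset.card_disjSum]; omega) (by simpa using hi0')
    (by
      rintro ((i | i) | (y | y)) h
      · have h1 : i ∈ I' := by simpa using h
        have h2 := (Finset.mem_filter.1 h1).2
        refine un2 hM (sm_pow (sm_prime (hq i).1 (hq i).2) (g i)) (hX2.trans hX8)
          (hln _ (by push_cast; linarith)) _ ?_
        have := hqq i
        simp only [Y, Sum.elim_inl]
        push_cast
        exact abs_of_pos (by positivity)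
      · have h1 : i ∈ I' := by simpa using h
        have h2 := (Finset.mem_filter.1 h1).2
        refine un1 (sm_pow (sm_prime (hq i).1 (hq i).2) (g i)) (hX2.trans hX8)
          (hsq _ (by positivity) (by push_cast; linarith)) _ ?_
        simp only [Y, Sum.elim_inl, Sum.elim_inr, abs_neg]
        push_cast
        exact abs_of_nonneg (by positivity)
      · have h1 : y ∈ R := by simpa using h
        refine un2 hM (hy y h1).1 (hX2.trans hX8) (hln _ (by push_cast; linarith [(hy y h1).2.2])) _ ?_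
        simp only [Y, Sum.elim_inl, Sum.elim_inr, abs_neg]
        push_cast
        exact abs_of_nonneg (by positivity)
      · have h1 : y ∈ R := by simpa using h
        refine un1 (hy y h1).1 (hX2.trans hX8)
          (hsq _ (by positivity) (by push_cast; linarith [(hy y h1).2.2])) _ ?_
        simp only [Y, Sum.elim_inr, abs_neg]
        push_cast
        exact abs_of_nonneg (by positivity))
    (by
      have e1 : ((∑ i ∈ (I'.disjSum I').disjSum (R.disjSum R), Y i : ℚ) : ℝ) =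
          ∑ i ∈ I', (2 * (1 / (q i : ℝ) ^ g i) - (1 / (q i : ℝ) ^ g i) ^ 2) +
            ∑ y ∈ R, (-(2 * (1 / ((y.2 : ℝ) + 1))) - (1 / ((y.2 : ℝ) + 1)) ^ 2) := by
        simp only [Finset.sum_disjSum, Y, Sum.elim_inl, Sum.elim_inr, ← Finset.sum_add_distrib]
        push_cast
        refine congrArg₂ _ (Finset.sum_congr rfl fun i _ => ?_) (Finset.sum_congr rfl fun y _ => ?_)
        · rw [one_div_pow]; ring
        · rw [one_div_pow]; ring
      have e2 : |((Y (Sum.inl (Sum.inr i0)) : ℚ) : ℝ)| = 1 / t ^ 8 := by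
        simp only [Y, Sum.elim_inl, Sum.elim_inr]
        push_cast
        rw [abs_neg, ← hX, ← ht4, abs_of_nonneg (by positivity)]
        ring
      rw [e1, e2, ht1]
      refine hA.trans ?_
      have b1 : ((I.card : ℝ) + R.card) ≤ r + N := by exact_mod_cast Nat.add_le_add hIc hR
      have b2 : (c / X) ^ 3 ≤ c ^ 3 * (1 / t ^ 10) := by
        rw [div_pow, ← ht4, mul_one_div]
        refine div_le_div_of_nonneg_left (by positivity) (by positivity) ?_
        rw [← pow_mul]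
        exact pow_le_pow_right₀ (by linarith) (by norm_num)
      have b3 : 4 * ((I.card : ℝ) + R.card) * (c / X) ^ 3 ≤ 4 * (r + N) * (c ^ 3 * (1 / t ^ 10)) := by
        refine mul_le_mul (by linarith) b2 (by positivity) (by positivity)
      have b4 : 1 / t * (1 / t ^ 8) = t * (1 / t ^ 10) := by field_simp
      have b5 : (4 * |C| + 4 * (r + N) * c ^ 3) * (1 / t ^ 10) ≤ t * (1 / t ^ 10) :=
        mul_le_mul_of_nonneg_right (by linarith) (by positivity)
      rw [b4]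
      linarith)
  have hneg0 : Y (Sum.inl (Sum.inr i0)) < 0 := by
    have := hqq i0
    simp only [Y, Sum.elim_inl, Sum.elim_inr]
    exact neg_lt_zero.2 (by positivity)
  have hjpos : 0 < Y j := by
    by_contra h
    exact absurd hneg (not_lt.2 (mul_nonneg_of_nonpos_of_nonpos (not_lt.1 h) hneg0.le))
  rcases j with ((i | i) | (y | y))
  · have h1 := num_ge (q i0) (q i) (g i0) (g i) (hq i0).1 (hq i).1 (fun h => by rw [hinj h])
      (Y (Sum.inl (Sum.inl i)) / Y (Sum.inl (Sum.inr i0))) rfl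
    have h2 : ((Y (Sum.inl (Sum.inl i)) / Y (Sum.inl (Sum.inr i0))).num.natAbs : ℝ) ≤
        ∑ f ∈ F, (f.num.natAbs : ℝ) :=
      Finset.single_le_sum (f := fun f : ℚ => (f.num.natAbs : ℝ)) (fun _ _ => Nat.cast_nonneg _) hjF
    have h3 : X ≤ ((Y (Sum.inl (Sum.inl i)) / Y (Sum.inl (Sum.inr i0))).num.natAbs : ℝ) := by
      rw [hX]; exact_mod_cast h1
    linarith
  · simp only [Y, Sum.elim_inl, Sum.elim_inr] at hjpos
    exact absurd hjpos (not_lt.2 (neg_nonpos.2 (by positivity)))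
  · simp only [Y, Sum.elim_inl, Sum.elim_inr] at hjpos
    exact absurd hjpos (not_lt.2 (neg_nonpos.2 (by positivity)))
  · simp only [Y, Sum.elim_inr] at hjpos
    exact absurd hjpos (not_lt.2 (neg_nonpos.2 (by positivity)))

end Pool.Agent.SU76
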