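import Pool.Agent.Lib.SU76.Defs

set_option autoImplicit false

namespace Pool.Agent.SU76

open Finset Real

namespace BAD

theorem pow_le (t : ℝ) (h0 : 0 ≤ t) (h1 : t ≤ 1) (n : ℕ) :
    (1 + t) ^ n ≤ 1 + (2 ^ n - 1) * t := by
  induction n with
  | zero => simp
  | succ n ih =>
    have h2 : (1 : ℝ) ≤ 2 ^ n := one_le_pow₀ one_le_two
    have h3 : (1 + t) ^ (n + 1) ≤ (1 + (2 ^ n - 1) * t) * (1 + t) := by
      rw [pow_succ]; exact mul_le_mul_of_nonneg_right ih (by linarith)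
    have h4 : (2 ^ n - 1) * t * t ≤ (2 ^ n - 1) * t * 1 :=
      mul_le_mul_of_nonneg_left h1 (mul_nonneg (by linarith) h0)
    rw [pow_succ (2 : ℝ)]
    nlinarith

theorem tr_uniq {r : ℕ} (S : Lo r) {x : ℕ} {d d' : Fin r → ℕ} (h : S.Tr x d) (h' : S.Tr x d') :
    d = d' :=
  funext fun i => Nat.dvd_antisymm ((h' i).2.2 _ (h i).1 (h i).2.1) ((h i).2.2 _ (h' i).1 (h' i).2.1)

end BAD

open BAD

theorem aBAD (_hKIT : St_KIT) (hTR : St_TR) (h1 : St_B1) (h2 : St_B2) : St_BAD := by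
  intro r S
  have hc : (1 : ℝ) ≤ 2 ^ r := one_le_pow₀ one_le_two
  obtain ⟨C, hC, hT⟩ := hTR r S
  obtain ⟨N, C1, X1, hB1⟩ := h1 r S (2 ^ r) hc
  obtain ⟨X2, hB2⟩ := h2 S.M r N (2 ^ r) C1 S.q hc
    (fun i => ⟨S.qp i, lt_of_le_of_lt (S.qle i) S.hM⟩) (by have := S.h3; have := S.hM; omega) S.qinj
  set Y : ℝ := max 1 (max X1 X2) with hY
  have hY1 : 1 ≤ Y := le_max_left _ _
  have hYa : X1 ≤ Y := (le_max_left _ _).trans (le_max_right _ _)
  have hYb : X2 ≤ Y := (le_max_right _ _).trans (le_max_right _ _)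
  obtain ⟨x1, hx1⟩ := exists_nat_ge ((C * Y) ^ 2)
  refine ⟨max 3 x1, fun x d hx hd hb => ?_⟩
  have hx3 : 3 ≤ x := (le_max_left _ _).trans hx
  have hxx : (C * Y) ^ 2 ≤ (x : ℝ) := hx1.trans (by exact_mod_cast (le_max_right _ _).trans hx)
  have hCY : 1 ≤ C * Y := one_le_mul_of_one_le_of_one_le hC hY1
  have hx0 : (1 : ℝ) ≤ x := by exact_mod_cast (by omega : 1 ≤ x)
  obtain ⟨d', hd', -, hup⟩ := hT x hx3
  obtain rfl := tr_uniq S hd hd'
  have hup1 := hup x hx0 fun i l _ _ hl => by exact_mod_cast hl.le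
  obtain ⟨I, hI, hth⟩ := hb
  obtain ⟨i0, hi0, hmin⟩ := I.exists_min_image (fun i => (S.q i : ℝ) ^ (S.a i * d i)) hI
  set X : ℝ := (S.q i0 : ℝ) ^ (S.a i0 * d i0) with hX
  have hq : ∀ i, (1 : ℝ) ≤ (S.q i : ℝ) ^ (S.a i * d i) := fun i =>
    one_le_pow₀ (by exact_mod_cast (S.qp i).one_lt.le)
  have hX1 : 1 ≤ X := hq i0
  have hX0 : 0 < X := by linarith
  have hz : ∀ i, S.z i (d i) = 1 / (S.q i : ℝ) ^ (S.a i * d i) := fun i => by
    simp only [Lo.z, Lo.Q, Nat.cast_pow, pow_mul]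
  simp only [hz] at hth
  have hnn : ∀ i, (0 : ℝ) ≤ 1 / (S.q i : ℝ) ^ (S.a i * d i) := fun i => by
    have := hq i; positivity
  have hlow : 1 + 1 / X ≤ S.Th d := by
    rw [hth, ← Finset.mul_prod_erase I _ hi0]
    refine le_mul_of_one_le_right (by positivity) ?_
    exact Finset.prod_induction _ (fun y : ℝ => 1 ≤ y)
      (fun _ _ ha hb => one_le_mul_of_one_le_of_one_le ha hb) le_rfl
      fun i _ => le_add_of_nonneg_right (hnn i)
  have ht0 : 0 ≤ 1 / X := by positivity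
  have ht1 : 1 / X ≤ 1 := (div_le_one hX0).2 hX1
  have hhigh : S.Th d ≤ 1 + 2 ^ r / X := by
    have a1 : S.Th d ≤ (1 + 1 / X) ^ I.card := by
      rw [hth, ← Finset.prod_const]
      refine Finset.prod_le_prod (fun i _ => by have := hnn i; positivity) fun i hi => ?_
      have := one_div_le_one_div_of_le hX0 (hmin i hi)
      linarith
    have a2 : (1 + 1 / X) ^ I.card ≤ (1 + 1 / X) ^ r :=
      pow_le_pow_right₀ (by linarith) (by simpa using I.card_le_univ)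
    have a3 := pow_le (1 / X) ht0 ht1 r
    have a4 : (2 : ℝ) ^ r / X = (2 ^ r - 1) * (1 / X) + 1 / X := by ring
    linarith
  have hYX : Y ≤ X := by
    have a1 : (x : ℝ) ^ (-(1 / 2 : ℝ)) ≤ 1 / (C * Y) := by
      rw [rpow_neg (by linarith), ← sqrt_eq_rpow, ← one_div]
      exact one_div_le_one_div_of_le (by linarith) (le_sqrt_of_sq_le hxx)
    have a2 : C * (x : ℝ) ^ (-(1 / 2 : ℝ)) ≤ C * (1 / (C * Y)) :=
      mul_le_mul_of_nonneg_left a1 (by linarith)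
    have a3 : C * (1 / (C * Y)) = 1 / Y := by
      have : C ≠ 0 := by linarith
      have : Y ≠ 0 := by linarith
      field_simp
    exact le_of_one_div_le_one_div hX0 (by linarith)
  have hYx : Y ≤ x := by nlinarith
  obtain ⟨R, hN, hR, hle⟩ := hB1 x d X hd (hYa.trans hYX) (hYa.trans hYx) hhigh
  have hlt := hB2 (fun i => S.a i * d i) I i0 R X hi0 hX (hYb.trans hYX) hmin hN hR
  rw [hth] at hle
  exact absurd hle (not_le.2 hlt)

end Pool.Agent.SU76
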