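import Pool.Agent.Lib.US98.Red
import Pool.Agent.Lib.SU76.Defs

/-! Row BF: from the linear form in logarithms to smooth numbers. -/

namespace Pool.Agent.SU76

open Finset Real

theorem aBF (h : St_BFC) : St_BF := by
  intro M
  obtain ⟨C, hC⟩ := US98.red (fun k => by
    obtain ⟨C, -, hC⟩ := h (k + 1)
    refine ⟨C, fun u v b H B h1 h2 h3 h4 h5 => hC u v b H B h2 h3 (fun i => ⟨(h1 i).1, (h1 i).2.1, (h1 i).2.2.1, (h1 i).2.2.2.1⟩)
      (fun i => (h1 i).2.2.2.2) (fun e => h4 (by simp [e])) fun c hc => h5 c ?_⟩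
    have p : ∀ i, (0 : ℝ) < (u i : ℝ) / v i := fun i => div_pos (Nat.cast_pos.2 (h1 i).1) (Nat.cast_pos.2 (h1 i).2.1)
    have := congrArg exp hc
    rw [exp_sum, exp_zero] at this
    refine Rat.cast_injective (α := ℝ) ?_
    push_cast
    rw [← this]
    exact prod_congr rfl fun i _ => by rw [← log_zpow, exp_log (zpow_pos (p i) _)]) M
  refine ⟨C + 1, by omega, fun a b a' b' B h a1 a2 a3 a4 a5 a6 a7 a8 a9 a10 a11 =>
    le_trans (exp_le_exp.2 (neg_le_neg ?_)) (hC a b a' b' B h a1 a2 a7 a8 a3 a4 a9 a10 a5 a6 a11)⟩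
  have : 0 ≤ log B := log_nonneg (by linarith)
  push_cast
  gcongr
  · linarith
  · omega

end Pool.Agent.SU76
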