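import Pool.Agent.Lib.SU76.Defs

/-! Row BFC: the lower bound for linear forms in logarithms from Siegel, extrapolation and the zero lemma. -/

namespace Pool.Agent.SU76

open Finset Real Polynomial

namespace BFC

theorem indep {ι : Type} (I : Finset ι) (P : ι → ℝ[X]) (c : ι → ℝ) (h0 : ∀ i ∈ I, P i ≠ 0)
    (hinj : ∀ i ∈ I, ∀ j ∈ I, (P i).natDegree = (P j).natDegree → i = j)
    (hs : ∑ i ∈ I, C (c i) * P i = 0) : ∀ i ∈ I, c i = 0 := by
  classical
  by_contra hne
  push Not at hne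
  obtain ⟨i1, hi1, hc1⟩ := hne
  obtain ⟨i, hi, hmax⟩ := Finset.exists_max_image (I.filter fun i => c i ≠ 0)
    (fun i => (P i).natDegree) ⟨i1, Finset.mem_filter.2 ⟨hi1, hc1⟩⟩
  obtain ⟨hiI, hci⟩ := Finset.mem_filter.1 hi
  have h1 := congrArg (fun Q : ℝ[X] => Q.coeff (P i).natDegree) hs
  simp only [Polynomial.finsetSum_coeff, Polynomial.coeff_C_mul, Polynomial.coeff_zero] at h1
  rw [Finset.sum_eq_single_of_mem i hiI] at h1
  · rcases mul_eq_zero.1 h1 with h | h
    · exact hci h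
    · exact h0 i hiI (Polynomial.leadingCoeff_eq_zero.1 h)
  · intro j hj hji
    by_cases hcj : c j = 0
    · rw [hcj, zero_mul]
    · have h2 := hmax j (Finset.mem_filter.2 ⟨hj, hcj⟩)
      have h3 : (P j).natDegree < (P i).natDegree :=
        lt_of_le_of_ne h2 fun e => hji (hinj j hj i hiI e)
      rw [Polynomial.coeff_eq_zero_of_natDegree_lt h3, mul_zero]

theorem E1 {n : ℕ} (S : Bk n) : 1 ≤ S.E := by
  have h1 := S.hJ
  have h2 : (1 : ℝ) ≤ exp (100 * (((5 * n + 7) * (n + 2) : ℕ) + 1)) := Real.one_le_exp (by positivity)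
  exact_mod_cast h2.trans h1

theorem core (hD : St_DEN) (hZ : St_ZERO) (hS : St_BS) (hX : St_BX) {n : ℕ} (S : Bk n)
    (hind : ∀ c : Fin (n + 1) → ℤ, ∑ i, c i * S.lg i = 0 → c = 0) :
    exp (-((S.E : ℝ) ^ (S.J + 5 * n + 10) * S.h)) ≤ |S.La| := by
  classical
  by_contra hlt
  have hle := (not_le.1 hlt).le
  obtain ⟨p, ⟨k0, hk0, hp0⟩, hsm, hv0⟩ := hS n S
  have hv : ∀ j, j ≤ S.J → S.Van p j := by
    intro j
    induction j with
    | zero => exact fun _ => hv0
    | succ j ih => exact fun hj => hX n S p j hj hsm (ih (by omega)) hle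
  have hvJ := hv S.J le_rfl
  have hE := E1 S
  have hh := S.h1
  set T : Finset (ℕ × ℕ) := range S.h ×ˢ range S.L0 with hT
  set Λ : Finset (Fin (n + 1) → ℕ) := Fintype.piFinset fun _ => range S.L with hΛ
  have hdeg : ∀ x ∈ T, (Pp S.h x.1 x.2).natDegree = x.1 + S.h * x.2 ∧ Pp S.h x.1 x.2 ≠ 0 := by
    intro x hx
    have h1 := Finset.mem_range.1 (Finset.mem_product.1 hx).1
    obtain ⟨-, -, -, h2, h3, -⟩ := hD S.h x.1 x.2 hh h1
    exact ⟨h2, h3⟩
  have hL0 : 0 < S.L0 := Nat.pow_pos hE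
  have hz := hZ (Fin (n + 1) → ℕ) Λ (fun la => exp (S.om la))
    (fun la => ∑ x ∈ T, C ((p (x.1, x.2, la) : ℤ) : ℝ) * Pp S.h x.1 x.2) (S.h * S.L0) ?_
    (fun _ _ => Real.exp_pos _) ?_ ?_
  · obtain ⟨s, t, la⟩ := k0
    simp only [Bk.I, Finset.mem_product] at hk0
    have h1 := indep T (fun x => Pp S.h x.1 x.2) (fun x => ((p (x.1, x.2, la) : ℤ) : ℝ))
      (fun x hx => (hdeg x hx).2) ?_ (hz la hk0.2.2) (s, t) (Finset.mem_product.2 ⟨hk0.1, hk0.2.1⟩)
    · exact hp0 (by exact_mod_cast h1)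
    · intro x hx y hy e
      rw [(hdeg x hx).1, (hdeg y hy).1] at e
      have a1 := Finset.mem_range.1 (Finset.mem_product.1 hx).1
      have a2 := Finset.mem_range.1 (Finset.mem_product.1 hy).1
      have b1 : x.1 = y.1 := by
        have := congrArg (· % S.h) e
        simpa [Nat.add_mul_mod_self_left, Nat.mod_eq_of_lt a1, Nat.mod_eq_of_lt a2] using this
      have b2 : x.2 = y.2 := by
        rw [b1] at e
        exact Nat.eq_of_mul_eq_mul_left hh (Nat.add_left_cancel e)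
      exact Prod.ext b1 b2
  · intro la _ la' _ e
    have e1 : S.om la = S.om la' := Real.exp_injective e
    have e2 := hind (fun i => (la i : ℤ) - la' i) (by
      simp only [Bk.om] at e1
      push_cast
      simp only [sub_mul, Finset.sum_sub_distrib]
      linarith)
    funext i
    have := congrFun e2 i
    simp only [Pi.zero_apply] at this
    omega
  · intro la _
    have hpos : 0 < S.h * S.L0 := Nat.mul_pos hh hL0
    have : (∑ x ∈ T, C ((p (x.1, x.2, la) : ℤ) : ℝ) * Pp S.h x.1 x.2).natDegree ≤ S.h * S.L0 - 1 := by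
      refine Polynomial.natDegree_sum_le_of_forall_le _ _ fun x hx => ?_
      refine (Polynomial.natDegree_C_mul_le _ _).trans ?_
      rw [(hdeg x hx).1]
      have a1 := Finset.mem_range.1 (Finset.mem_product.1 hx).1
      have a2 := Finset.mem_range.1 (Finset.mem_product.1 hx).2
      have a3 : S.h * (x.2 + 1) ≤ S.h * S.L0 := Nat.mul_le_mul_left _ a2
      rw [Nat.mul_succ] at a3
      omega
    show (∑ x ∈ T, C ((p (x.1, x.2, la) : ℤ) : ℝ) * Pp S.h x.1 x.2).natDegree < S.h * S.L0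
    omega
  · intro l hl
    have hc : Λ.card = S.L ^ (n + 1) := by
      simp [hΛ, Fintype.card_piFinset]
    have hb : Λ.card * (S.h * S.L0) ≤ S.E ^ S.J * S.h := by
      rw [hc, Bk.L, Bk.L0, Bk.J, ← pow_mul]
      calc S.E ^ ((5 * n + 3) * (n + 1)) * (S.h * S.E ^ (5 * n + 6))
          = S.E ^ ((5 * n + 3) * (n + 1) + (5 * n + 6)) * S.h := by rw [pow_add]; ring
        _ ≤ _ := Nat.mul_le_mul_right _ (Nat.pow_le_pow_right hE (by nlinarith))
    have hl' : l ∈ Icc 1 (S.E ^ S.J * S.h) :=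
      Finset.mem_Icc.2 ⟨(Finset.mem_Icc.1 hl).1, (Finset.mem_Icc.1 hl).2.trans hb⟩
    have h1 := hvJ l hl' 0 (fun _ => 0) (by simp)
    simp only [Bk.ph, Bk.I, pow_zero, Finset.prod_const_one, mul_one, Polynomial.hasseDeriv_zero,
      LinearMap.id_apply, Finset.sum_product] at h1
    rw [← h1]
    simp only [Polynomial.eval_finsetSum, Polynomial.eval_mul, Polynomial.eval_C, Finset.sum_mul, hT,
      Finset.sum_product]
    rw [Finset.sum_comm]
    refine Finset.sum_congr rfl fun s _ => ?_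
    rw [Finset.sum_comm]
    refine Finset.sum_congr rfl fun t _ => Finset.sum_congr rfl fun la _ => ?_
    rw [← Real.exp_nat_mul, mul_comm (l : ℝ), mul_assoc]

end BFC

theorem aBFC (hD : St_DEN) (hZ : St_ZERO) (hS : St_BS) (hX : St_BX) : St_BFC := by
  intro n
  rcases n with _ | n
  · exact ⟨1, le_rfl, fun u v b H B _ _ _ _ hb _ => absurd (Subsingleton.elim _ _) hb⟩
  obtain ⟨K, hK⟩ := exists_nat_ge
    (1000 * ((n : ℝ) + 1) + exp (100 * (((5 * n + 7) * (n + 2) : ℕ) + 1)))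
  have hex := Real.exp_pos (100 * ((((5 * n + 7) * (n + 2) : ℕ) : ℝ) + 1))
  have hn0 : (0 : ℝ) ≤ n := Nat.cast_nonneg n
  obtain ⟨N, hN⟩ : ∃ N : ℕ, N = (5 * n + 7) * (n + 2) + 5 * n + 10 := ⟨_, rfl⟩
  refine ⟨(5 * n + 6) * (2 * K) ^ (N + 1) + (N + 1), by omega, ?_⟩
  intro u v b H B hH hB huv hb hb0 hind
  obtain ⟨i0, hi0⟩ := Function.ne_iff.1 hb0
  have hc1 : H ≤ (⌈H⌉₊ : ℝ) := Nat.le_ceil H
  have hc2 : (⌈H⌉₊ : ℝ) ≤ 2 * H := by
    have := Nat.ceil_lt_add_one (show (0 : ℝ) ≤ H by linarith)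
    linarith
  obtain ⟨E, hE⟩ : ∃ E : ℕ, E = K * ⌈H⌉₊ := ⟨_, rfl⟩
  have hK1 : (1 : ℝ) ≤ K := by linarith
  have hE1 : (K : ℝ) * H ≤ E := by
    rw [hE]; push_cast
    exact mul_le_mul_of_nonneg_left hc1 (by linarith)
  have hE2 : (E : ℝ) ≤ 2 * K * H := by
    rw [hE]; push_cast
    nlinarith
  have hE3 : (K : ℝ) ≤ E := by nlinarith
  have hE4 : (1 : ℝ) ≤ E := by linarith
  have hp1 : (1 : ℝ) ≤ (E : ℝ) ^ (5 * n + 3) := one_le_pow₀ hE4
  have hY : (1 : ℝ) < 2 * B * (E : ℝ) ^ (5 * n + 3) := by nlinarith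
  have hY0 := Real.log_pos hY
  obtain ⟨h, hh⟩ : ∃ h : ℕ, h = ⌈log (2 * B * (E : ℝ) ^ (5 * n + 3))⌉₊ := ⟨_, rfl⟩
  have hh1 : log (2 * B * (E : ℝ) ^ (5 * n + 3)) ≤ h := hh ▸ Nat.le_ceil _
  have hh2 : (h : ℝ) ≤ log (2 * B * (E : ℝ) ^ (5 * n + 3)) + 1 := hh ▸ (Nat.ceil_lt_add_one hY0.le).le
  have hlB : 1 ≤ log B := by
    rw [Real.le_log_iff_exp_le (by linarith)]
    linarith [Real.exp_one_lt_d9]
  have hh3 : (h : ℝ) ≤ (5 * n + 6) * E * log B := by
    rw [Real.log_mul (by linarith) (by linarith), Real.log_mul (by norm_num) (by linarith),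
      Real.log_pow] at hh2
    have a1 : log 2 ≤ 1 := by linarith [Real.log_two_lt_d9]
    have a2 : log (E : ℝ) ≤ E := by linarith [Real.log_le_sub_one_of_pos (show (0 : ℝ) < E by linarith)]
    have a3 : ((5 * n + 3 : ℕ) : ℝ) * log (E : ℝ) ≤ (5 * n + 3) * E := by
      push_cast
      exact mul_le_mul_of_nonneg_left a2 (by linarith)
    have a4 : (5 * (n : ℝ) + 3) * E ≤ (5 * n + 3) * E * log B :=
      le_mul_of_one_le_right (by positivity) hlB
    have a5 : log B ≤ E * log B := le_mul_of_one_le_left (by linarith) hE4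
    nlinarith
  let σ : Equiv.Perm (Fin (n + 1)) := Equiv.swap i0 (Fin.last n)
  let S : Bk n :=
    { u := fun i => u (σ i), v := fun i => v (σ i), b := fun i => b (σ i), E := E, h := h, H := H
      u0 := fun i => (huv _).1
      v0 := fun i => (huv _).2.1
      H1 := hH
      uH := fun i => (huv _).2.2.1
      vH := fun i => (huv _).2.2.2
      b0 := by simpa [σ] using hi0
      hE := by nlinarith
      hJ := by linarith
      hb := fun i => by
        have a1 : 2 * |(b (σ i) : ℝ)| * (E : ℝ) ^ (5 * n + 3) ≤ 2 * B * (E : ℝ) ^ (5 * n + 3) :=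
          mul_le_mul_of_nonneg_right (by linarith [hb (σ i)]) (by linarith)
        exact a1.trans ((Real.log_le_iff_le_exp (by linarith)).1 hh1)
      h1 := by
        rw [hh]
        exact Nat.ceil_pos.2 hY0 }
  have key := BFC.core hD hZ hS hX S (by
    intro c hc
    have a1 := hind (fun i => c (σ.symm i)) (by
      rw [← Equiv.sum_comp σ]
      simpa [Bk.lg, S] using hc)
    funext i
    simpa using congrFun a1 (σ i))
  have e1 : S.La = ∑ i, b i * log ((u i : ℝ) / v i) :=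
    Equiv.sum_comp σ fun i => (b i : ℝ) * log ((u i : ℝ) / v i)
  have e2 : S.J + 5 * n + 10 = N := hN.symm
  rw [e1, e2] at key
  refine le_trans (Real.exp_le_exp.2 (neg_le_neg ?_)) key
  show (E : ℝ) ^ N * h ≤ _
  have b1 : (E : ℝ) ^ (N + 1) ≤ (2 * K) ^ (N + 1) * H ^ (N + 1) := by
    rw [← mul_pow]
    exact pow_le_pow_left₀ (by linarith) hE2 _
  have b2 : H ^ (N + 1) ≤ H ^ ((5 * n + 6) * (2 * K) ^ (N + 1) + (N + 1)) :=
    pow_le_pow_right₀ hH (by omega)
  have b3 : (0 : ℝ) ≤ (2 * K) ^ (N + 1) := by positivity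
  have b4 : (0 : ℝ) ≤ H ^ ((5 * n + 6) * (2 * K) ^ (N + 1) + (N + 1)) := by positivity
  calc (E : ℝ) ^ N * h ≤ (E : ℝ) ^ N * ((5 * n + 6) * E * log B) :=
        mul_le_mul_of_nonneg_left hh3 (by positivity)
    _ = (5 * n + 6) * (E : ℝ) ^ (N + 1) * log B := by ring
    _ ≤ (5 * n + 6) * ((2 * K) ^ (N + 1) * H ^ ((5 * n + 6) * (2 * K) ^ (N + 1) + (N + 1))) * log B := by
        refine mul_le_mul_of_nonneg_right (mul_le_mul_of_nonneg_left ?_ (by positivity)) (by linarith)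
        exact b1.trans (mul_le_mul_of_nonneg_left b2 b3)
    _ ≤ _ := by
        refine mul_le_mul_of_nonneg_right ?_ (by linarith)
        rw [← mul_assoc]
        refine mul_le_mul_of_nonneg_right ?_ b4
        push_cast
        have : (0 : ℝ) ≤ N := Nat.cast_nonneg N
        linarith

end Pool.Agent.SU76
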