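import Pool.Agent.Lib.SU76.Defs

/-! Small jets at the nodes of one stage of the extrapolation. -/

namespace Pool.Agent.SU76

open Finset Real Polynomial

namespace BJ

variable {n : ℕ} (S : Bk n)

noncomputable def ga (la : Fin (n + 1) → ℕ) : ℝ :=
  ∑ r : Fin n, (S.lg r.castSucc / S.b (Fin.last n)) * S.mu la r

theorem om_eq (la : Fin (n + 1) → ℕ) :
    S.om la - ga S la = la (Fin.last n) * S.La / S.b (Fin.last n) := by
  have hb : (S.b (Fin.last n) : ℝ) ≠ 0 := Int.cast_ne_zero.mpr S.b0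
  rw [sub_eq_iff_eq_add']
  unfold Bk.om ga Bk.La Bk.mu
  rw [Fin.sum_univ_castSucc, Fin.sum_univ_castSucc, mul_add, add_div, Finset.mul_sum, Finset.sum_div,
    ← add_assoc, ← Finset.sum_add_distrib]
  refine congrArg₂ (· + ·) (Finset.sum_congr rfl fun r _ => ?_) ?_
  · push_cast
    field_simp
    ring
  · field_simp

theorem prod_single (a : Fin n → ℝ) (m : Fin n → ℕ) (r : Fin n) :
    ∏ r', a r' ^ ((m + Pi.single r 1 : Fin n → ℕ) r') = (∏ r', a r' ^ m r') * a r := by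
  simp only [Pi.add_apply, pow_add, Finset.prod_mul_distrib]
  refine congrArg _ ?_
  rw [Finset.prod_eq_single r]
  · simp
  · intro b _ hb
    simp [Pi.single_eq_of_ne hb]
  · simp

theorem van (p : ℕ × ℕ × (Fin (n + 1) → ℕ) → ℤ) (j : ℕ) (hV : S.Van p j) (l : ℕ)
    (hl : l ∈ Icc 1 (S.E ^ j * S.h)) (m0 t : ℕ) : ∀ m : Fin n → ℕ,
    m0 + ∑ r, m r + t ≤ (S.J + 1 - j) * S.τ →
    ∑ x ∈ S.I, (p x : ℝ) * (∏ r, (S.mu x.2.2 r : ℝ) ^ m r) *
      ((hasseDeriv m0 (Pp S.h x.1 x.2.1)).eval (l : ℝ) * exp (S.om x.2.2 * l)) * ga S x.2.2 ^ t = 0 := by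
  induction t with
  | zero =>
    intro m hm
    simpa only [Bk.ph, pow_zero, mul_one] using hV l hl m0 m (by simpa using hm)
  | succ t ih =>
    intro m hm
    have h1 : ∀ r : Fin n, (S.lg r.castSucc / S.b (Fin.last n)) *
        ∑ x ∈ S.I, (p x : ℝ) * (∏ r', (S.mu x.2.2 r' : ℝ) ^ ((m + Pi.single r 1 : Fin n → ℕ) r')) *
        ((hasseDeriv m0 (Pp S.h x.1 x.2.1)).eval (l : ℝ) * exp (S.om x.2.2 * l)) * ga S x.2.2 ^ t = 0 := by
      intro r
      rw [ih _ ?_, mul_zero]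
      simp only [Pi.add_apply, Finset.sum_add_distrib, Finset.sum_pi_single', Finset.mem_univ, if_true]
      omega
    rw [← Finset.sum_eq_zero (s := univ) fun r _ => h1 r]
    simp only [Finset.mul_sum]
    rw [Finset.sum_comm]
    refine Finset.sum_congr rfl fun x _ => ?_
    rw [pow_succ, ← mul_assoc]
    generalize ga S x.2.2 ^ t = G
    rw [ga, Finset.mul_sum]
    refine Finset.sum_congr rfl fun r _ => ?_
    rw [prod_single]
    ring

theorem pw (a b : ℝ) (t : ℕ) : |(a ^ t - b ^ t) / t.factorial| ≤ |a - b| * exp (|a| + |a - b|) := by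
  rcases t with _ | t
  · simp only [pow_zero, sub_self, zero_div, abs_zero]
    positivity
  · have h1 := abs_pow_sub_pow_le (a := a) (b := b) (n := t + 1)
    have hM : 0 ≤ max |a| |b| := le_max_of_le_left (abs_nonneg _)
    have h2 := Real.pow_div_factorial_le_exp _ hM t
    have h3 : max |a| |b| ≤ |a| + |a - b| := by
      refine max_le (le_add_of_nonneg_right (abs_nonneg _)) ?_
      have := abs_sub a (a - b)
      rwa [sub_sub_cancel] at this
    have h4 : (0 : ℝ) < t.factorial := by exact_mod_cast t.factorial_pos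
    rw [abs_div, Nat.abs_cast, Nat.factorial_succ, div_le_iff₀ (by positivity)]
    rw [Nat.add_sub_cancel] at h1
    rw [div_le_iff₀ h4] at h2
    have h5 : max |a| |b| ^ t ≤ exp (|a| + |a - b|) * t.factorial :=
      h2.trans (mul_le_mul_of_nonneg_right (exp_le_exp.mpr h3) h4.le)
    calc _ ≤ _ := h1
      _ ≤ |a - b| * ((t + 1 : ℕ) : ℝ) * (exp (|a| + |a - b|) * t.factorial) :=
        mul_le_mul_of_nonneg_left h5 (by positivity)
      _ = _ := by push_cast; ring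

theorem lg_le (i : Fin (n + 1)) : |S.lg i| ≤ S.H := by
  have hu : (1 : ℝ) ≤ S.u i := by exact_mod_cast S.u0 i
  have hv : (1 : ℝ) ≤ S.v i := by exact_mod_cast S.v0 i
  have h1 := (Real.log_le_iff_le_exp (by linarith)).mpr (S.uH i)
  have h2 := (Real.log_le_iff_le_exp (by linarith)).mpr (S.vH i)
  have h3 := Real.log_nonneg hu
  have h4 := Real.log_nonneg hv
  rw [Bk.lg, Real.log_div (by linarith) (by linarith), abs_le]
  constructor <;> linarith

theorem le_exp' {x y : ℝ} (h : x ≤ y) : x ≤ exp y := by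
  have := Real.add_one_le_exp y
  linarith

theorem mem_I {x : ℕ × ℕ × (Fin (n + 1) → ℕ)} (hx : x ∈ S.I) :
    x.1 < S.h ∧ x.2.1 < S.L0 ∧ ∀ i, (x.2.2 i : ℝ) ≤ (S.E : ℝ) ^ (5 * n + 3) := by
  simp only [Bk.I, Finset.mem_product, Finset.mem_range, Fintype.mem_piFinset] at hx
  refine ⟨hx.1, hx.2.1, fun i => ?_⟩
  have := (hx.2.2 i).le
  rw [Bk.L] at this
  exact_mod_cast this

theorem mu_le {la : Fin (n + 1) → ℕ} (h : ∀ i, (la i : ℝ) ≤ (S.E : ℝ) ^ (5 * n + 3)) (r : Fin n) :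
    |(S.mu la r : ℝ)| ≤ exp S.h := by
  have h1 := S.hb (Fin.last n)
  have h2 := S.hb r.castSucc
  have h3 := mul_le_mul_of_nonneg_left (h r.castSucc) (abs_nonneg (S.b (Fin.last n) : ℝ))
  have h4 := mul_le_mul_of_nonneg_left (h (Fin.last n)) (abs_nonneg (S.b r.castSucc : ℝ))
  rw [Bk.mu]
  push_cast
  refine (abs_sub _ _).trans ?_
  rw [abs_mul, abs_mul, Nat.abs_cast, Nat.abs_cast]
  linarith

theorem om_le {la : Fin (n + 1) → ℕ} (h : ∀ i, (la i : ℝ) ≤ (S.E : ℝ) ^ (5 * n + 3)) :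
    |S.om la| ≤ ((n : ℝ) + 1) * S.H * (S.E : ℝ) ^ (5 * n + 3) := by
  refine (Finset.abs_sum_le_sum_abs _ _).trans ?_
  refine (Finset.sum_le_card_nsmul _ _ ((S.E : ℝ) ^ (5 * n + 3) * S.H) fun i _ => ?_).trans (le_of_eq ?_)
  · rw [abs_mul, Nat.abs_cast]
    exact mul_le_mul (h i) (lg_le S i) (abs_nonneg _) (by positivity)
  · simp only [Finset.card_univ, Fintype.card_fin, nsmul_eq_mul]
    push_cast
    ring

noncomputable def W : ℝ := (S.E : ℝ) ^ (S.J + 5 * n + 8) * S.h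

theorem E_ge : (1000 : ℝ) ≤ S.E ∧ ((n : ℝ) + 1) * S.H ≤ S.E ∧ (n : ℝ) + 1 ≤ S.E ∧
    10 * ((S.J : ℝ) + 1) ≤ S.E := by
  have h1 := S.hE
  have h2 := S.H1
  have h3 : (0 : ℝ) ≤ n := n.cast_nonneg
  have h4 := S.hJ
  have h5 := Real.add_one_le_exp (100 * ((((5 * n + 7) * (n + 2) : ℕ) : ℝ) + 1))
  have h6 : (0 : ℝ) ≤ (((5 * n + 7) * (n + 2) : ℕ) : ℝ) := Nat.cast_nonneg _
  refine ⟨by nlinarith, by nlinarith, by nlinarith, ?_⟩
  rw [Bk.J]
  linarith

theorem leW {c : ℝ} {a : ℕ} (hc : c ≤ S.E) (ha : a ≤ S.J + 5 * n + 7) :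
    c * (S.E : ℝ) ^ a * S.h ≤ W S ∧ c * (S.E : ℝ) ^ a ≤ W S := by
  have h1 : (1 : ℝ) ≤ S.E := by linarith [(E_ge S).1]
  have h2 : (1 : ℝ) ≤ S.h := by exact_mod_cast S.h1
  have h3 : c * (S.E : ℝ) ^ a ≤ (S.E : ℝ) ^ (S.J + 5 * n + 8) :=
    calc _ ≤ (S.E : ℝ) * (S.E : ℝ) ^ (S.J + 5 * n + 7) :=
          mul_le_mul hc (pow_le_pow_right₀ h1 ha) (by positivity) (by positivity)
      _ = _ := by ring
  exact ⟨mul_le_mul_of_nonneg_right h3 (by positivity), h3.trans (le_mul_of_one_le_right (by positivity) h2)⟩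

theorem card_le : (S.I.card : ℝ) ≤ exp (3 * W S) := by
  obtain ⟨e1, -, e3, -⟩ := E_ge S
  have h1 : (1 : ℝ) ≤ S.E := by linarith
  have a1 : (S.h : ℝ) ≤ exp (W S) := le_exp' (by simpa using (leW S (a := 0) h1 (by omega)).1)
  have a2 : (S.E : ℝ) ^ (5 * n + 6) ≤ exp (W S) :=
    le_exp' (by simpa using (leW S (a := 5 * n + 6) h1 (by omega)).2)
  have a3 : ((S.E : ℝ) ^ (5 * n + 3)) ^ (n + 1) ≤ exp (W S) := by
    refine (pow_le_pow_left₀ (by positivity) (le_exp' le_rfl) _).trans ?_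
    rw [← Real.exp_nat_mul, exp_le_exp]
    push_cast
    exact (leW S e3 (by omega)).2
  have : (S.I.card : ℝ) = S.h * ((S.E : ℝ) ^ (5 * n + 6) * ((S.E : ℝ) ^ (5 * n + 3)) ^ (n + 1)) := by
    simp [Bk.I, Bk.L, Bk.L0, Fintype.card_piFinset]
  rw [this, show 3 * W S = W S + (W S + W S) by ring, exp_add, exp_add]
  gcongr

theorem term_le (hDEN : St_DEN) {p : ℕ × ℕ × (Fin (n + 1) → ℕ) → ℤ} {j : ℕ} (hj : j < S.J) (hLa : |S.La| ≤ 1)
    (hS : S.Sm p) {m : Fin n → ℕ} (hm : ∑ r, m r ≤ S.J * S.τ) {l : ℕ} (hl : l ≤ S.E ^ j * S.h)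
    {x : ℕ × ℕ × (Fin (n + 1) → ℕ)} (hx : x ∈ S.I) {s u : ℕ} (hu : u ≤ (S.J + 1) * S.τ) (t : ℕ) :
    |(p x : ℝ) * (∏ r, (S.mu x.2.2 r : ℝ) ^ m r) * (u.choose s : ℝ) *
      (hasseDeriv u (Pp S.h x.1 x.2.1)).eval (l : ℝ) *
      ((S.om x.2.2 ^ t - ga S x.2.2 ^ t) / t.factorial) * exp (S.om x.2.2 * l)| ≤ |S.La| * exp (8 * W S) := by
  obtain ⟨e1, e2, e3, e4⟩ := E_ge S
  obtain ⟨x1, x2, x3⟩ := mem_I S hx
  have h1 : (1 : ℝ) ≤ S.E := by linarith
  have hh : (1 : ℝ) ≤ S.h := by exact_mod_cast S.h1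
  have hJ : (0 : ℝ) ≤ S.J := Nat.cast_nonneg _
  have hτ : (S.τ : ℝ) = (S.E : ℝ) ^ (5 * n + 7) := by rw [Bk.τ]; push_cast; rfl
  have hl' : (l : ℝ) ≤ (S.E : ℝ) ^ j * S.h := by exact_mod_cast hl
  have hEj : (1 : ℝ) ≤ (S.E : ℝ) ^ j := one_le_pow₀ h1
  have a1 : |(p x : ℝ)| ≤ exp (W S) := by
    refine (hS x hx).trans (exp_le_exp.mpr ?_)
    rw [hτ]
    exact (leW S e4 (by omega)).1
  have a2 : |∏ r, (S.mu x.2.2 r : ℝ) ^ m r| ≤ exp (W S) := by
    rw [Finset.abs_prod]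
    calc _ ≤ ∏ r, exp (S.h : ℝ) ^ m r := Finset.prod_le_prod (fun r _ => abs_nonneg _) fun r _ => by
          rw [abs_pow]
          exact pow_le_pow_left₀ (abs_nonneg _) (mu_le S x3 r) _
      _ = exp (((∑ r, m r : ℕ) : ℝ) * S.h) := by rw [Finset.prod_pow_eq_pow_sum, ← Real.exp_nat_mul]
      _ ≤ _ := by
          have h2 : ((∑ r, m r : ℕ) : ℝ) ≤ S.J * (S.E : ℝ) ^ (5 * n + 7) := by
            rw [← hτ]
            exact_mod_cast hm
          exact exp_le_exp.mpr ((mul_le_mul_of_nonneg_right h2 (by positivity)).trans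
            (leW S (by linarith) (by omega)).1)
  have a3 : |(u.choose s : ℝ)| ≤ exp (W S) := by
    have h2 : (u.choose s : ℝ) ≤ 2 ^ u := by exact_mod_cast Nat.choose_le_two_pow u s
    have h3 : (2 : ℝ) ≤ exp 1 := by linarith [Real.add_one_le_exp 1]
    have h4 : (u : ℝ) ≤ (S.J + 1) * (S.E : ℝ) ^ (5 * n + 7) := by
      rw [← hτ]
      exact_mod_cast hu
    rw [Nat.abs_cast]
    refine h2.trans ((pow_le_pow_left₀ (by norm_num) h3 u).trans ?_)
    rw [← Real.exp_nat_mul, mul_one, exp_le_exp]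
    exact h4.trans (leW S (by linarith) (by omega)).2
  have a4 : |(hasseDeriv u (Pp S.h x.1 x.2.1)).eval (l : ℝ)| ≤ exp (W S) := by
    refine ((hDEN S.h x.1 x.2.1 S.h1 x1).2.2.2.2.2 l u l.cast_nonneg).trans ?_
    have h2 : ((l : ℝ) + 1) / S.h ≤ 2 * (S.E : ℝ) ^ j := by
      rw [div_le_iff₀ (by linarith)]
      nlinarith
    have h3 : 3 * (2 + ((l : ℝ) + 1) / S.h) ≤ 12 * (S.E : ℝ) ^ j := by linarith
    refine (pow_le_pow_left₀ (by positivity) (le_exp' h3) _).trans ?_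
    rw [← Real.exp_nat_mul, exp_le_exp]
    have h4 : ((x.2.1 + 1 : ℕ) : ℝ) ≤ (S.E : ℝ) ^ (5 * n + 6) := by
      have : x.2.1 + 1 ≤ S.E ^ (5 * n + 6) := x2
      exact_mod_cast this
    calc _ = (S.h : ℝ) * ((x.2.1 + 1 : ℕ) : ℝ) * (12 * (S.E : ℝ) ^ j) := by rw [Nat.cast_mul]
      _ ≤ (S.h : ℝ) * (S.E : ℝ) ^ (5 * n + 6) * (12 * (S.E : ℝ) ^ j) := by gcongr
      _ = 12 * (S.E : ℝ) ^ (j + (5 * n + 6)) * S.h := by ring
      _ ≤ _ := (leW S (by linarith) (by omega)).1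
  have b1 := om_le S x3
  have b2 : |S.om x.2.2 - ga S x.2.2| ≤ |S.La| * (S.E : ℝ) ^ (5 * n + 3) := by
    have hb : (1 : ℝ) ≤ |(S.b (Fin.last n) : ℝ)| := by exact_mod_cast Int.one_le_abs S.b0
    rw [om_eq, abs_div, abs_mul, Nat.abs_cast]
    refine (div_le_self (by positivity) hb).trans ?_
    rw [mul_comm]
    exact mul_le_mul_of_nonneg_left (x3 _) (abs_nonneg _)
  have b3 : (S.E : ℝ) ^ (5 * n + 3) ≤ W S := by simpa using (leW S (a := 5 * n + 3) h1 (by omega)).2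
  have b4 : |S.om x.2.2| ≤ W S := b1.trans (leW S e2 (by omega)).2
  have b5 : |S.om x.2.2 - ga S x.2.2| ≤ W S :=
    b2.trans ((mul_le_of_le_one_left (by positivity) hLa).trans b3)
  have a5 : |(S.om x.2.2 ^ t - ga S x.2.2 ^ t) / t.factorial| ≤ |S.La| * exp (W S) * exp (W S + W S) := by
    refine (pw _ _ t).trans (mul_le_mul (b2.trans ?_) (exp_le_exp.mpr (add_le_add b4 b5)) (by positivity)
      (by positivity))
    exact mul_le_mul_of_nonneg_left (le_exp' b3) (abs_nonneg _)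
  have a6 : |exp (S.om x.2.2 * l)| ≤ exp (W S) := by
    rw [abs_exp, exp_le_exp]
    calc _ ≤ ((n : ℝ) + 1) * S.H * (S.E : ℝ) ^ (5 * n + 3) * ((S.E : ℝ) ^ j * S.h) :=
          mul_le_mul ((le_abs_self _).trans b1) hl' l.cast_nonneg ((abs_nonneg _).trans b1)
      _ = ((n : ℝ) + 1) * S.H * (S.E : ℝ) ^ (j + (5 * n + 3)) * S.h := by ring
      _ ≤ _ := (leW S e2 (by omega)).1
  rw [abs_mul, abs_mul, abs_mul, abs_mul, abs_mul]
  calc _ ≤ exp (W S) * exp (W S) * exp (W S) * exp (W S) * (|S.La| * exp (W S) * exp (W S + W S)) *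
        exp (W S) := by gcongr
    _ = _ := by
      rw [show 8 * W S = W S + W S + W S + W S + W S + (W S + W S) + W S by ring]
      simp only [exp_add]
      ring

end BJ

open BJ in
theorem aBJ (hDEN : St_DEN) : St_BJ := by
  intro n S p j hj hLa hS hV m0 m hm l hl k hk
  have hd : ∀ (P : ℝ[X]) (s : ℕ), (hasseDeriv s (hasseDeriv m0 P)).eval (l : ℝ) =
      ((s + m0).choose s : ℝ) * (hasseDeriv (s + m0) P).eval (l : ℝ) := by
    intro P s
    have := LinearMap.congr_fun (hasseDeriv_comp (R := ℝ) s m0) P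
    rw [LinearMap.comp_apply, LinearMap.smul_apply] at this
    rw [this, nsmul_eq_mul, eval_mul, eval_natCast]
  have hJ1 : (S.J + 1 - j) * S.τ = (S.J - j) * S.τ + S.τ := by
    rw [show S.J + 1 - j = S.J - j + 1 by omega]
    ring
  have hJ2 : (S.J - j) * S.τ ≤ S.J * S.τ := Nat.mul_le_mul_right _ (Nat.sub_le _ _)
  have hz : ∑ x ∈ S.I, ∑ s ∈ range (k + 1), (p x : ℝ) * (∏ r, (S.mu x.2.2 r : ℝ) ^ m r) *
      ((s + m0).choose s : ℝ) * (hasseDeriv (s + m0) (Pp S.h x.1 x.2.1)).eval (l : ℝ) *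
      (ga S x.2.2 ^ (k - s) / (k - s).factorial) * exp (S.om x.2.2 * l) = 0 := by
    rw [Finset.sum_comm]
    refine Finset.sum_eq_zero fun s hs => ?_
    have hs' := Finset.mem_range.mp hs
    have h1 := van S p j hV l hl (s + m0) (k - s) m (by omega)
    rw [← mul_zero (((s + m0).choose s : ℝ) / (k - s).factorial), ← h1, Finset.mul_sum]
    exact Finset.sum_congr rfl fun x _ => by ring
  have key : ∑ x ∈ S.I, ((p x : ℝ) * ∏ r, (S.mu x.2.2 r : ℝ) ^ m r) *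
      jet (hasseDeriv m0 (Pp S.h x.1 x.2.1)) (S.om x.2.2) l k =
      ∑ x ∈ S.I, ∑ s ∈ range (k + 1), (p x : ℝ) * (∏ r, (S.mu x.2.2 r : ℝ) ^ m r) *
      ((s + m0).choose s : ℝ) * (hasseDeriv (s + m0) (Pp S.h x.1 x.2.1)).eval (l : ℝ) *
      ((S.om x.2.2 ^ (k - s) - ga S x.2.2 ^ (k - s)) / (k - s).factorial) * exp (S.om x.2.2 * l) := by
    rw [← sub_zero (∑ x ∈ S.I, _), ← hz, ← Finset.sum_sub_distrib]
    refine Finset.sum_congr rfl fun x _ => ?_
    rw [jet, Finset.mul_sum, ← Finset.sum_sub_distrib]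
    refine Finset.sum_congr rfl fun s _ => ?_
    rw [hd]
    ring
  obtain ⟨e1, -, -, -⟩ := E_ge S
  have h1 : (1 : ℝ) ≤ S.E := by linarith
  have hk' : ((k + 1 : ℕ) : ℝ) ≤ exp (W S) := by
    have h2 : k + 1 ≤ S.E ^ (5 * n + 7) := hk
    have h3 : ((k + 1 : ℕ) : ℝ) ≤ (S.E : ℝ) ^ (5 * n + 7) := by exact_mod_cast h2
    exact le_exp' (h3.trans (by simpa using (leW S (a := 5 * n + 7) h1 (by omega)).2))
  have hW : 0 ≤ W S := by rw [W]; positivity
  rw [key]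
  calc _ ≤ S.I.card • ((range (k + 1)).card • (|S.La| * exp (8 * W S))) := by
        refine (Finset.abs_sum_le_sum_abs _ _).trans (Finset.sum_le_card_nsmul _ _ _ fun x hx => ?_)
        refine (Finset.abs_sum_le_sum_abs _ _).trans (Finset.sum_le_card_nsmul _ _ _ fun s hs => ?_)
        have hs' := Finset.mem_range.mp hs
        refine term_le S hDEN hj hLa hS (by omega) (Finset.mem_Icc.mp hl).2 hx ?_ _
        rw [add_mul, one_mul]
        omega
    _ ≤ exp (3 * W S) * (exp (W S) * (|S.La| * exp (8 * W S))) := by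
        rw [nsmul_eq_mul, nsmul_eq_mul, Finset.card_range]
        have := card_le S
        gcongr
    _ = |S.La| * exp (12 * W S) := by
        rw [show 12 * W S = 3 * W S + (W S + 8 * W S) by ring, exp_add, exp_add]
        ring
    _ ≤ _ := by
        refine mul_le_mul_of_nonneg_left (exp_le_exp.mpr ?_) (abs_nonneg _)
        calc 12 * W S ≤ S.E * W S := mul_le_mul_of_nonneg_right (by linarith) hW
          _ = _ := by rw [W]; ring

end Pool.Agent.SU76
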