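import Pool.Agent.Lib.SU76.Defs

/-! Row BS: the auxiliary function exists, by the box principle. -/

namespace Pool.Agent.SU76

open Finset Real Polynomial

namespace BS

theorem sieg {α β : Type} [Fintype α] [Fintype β] (A : Matrix α β ℤ) {b : ℝ} (hb : 1 ≤ b)
    (h0 : 0 < Fintype.card α) (h2 : 2 * Fintype.card α ≤ Fintype.card β)
    (hA : ∀ i j, |(A i j : ℝ)| ≤ b) :
    ∃ t : β → ℤ, t ≠ 0 ∧ (∀ i, ∑ j, A i j * t j = 0) ∧ ∀ j, |(t j : ℝ)| ≤ Fintype.card β * b := by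
  obtain ⟨t, t0, t1, t2⟩ := Int.Matrix.exists_ne_zero_int_vec_norm_le A (by omega) h0
  have hN := (Matrix.norm_le_iff (A := A) (zero_le_one.trans hb)).2 fun i j => by
    rw [Int.norm_eq_abs]; exact hA i j
  refine ⟨t, t0, fun i => congrFun t1 i, fun j => ?_⟩
  have a0 : (1 : ℝ) ≤ Fintype.card α := by exact_mod_cast h0
  have a2 : 2 * (Fintype.card α : ℝ) ≤ Fintype.card β := by exact_mod_cast h2
  have e1 : (Fintype.card α : ℝ) / ((Fintype.card β : ℝ) - Fintype.card α) ≤ 1 := by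
    rw [div_le_one (by linarith)]; linarith
  refine ((Int.norm_eq_abs _).symm.trans_le (norm_le_pi_norm t j)).trans (t2.trans ?_)
  refine (Real.rpow_le_rpow_of_exponent_le ?_ e1).trans ?_
  · exact one_le_mul_of_one_le_of_one_le (by linarith) (le_max_left _ _)
  · rw [Real.rpow_one]
    exact mul_le_mul_of_nonneg_left (max_le hb hN) (by linarith)

variable {n : ℕ} (S : Bk n)

theorem E_ge : S.J + 2 ≤ S.E := by
  have h := S.hJ
  have h1 := Real.add_one_le_exp (100 * ((((5 * n + 7) * (n + 2) : ℕ) : ℝ) + 1))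
  have h2 : (0 : ℝ) ≤ (((5 * n + 7) * (n + 2) : ℕ) : ℝ) := Nat.cast_nonneg _
  have : ((S.J + 2 : ℕ) : ℝ) ≤ S.E := by
    rw [Bk.J, Nat.cast_add]
    norm_num only [Nat.cast_ofNat]
    linarith
  exact_mod_cast this

theorem J_ge : n + 7 ≤ S.J := by
  rw [Bk.J]; nlinarith [Nat.zero_le n]

theorem cnt : 2 * (S.h * (((S.J + 1) * S.τ + 1) * ((S.J + 1) * S.τ + 1) ^ n)) ≤
    S.h * (S.L0 * S.L ^ (n + 1)) := by
  have hE := E_ge S
  have hτ : 1 ≤ S.τ := Nat.one_le_pow _ _ (by omega)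
  have h1 : (S.J + 1) * S.τ + 1 ≤ S.E * S.τ := by nlinarith
  have h2 : ((S.J + 1) * S.τ + 1) * ((S.J + 1) * S.τ + 1) ^ n ≤ (S.E * S.τ) ^ (n + 1) := by
    rw [← pow_succ']; exact Nat.pow_le_pow_left h1 _
  have h3 : S.L0 * S.L ^ (n + 1) = S.E * (S.E * S.τ) ^ (n + 1) := by
    simp only [Bk.L0, Bk.L, Bk.τ]
    rw [← pow_succ', ← pow_mul, ← pow_mul, ← pow_add, ← pow_succ']
    exact congrArg _ (by ring)
  rw [h3, mul_left_comm]
  refine Nat.mul_le_mul_left _ ?_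
  exact Nat.mul_le_mul (by omega) h2

theorem mu_le {la : Fin (n + 1) → ℕ} (hla : ∀ i, la i < S.L) (r : Fin n) :
    |(S.mu la r : ℝ)| ≤ exp S.h := by
  have hL : ∀ i, (la i : ℝ) ≤ (S.E : ℝ) ^ (5 * n + 3) := fun i => by
    have := (hla i).le
    rw [Bk.L] at this
    exact_mod_cast this
  have h1 := S.hb (Fin.last n)
  have h2 := S.hb r.castSucc
  have e : (S.mu la r : ℝ) = S.b (Fin.last n) * la r.castSucc - S.b r.castSucc * la (Fin.last n) := by
    simp [Bk.mu]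
  rw [e]
  refine (abs_sub _ _).trans ?_
  rw [abs_mul, abs_mul, Nat.abs_cast, Nat.abs_cast]
  have h3 := mul_le_mul_of_nonneg_left (hL r.castSucc) (abs_nonneg (S.b (Fin.last n) : ℝ))
  have h4 := mul_le_mul_of_nonneg_left (hL (Fin.last n)) (abs_nonneg (S.b r.castSucc : ℝ))
  linarith

/-- The integer form of the exponential factor. -/
def ex (la : Fin (n + 1) → ℕ) (l : ℕ) : ℕ := ∏ i, (S.u i ^ (la i * l) * S.v i ^ ((S.L - la i) * l))

theorem ex_eq {la : Fin (n + 1) → ℕ} (hla : ∀ i, la i < S.L) (l : ℕ) :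
    (ex S la l : ℝ) = (∏ i, (S.v i : ℝ) ^ (S.L * l)) * exp (S.om la * l) := by
  rw [ex, Bk.om, sum_mul, Real.exp_sum, ← prod_mul_distrib, Nat.cast_prod]
  refine prod_congr rfl fun i _ => ?_
  have hu : (0 : ℝ) < S.u i := by exact_mod_cast S.u0 i
  have hv : (0 : ℝ) < S.v i := by exact_mod_cast S.v0 i
  have e1 : (la i : ℝ) * S.lg i * l = ((la i * l : ℕ) : ℝ) * S.lg i := by push_cast; ring
  have e2 : S.L * l = (S.L - la i) * l + la i * l := by
    rw [← add_mul, Nat.sub_add_cancel (hla i).le]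
  rw [e1, Real.exp_nat_mul, Bk.lg, Real.exp_log (div_pos hu hv), e2, pow_add, div_pow]
  push_cast
  field_simp

theorem ex_le {la : Fin (n + 1) → ℕ} (hla : ∀ i, la i < S.L) {l : ℕ} (hl : l ≤ S.h) :
    (ex S la l : ℝ) ≤ exp (S.τ * S.h) := by
  have hH : 0 ≤ S.H := zero_le_one.trans S.H1
  have h1 : (ex S la l : ℝ) ≤ ∏ _i : Fin (n + 1), exp (S.H * (S.L * S.h)) := by
    rw [ex, Nat.cast_prod]
    refine prod_le_prod (fun i _ => Nat.cast_nonneg _) fun i _ => ?_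
    have e2 : la i * l + (S.L - la i) * l = S.L * l := by
      rw [← add_mul, Nat.add_sub_cancel' (hla i).le]
    push_cast
    calc (S.u i : ℝ) ^ (la i * l) * (S.v i : ℝ) ^ ((S.L - la i) * l)
        ≤ exp S.H ^ (la i * l) * exp S.H ^ ((S.L - la i) * l) :=
          mul_le_mul (pow_le_pow_left₀ (Nat.cast_nonneg _) (S.uH i) _)
            (pow_le_pow_left₀ (Nat.cast_nonneg _) (S.vH i) _) (by positivity) (by positivity)
      _ = exp (((S.L * l : ℕ) : ℝ) * S.H) := by rw [← pow_add, e2, Real.exp_nat_mul]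
      _ ≤ _ := by
          refine Real.exp_le_exp.2 ?_
          have : ((S.L * l : ℕ) : ℝ) ≤ S.L * S.h := by exact_mod_cast Nat.mul_le_mul_left _ hl
          rw [mul_comm]
          exact mul_le_mul_of_nonneg_left this hH
  refine h1.trans ?_
  rw [prod_const, card_univ, Fintype.card_fin, ← Real.exp_nat_mul]
  refine Real.exp_le_exp.2 ?_
  have hE := E_ge S
  have h2 : S.E * S.L ≤ S.τ := by
    rw [Bk.L, Bk.τ, ← pow_succ']; exact Nat.pow_le_pow_right (by omega) (by omega)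
  have h3 : (S.E : ℝ) * S.L ≤ S.τ := by exact_mod_cast h2
  have h4 : ((n : ℝ) + 1) * S.H ≤ S.E := by
    have := S.hE
    have h5 : 0 ≤ ((n : ℝ) + 1) * S.H := by positivity
    linarith
  have h6 : (0 : ℝ) ≤ S.L * S.h := by positivity
  have h7 := mul_le_mul_of_nonneg_right h4 h6
  have h8 := mul_le_mul_of_nonneg_right h3 (Nat.cast_nonneg S.h : (0 : ℝ) ≤ S.h)
  push_cast
  linarith

theorem card_le : ((S.h * (S.L0 * S.L ^ (n + 1)) : ℕ) : ℝ) ≤ exp ((n + 3) * (S.τ * S.h)) := by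
  have hE := E_ge S
  have hτ : 1 ≤ S.τ := Nat.one_le_pow _ _ (by omega)
  have a0 : S.L0 ≤ S.τ := Nat.pow_le_pow_right (by omega) (by omega)
  have a1 : S.L ≤ S.τ := Nat.pow_le_pow_right (by omega) (by omega)
  have hh := S.h1
  have b : ∀ x : ℕ, x ≤ S.τ * S.h → (x : ℝ) ≤ exp (S.τ * S.h) := fun x hx => by
    have h1 : (x : ℝ) ≤ S.τ * S.h := by exact_mod_cast hx
    linarith [Real.add_one_le_exp ((S.τ : ℝ) * S.h)]
  have b0 := b S.h (Nat.le_mul_of_pos_left _ hτ)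
  have b1 := b S.L0 (a0.trans (Nat.le_mul_of_pos_right _ hh))
  have b2 := b S.L (a1.trans (Nat.le_mul_of_pos_right _ hh))
  have e : exp ((n + 3) * ((S.τ : ℝ) * S.h)) =
      exp (S.τ * S.h) * (exp (S.τ * S.h) * exp (S.τ * S.h) ^ (n + 1)) := by
    rw [← pow_succ', ← pow_succ', ← Real.exp_nat_mul]
    exact congrArg _ (by push_cast; ring)
  rw [e]
  push_cast
  exact mul_le_mul b0 (mul_le_mul b1 (pow_le_pow_left₀ (Nat.cast_nonneg _) b2 _) (by positivity)
    (by positivity)) (by positivity) (by positivity)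

theorem mem_I {k : ℕ × ℕ × (Fin (n + 1) → ℕ)} (hk : k ∈ S.I) :
    k.1 < S.h ∧ k.2.1 < S.L0 ∧ ∀ i, k.2.2 i < S.L := by
  simpa [Bk.I] using hk

theorem has_le (hD : St_DEN) {s t l : ℕ} (hs : s < S.h) (ht : t < S.L0) (hl : l ≤ S.h) (m : ℕ) :
    |(hasseDeriv m (Pp S.h s t)).eval (l : ℝ)| ≤ exp (3 * (S.τ * S.h)) := by
  have hE := E_ge S
  have a0 : S.L0 ≤ S.τ := Nat.pow_le_pow_right (by omega) (by omega)
  have hh : (1 : ℝ) ≤ S.h := by exact_mod_cast S.h1
  have hl' : (l : ℝ) ≤ S.h := by exact_mod_cast hl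
  refine ((hD S.h s t S.h1 hs).2.2.2.2.2 l m (Nat.cast_nonneg _)).trans ?_
  have h1 : ((l : ℝ) + 1) / S.h ≤ 2 := by rw [div_le_iff₀ (by linarith)]; linarith
  have h2 : (12 : ℝ) ≤ exp 3 := by
    have := Real.quadratic_le_exp_of_nonneg (show (0 : ℝ) ≤ 3 / 2 by norm_num)
    have e : exp 3 = exp (3 / 2) * exp (3 / 2) := by rw [← Real.exp_add]; norm_num
    rw [e]; nlinarith
  have h3 : (3 * (2 + ((l : ℝ) + 1) / S.h)) ^ (S.h * (t + 1)) ≤ exp 3 ^ (S.h * (t + 1)) :=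
    pow_le_pow_left₀ (by positivity) (by linarith) _
  refine h3.trans ?_
  rw [← Real.exp_nat_mul]
  refine Real.exp_le_exp.2 ?_
  have h4 : S.h * (t + 1) ≤ S.τ * S.h := by
    rw [mul_comm]; exact Nat.mul_le_mul_right _ (by omega)
  have h5 : ((S.h * (t + 1) : ℕ) : ℝ) ≤ S.τ * S.h := by exact_mod_cast h4
  linarith

end BS

open BS in
theorem aBS (hD : St_DEN) : St_BS := by
  classical
  intro n S
  have hz : ∀ (k : S.I) (l m : ℕ), ∃ z : ℤ, ((Nat.lcmUpto S.h : ℕ) : ℝ) ^ m *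
      (hasseDeriv m (Pp S.h k.1.1 k.1.2.1)).eval (l : ℝ) = z :=
    fun k l m => (hD S.h _ _ S.h1 (mem_I S k.2).1).1 l m
  choose z hz using hz
  have hν : ((Nat.lcmUpto S.h : ℕ) : ℝ) ≤ exp (6 * S.h) := (hD S.h 0 0 S.h1 S.h1).2.1
  have hν0 : (0 : ℝ) < ((Nat.lcmUpto S.h : ℕ) : ℝ) := by exact_mod_cast Nat.lcmUpto_pos S.h
  obtain ⟨T, hT⟩ : ∃ T, T = (S.J + 1) * S.τ := ⟨_, rfl⟩
  let A : Matrix (Fin S.h × Fin (T + 1) × (Fin n → Fin (T + 1))) S.I ℤ := fun a k =>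
    if (a.2.1 : ℕ) + ∑ r, (a.2.2 r : ℕ) ≤ T then
      (∏ r, S.mu k.1.2.2 r ^ (a.2.2 r : ℕ)) * z k (a.1 + 1) a.2.1 * (ex S k.1.2.2 (a.1 + 1) : ℕ) else 0
  have cI : Fintype.card S.I = S.h * (S.L0 * S.L ^ (n + 1)) := by
    simp [Bk.I]
  have cA : Fintype.card (Fin S.h × Fin (T + 1) × (Fin n → Fin (T + 1))) =
      S.h * ((T + 1) * (T + 1) ^ n) := by simp
  have hh0 : (0 : ℝ) ≤ S.h := Nat.cast_nonneg _
  have hb : (1 : ℝ) ≤ exp (6 * S.h * T + 4 * (S.τ * S.h)) := Real.one_le_exp (by positivity)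
  obtain ⟨t, t0, t1, t2⟩ := sieg A hb
    (by rw [cA]; have := S.h1; positivity) (by rw [cA, cI, hT]; exact cnt S) (fun a k => by
      obtain ⟨k1, k2, k3⟩ := mem_I S k.2
      have hl : (a.1 : ℕ) + 1 ≤ S.h := a.1.2
      simp only [A]
      split_ifs with hc
      · have c1 : |∏ r, (S.mu k.1.2.2 r : ℝ) ^ (a.2.2 r : ℕ)| ≤
            exp (6 * S.h) ^ (∑ r, (a.2.2 r : ℕ)) := by
          rw [abs_prod, ← prod_pow_eq_pow_sum]
          refine prod_le_prod (fun r _ => abs_nonneg _) fun r _ => ?_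
          rw [abs_pow]
          exact pow_le_pow_left₀ (abs_nonneg _)
            ((mu_le S k3 r).trans (Real.exp_le_exp.2 (by linarith))) _
        have c2 : |(z k (a.1 + 1) a.2.1 : ℝ)| ≤ exp (6 * S.h) ^ (a.2.1 : ℕ) * exp (3 * (S.τ * S.h)) := by
          rw [← hz, abs_mul, abs_pow, abs_of_pos hν0]
          exact mul_le_mul (pow_le_pow_left₀ hν0.le hν _) (has_le S hD k1 k2 hl _) (abs_nonneg _)
            (by positivity)
        have c3 := ex_le S k3 hl
        have c4 : exp (6 * S.h) ^ (∑ r, (a.2.2 r : ℕ)) * exp (6 * S.h) ^ (a.2.1 : ℕ) ≤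
            exp (6 * S.h * T) := by
          rw [← pow_add, mul_comm _ (T : ℝ), Real.exp_nat_mul]
          exact pow_le_pow_right₀ (Real.one_le_exp (by positivity)) (by omega)
        rw [Int.cast_mul, Int.cast_mul, Int.cast_prod, Int.cast_natCast, abs_mul, abs_mul, Nat.abs_cast]
        simp only [Int.cast_pow]
        calc _ ≤ exp (6 * S.h) ^ (∑ r, (a.2.2 r : ℕ)) *
              (exp (6 * S.h) ^ (a.2.1 : ℕ) * exp (3 * (S.τ * S.h))) * exp (S.τ * S.h) :=
              mul_le_mul (mul_le_mul c1 c2 (abs_nonneg _) (by positivity)) c3 (Nat.cast_nonneg _)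
                (by positivity)
          _ ≤ exp (6 * S.h * T) * exp (3 * (S.τ * S.h)) * exp (S.τ * S.h) := by
              rw [← mul_assoc]
              exact mul_le_mul_of_nonneg_right (mul_le_mul_of_nonneg_right c4 (by positivity))
                (by positivity)
          _ = _ := by rw [← Real.exp_add, ← Real.exp_add]; exact congrArg _ (by ring)
      · simpa using zero_le_one.trans hb)
  refine ⟨fun k => if hk : k ∈ S.I then t ⟨k, hk⟩ else 0, ?_, fun k hk => ?_, fun l hl m0 m hm => ?_⟩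
  · obtain ⟨k, hk⟩ := Function.ne_iff.1 t0
    exact ⟨k.1, k.2, by simpa [k.2] using hk⟩
  · simp only [dif_pos hk]
    refine (t2 _).trans ?_
    rw [cI]
    refine (mul_le_mul_of_nonneg_right (card_le S) (by positivity)).trans ?_
    rw [← Real.exp_add, hT]
    refine Real.exp_le_exp.2 ?_
    have hJ : (n : ℝ) + 7 ≤ S.J := by exact_mod_cast J_ge S
    have hn : (0 : ℝ) ≤ n := Nat.cast_nonneg _
    have hp : (0 : ℝ) ≤ (S.τ : ℝ) * S.h := by positivity
    have := mul_le_mul_of_nonneg_right (show (n : ℝ) + 7 ≤ 4 * (S.J + 1) by linarith) hp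
    push_cast
    linarith
  · rw [pow_zero, one_mul, mem_Icc] at hl
    rw [Nat.sub_zero, ← hT] at hm
    have hm' : ∀ r, m r < T + 1 := fun r => by
      have := single_le_sum (f := m) (fun i _ => Nat.zero_le _) (mem_univ r)
      omega
    have h1 := t1 (⟨l - 1, by omega⟩, ⟨m0, by omega⟩, fun r => ⟨m r, hm' r⟩)
    have e : l - 1 + 1 = l := by omega
    simp only [A, if_pos hm, e] at h1
    have h2 : ((Nat.lcmUpto S.h : ℕ) : ℝ) ^ m0 * (∏ i, (S.v i : ℝ) ^ (S.L * l)) *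
        S.ph (fun k => if hk : k ∈ S.I then t ⟨k, hk⟩ else 0) m0 m l = 0 := by
      have h3 := congrArg (Int.cast : ℤ → ℝ) h1
      rw [Int.cast_sum, Int.cast_zero] at h3
      rw [← h3, Bk.ph, ← sum_coe_sort, mul_sum]
      refine sum_congr rfl fun k _ => ?_
      rw [dif_pos k.2, Int.cast_mul, Int.cast_mul, Int.cast_mul, Int.cast_prod, Int.cast_natCast, ← hz,
        ex_eq S (mem_I S k.2).2.2]
      simp only [Int.cast_pow]
      ring
    have hv : (0 : ℝ) < ∏ i, (S.v i : ℝ) ^ (S.L * l) :=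
      prod_pos fun i _ => pow_pos (by exact_mod_cast S.v0 i) _
    exact (mul_eq_zero.1 h2).resolve_left (mul_pos (pow_pos hν0 _) hv).ne'

end Pool.Agent.SU76
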