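import Pool.Agent.Lib.SU76.Defs

/-! The extrapolation step of the auxiliary function. -/

namespace Pool.Agent.SU76

open Finset Real Polynomial

namespace BX
variable {n : ℕ} (S : Bk n)

theorem lg_le (i : Fin (n + 1)) : |S.lg i| ≤ S.H := by
  have hu : (1 : ℝ) ≤ S.u i := by exact_mod_cast S.u0 i
  have hv : (1 : ℝ) ≤ S.v i := by exact_mod_cast S.v0 i
  have h1 : log (S.u i) ≤ S.H := (log_le_iff_le_exp (by linarith)).2 (S.uH i)
  have h2 : log (S.v i) ≤ S.H := (log_le_iff_le_exp (by linarith)).2 (S.vH i)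
  have h3 := log_nonneg hu
  have h4 := log_nonneg hv
  unfold Bk.lg
  rw [log_div (by linarith) (by linarith), abs_le]
  constructor <;> linarith

theorem om_le (la : Fin (n + 1) → ℕ) (h : ∀ i, la i < S.L) : |S.om la| ≤ ((n : ℝ) + 1) * S.H * S.L := by
  unfold Bk.om
  refine (abs_sum_le_sum_abs _ _).trans ?_
  have : ∀ i ∈ (univ : Finset (Fin (n + 1))), |(la i : ℝ) * S.lg i| ≤ S.H * S.L := by
    intro i _
    rw [abs_mul, Nat.abs_cast, mul_comm]
    have h1 : (la i : ℝ) ≤ S.L := by exact_mod_cast (h i).le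
    exact mul_le_mul (lg_le S i) h1 (by positivity) (by linarith [S.H1])
  refine (sum_le_sum this).trans (le_of_eq ?_)
  simp [mul_assoc]

theorem mu_le (la : Fin (n + 1) → ℕ) (h : ∀ i, la i < S.L) (r : Fin n) : |(S.mu la r : ℝ)| ≤ exp S.h := by
  unfold Bk.mu
  push_cast
  have hL : ((S.L : ℕ) : ℝ) = (S.E : ℝ) ^ (5 * n + 3) := by simp [Bk.L]
  have key : ∀ i k, |(S.b i : ℝ) * (la k : ℝ)| ≤ exp S.h / 2 := by
    intro i k
    have h1 : (la k : ℝ) ≤ (S.E : ℝ) ^ (5 * n + 3) := by rw [← hL]; exact_mod_cast (h k).le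
    have h2 := S.hb i
    rw [abs_mul, Nat.abs_cast]
    have := mul_le_mul_of_nonneg_left h1 (abs_nonneg (S.b i : ℝ))
    linarith
  have := abs_sub (S.b (Fin.last n) * (la r.castSucc : ℝ)) (S.b r.castSucc * (la (Fin.last n) : ℝ))
  linarith [key (Fin.last n) r.castSucc, key r.castSucc (Fin.last n)]

theorem mem_I {k : ℕ × ℕ × (Fin (n + 1) → ℕ)} (hk : k ∈ S.I) :
    k.1 < S.h ∧ k.2.1 < S.L0 ∧ ∀ i, k.2.2 i < S.L := by
  simpa [Bk.I, mem_product, Fintype.mem_piFinset] using hk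

theorem exp_om (la : Fin (n + 1) → ℕ) (h : ∀ i, la i < S.L) (l : ℕ) :
    (∏ i, (S.v i : ℝ) ^ (S.L * l)) * exp (S.om la * l) =
      ((∏ i, S.u i ^ (la i * l) * S.v i ^ ((S.L - la i) * l) : ℕ) : ℝ) := by
  unfold Bk.om
  rw [sum_mul, exp_sum, ← prod_mul_distrib]
  push_cast
  refine prod_congr rfl fun i _ => ?_
  have hu : (0 : ℝ) < S.u i := by exact_mod_cast S.u0 i
  have hv : (0 : ℝ) < S.v i := by exact_mod_cast S.v0 i
  have e1 : (la i : ℝ) * S.lg i * l = ((la i * l : ℕ) : ℝ) * S.lg i := by push_cast; ring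
  have e2 : S.L * l = la i * l + (S.L - la i) * l := by
    rw [← add_mul, Nat.add_sub_cancel' (h i).le]
  rw [e1, exp_nat_mul, Bk.lg, exp_log (div_pos hu hv), e2, pow_add, div_pow]
  field_simp

theorem int_ph (hD : St_DEN) (p : ℕ × ℕ × (Fin (n + 1) → ℕ) → ℤ) (m0 : ℕ) (m : Fin n → ℕ) (l : ℕ) :
    ∃ z : ℤ, ((Nat.lcmUpto S.h : ℕ) : ℝ) ^ m0 * (∏ i, (S.v i : ℝ) ^ (S.L * l)) * S.ph p m0 m l = z := by
  have key : ∀ k ∈ S.I, ∃ z : ℤ, ((Nat.lcmUpto S.h : ℕ) : ℝ) ^ m0 * (∏ i, (S.v i : ℝ) ^ (S.L * l)) *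
      ((p k : ℝ) * (∏ r, (S.mu k.2.2 r : ℝ) ^ m r) *
        ((hasseDeriv m0 (Pp S.h k.1 k.2.1)).eval (l : ℝ) * exp (S.om k.2.2 * l))) = z := by
    intro k hk
    obtain ⟨h1, -, h3⟩ := mem_I S hk
    obtain ⟨z, hz⟩ := (hD S.h k.1 k.2.1 S.h1 h1).1 l m0
    refine ⟨p k * (∏ r, S.mu k.2.2 r ^ m r) * z *
      ((∏ i, S.u i ^ (k.2.2 i * l) * S.v i ^ ((S.L - k.2.2 i) * l) : ℕ) : ℤ), ?_⟩
    rw [Int.cast_mul, Int.cast_mul, Int.cast_mul, Int.cast_natCast, ← exp_om S k.2.2 h3 l, ← hz]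
    push_cast
    ring
  choose! z hz using key
  refine ⟨∑ k ∈ S.I, z k, ?_⟩
  unfold Bk.ph
  rw [mul_sum, Int.cast_sum]
  exact sum_congr rfl hz

theorem E_ge : 100 * ((S.J : ℝ) + 1) + 1 ≤ S.E := by
  have h := S.hJ
  have h2 := add_one_le_exp (100 * ((((5 * n + 7) * (n + 2) : ℕ) : ℝ) + 1))
  unfold Bk.J
  linarith

theorem E_pow (N : ℕ) : exp (100 * ((S.J : ℝ) + 1) * N) ≤ (S.E : ℝ) ^ N := by
  rw [mul_comm, exp_nat_mul]
  exact pow_le_pow_left₀ (exp_pos _).le S.hJ N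

theorem card_I : (S.I.card : ℝ) ≤ exp (S.h + S.L0 + ((n : ℝ) + 1) * S.L) := by
  have h0 : ∀ x : ℝ, x ≤ exp x := fun x => by linarith [add_one_le_exp x]
  have : (S.I.card : ℝ) = S.h * (S.L0 * (S.L : ℝ) ^ (n + 1)) := by
    simp [Bk.I, card_product, Fintype.card_piFinset]
  rw [this, exp_add, exp_add, mul_assoc]
  have e : ((n : ℝ) + 1) * S.L = ((n + 1 : ℕ) : ℝ) * S.L := by push_cast; ring
  rw [e, exp_nat_mul]
  gcongr <;> exact h0 _

end BX

open BX in
theorem aBX (hD : St_DEN) (hX : St_EXT) (hJ : St_BJ) : St_BX := by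
  intro n S p j hj hSm hV hLa l hl m0 m hm
  rw [Nat.add_sub_add_right] at hm
  have hE := E_ge S
  have hJ0 : (0 : ℝ) ≤ S.J := by positivity
  have hE1 : (1 : ℝ) ≤ S.E := by linarith
  have hE1n : 1 ≤ S.E := by exact_mod_cast hE1
  have hh : (1 : ℝ) ≤ S.h := by exact_mod_cast S.h1
  have hH := S.H1
  have hnE := S.hE
  have hn0 : (0 : ℝ) ≤ n := by positivity
  obtain ⟨g, hg⟩ : ∃ g : ℝ, g = (S.E : ℝ) ^ j := ⟨_, rfl⟩
  obtain ⟨Lr, hLr⟩ : ∃ x : ℝ, x = (S.E : ℝ) ^ (5 * n + 3) := ⟨_, rfl⟩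
  have hg1 : 1 ≤ g := hg ▸ one_le_pow₀ hE1
  have hL1 : 1 ≤ Lr := hLr ▸ one_le_pow₀ hE1
  have cL : ((S.L : ℕ) : ℝ) = Lr := by simp [Bk.L, hLr]
  have cL0 : ((S.L0 : ℕ) : ℝ) = Lr * (S.E : ℝ) ^ 3 := by simp [Bk.L0, hLr, ← pow_add]
  have cτ : ((S.τ : ℕ) : ℝ) = Lr * (S.E : ℝ) ^ 4 := by simp [Bk.τ, hLr, ← pow_add]
  have hτ1 : 1 ≤ S.τ := Nat.one_le_pow _ _ hE1n
  have hτ : (1 : ℝ) ≤ S.τ := by exact_mod_cast hτ1
  have hLa1 : |S.La| ≤ 1 := hLa.trans (exp_le_one_iff.2 (neg_nonpos.2 (by positivity)))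
  have hl2 : (l : ℝ) ≤ S.E * g * S.h := by
    have : (l : ℝ) ≤ ((S.E ^ (j + 1) * S.h : ℕ) : ℝ) := by exact_mod_cast (mem_Icc.1 hl).2
    rw [hg]; push_cast at this; rw [pow_succ] at this; linarith
  have cR : ((S.E ^ j * S.h : ℕ) : ℝ) = g * S.h := by rw [hg]; push_cast; rfl
  have hgh : 1 ≤ g * S.h := one_le_mul_of_one_le_of_one_le hg1 hh
  have hmr : (m0 : ℝ) + ∑ r, (m r : ℝ) ≤ S.J * S.τ := by
    have : m0 + ∑ r, m r ≤ S.J * S.τ := hm.trans (Nat.mul_le_mul_right _ (Nat.sub_le _ _))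
    exact_mod_cast this
  have hms : (0 : ℝ) ≤ ∑ r, (m r : ℝ) := by positivity
  have hm0 : (0 : ℝ) ≤ m0 := by positivity
  have hx := hX _ S.I (fun x => (p x : ℝ) * ∏ r, (S.mu x.2.2 r : ℝ) ^ m r) (fun x => S.om x.2.2)
    (fun x => hasseDeriv m0 (Pp S.h x.1 x.2.1)) (((n : ℝ) + 1) * S.H * S.L)
    (|S.La| * exp ((S.E : ℝ) ^ (S.J + 5 * n + 9) * S.h)) (S.E * g * S.h) (S.E * (S.E * g * S.h)) l
    (S.E ^ j * S.h) S.τ
    (fun x hx k => by
      rw [hasseDeriv_coeff]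
      exact mul_nonneg (by positivity) ((hD S.h x.1 x.2.1 S.h1 (mem_I S hx).1).2.2.1 _))
    (fun x hx => om_le S _ (mem_I S hx).2.2) (by positivity) hτ1
    (Nat.mul_pos (Nat.pow_pos hE1n) S.h1)
    (by rw [cR, mul_assoc]; exact le_mul_of_one_le_left (by linarith) hE1) (by positivity) (by positivity) hl2
    (hJ n S p j hj hLa1 hSm hV m0 m hm)
  obtain ⟨T, hT⟩ : ∃ x : ℝ, x = S.τ * S.h := ⟨_, rfl⟩
  obtain ⟨K, hK⟩ : ∃ x : ℝ, x = (S.J : ℝ) + 1 := ⟨_, rfl⟩
  have hT1 : 1 ≤ T := hT ▸ one_le_mul_of_one_le_of_one_le hτ hh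
  have hK1 : 1 ≤ K := by linarith
  have hW : T ≤ g * T := le_mul_of_one_le_left (by linarith) hg1
  have hKT : K * T ≤ K * (g * T) := mul_le_mul_of_nonneg_left hW (by linarith)
  have hKW : g * T ≤ K * (g * T) := le_mul_of_one_le_left (by linarith) hK1
  have hLE : ∀ i, i ≤ 4 → Lr * (S.E : ℝ) ^ i ≤ S.τ := fun i hi => by
    rw [cτ]; exact mul_le_mul_of_nonneg_left (pow_le_pow_right₀ hE1 hi) (by linarith)
  have hnH : ((n : ℝ) + 1) * S.H ≤ S.E / 2 := by
    have : 0 ≤ ((n : ℝ) + 1) * S.H := by positivity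
    linarith
  -- first term
  have t1 : |S.La| * exp ((S.E : ℝ) ^ (S.J + 5 * n + 9) * S.h) * exp (4 * S.τ * (S.E * g * S.h)) ≤
      exp (-(80 * (K * (g * T)))) := by
    obtain ⟨V, hV⟩ : ∃ x : ℝ, x = (S.E : ℝ) ^ (S.J + 5 * n + 9) * S.h := ⟨_, rfl⟩
    have e1 : (S.E : ℝ) ^ (S.J + 5 * n + 10) * S.h = S.E * V := by rw [hV]; ring
    have e2 : S.E * (g * T) ≤ V := by
      have : (S.E : ℝ) * (g * T) = (S.E : ℝ) ^ (j + 5 * n + 8) * S.h := by rw [hT, cτ, hg, hLr]; ring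
      rw [this, hV]
      exact mul_le_mul_of_nonneg_right (pow_le_pow_right₀ hE1 (by omega)) (by linarith)
    have e3 : g * T ≤ S.E * (g * T) := le_mul_of_one_le_left (by linarith) hE1
    have e4 : 4 * (S.τ : ℝ) * (S.E * g * S.h) = 4 * (S.E * (g * T)) := by rw [hT]; ring
    rw [e1] at hLa
    rw [← hV, e4]
    calc _ ≤ exp (-(S.E * V)) * exp V * exp (4 * (S.E * (g * T))) := by gcongr
      _ ≤ _ := by
        rw [← exp_add, ← exp_add]
        apply exp_le_exp.2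
        have a1 : K * (g * T) ≤ K * V := mul_le_mul_of_nonneg_left (by linarith) (by linarith)
        have a2 : (100 * K + 1) * V ≤ S.E * V := mul_le_mul_of_nonneg_right (by linarith) (by linarith)
        have a3 : V ≤ K * V := le_mul_of_one_le_left (by linarith) hK1
        linarith
  -- second term
  have t2 : ∀ x ∈ S.I, |(p x : ℝ) * ∏ r, (S.mu x.2.2 r : ℝ) ^ m r| *
      ((hasseDeriv m0 (Pp S.h x.1 x.2.1)).eval (S.E * g * S.h + S.E * (S.E * g * S.h)) *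
        exp (((n : ℝ) + 1) * S.H * S.L * (S.E * g * S.h + S.E * (S.E * g * S.h)))) ≤ exp (15 * (K * (g * T))) := by
    intro x hxI
    obtain ⟨h1, h2, h3⟩ := mem_I S hxI
    have b1 : |(p x : ℝ)| ≤ exp (10 * (K * T)) := by
      refine (hSm x hxI).trans (le_of_eq ?_)
      rw [hK, hT]; congr 1; ring
    have b2 : |∏ r, (S.mu x.2.2 r : ℝ) ^ m r| ≤ exp (K * T) := by
      rw [abs_prod]
      calc _ ≤ ∏ r, exp (m r * S.h) := by
            refine prod_le_prod (fun r _ => abs_nonneg _) fun r _ => ?_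
            rw [abs_pow, exp_nat_mul]
            exact pow_le_pow_left₀ (abs_nonneg _) (mu_le S _ h3 r) _
        _ ≤ _ := by
            rw [← exp_sum, ← sum_mul]
            apply exp_le_exp.2
            rw [hT, ← mul_assoc]
            refine mul_le_mul_of_nonneg_right ?_ (by linarith)
            rw [hK]; linarith
    have b3 : (hasseDeriv m0 (Pp S.h x.1 x.2.1)).eval (S.E * g * S.h + S.E * (S.E * g * S.h)) ≤ exp (3 * (K * T)) := by
      refine (le_abs_self _).trans (((hD S.h x.1 x.2.1 S.h1 h1).2.2.2.2.2 _ m0 (by positivity)).trans ?_)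
      have hEg : 1 ≤ S.E * g := one_le_mul_of_one_le_of_one_le hE1 hg1
      have hEEg : S.E * g ≤ S.E * (S.E * g) := le_mul_of_one_le_left (by linarith) hE1
      have c1 : ((S.E : ℝ) * g * S.h + S.E * (S.E * g * S.h) + 1) / S.h ≤ 3 * (S.E * (S.E * g)) := by
        rw [div_le_iff₀ (by linarith)]
        have q1 : (S.E : ℝ) * g * S.h ≤ S.E * (S.E * g) * S.h := mul_le_mul_of_nonneg_right hEEg (by linarith)
        have q2 : (1 : ℝ) ≤ S.E * g * S.h := one_le_mul_of_one_le_of_one_le hEg hh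
        linarith
      have c2 : 3 * (2 + ((S.E : ℝ) * g * S.h + S.E * (S.E * g * S.h) + 1) / S.h) ≤ exp (3 * K * S.E) := by
        have q1 : 15 * ((S.E : ℝ) * (S.E * g)) ≤ S.E * (S.E * (S.E * g)) :=
          mul_le_mul_of_nonneg_right (by linarith) (by linarith)
        have q2 : (S.E : ℝ) * (S.E * (S.E * g)) = (S.E : ℝ) ^ (j + 3) := by rw [hg]; ring
        have q3 : (S.E : ℝ) ^ (j + 3) ≤ exp S.E ^ (j + 3) :=
          pow_le_pow_left₀ (by linarith) (by linarith [add_one_le_exp (S.E : ℝ)]) _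
        have q4 : exp (S.E : ℝ) ^ (j + 3) ≤ exp (3 * K * S.E) := by
          rw [← exp_nat_mul]
          apply exp_le_exp.2
          refine mul_le_mul_of_nonneg_right ?_ (by linarith)
          have : (j : ℝ) ≤ S.J := by exact_mod_cast hj.le
          push_cast; linarith
        linarith
      refine (pow_le_pow_left₀ (by positivity) c2 _).trans ?_
      rw [← exp_nat_mul]
      apply exp_le_exp.2
      have q5 : ((S.h * (x.2.1 + 1) : ℕ) : ℝ) ≤ S.h * (Lr * (S.E : ℝ) ^ 3) := by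
        rw [← cL0]; exact_mod_cast Nat.mul_le_mul_left _ h2
      calc _ ≤ S.h * (Lr * (S.E : ℝ) ^ 3) * (3 * K * S.E) := mul_le_mul_of_nonneg_right q5 (by positivity)
        _ = _ := by rw [hT, cτ]; ring
    have b4 : ((n : ℝ) + 1) * S.H * S.L * (S.E * g * S.h + S.E * (S.E * g * S.h)) ≤ g * T := by
      have q1 : (S.E : ℝ) * g * S.h ≤ S.E * (S.E * g * S.h) := le_mul_of_one_le_left (by positivity) hE1
      calc _ ≤ S.E / 2 * Lr * (2 * (S.E * (S.E * g * S.h))) := by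
            rw [cL]; gcongr; linarith
        _ = g * (Lr * (S.E : ℝ) ^ 3 * S.h) := by ring
        _ ≤ _ := by rw [hT]; gcongr; exact hLE 3 (by norm_num)
    rw [abs_mul]
    calc _ ≤ exp (10 * (K * T)) * exp (K * T) * (exp (3 * (K * T)) * exp (g * T)) := by
          refine mul_le_mul (mul_le_mul b1 b2 (abs_nonneg _) (exp_pos _).le)
            (mul_le_mul b3 (exp_le_exp.2 b4) (exp_pos _).le (exp_pos _).le) ?_ (by positivity)
          refine mul_nonneg ?_ (exp_pos _).le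
          rw [eval_eq_sum_range]
          refine sum_nonneg fun k _ => mul_nonneg ?_ (by positivity)
          rw [hasseDeriv_coeff]
          exact mul_nonneg (by positivity) ((hD S.h x.1 x.2.1 S.h1 h1).2.2.1 _)
      _ ≤ _ := by
          rw [← exp_add, ← exp_add, ← exp_add]
          apply exp_le_exp.2
          linarith
  have t3 : (S.I.card : ℝ) ≤ exp (3 * (K * (g * T))) := by
    refine (card_I S).trans (exp_le_exp.2 ?_)
    have q1 : (S.h : ℝ) ≤ T := hT ▸ le_mul_of_one_le_left (by linarith) hτ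
    have q2 : (S.τ : ℝ) ≤ T := hT ▸ le_mul_of_one_le_right (by linarith) hh
    have q3 : ((n : ℝ) + 1) * Lr ≤ S.τ := by
      have : (n : ℝ) + 1 ≤ ((n : ℝ) + 1) * S.H := le_mul_of_one_le_right (by linarith) hH
      refine le_trans ?_ (hLE 1 (by norm_num))
      rw [pow_one, mul_comm]
      exact mul_le_mul_of_nonneg_left (by linarith) (by linarith)
    have q4 := hLE 3 (by norm_num)
    rw [cL, cL0]; linarith
  have t4 : ((S.E : ℝ) * g * S.h / (S.E * (S.E * g * S.h))) ^ (S.E ^ j * S.h * S.τ) ≤ exp (-(100 * (K * (g * T)))) := by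
    have e1 : (S.E : ℝ) * g * S.h / (S.E * (S.E * g * S.h)) = (S.E : ℝ)⁻¹ := by field_simp
    rw [e1, inv_pow, exp_neg]
    refine inv_anti₀ (exp_pos _) (le_trans (le_of_eq ?_) (E_pow S _))
    congr 1
    rw [Nat.cast_mul, cR, hK, hT]; ring
  have t5 : |S.ph p m0 m l| ≤ 2 * exp (-(80 * (K * (g * T)))) := by
    refine le_trans hx ?_
    have s1 := sum_le_card_nsmul _ _ _ t2
    rw [nsmul_eq_mul] at s1
    have s2 := s1.trans (mul_le_mul_of_nonneg_right t3 (exp_pos _).le)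
    have s3 := (mul_le_mul_of_nonneg_left s2 (by positivity)).trans
      (mul_le_mul_of_nonneg_right t4 (by positivity))
    rw [← exp_add, ← exp_add] at s3
    have s4 := s3.trans (exp_le_exp.2 (show _ ≤ -(80 * (K * (g * T))) by linarith))
    linarith
  obtain ⟨z, hz⟩ := int_ph S hD p m0 m l
  have d1 : ((Nat.lcmUpto S.h : ℕ) : ℝ) ^ m0 ≤ exp (6 * (K * T)) := by
    refine (pow_le_pow_left₀ (by positivity) (hD S.h 0 0 S.h1 S.h1).2.1 _).trans ?_
    rw [← exp_nat_mul]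
    apply exp_le_exp.2
    have : (m0 : ℝ) * S.h ≤ K * S.τ * S.h := mul_le_mul_of_nonneg_right (by rw [hK]; linarith) (by linarith)
    rw [hT]; linarith
  have d2 : ∏ i, (S.v i : ℝ) ^ (S.L * l) ≤ exp (g * T) := by
    calc _ ≤ ∏ _i : Fin (n + 1), exp S.H ^ (S.L * l) :=
          prod_le_prod (fun i _ => by positivity) fun i _ => pow_le_pow_left₀ (by positivity) (S.vH i) _
      _ = exp (((n : ℝ) + 1) * S.H * (Lr * l)) := by
          rw [prod_const, card_univ, Fintype.card_fin, ← exp_nat_mul, ← exp_nat_mul, Nat.cast_mul, cL]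
          congr 1; push_cast; ring
      _ ≤ _ := by
          apply exp_le_exp.2
          calc _ ≤ S.E * (Lr * (S.E * g * S.h)) := by gcongr; linarith
            _ = g * (Lr * (S.E : ℝ) ^ 2 * S.h) := by ring
            _ ≤ _ := by rw [hT]; gcongr; exact hLE 2 (by norm_num)
  have dp : 0 < ((Nat.lcmUpto S.h : ℕ) : ℝ) ^ m0 * ∏ i, (S.v i : ℝ) ^ (S.L * l) := by
    refine mul_pos (pow_pos ?_ _) (prod_pos fun i _ => pow_pos ?_ _)
    · exact_mod_cast Nat.lcmUpto_pos _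
    · exact_mod_cast S.v0 i
  have hz1 : |(z : ℝ)| < 1 := by
    rw [← hz, abs_mul, abs_of_pos dp]
    calc _ ≤ exp (6 * (K * T)) * exp (g * T) * (2 * exp (-(80 * (K * (g * T))))) :=
          mul_le_mul (mul_le_mul d1 d2 (by positivity) (exp_pos _).le) t5 (abs_nonneg _) (by positivity)
      _ = 2 * exp (6 * (K * T) + g * T + -(80 * (K * (g * T)))) := by rw [exp_add, exp_add]; ring
      _ ≤ 2 * exp (-2) := by gcongr; linarith
      _ < 1 := by
          have := add_one_le_exp (2 : ℝ)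
          rw [exp_neg, ← div_eq_mul_inv, div_lt_one (exp_pos _)]; linarith
  have hz0 : z = 0 := Int.abs_lt_one_iff.1 (by exact_mod_cast hz1)
  rw [hz0, Int.cast_zero] at hz
  exact (mul_eq_zero.1 hz).resolve_left dp.ne'

end Pool.Agent.SU76
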