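import Pool.Agent.Lib.SU76.Defs

/-! Second moment count on products of antidiagonals. -/

namespace Pool.Agent.SU76

open Finset

namespace CN2

lemma cross {m : ℕ} {α : Type} (A : Fin m → Finset α) (x : Fin m → α → ℝ)
    (h0 : ∀ h, ∑ a ∈ A h, x h a = 0) {h k : Fin m} (hk : h ≠ k) :
    ∑ j ∈ Fintype.piFinset A, x h (j h) * x k (j k) = 0 := by
  classical
  have e := Finset.prod_univ_sum A
    (fun l a => (if l = h then x l a else 1) * (if l = k then x l a else 1))
  have e2 : ∀ j : Fin m → α,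
      ∏ l, ((if l = h then x l (j l) else 1) * (if l = k then x l (j l) else 1)) =
        x h (j h) * x k (j k) := by
    intro j
    rw [Finset.prod_mul_distrib, Finset.prod_ite_eq' univ h, Finset.prod_ite_eq' univ k]
    simp
  simp only [e2] at e
  rw [← e]
  refine Finset.prod_eq_zero (mem_univ h) ?_
  simp [hk, h0 h]

lemma second {m : ℕ} {α : Type} (A : Fin m → Finset α) (x : Fin m → α → ℝ)
    (h0 : ∀ h, ∑ a ∈ A h, x h a = 0) (h1 : ∀ h, ∀ a ∈ A h, x h a * x h a ≤ 1) :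
    ∑ j ∈ Fintype.piFinset A, (∑ h, x h (j h)) ^ 2 ≤ m * ((Fintype.piFinset A).card : ℝ) := by
  classical
  have e : ∀ j : Fin m → α, (∑ h, x h (j h)) ^ 2 = ∑ h, ∑ k, x h (j h) * x k (j k) := by
    intro j
    rw [sq, Finset.sum_mul_sum]
  simp only [e]
  rw [Finset.sum_comm]
  have b : ∀ h : Fin m, ∑ j ∈ Fintype.piFinset A, ∑ k, x h (j h) * x k (j k) ≤
      ((Fintype.piFinset A).card : ℝ) := by
    intro h
    rw [Finset.sum_comm, Finset.sum_eq_single h]
    · calc ∑ j ∈ Fintype.piFinset A, x h (j h) * x h (j h) ≤ ∑ _j ∈ Fintype.piFinset A, (1 : ℝ) :=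
            Finset.sum_le_sum fun j hj => h1 h _ (Fintype.mem_piFinset.1 hj h)
        _ = _ := by simp
    · intro k _ hk
      exact cross A x h0 hk.symm
    · intro hh
      exact absurd (mem_univ h) hh
  calc _ ≤ ∑ _h : Fin m, ((Fintype.piFinset A).card : ℝ) := Finset.sum_le_sum fun h _ => b h
    _ = _ := by simp

lemma sym (N r : ℕ) (i k : Fin N) :
    ∑ a ∈ Finset.Nat.antidiagonalTuple N r, (a k : ℝ) =
      ∑ a ∈ Finset.Nat.antidiagonalTuple N r, (a i : ℝ) := by
  have hm : ∀ a ∈ Finset.Nat.antidiagonalTuple N r,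
      a ∘ Equiv.swap i k ∈ Finset.Nat.antidiagonalTuple N r := by
    intro a ha
    rw [Finset.Nat.mem_antidiagonalTuple] at ha ⊢
    rw [← ha]
    exact Equiv.sum_comp (Equiv.swap i k) a
  have hi : ∀ a : Fin N → ℕ, (a ∘ Equiv.swap i k) ∘ Equiv.swap i k = a := by
    intro a
    funext t
    simp
  refine Finset.sum_bij' (fun a _ => a ∘ Equiv.swap i k) (fun a _ => a ∘ Equiv.swap i k)
    hm hm (fun a _ => hi a) (fun a _ => hi a) ?_
  intro a _
  simp

lemma mean (N r : ℕ) (i : Fin N) (hr : 1 ≤ r) :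
    ∑ a ∈ Finset.Nat.antidiagonalTuple N r, ((a i : ℝ) / r - 1 / N) = 0 := by
  have hN : (0 : ℝ) < N := by exact_mod_cast i.pos
  have hr' : (0 : ℝ) < r := by exact_mod_cast hr
  have e1 : (N : ℝ) * ∑ a ∈ Finset.Nat.antidiagonalTuple N r, (a i : ℝ) =
      r * ((Finset.Nat.antidiagonalTuple N r).card : ℝ) := by
    calc (N : ℝ) * ∑ a ∈ Finset.Nat.antidiagonalTuple N r, (a i : ℝ)
        = ∑ k : Fin N, ∑ a ∈ Finset.Nat.antidiagonalTuple N r, (a k : ℝ) := by
          rw [Finset.sum_congr rfl fun k _ => sym N r i k]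
          simp
      _ = ∑ a ∈ Finset.Nat.antidiagonalTuple N r, ∑ k : Fin N, (a k : ℝ) := Finset.sum_comm
      _ = ∑ _a ∈ Finset.Nat.antidiagonalTuple N r, (r : ℝ) := by
          refine Finset.sum_congr rfl fun a ha => ?_
          rw [Finset.Nat.mem_antidiagonalTuple] at ha
          exact_mod_cast ha
      _ = _ := by simp [mul_comm]
  rw [Finset.sum_sub_distrib, ← Finset.sum_div, Finset.sum_const, nsmul_eq_mul]
  field_simp
  linarith

lemma bound (N r : ℕ) (i : Fin N) (hr : 1 ≤ r) :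
    ∀ a ∈ Finset.Nat.antidiagonalTuple N r,
      ((a i : ℝ) / r - 1 / N) * ((a i : ℝ) / r - 1 / N) ≤ 1 := by
  intro a ha
  rw [Finset.Nat.mem_antidiagonalTuple] at ha
  have hN : (1 : ℝ) ≤ N := by exact_mod_cast i.pos
  have hr' : (0 : ℝ) < r := by exact_mod_cast hr
  have h1 : a i ≤ r := ha ▸ Finset.single_le_sum (fun t _ => Nat.zero_le (a t)) (mem_univ i)
  have h2 : (a i : ℝ) / r ≤ 1 := by
    rw [div_le_one hr']
    exact_mod_cast h1
  have h3 : 0 ≤ (a i : ℝ) / r := by positivity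
  have h4 : (1 : ℝ) / N ≤ 1 := by
    rw [div_le_one (by linarith)]
    exact hN
  have h5 : 0 ≤ (1 : ℝ) / N := by positivity
  nlinarith

end CN2

theorem aCN2 : St_CN2 := by
  intro m N r θ i hm hr hθ
  have hm' : (0 : ℝ) < m := by exact_mod_cast hm
  have s := CN2.second (fun h => Finset.Nat.antidiagonalTuple N (r h))
    (fun h a => (a i : ℝ) / r h - 1 / N) (fun h => CN2.mean N (r h) i (hr h))
    (fun h => CN2.bound N (r h) i (hr h))
  have t : (((Ex N r).filter fun j => ∑ h, (j h i : ℝ) / r h < (m : ℝ) / N - m * θ).card : ℝ) *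
      (m * θ) ^ 2 ≤ ∑ j ∈ Ex N r, (∑ h, ((j h i : ℝ) / r h - 1 / N)) ^ 2 := by
    rw [← nsmul_eq_mul, ← Finset.sum_const]
    refine le_trans (Finset.sum_le_sum fun j hj => ?_)
      (Finset.sum_le_sum_of_subset_of_nonneg (Finset.filter_subset _ _) fun j _ _ => sq_nonneg _)
    have hj2 := (Finset.mem_filter.1 hj).2
    have e : ∑ h, ((j h i : ℝ) / r h - 1 / N) = ∑ h, (j h i : ℝ) / r h - (m : ℝ) / N := by
      rw [Finset.sum_sub_distrib]
      simp [div_eq_mul_inv]
    rw [e]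
    have p : 0 < (m : ℝ) * θ := mul_pos hm' hθ
    nlinarith
  have u := t.trans s
  refine le_of_mul_le_mul_left ?_ hm'
  calc (m : ℝ) * (_ * (m * θ ^ 2)) = _ * (m * θ) ^ 2 := by ring
    _ ≤ _ := u

end Pool.Agent.SU76
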