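import Mathlib
import Pool.Agent.Lib.SU76.Defs

namespace Pool.Agent.SU76

namespace CNT

open Finset

/-- Two exponents in the same cell differ by a power below `y`. -/
theorem cell_lt {q y v v' n : ℕ} (hq : 0 < q) (hy : 1 < y)
    (h : Nat.log y (q ^ (v * n)) = Nat.log y (q ^ (v' * n))) : (q ^ (v - v')) ^ n < y := by
  rcases le_total v v' with hv | hv
  · rw [Nat.sub_eq_zero_of_le hv]; simpa using hy
  have a1 : q ^ (v * n) < y ^ (Nat.log y (q ^ (v * n)) + 1) := Nat.lt_pow_succ_log_self hy _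
  have a2 : y ^ Nat.log y (q ^ (v' * n)) ≤ q ^ (v' * n) :=
    Nat.pow_log_le_self y (by positivity)
  rw [h, pow_succ] at a1
  have a3 : q ^ (v * n) = q ^ (v' * n) * (q ^ (v - v')) ^ n := by
    rw [← pow_mul, ← pow_add, ← add_mul, Nat.add_sub_cancel' hv]
  rw [a3] at a1
  have a4 : y ^ Nat.log y (q ^ (v' * n)) * y ≤ q ^ (v' * n) * y := Nat.mul_le_mul_right y a2
  exact lt_of_mul_lt_mul_left (lt_of_lt_of_le a1 a4) (Nat.zero_le _)

/-- The part of `u` above `u'` is smaller than `y` when the exponent vectors share a cell. -/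
theorem part_lt {M y : ℕ} (hy : 1 < y) (v v' : ℕ → ℕ)
    (h : ∀ q ∈ Finset.Icc 1 M,
      Nat.log y (q ^ (v q * (M + 1))) = Nat.log y (q ^ (v' q * (M + 1)))) :
    ∏ q ∈ Finset.Icc 1 M, q ^ (v q - v' q) < y := by
  have a1 : (∏ q ∈ Finset.Icc 1 M, q ^ (v q - v' q)) ^ (M + 1) ≤ y ^ M := by
    rw [← Finset.prod_pow]
    have := Finset.prod_le_pow_card (Finset.Icc 1 M) (fun q => (q ^ (v q - v' q)) ^ (M + 1)) y
      (fun q hq => (cell_lt (Finset.mem_Icc.1 hq).1 hy (h q hq)).le)
    simpa using this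
  have a2 : y ^ M < y ^ (M + 1) := Nat.pow_lt_pow_right hy (Nat.lt_succ_self M)
  exact lt_of_pow_lt_pow_left₀ (M + 1) (Nat.zero_le y) (lt_of_le_of_lt a1 a2)

theorem smooth_eq_prod {M u : ℕ} (hu : 0 < u) (hs : ∀ r, r.Prime → r ∣ u → r ≤ M) :
    u = ∏ q ∈ Finset.Icc 1 M, q ^ u.factorization q := by
  have a1 := Nat.prod_factorization_pow_eq_self hu.ne'
  rw [Finsupp.prod_of_support_subset _ (s := Finset.Icc 1 M) ?_ _ (by simp)] at a1
  · exact a1.symm
  intro q hq
  rw [Nat.support_factorization, Nat.mem_primeFactors] at hq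
  exact Finset.mem_Icc.2 ⟨hq.1.pos, hs q hq.1 hq.2.1⟩

/-- CNT. -/
theorem cnt (M c : ℕ) : ∃ N : ℕ, ∀ (y : ℕ) (S : Finset ℕ), Odd y → 3 ≤ y →
    (∀ u ∈ S, 0 < u ∧ (∀ r, r.Prime → r ∣ u → r ≤ M) ∧ u ≤ y ^ c ∧ u % y = 2 % y) →
      S.card ≤ N := by
  refine ⟨(Finset.pi (Finset.Icc 1 M) fun _ => Finset.range (c * (M + 1) + 1)).card,
    fun y S hodd hy hS => ?_⟩
  have hy1 : 1 < y := by omega
  refine Finset.card_le_card_of_injOn
    (fun u => fun q _ => Nat.log y (q ^ (u.factorization q * (M + 1)))) ?_ ?_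
  · intro u hu
    have hu' := hS u (Finset.mem_coe.1 hu)
    rw [Finset.mem_coe, Finset.mem_pi]
    intro q hq
    rw [Finset.mem_range]
    have b1 : q ^ u.factorization q ≤ y ^ c :=
      le_trans (Nat.ordProj_le q hu'.1.ne') hu'.2.2.1
    have b2 : q ^ (u.factorization q * (M + 1)) ≤ y ^ (c * (M + 1)) := by
      rw [pow_mul, pow_mul]; exact Nat.pow_le_pow_left b1 _
    have b3 := Nat.log_mono_right (b := y) b2
    rw [Nat.log_pow hy1] at b3
    exact Nat.lt_succ_of_le b3
  · intro u hu u' hu' huu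
    have h1 := hS u (Finset.mem_coe.1 hu)
    have h2 := hS u' (Finset.mem_coe.1 hu')
    have hc : ∀ q ∈ Finset.Icc 1 M, Nat.log y (q ^ (u.factorization q * (M + 1)))
        = Nat.log y (q ^ (u'.factorization q * (M + 1))) := fun q hq =>
      congrFun (congrFun huu q) hq
    have ha := part_lt hy1 (fun q => u.factorization q) (fun q => u'.factorization q) hc
    have hb := part_lt hy1 (fun q => u'.factorization q) (fun q => u.factorization q)
      (fun q hq => (hc q hq).symm)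
    set a := ∏ q ∈ Finset.Icc 1 M, q ^ (u.factorization q - u'.factorization q) with hadef
    set b := ∏ q ∈ Finset.Icc 1 M, q ^ (u'.factorization q - u.factorization q) with hbdef
    have hab : u * b = u' * a := by
      have e1 := smooth_eq_prod h1.1 h1.2.1
      have e2 := smooth_eq_prod h2.1 h2.2.1
      calc u * b = (∏ q ∈ Finset.Icc 1 M, q ^ u.factorization q) * b := by rw [← e1]
        _ = (∏ q ∈ Finset.Icc 1 M, q ^ u'.factorization q) * a := by
          rw [hadef, hbdef, ← Finset.prod_mul_distrib, ← Finset.prod_mul_distrib]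
          refine Finset.prod_congr rfl fun q _ => ?_
          rw [← pow_add, ← pow_add]
          exact congrArg (q ^ ·) (by omega)
        _ = u' * a := by rw [← e2]
    have m1 : u ≡ 2 [MOD y] := h1.2.2.2
    have m2 : u' ≡ 2 [MOD y] := h2.2.2.2
    have m3 : 2 * b ≡ 2 * a [MOD y] :=
      ((m1.mul_right b).symm.trans (hab ▸ Nat.ModEq.refl _)).trans (m2.mul_right a)
    have m4 : b ≡ a [MOD y] :=
      Nat.ModEq.cancel_left_of_coprime (Nat.coprime_two_right.2 hodd) m3
    have m5 : b = a := Nat.ModEq.eq_of_lt_of_lt m4 hb ha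
    have ha0 : 0 < a := Finset.prod_pos fun q hq => pow_pos (Finset.mem_Icc.1 hq).1 _
    rw [m5] at hab
    exact Nat.eq_of_mul_eq_mul_right ha0 hab

end CNT

theorem aCNT : St_CNT := by
  intro M c
  obtain ⟨N, h⟩ := CNT.cnt M (c + 1)
  refine ⟨N, fun y R hodd hy hR => ?_⟩
  have h1 := h y (R.image (· + 1)) hodd hy (by
    intro u hu
    obtain ⟨p, hp, rfl⟩ := Finset.mem_image.1 hu
    obtain ⟨a1, a2, a3⟩ := hR p hp
    refine ⟨Nat.succ_pos p, fun r hr hd => (Nat.mem_smoothNumbers'.1 a1 r hr hd).le, ?_, ?_⟩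
    · have b1 : 0 < y ^ c := by positivity
      have b2 : y ^ c * 3 ≤ y ^ c * y := Nat.mul_le_mul_left _ hy
      rw [pow_succ]
      omega
    · exact a3.add_right 1)
  rwa [Finset.card_image_of_injective _ (add_left_injective 1)] at h1

end Pool.Agent.SU76
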