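import Pool.Agent.Lib.SU76.Defs

/-! Row DEN: denominators and size of the Feldman polynomials. -/

namespace Pool.Agent.SU76
open Polynomial Real
namespace DEN

/-- The binomial polynomial of degree k evaluated at a polynomial T. -/
noncomputable def Bn (k : ℕ) (T : ℝ[X]) : ℝ[X] :=
  ∏ j ∈ Finset.range k, (C (((j : ℝ) + 1)⁻¹) * T + 1)

theorem Bn_zero (T : ℝ[X]) : Bn 0 T = 1 := by simp [Bn]

theorem Bn_succ (k : ℕ) (T : ℝ[X]) :
    Bn (k + 1) T = Bn k T * (C (((k : ℝ) + 1)⁻¹) * T + 1) := by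
  simp only [Bn, Finset.prod_range_succ]

theorem Bn_comp (k : ℕ) (T : ℝ[X]) : (Bn k X).comp T = Bn k T := by
  induction k with
  | zero => simp [Bn_zero]
  | succ k ih => rw [Bn_succ, Bn_succ, mul_comp, ih]; simp

theorem Bn_shift (k : ℕ) (T : ℝ[X]) :
    Bn (k + 1) T = C (((k : ℝ) + 1)⁻¹) * (T + 1) * Bn k (T + 1) := by
  induction k with
  | zero => simp [Bn_succ, Bn_zero]
  | succ k ih =>
    have e : C (((k : ℝ) + 1)⁻¹) =
        C ((((k + 1 : ℕ) : ℝ) + 1)⁻¹) * C (((k : ℝ) + 1)⁻¹) + C ((((k + 1 : ℕ) : ℝ) + 1)⁻¹) := by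
      rw [← C_mul, ← C_add]
      congr 1
      push_cast
      field_simp
      ring
    rw [Bn_succ (k + 1), ih, Bn_succ k (T + 1)]
    linear_combination ((T + 1) * Bn k (T + 1)) * e

theorem Bn_pascal (k : ℕ) (T : ℝ[X]) :
    Bn (k + 1) (T + 1) = Bn (k + 1) T + Bn k (T + 1) := by
  rw [Bn_succ k (T + 1), Bn_shift k T]; ring

theorem Bn_degree (k : ℕ) : (Bn k X).degree = k := by
  induction k with
  | zero => simp [Bn_zero]
  | succ k ih =>
    have h0 : ((k : ℝ) + 1)⁻¹ ≠ 0 := by positivity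
    have e : (C (((k : ℝ) + 1)⁻¹) * X + 1 : ℝ[X]).degree = 1 := by
      rw [← C_1]; exact degree_linear h0
    rw [Bn_succ, degree_mul, ih, e]; push_cast; rfl

theorem mul_nn {p q : ℝ[X]} (hp : ∀ j, 0 ≤ p.coeff j) (hq : ∀ j, 0 ≤ q.coeff j) (j : ℕ) :
    0 ≤ (p * q).coeff j := by
  rw [coeff_mul]
  exact Finset.sum_nonneg fun c _ => mul_nonneg (hp _) (hq _)

theorem one_nn (j : ℕ) : 0 ≤ (1 : ℝ[X]).coeff j := by
  rw [coeff_one]; split_ifs <;> norm_num

theorem pow_nn {p : ℝ[X]} (hp : ∀ j, 0 ≤ p.coeff j) (n : ℕ) : ∀ j, 0 ≤ (p ^ n).coeff j := by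
  induction n with
  | zero => simpa using one_nn
  | succ n ih => rw [pow_succ]; exact mul_nn ih hp

theorem Bn_nn (k : ℕ) : ∀ j, 0 ≤ (Bn k X).coeff j := by
  induction k with
  | zero => rw [Bn_zero]; exact one_nn
  | succ k ih =>
    rw [Bn_succ]
    refine mul_nn ih fun j => ?_
    rw [coeff_add, coeff_C_mul, coeff_X]
    refine add_nonneg (mul_nonneg (by positivity) ?_) (one_nn j)
    split_ifs <;> norm_num

theorem Bn_eval (x y : ℝ) (hx : 0 ≤ x) (k : ℕ) (hk : x + k ≤ y) :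
    0 ≤ (Bn k X).eval x ∧ (Bn k X).eval x ≤ y ^ k / (k.factorial : ℝ) := by
  induction k with
  | zero => simp [Bn_zero]
  | succ k ih =>
    push_cast at hk
    obtain ⟨i0, i1⟩ := ih (by linarith)
    have hk0 : (0 : ℝ) < (k : ℝ) + 1 := by positivity
    have e : (C (((k : ℝ) + 1)⁻¹) * X + 1 : ℝ[X]).eval x = (x + (k + 1)) / ((k : ℝ) + 1) := by
      simp only [eval_add, eval_mul, eval_C, eval_X, eval_one]
      field_simp
    rw [Bn_succ, eval_mul, e]
    refine ⟨mul_nonneg i0 (by positivity), ?_⟩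
    have hy : 0 ≤ y := by linarith [hk0]
    have e2 : y ^ (k + 1) / ((k + 1).factorial : ℝ) = y ^ k / (k.factorial : ℝ) * (y / ((k : ℝ) + 1)) := by
      rw [Nat.factorial_succ]; push_cast; field_simp; ring
    rw [e2]
    exact mul_le_mul i1 (div_le_div_of_nonneg_right hk hk0.le) (by positivity) (by positivity)

theorem Bn_le (x : ℝ) (hx : 0 ≤ x) (k h : ℕ) (hk : k ≤ h) :
    0 ≤ (Bn k X).eval x ∧ (Bn k X).eval x ≤ exp (x + h) := by
  have hk' : (k : ℝ) ≤ h := by exact_mod_cast hk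
  obtain ⟨i0, i1⟩ := Bn_eval x (x + h) hx k (by linarith)
  exact ⟨i0, i1.trans (Real.pow_div_factorial_le_exp _ (by positivity) k)⟩

/-- Real polynomials with integer coefficients. -/
noncomputable def ZP : Subring ℝ[X] := (mapRingHom (Int.castRingHom ℝ)).range

theorem ZP_coeff {p : ℝ[X]} (hp : p ∈ ZP) (m : ℕ) : ∃ z : ℤ, p.coeff m = z := by
  obtain ⟨q, rfl⟩ := hp
  exact ⟨q.coeff m, by simp⟩

theorem ZP_lin (n : ℕ) : (C (n : ℝ) * X : ℝ[X]) ∈ ZP :=
  ⟨C (n : ℤ) * X, by simp⟩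

theorem Bn_int (h ν : ℕ) (hν : ∀ i, 1 ≤ i → i ≤ h → i ∣ ν) (k : ℕ) (hk : k ≤ h) (l : ℕ) :
    Bn k (C (ν : ℝ) * X + C (l : ℝ)) ∈ ZP := by
  induction k generalizing l with
  | zero => rw [Bn_zero]; exact ZP.one_mem
  | succ k ihk =>
    induction l with
    | zero =>
      have i0 := ihk (by omega) 0
      rw [Bn_succ]
      refine ZP.mul_mem i0 (ZP.add_mem ?_ ZP.one_mem)
      obtain ⟨c, hc⟩ := hν (k + 1) (by omega) hk
      have e : (C (((k : ℝ) + 1)⁻¹) * (C (ν : ℝ) * X + C ((0 : ℕ) : ℝ)) : ℝ[X]) = C (c : ℝ) * X := by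
        have e1 : ((k : ℝ) + 1)⁻¹ * (ν : ℝ) = c := by
          rw [hc]; push_cast; field_simp
        rw [← e1, C_mul]; simp [mul_assoc]
      rw [e]; exact ZP_lin c
    | succ l ihl =>
      have i0 := ihk (by omega) (l + 1)
      have e : (C (ν : ℝ) * X + C ((l + 1 : ℕ) : ℝ) : ℝ[X]) = (C (ν : ℝ) * X + C (l : ℝ)) + 1 := by
        push_cast; rw [C_add, C_1]; ring
      rw [e] at i0 ⊢
      rw [Bn_pascal]
      exact ZP.add_mem ihl i0

theorem coeff_eq (p : ℝ[X]) (a b : ℝ) (m : ℕ) :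
    (p.comp (C a * X + C b)).coeff m = a ^ m * (hasseDeriv m p).eval b := by
  have e : p.comp (C a * X + C b) = (taylor b p).comp (C a * X) := by
    rw [taylor_apply, comp_assoc]; simp
  rw [e, comp_C_mul_X_coeff, taylor_coeff, mul_comm]

theorem De_eq (k : ℕ) : De k = Bn k X := by
  induction k with
  | zero => simp [De, Bn_zero]
  | succ k ih =>
    rw [Bn_succ, ← ih]
    unfold De
    have e : (C (1 / ((k + 1).factorial : ℝ)) : ℝ[X]) = C (1 / (k.factorial : ℝ)) * C (((k : ℝ) + 1)⁻¹) := by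
      rw [← C_mul, Nat.factorial_succ]; congr 1; push_cast; field_simp
    have e2 : (C (((k : ℝ) + 1)⁻¹) * C ((k : ℝ) + 1) : ℝ[X]) = 1 := by
      rw [← C_mul, inv_mul_cancel₀ (by positivity), C_1]
    rw [Finset.prod_range_succ, e]
    linear_combination (C (1 / (k.factorial : ℝ)) * ∏ j ∈ Finset.range k, (X + C ((j : ℝ) + 1))) * e2

theorem Bn_nn' {T : ℝ[X]} (hT : ∀ j, 0 ≤ T.coeff j) (k : ℕ) : ∀ j, 0 ≤ (Bn k T).coeff j := by
  induction k with
  | zero => rw [Bn_zero]; exact one_nn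
  | succ k ih =>
    rw [Bn_succ]
    refine mul_nn ih fun j => ?_
    rw [coeff_add, coeff_C_mul]
    exact add_nonneg (mul_nonneg (by positivity) (hT j)) (one_nn j)

theorem coeff_le_eval {p : ℝ[X]} (hp : ∀ j, 0 ≤ p.coeff j) (m : ℕ) : p.coeff m ≤ p.eval 1 := by
  rw [eval_eq_sum_range' (n := p.natDegree + m + 1) (by omega)]
  simp only [one_pow, mul_one]
  exact Finset.single_le_sum (f := fun i => p.coeff i) (fun i _ => hp i)
    (Finset.mem_range.2 (by omega))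

theorem Bn_mono (y : ℝ) (hy : 0 ≤ y) (k n : ℕ) : (Bn k X).eval y ≤ (Bn (k + n) X).eval y := by
  induction n with
  | zero => simp
  | succ n ih =>
    rw [← add_assoc, Bn_succ, eval_mul]
    have i0 := (Bn_le y hy (k + n) (k + n) le_rfl).1
    refine ih.trans (le_mul_of_one_le_right i0 ?_)
    simp only [eval_add, eval_mul, eval_C, eval_X, eval_one]
    have : 0 ≤ (((k + n : ℕ) : ℝ) + 1)⁻¹ * y := by positivity
    linarith

theorem Bn_size (y : ℝ) (hy : 0 ≤ y) (k h : ℕ) (h1 : 1 ≤ h) (hk : k ≤ h) :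
    (Bn k X).eval y ≤ (3 * (2 + y / h)) ^ h := by
  obtain ⟨n, rfl⟩ := Nat.exists_eq_add_of_le hk
  refine (Bn_mono y hy k n).trans ?_
  generalize k + n = h at h1
  have h0 : (0 : ℝ) < h := by exact_mod_cast h1
  refine (Bn_eval y (y + h) hy h le_rfl).2.trans ?_
  have a : (h : ℝ) ^ h / (h.factorial : ℝ) ≤ 3 ^ h := by
    refine (Real.pow_div_factorial_le_exp _ h0.le h).trans ?_
    rw [← mul_one (h : ℝ), Real.exp_nat_mul]
    exact pow_le_pow_left₀ (exp_pos _).le (by linarith [Real.exp_one_lt_d9]) _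
  have e : (y + h) ^ h / (h.factorial : ℝ) = (h : ℝ) ^ h / (h.factorial : ℝ) * (1 + y / h) ^ h := by
    have : y + h = h * (1 + y / h) := by field_simp; ring
    rw [this, mul_pow]; ring
  rw [e, mul_pow]
  have hyh : 0 ≤ y / h := by positivity
  exact mul_le_mul a (pow_le_pow_left₀ (by positivity) (by linarith) _) (by positivity) (by positivity)

end DEN
open DEN

theorem aDEN : St_DEN := by
  intro h s t h1 hs
  have hP : Pp h s t = Bn s X * Bn h X ^ t := by rw [Pp, De_eq, De_eq]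
  have hdeg : (Pp h s t).degree = ((s + h * t : ℕ) : WithBot ℕ) := by
    rw [hP]
    simp only [degree_mul, degree_pow, Bn_degree, nsmul_eq_mul]
    push_cast; rw [mul_comm]
  refine ⟨?_, ?_, ?_, natDegree_eq_of_degree_eq_some hdeg, ?_, ?_⟩
  · intro l m
    have hν : ∀ i, 1 ≤ i → i ≤ h → i ∣ Nat.lcmUpto h := fun i a b =>
      Finset.dvd_lcm (f := id) (Finset.mem_Icc.2 ⟨a, b⟩)
    rw [← coeff_eq]
    refine ZP_coeff ?_ m
    rw [hP, mul_comp, pow_comp, Bn_comp, Bn_comp]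
    exact ZP.mul_mem (Bn_int h _ hν _ hs.le l) (ZP.pow_mem (Bn_int h _ hν _ le_rfl l) _)
  · have p0 : (0 : ℝ) < Nat.lcmUpto h := by exact_mod_cast Nat.lcmUpto_pos h
    rw [← Real.log_le_iff_le_exp p0, ← Chebyshev.psi_eq_log_lcmUpto]
    have h0 : (0 : ℝ) ≤ h := by positivity
    refine (Chebyshev.psi_le_const_mul_self h0).trans (mul_le_mul_of_nonneg_right ?_ h0)
    have := Real.log_le_sub_one_of_pos (show (0 : ℝ) < 2 by norm_num)
    have e : Real.log 4 = 2 * Real.log 2 := by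
      rw [show (4 : ℝ) = 2 ^ 2 by norm_num, Real.log_pow]; norm_num
    linarith
  · rw [hP]; exact mul_nn (Bn_nn _) (pow_nn (Bn_nn _) _)
  · intro h0
    rw [h0, degree_zero] at hdeg
    exact WithBot.bot_ne_coe hdeg
  · intro x m hx
    have hT : ∀ j, 0 ≤ (X + C x : ℝ[X]).coeff j := fun j => by
      rw [coeff_add, coeff_X, coeff_C]
      split_ifs <;> linarith
    have nn : ∀ j, 0 ≤ (taylor x (Pp h s t)).coeff j := by
      rw [taylor_apply, hP, mul_comp, pow_comp, Bn_comp, Bn_comp]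
      exact mul_nn (Bn_nn' hT _) (pow_nn (Bn_nn' hT _) _)
    rw [← taylor_coeff, abs_of_nonneg (nn m)]
    refine (coeff_le_eval nn m).trans ?_
    have hy : 0 ≤ x + 1 := by linarith
    rw [taylor_eval, add_comm 1 x, hP, eval_mul, eval_pow, pow_mul, pow_succ']
    exact mul_le_mul (Bn_size _ hy s h h1 hs.le)
      (pow_le_pow_left₀ (Bn_le _ hy h h le_rfl).1 (Bn_size _ hy h h h1 le_rfl) _)
      (pow_nonneg (Bn_le _ hy h h le_rfl).1 _) (by positivity)

end Pool.Agent.SU76
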