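import Pool.Agent.Lib.SU76.Defs

/-! Row EST: small coefficients of the parametrised auxiliary polynomial vanish. -/

namespace Pool.Agent.SU76

open Finset Real MvPolynomial

namespace EST

theorem par_lin {m N : ℕ} (A : Mx (N + 1)) (η : Fin m → Fin N → Fin (N + 1) → ℤ) (e : Fin m → Fin (N + 1))
    (P : Pl m (N + 1)) :
    par η e (lin A P) = bind₁ (fun x : Fin m × Fin (N + 1) =>
      (∑ j, C (A.mulVec (η x.1 j) x.2) * X (x.1, some j) + C (A x.2 (e x.1)) * X (x.1, none) :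
        MvPolynomial (Fin m × Option (Fin N)) ℤ)) P := by
  unfold par lin
  rw [bind₁_bind₁]
  refine congrArg (fun F => bind₁ F P) (funext fun x => ?_)
  simp only [map_sum, map_mul, bind₁_C_right, bind₁_X_right, mul_add, Finset.sum_add_distrib,
    Finset.mul_sum, mul_ite, mul_zero, Finset.sum_ite_eq', Finset.mem_univ, if_true, Matrix.mulVec,
    dotProduct, Finset.sum_mul]
  rw [Finset.sum_comm]
  simp only [mul_assoc]

/-- The exponent of a balanced monomial. -/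
theorem expo {m N : ℕ} (c : Fin N → ℝ) (κ θ R : ℝ) (r : Fin m → ℕ) (L : Fin m → ℝ) (d : Fin m × Fin N → ℕ)
    (hκ : ∀ i, c i ≤ κ) (hκ0 : 0 ≤ κ) (hR : 0 ≤ R) (hr : ∀ h, 1 ≤ r h)
    (hL : ∀ h, R ≤ r h * L h ∧ r h * L h ≤ (1 + θ) * R) (hd : ∀ h, ∑ i, d (h, i) = r h)
    (hb : ∀ i, (m : ℝ) / N - m * θ ≤ ∑ h, (d (h, i) : ℝ) / r h) :
    ∑ x : Fin m × Fin N, (d x : ℝ) * (L x.1 * c x.2) ≤
      m * R * (κ * (1 + θ) - (∑ i, (κ - c i)) * (1 / N - θ)) := by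
  have h1 : ∑ x : Fin m × Fin N, (d x : ℝ) * (L x.1 * c x.2) =
      κ * ∑ h, (r h : ℝ) * L h - ∑ i, (κ - c i) * ∑ h, (d (h, i) : ℝ) * L h := by
    have e1 : κ * ∑ h, (r h : ℝ) * L h = ∑ h, ∑ i, κ * ((d (h, i) : ℝ) * L h) := by
      rw [Finset.mul_sum]
      refine Finset.sum_congr rfl fun h _ => ?_
      rw [← hd h, Nat.cast_sum, Finset.sum_mul, Finset.mul_sum]
    have e2 : ∑ i, (κ - c i) * ∑ h, (d (h, i) : ℝ) * L h = ∑ h, ∑ i, (κ - c i) * ((d (h, i) : ℝ) * L h) := by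
      rw [Finset.sum_comm]
      exact Finset.sum_congr rfl fun i _ => Finset.mul_sum _ _ _
    rw [e1, e2, Fintype.sum_prod_type, ← Finset.sum_sub_distrib]
    refine Finset.sum_congr rfl fun h _ => ?_
    rw [← Finset.sum_sub_distrib]
    exact Finset.sum_congr rfl fun i _ => by ring
  have h2 : ∑ h, (r h : ℝ) * L h ≤ m * ((1 + θ) * R) := by
    have := Finset.sum_le_card_nsmul univ (fun h => (r h : ℝ) * L h) ((1 + θ) * R) fun h _ => (hL h).2
    simpa using this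
  have h3 : ∀ i, R * ((m : ℝ) / N - m * θ) ≤ ∑ h, (d (h, i) : ℝ) * L h := fun i => by
    refine (mul_le_mul_of_nonneg_left (hb i) hR).trans ?_
    rw [Finset.mul_sum]
    refine Finset.sum_le_sum fun h _ => ?_
    have hr0 : (0 : ℝ) < r h := by exact_mod_cast hr h
    have hq : (0 : ℝ) ≤ (d (h, i) : ℝ) / r h := by positivity
    calc R * ((d (h, i) : ℝ) / r h) ≤ (r h * L h) * ((d (h, i) : ℝ) / r h) :=
          mul_le_mul_of_nonneg_right (hL h).1 hq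
      _ = (d (h, i) : ℝ) * L h := by field_simp
  have h4 : (∑ i, (κ - c i)) * (R * ((m : ℝ) / N - m * θ)) ≤ ∑ i, (κ - c i) * ∑ h, (d (h, i) : ℝ) * L h := by
    rw [Finset.sum_mul]
    exact Finset.sum_le_sum fun i _ => mul_le_mul_of_nonneg_left (h3 i) (sub_nonneg.2 (hκ i))
  have h5 := mul_le_mul_of_nonneg_left h2 hκ0
  have h6 : m * R * (κ * (1 + θ) - (∑ i, (κ - c i)) * (1 / N - θ)) =
      κ * (m * ((1 + θ) * R)) - (∑ i, (κ - c i)) * (R * ((m : ℝ) / N - m * θ)) := by ring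
  rw [h1, h6]
  linarith

/-- The estimate at one place. -/
theorem place (hN : St_NRM) {m N : ℕ} (g : AbsoluteValue ℤ ℝ) (hg : ∀ y, g y ≤ |(y : ℝ)|) (A : Mx (N + 1))
    (c : Fin (N + 1) → ℝ) (κ K θ R Y : ℝ) (r : Fin m → ℕ) (L : Fin m → ℝ) (P : Pl m (N + 1))
    (η : Fin m → Fin N → Fin (N + 1) → ℤ) (e : Fin m → Fin (N + 1)) (k : Fin m × Option (Fin N) →₀ ℕ)
    (hκ : ∀ i, |c i| ≤ κ) (hK : ∀ i j, (N : ℝ) + |(A i j : ℝ)| ≤ exp K) (hθ : 0 ≤ θ) (hR : 0 ≤ R)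
    (hr : ∀ h, 1 ≤ r h) (hL0 : ∀ h, 0 ≤ L h) (hL : ∀ h, R ≤ r h * L h ∧ r h * L h ≤ (1 + θ) * R)
    (hP : Hom r P) (hl : l1 P ≤ exp Y) (hB : Bal r θ P)
    (hη : ∀ h j i, g (A.mulVec (η h j) i) ≤ exp (L h * c i)) (hk : ∑ h, (k (h, none) : ℝ) / r h ≤ θ) :
    g ((par η e (lin A P)).coeff k) ≤ exp (κ * ((1 + θ) * R * θ) + (Y + (K * ∑ h, (r h : ℝ) +
      m * R * (κ * (1 + θ) - (∑ i, (κ - c i)) * (1 / (N + 1 : ℕ) - θ))))) := by
  have hκ0 : 0 ≤ κ := (abs_nonneg _).trans (hκ 0)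
  set w : Fin m × Option (Fin N) → ℝ := fun s => exp (s.2.elim (-(κ * L s.1)) fun _ => 0) with hw
  obtain ⟨-, hadd, hmul, hC, hX, hco, hsum, hbind⟩ :=
    (hN (Fin m × Option (Fin N))).1 g w fun s => (exp_pos _).le
  set b : Fin m × Fin (N + 1) → ℝ := fun x => exp (K + L x.1 * c x.2) with hb
  have h1 : nw g w (par η e (lin A P)) ≤ nw g b P := by
    rw [par_lin]
    refine hbind _ _ b P fun x => ?_
    refine (hadd _ _).trans ?_
    have a1 : nw g w (∑ j, C (A.mulVec (η x.1 j) x.2) * X (x.1, some j)) ≤ N * exp (L x.1 * c x.2) := by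
      refine (hsum _ univ _).1.trans ?_
      have := Finset.sum_le_card_nsmul univ
        (fun j => nw g w (C (A.mulVec (η x.1 j) x.2) * X (x.1, some j))) (exp (L x.1 * c x.2)) fun j _ => by
          refine (hmul _ _).trans ?_
          rw [hC, hX]
          simpa [hw] using hη x.1 j x.2
      simpa using this
    have a2 : nw g w (C (A x.2 (e x.1)) * X (x.1, none)) ≤ |(A x.2 (e x.1) : ℝ)| * exp (L x.1 * c x.2) := by
      refine (hmul _ _).trans ?_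
      rw [hC, hX]
      refine mul_le_mul (hg _) ?_ (exp_pos _).le (abs_nonneg _)
      simp only [hw, Option.elim]
      refine exp_le_exp.2 ?_
      have := mul_le_mul_of_nonneg_left (abs_le.1 (hκ x.2)).1 (hL0 x.1)
      linarith
    have a3 := mul_le_mul_of_nonneg_right (hK x.2 (e x.1)) (exp_pos (L x.1 * c x.2)).le
    simp only [hb]
    rw [exp_add]
    linarith
  have h2 : nw g b P ≤ l1 P * exp (K * ∑ h, (r h : ℝ) +
      m * R * (κ * (1 + θ) - (∑ i, (κ - c i)) * (1 / (N + 1 : ℕ) - θ))) := by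
    unfold nw l1
    rw [Finset.sum_mul]
    refine Finset.sum_le_sum fun d hd => ?_
    refine mul_le_mul (hg _) ?_ (Finset.prod_nonneg fun s _ => by positivity) (abs_nonneg _)
    have e1 : ∏ s, b s ^ d s = exp (∑ s, (d s : ℝ) * (K + L s.1 * c s.2)) := by
      rw [exp_sum]
      exact Finset.prod_congr rfl fun s _ => by rw [exp_nat_mul]
    rw [e1]
    refine exp_le_exp.2 ?_
    have e2 : ∑ s : Fin m × Fin (N + 1), (d s : ℝ) * (K + L s.1 * c s.2) =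
        K * ∑ h, (r h : ℝ) + ∑ s : Fin m × Fin (N + 1), (d s : ℝ) * (L s.1 * c s.2) := by
      have e3 : ∑ h, (r h : ℝ) = ∑ s : Fin m × Fin (N + 1), (d s : ℝ) := by
        rw [Fintype.sum_prod_type]
        exact Finset.sum_congr rfl fun h _ => by rw [← hP d hd h, Nat.cast_sum]
      rw [e3, Finset.mul_sum, ← Finset.sum_add_distrib]
      exact Finset.sum_congr rfl fun s _ => by ring
    rw [e2]
    have := expo c κ θ R r L d (fun i => (le_abs_self _).trans (hκ i)) hκ0 hR hr hL (hP d hd) (hB d hd)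
    linarith
  have h3 : exp (-(κ * ((1 + θ) * R * θ))) ≤ ∏ s, w s ^ k s := by
    have e1 : ∏ s, w s ^ k s = exp (∑ s : Fin m × Option (Fin N), (k s : ℝ) * s.2.elim (-(κ * L s.1)) fun _ => 0) := by
      rw [exp_sum]
      exact Finset.prod_congr rfl fun s _ => by rw [exp_nat_mul]
    rw [e1]
    refine exp_le_exp.2 ?_
    rw [Fintype.sum_prod_type]
    simp only [Fintype.sum_option, Option.elim, mul_zero, Finset.sum_const_zero, add_zero]
    have hR' : 0 ≤ (1 + θ) * R := by positivity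
    have e2 : ∑ h, (k (h, none) : ℝ) * L h ≤ (1 + θ) * R * θ := by
      refine le_trans ?_ (mul_le_mul_of_nonneg_left hk hR')
      rw [Finset.mul_sum]
      refine Finset.sum_le_sum fun h _ => ?_
      have hr0 : (0 : ℝ) < r h := by exact_mod_cast hr h
      have hq : (0 : ℝ) ≤ (k (h, none) : ℝ) / r h := by positivity
      calc (k (h, none) : ℝ) * L h = (r h * L h) * ((k (h, none) : ℝ) / r h) := by field_simp
        _ ≤ _ := mul_le_mul_of_nonneg_right (hL h).2 hq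
    have e3 : ∑ h, (k (h, none) : ℝ) * -(κ * L h) = -(κ * ∑ h, (k (h, none) : ℝ) * L h) := by
      rw [Finset.mul_sum, ← Finset.sum_neg_distrib]
      exact Finset.sum_congr rfl fun h _ => by ring
    rw [e3]
    exact neg_le_neg (mul_le_mul_of_nonneg_left e2 hκ0)
  have h4 := (mul_le_mul_of_nonneg_left h3 (g.nonneg ((par η e (lin A P)).coeff k))).trans
    ((hco _ k).trans (h1.trans (h2.trans (mul_le_mul_of_nonneg_right hl (exp_pos _).le))))
  rw [exp_neg, ← div_eq_mul_inv, div_le_iff₀ (exp_pos _)] at h4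
  rw [exp_add, exp_add, mul_comm]
  exact h4

theorem ar1 (κ θ R m n S c0 K T : ℝ) (hκ : 1 ≤ κ) (hθ0 : 0 < θ) (hθ1 : θ ≤ 1) (hR : 0 < R) (hm : 1 ≤ m)
    (hn : 0 < n) (hT : 0 ≤ T) (b2 : -S ≤ n * κ) :
    κ * ((1 + θ) * R * θ) + (c0 * T + (K * T + m * R * (κ * (1 + θ) - (n * κ - S) * (1 / n - θ)))) ≤
      m * R * (S / n) + (m * R * (κ * (3 + 2 * n) * θ) + (|c0| + K) * T) := by
  have b3 : κ * (1 + θ) - (n * κ - S) * (1 / n - θ) = S / n + (κ * θ + (n * κ - S) * θ) := by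
    field_simp
    ring
  have b4 : (n * κ - S) * θ ≤ 2 * n * κ * θ := mul_le_mul_of_nonneg_right (by linarith) hθ0.le
  have hmR : 0 ≤ m * R := by positivity
  have b5 := mul_le_mul_of_nonneg_left b4 hmR
  have c0' : R ≤ m * R := le_mul_of_one_le_left hR.le hm
  have c1 : (1 + θ) * R ≤ 2 * (m * R) :=
    (mul_le_mul_of_nonneg_right (show 1 + θ ≤ 2 by linarith) hR.le).trans (by linarith)
  have c2 := mul_le_mul_of_nonneg_right c1 (show 0 ≤ κ * θ by positivity)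
  have b7 : c0 * T ≤ |c0| * T := mul_le_mul_of_nonneg_right (le_abs_self _) hT
  rw [b3]
  linarith

theorem ar2 (δ a s u θ w T L0 : ℝ) (hδ : 0 < δ) (ha : 0 < a) (hT : 0 ≤ T)
    (h1 : s * u * θ ≤ δ / 2) (h2 : s * w * 2 ≤ δ / 4 * L0) (h3 : T * L0 ≤ 2 * a)
    (h4 : 0 ≤ a * -δ + s * (a * (u * θ) + w * T)) : False := by
  have d2 := mul_le_mul_of_nonneg_left h1 ha.le
  have c1 := mul_le_mul_of_nonneg_right h2 hT
  have c2 := mul_le_mul_of_nonneg_left h3 (show 0 ≤ δ / 4 by positivity)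
  have d4 := mul_pos hδ ha
  linarith

theorem ar3 (x δ : ℝ) (hx : 0 ≤ x) (hδ : 0 < δ) : ∃ θ : ℝ, 0 < θ ∧ θ ≤ 1 ∧ x * θ ≤ δ / 2 := by
  have hp : 0 < x + 1 := by positivity
  refine ⟨min 1 (δ / 2 / (x + 1)), by positivity, min_le_left _ _, ?_⟩
  have a1 : min 1 (δ / 2 / (x + 1)) * (x + 1) ≤ δ / 2 := (le_div_iff₀ hp).1 (min_le_right _ _)
  have a2 : 0 < min 1 (δ / 2 / (x + 1)) := by positivity
  linarith

end EST

theorem aEST (hN : St_NRM) : St_EST := by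
  intro V _ f N A c hf hc
  obtain ⟨κ, hκ1, hκ⟩ : ∃ κ : ℝ, 1 ≤ κ ∧ ∀ v i, |c v i| ≤ κ := by
    refine ⟨1 + ∑ v, ∑ i, |c v i|, ?_, fun v i => ?_⟩
    · have : 0 ≤ ∑ v, ∑ i, |c v i| := by positivity
      linarith
    · have a1 : |c v i| ≤ ∑ i, |c v i| :=
        Finset.single_le_sum (f := fun i => |c v i|) (fun _ _ => abs_nonneg _) (mem_univ i)
      have a2 : ∑ i, |c v i| ≤ ∑ v, ∑ i, |c v i| :=
        Finset.single_le_sum (f := fun v => ∑ i, |c v i|) (fun _ _ => by positivity) (mem_univ v)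
      linarith
  obtain ⟨K, hK0, hK⟩ : ∃ K : ℝ, 0 ≤ K ∧ ∀ v i j, (N : ℝ) + |(A v i j : ℝ)| ≤ exp K := by
    refine ⟨N + ∑ x : V × Fin (N + 1) × Fin (N + 1), |(A x.1 x.2.1 x.2.2 : ℝ)|, by positivity, fun v i j => ?_⟩
    have a1 : |(A v i j : ℝ)| ≤ ∑ x : V × Fin (N + 1) × Fin (N + 1), |(A x.1 x.2.1 x.2.2 : ℝ)| :=
      Finset.single_le_sum (f := fun x : V × Fin (N + 1) × Fin (N + 1) => |(A x.1 x.2.1 x.2.2 : ℝ)|)
        (fun _ _ => abs_nonneg _) (mem_univ (v, i, j))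
    have a2 := add_one_le_exp ((N : ℝ) + ∑ x : V × Fin (N + 1) × Fin (N + 1), |(A x.1 x.2.1 x.2.2 : ℝ)|)
    linarith
  obtain ⟨n, hn⟩ : ∃ n : ℝ, n = ((N + 1 : ℕ) : ℝ) := ⟨_, rfl⟩
  have hn0 : 0 < n := by rw [hn]; positivity
  obtain ⟨s, hs⟩ : ∃ s : ℝ, s = (Fintype.card V : ℝ) := ⟨_, rfl⟩
  have hs0 : 0 ≤ s := by rw [hs]; positivity
  obtain ⟨δ, hδ⟩ : ∃ δ : ℝ, δ = -(∑ v, ∑ i, c v i) / n := ⟨_, rfl⟩
  have hδ0 : 0 < δ := by rw [hδ]; exact div_pos (neg_pos.2 hc) hn0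
  obtain ⟨θ, hθ0, hθ1, hθ2⟩ := EST.ar3 (s * (κ * (3 + 2 * n))) δ (by positivity) hδ0
  refine ⟨θ, hθ0, fun m c0 hm => ?_⟩
  obtain ⟨L0, hL1, hL2⟩ : ∃ L0 : ℝ, 1 ≤ L0 ∧ s * (|c0| + K) * 2 ≤ δ / 4 * L0 := by
    refine ⟨1 + s * (|c0| + K) * 2 / (δ / 4), ?_, ?_⟩
    · have : 0 ≤ s * (|c0| + K) * 2 / (δ / 4) := by positivity
      linarith
    · rw [mul_add (δ / 4), mul_div_cancel₀ _ (by positivity : δ / 4 ≠ 0)]
      linarith
  refine ⟨exp L0, fun r Q R P η e hr hQ hR hA hη k hk => ?_⟩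
  by_contra hcon
  rw [not_lt] at hcon
  have hQ0 : ∀ h, 0 < Q h := fun h => (exp_pos _).trans_le (hQ h)
  have hL : ∀ h, L0 ≤ log (Q h) := fun h => (le_log_iff_exp_le (hQ0 h)).2 (hQ h)
  have hrL : ∀ h, (r h : ℝ) * L0 ≤ (1 + θ) * R := fun h =>
    (mul_le_mul_of_nonneg_left (hL h) (Nat.cast_nonneg _)).trans (hR h).2
  have hR0 : 0 < R := by
    have a1 := hrL ⟨0, hm⟩
    have a2 : (1 : ℝ) ≤ r ⟨0, hm⟩ := by exact_mod_cast hr _
    have a3 : 0 < (1 + θ) * R := lt_of_lt_of_le (by positivity) a1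
    exact pos_of_mul_pos_left (by rwa [mul_comm] at a3) (by positivity)
  have hm1 : (1 : ℝ) ≤ m := by exact_mod_cast hm
  obtain ⟨T, hT⟩ : ∃ T : ℝ, T = ∑ h, (r h : ℝ) := ⟨_, rfl⟩
  have hT0 : 0 ≤ T := by rw [hT]; positivity
  have hTL : T * L0 ≤ 2 * (m * R) := by
    have a1 := Finset.sum_le_card_nsmul univ (fun h => (r h : ℝ) * L0) (2 * R) fun h _ =>
      (hrL h).trans (mul_le_mul_of_nonneg_right (by linarith) hR0.le)
    rw [hT, Finset.sum_mul]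
    simp only [card_univ, Fintype.card_fin, nsmul_eq_mul] at a1
    linarith
  have hv : ∀ v, f v ((par η e P).coeff k) ≤
      exp (m * R * ((∑ i, c v i) / n) + (m * R * (κ * (3 + 2 * n) * θ) + (|c0| + K) * T)) := fun v => by
    obtain ⟨Pv, e1, e2, e3, e4⟩ := hA.2.2.2 v
    have a1 := EST.place hN (f v) (hf.1 v) (A v) (c v) κ K θ R _ r (fun h => log (Q h)) Pv η e k (hκ v) (hK v)
      hθ0.le hR0.le hr (fun h => by linarith [hL h]) hR e2 e3 e4
      (fun h j i => by rw [← rpow_def_of_pos (hQ0 h)]; exact hη h j v i) hcon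
    rw [← e1, ← hT, ← hn] at a1
    refine a1.trans (exp_le_exp.2 ?_)
    obtain ⟨S, hS⟩ : ∃ S : ℝ, S = ∑ i, c v i := ⟨_, rfl⟩
    have b1 : ∑ i, (κ - c v i) = n * κ - S := by
      rw [Finset.sum_sub_distrib, hS, hn]; simp
    have b2 : -S ≤ n * κ := by
      have := Finset.sum_le_card_nsmul univ (fun i => -c v i) κ fun i _ => (neg_le_abs _).trans (hκ v i)
      rw [hS, hn, ← Finset.sum_neg_distrib]
      simpa using this
    rw [b1, ← hS]
    exact EST.ar1 κ θ R m n S c0 K T hκ1 hθ0 hθ1 hR0 hm1 hn0 hT0 b2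
  have h1 := (hf.2 _ (mem_support_iff.1 hk)).trans
    (Finset.prod_le_prod (fun v _ => (f v).nonneg _) fun v _ => hv v)
  rw [← exp_sum, one_le_exp_iff, Finset.sum_add_distrib, ← Finset.mul_sum, ← Finset.sum_div] at h1
  simp only [Finset.sum_const, card_univ, nsmul_eq_mul] at h1
  rw [← hs] at h1
  have d1 : (∑ v, ∑ i, c v i) / n = -δ := by rw [hδ]; ring
  rw [d1] at h1
  exact EST.ar2 δ (m * R) s _ θ (|c0| + K) T L0 hδ0 (by positivity) hT0 hθ2 hL2 hTL h1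

end Pool.Agent.SU76
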