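import Pool.Agent.Lib.SU76.Defs

/-! Short sums of units: from one constant ratio to a constant ratio with the chosen term. -/

namespace Pool.Agent.SU76

open Finset Real

namespace EV

theorem un_mono {M M' : ℕ} {Z Z' : ℝ} {y : ℚ} (h : Un M Z y) (hM : M ≤ M') (hZ : Z ≤ Z') : Un M' Z' y := by
  obtain ⟨a, b, ha, hb, haZ, hbZ, e⟩ := h
  exact ⟨a, b, Nat.smoothNumbers_mono hM ha, Nat.smoothNumbers_mono hM hb, haZ.trans hZ, hbZ.trans hZ, e⟩

theorem un_ne {M : ℕ} {Z : ℝ} {y : ℚ} (h : Un M Z y) : y ≠ 0 := by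
  obtain ⟨a, b, ha, hb, -, -, e⟩ := h
  have ha0 : a ≠ 0 := Nat.ne_zero_of_mem_smoothNumbers ha
  have hb0 : b ≠ 0 := Nat.ne_zero_of_mem_smoothNumbers hb
  intro h0
  rw [h0, abs_zero] at e
  have : (a : ℚ) / b ≠ 0 := div_ne_zero (by exact_mod_cast ha0) (by exact_mod_cast hb0)
  exact this e.symm

theorem un_mul {M M' : ℕ} {Z : ℝ} {y t : ℚ} (h : Un M Z y) (hM : M ≤ M') (ht : t ≠ 0)
    (h1 : t.num.natAbs < M') (h2 : t.den < M') (hZ : (M' : ℝ) ≤ Z) : Un M' (Z ^ 2) (t * y) := by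
  obtain ⟨a, b, ha, hb, haZ, hbZ, e⟩ := h
  have hn : 0 < t.num.natAbs := Int.natAbs_pos.2 (Rat.num_ne_zero.2 ht)
  have hZ0 : 0 ≤ Z := (Nat.cast_nonneg _).trans hZ
  have k1 : ((t.num.natAbs : ℕ) : ℝ) ≤ Z := (by exact_mod_cast h1.le : ((t.num.natAbs : ℕ) : ℝ) ≤ M').trans hZ
  have k2 : ((t.den : ℕ) : ℝ) ≤ Z := (by exact_mod_cast h2.le : ((t.den : ℕ) : ℝ) ≤ M').trans hZ
  refine ⟨t.num.natAbs * a, t.den * b,
    Nat.mul_mem_smoothNumbers (Nat.mem_smoothNumbers_of_lt hn h1) (Nat.smoothNumbers_mono hM ha),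
    Nat.mul_mem_smoothNumbers (Nat.mem_smoothNumbers_of_lt t.den_pos h2) (Nat.smoothNumbers_mono hM hb), ?_, ?_, ?_⟩
  · rw [Nat.cast_mul, sq]
    exact mul_le_mul k1 haZ (Nat.cast_nonneg _) hZ0
  · rw [Nat.cast_mul, sq]
    exact mul_le_mul k2 hbZ (Nat.cast_nonneg _) hZ0
  · have e1 : |t| = ((t.num.natAbs : ℕ) : ℚ) / t.den := by
      conv_lhs => rw [← Rat.num_div_den t]
      rw [abs_div, Nat.cast_natAbs, Int.cast_abs, Nat.abs_cast]
    rw [abs_mul, e, e1, Nat.cast_mul, Nat.cast_mul, div_mul_div_comm]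

theorem bound (M : ℕ) (F : Finset ℚ) :
    ∃ M' : ℕ, M ≤ M' ∧ ∀ c ∈ F, (1 + c).num.natAbs < M' ∧ (1 + c).den < M' := by
  refine ⟨M + ∑ c ∈ F, ((1 + c).num.natAbs + (1 + c).den + 1), Nat.le_add_right _ _, fun c hc => ?_⟩
  have := Finset.single_le_sum (f := fun c : ℚ => (1 + c).num.natAbs + (1 + c).den + 1)
    (fun _ _ => Nat.zero_le _) hc
  constructor <;> omega

end EV

open EV in
theorem aEV (hEV1 : St_EV1) : St_EV := by
  classical
  intro M n
  induction n generalizing M with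
  | zero =>
    intro ε _
    refine ⟨∅, 0, fun Z ι s y i0 _ hs hi _ _ => ?_⟩
    rw [Nat.le_zero, Finset.card_eq_zero] at hs
    simp [hs] at hi
  | succ n ih =>
    intro ε hε
    obtain ⟨F1, Z1, h1⟩ := hEV1 M (n + 1) ε hε
    obtain ⟨F2, hF2, hF2'⟩ : ∃ F2 : Finset ℚ, (∀ c ∈ F1, c ∈ F2) ∧ ∀ c ∈ F1, c⁻¹ ∈ F2 :=
      ⟨F1 ∪ F1.image (·⁻¹), fun c hc => mem_union_left _ hc,
        fun c hc => mem_union_right _ (mem_image_of_mem _ hc)⟩
    obtain ⟨M', hM, hb⟩ := bound M F2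
    obtain ⟨F', Z', h'⟩ := ih M' (ε / 2) (half_pos hε)
    obtain ⟨F, g1, g2, g3⟩ : ∃ F : Finset ℚ, (∀ c ∈ F2, c ∈ F) ∧ (∀ c ∈ F', c ∈ F) ∧
        ∀ ρ ∈ F', ∀ c ∈ F2, ρ * (1 + c) ∈ F ∧ ρ / (1 + c) ∈ F ∧ c * (ρ / (1 + c)) ∈ F := by
      refine ⟨F2 ∪ F' ∪ (image₂ (fun ρ c => ρ * (1 + c)) F' F2 ∪ (image₂ (fun ρ c => ρ / (1 + c)) F' F2 ∪
        image₂ (fun ρ c => c * (ρ / (1 + c))) F' F2)), fun c hc => mem_union_left _ (mem_union_left _ hc),
        fun c hc => mem_union_left _ (mem_union_right _ hc), fun ρ hρ c hc => ⟨?_, ?_, ?_⟩⟩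
      · exact mem_union_right _ (mem_union_left _ (mem_image₂_of_mem hρ hc))
      · exact mem_union_right _ (mem_union_right _ (mem_union_left _ (mem_image₂_of_mem hρ hc)))
      · exact mem_union_right _ (mem_union_right _ (mem_union_right _
          (mem_image₂_of_mem (f := fun ρ c => c * (ρ / (1 + c))) hρ hc)))
    refine ⟨F, max (max Z1 Z') (max M' 1), fun Z ι s y i0 hZ hs hi hU hS => ?_⟩
    have hZ1 : Z1 ≤ Z := ((le_max_left _ _).trans (le_max_left _ _)).trans hZ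
    have hZ2 : Z' ≤ Z := ((le_max_right _ _).trans (le_max_left _ _)).trans hZ
    have hZ3 : (M' : ℝ) ≤ Z := ((le_max_left _ _).trans (le_max_right _ _)).trans hZ
    have hZ4 : 1 ≤ Z := ((le_max_right _ _).trans (le_max_right _ _)).trans hZ
    have hZ5 : Z ≤ Z ^ 2 := by nlinarith
    have hp : (Z ^ 2) ^ (-(ε / 2)) = Z ^ (-ε) := by
      rw [← Real.rpow_natCast, ← Real.rpow_mul (by linarith)]
      congr 1
      push_cast
      ring
    obtain ⟨i, his, j, hjs, hij, hi0, hc⟩ : ∃ i ∈ s, ∃ j ∈ s, i ≠ j ∧ i ≠ i0 ∧ y i / y j ∈ F2 := by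
      obtain ⟨i, his, j, hjs, hij, hc⟩ := h1 Z ι s y i0 hZ1 hs hi hU hS
      by_cases e : i = i0
      · refine ⟨j, hjs, i, his, hij.symm, fun e' => hij (e.trans e'.symm), ?_⟩
        rw [← inv_div]
        exact hF2' _ hc
      · exact ⟨i, his, j, hjs, hij, e, hF2 _ hc⟩
    obtain ⟨c, hcd⟩ : ∃ c, c = y i / y j := ⟨_, rfl⟩
    rw [← hcd] at hc
    have hj0 : y j ≠ 0 := un_ne (hU j hjs)
    have h00 : y i0 ≠ 0 := un_ne (hU i0 hi)
    have hsq : 0 < y i0 * y i0 := mul_self_pos.2 h00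
    have ey : y i = c * y j := by rw [hcd, div_mul_cancel₀ _ hj0]
    have hje : j ∈ s.erase i := mem_erase.2 ⟨hij.symm, hjs⟩
    have hie : i0 ∈ s.erase i := mem_erase.2 ⟨hi0.symm, hi⟩
    have hce : (s.erase i).card ≤ n := by rw [card_erase_of_mem his]; omega
    have esum : ∑ k ∈ s, y k = (1 + c) * y j + ∑ k ∈ (s.erase i).erase j, y k := by
      rw [← add_sum_erase s y his, ← add_sum_erase (s.erase i) y hje, ey]
      ring
    by_cases hneg : j = i0 ∧ c < 0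
    · obtain ⟨e, hc0⟩ := hneg
      subst e
      refine ⟨i, his, ?_, ?_⟩
      · rw [ey, mul_assoc]
        exact mul_neg_of_neg_of_pos hc0 hsq
      · rw [← hcd]
        exact g1 c hc
    by_cases hz : 1 + c = 0
    · have hji : j ≠ i0 := fun e => hneg ⟨e, by linarith⟩
      obtain ⟨k, hk, hk1, hk2⟩ := h' (Z ^ 2) ι ((s.erase i).erase j) y i0 (hZ2.trans hZ5)
        ((card_le_card (erase_subset _ _)).trans hce) (mem_erase.2 ⟨hji.symm, hie⟩)
        (fun k hk => un_mono (hU k (mem_of_mem_erase (mem_of_mem_erase hk))) hM hZ5)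
        (by rw [hp]; rw [esum, hz, zero_mul, zero_add] at hS; exact hS)
      exact ⟨k, mem_of_mem_erase (mem_of_mem_erase hk), hk1, g2 _ hk2⟩
    obtain ⟨y', hy1, hy2⟩ : ∃ y' : ι → ℚ, y' j = (1 + c) * y j ∧ ∀ k, k ≠ j → y' k = y k :=
      ⟨Function.update y j ((1 + c) * y j), Function.update_self _ _ _, fun k hk => Function.update_of_ne hk _ _⟩
    have esum' : ∑ k ∈ s.erase i, y' k = ∑ k ∈ s, y k := by
      rw [esum, ← add_sum_erase (s.erase i) y' hje, hy1]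
      congr 1
      exact sum_congr rfl fun k hk => hy2 k (ne_of_mem_erase hk)
    have hge : |(y i0 : ℝ)| ≤ |(y' i0 : ℝ)| := by
      by_cases e : j = i0
      · have hc0 : 0 ≤ c := not_lt.1 fun h => hneg ⟨e, h⟩
        have hc1 : (0 : ℝ) ≤ c := by exact_mod_cast hc0
        rw [← e, hy1]
        push_cast
        rw [abs_mul, abs_of_nonneg (by linarith : (0 : ℝ) ≤ 1 + c)]
        nlinarith [abs_nonneg (y j : ℝ)]
      · rw [hy2 i0 (Ne.symm e)]
    obtain ⟨k, hk, hk1, hk2⟩ := h' (Z ^ 2) ι (s.erase i) y' i0 (hZ2.trans hZ5) hce hie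
      (fun k hk => by
        by_cases e : k = j
        · rw [e, hy1]
          exact un_mul (hU j hjs) hM hz (hb c hc).1 (hb c hc).2 hZ3
        · rw [hy2 k e]
          exact un_mono (hU k (mem_of_mem_erase hk)) hM hZ5)
      (by
        rw [hp, esum']
        exact hS.trans (mul_le_mul_of_nonneg_left hge (Real.rpow_nonneg (by linarith) _)))
    obtain ⟨m1, m2, m3⟩ := g3 _ hk2 c hc
    by_cases e : j = i0
    · have hc0 : 0 ≤ c := not_lt.1 fun h => hneg ⟨e, h⟩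
      subst e
      have hkj : k ≠ j := fun e => by
        rw [e] at hk1
        exact absurd hk1 (not_lt.2 (mul_self_nonneg _))
      rw [hy2 k hkj, hy1] at hk1 m1
      refine ⟨k, mem_of_mem_erase hk, ?_, ?_⟩
      · by_contra hn
        have : 0 ≤ (1 + c) * (y k * y j) := mul_nonneg (by linarith) (not_lt.1 hn)
        nlinarith
      · have : y k / y j = y k / ((1 + c) * y j) * (1 + c) := by field_simp
        rw [this]
        exact m1
    · rw [hy2 i0 (Ne.symm e)] at hk1 hk2 m2 m3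
      by_cases ek : k = j
      · rw [ek, hy1] at hk1 m2 m3
        have e2 : (1 + c) * y j / y i0 / (1 + c) = y j / y i0 := by field_simp
        rw [e2] at m2 m3
        by_cases hs1 : y j * y i0 < 0
        · exact ⟨j, hjs, hs1, m2⟩
        · refine ⟨i, his, ?_, ?_⟩
          · rw [ey]
            have := not_lt.1 hs1
            nlinarith
          · rw [ey, mul_div_assoc]
            exact m3
      · rw [hy2 k ek] at hk1 hk2
        exact ⟨k, mem_of_mem_erase hk, hk1, g2 _ hk2⟩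

end Pool.Agent.SU76
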