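import Pool.Agent.Lib.SU76.Defs
import Pool.Agent.Lib.US51.Ev51

/-! The blocks EV0, EV1 and EV from the subspace theorem. -/

set_option autoImplicit false

namespace Pool.Agent.SU76

open Finset Pool.Agent.Lib

namespace EV0

lemma sub (h : St_SUB) : US51.Sub := by
  classical
  intro n S A0 A ε hS h0 hA hε
  set M := S.sup id + 1 with hM
  have hSM : S ⊆ M.primesBelow := fun p hp =>
    Nat.mem_primesBelow.2 ⟨Nat.lt_succ_of_le (le_sup (f := id) hp), hS p hp⟩
  let B : Plc M → Mx n := fun v => v.elim A0 fun q => A q.1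
  have hB : ∀ v, B v * (B v)⁻¹ = 1 := fun v => Matrix.mul_nonsing_inv _ (by
    cases v with
    | none => exact h0
    | some q => exact hA _)
  obtain ⟨W, H, hW, hx⟩ := h M n B (fun v => (B v)⁻¹) ε hB hε
  refine ⟨W ∪ univ.image fun u : Plc M × Fin n => B u.1 u.2, H, fun w hw => ?_,
    fun x hH hp => ?_⟩
  · rcases mem_union.1 hw with hw | hw
    · exact hW w hw
    · obtain ⟨u, -, rfl⟩ := mem_image.1 hw
      intro e
      have := congrFun (congrFun (hB u.1) u.2) u.2
      rw [Matrix.mul_apply, e] at this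
      simp at this
  by_cases hz : ∀ v i, (B v).mulVec x i ≠ 0
  · obtain ⟨w, hw, e⟩ := hx x ‖x‖ hH (fun i => by
      have h1 : ‖x i‖ ≤ ‖x‖ := norm_le_pi_norm x i
      rwa [Int.norm_eq_abs] at h1) hz (by
      refine le_trans ?_ hp
      rw [Fintype.prod_option]
      refine mul_le_mul (le_of_eq ?_) ?_ (prod_nonneg fun q _ => prod_nonneg fun i _ => US51.pn _ _)
        (prod_nonneg fun i _ => abs_nonneg _)
      · exact prod_congr rfl fun i _ => by simp [av, B]
      · have e := prod_coe_sort M.primesBelow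
          fun p => ∏ i, (padicNorm p ((A p).mulVec x i) : ℝ)
        refine le_of_eq_of_le e (prod_le_prod_of_subset_of_le_one hSM
          (fun p _ => prod_nonneg fun i _ => US51.pn _ _) fun p hp _ => ?_)
        have := Fact.mk (Nat.prime_of_mem_primesBelow hp)
        exact prod_le_one (fun i _ => US51.pn _ _) fun i _ => by
          exact_mod_cast padicNorm.of_int _)
    exact ⟨w, mem_union_left _ hw, e⟩
  · push Not at hz
    obtain ⟨v, i, e⟩ := hz
    exact ⟨_, mem_union_right _ (mem_image_of_mem _ (mem_univ (v, i))), e⟩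

lemma ok {M : ℕ} {Z : ℝ} {y : ℚ} (h : Un M Z y) : US51.Ok M Z y := by
  obtain ⟨a, b, ha, hb, h1, h2, e⟩ := h
  have ha0 := Nat.ne_zero_of_mem_smoothNumbers ha
  have hb0 := Nat.ne_zero_of_mem_smoothNumbers hb
  have e' : |y| = Rat.divInt a b := by rw [e, Rat.divInt_eq_div]; simp
  have hn : y.num.natAbs ∣ a := by
    have := Rat.num_dvd (a : ℤ) (b := b) (by exact_mod_cast hb0)
    rw [← e', Rat.num_abs_eq_abs_num] at this
    rwa [← Int.natCast_dvd_natCast, Int.natCast_natAbs]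
  have hd : y.den ∣ b := by
    have := Rat.den_dvd (a : ℤ) (b : ℤ)
    rw [← e', Rat.den_abs_eq_den] at this
    exact_mod_cast this
  refine ⟨fun h0 => ?_, fun p hp hv => ?_, le_trans ?_ h1, le_trans ?_ h2⟩
  · rw [h0, abs_zero] at e
    exact div_ne_zero (by exact_mod_cast ha0) (by exact_mod_cast hb0) e.symm
  · rcases hp.dvd_mul.1 hv with hv | hv
    · exact ((Nat.mem_smoothNumbers'.1 ha) p hp (hv.trans hn)).le
    · exact ((Nat.mem_smoothNumbers'.1 hb) p hp (hv.trans hd)).le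
  · exact_mod_cast Nat.le_of_dvd (Nat.pos_of_ne_zero ha0) hn
  · exact_mod_cast Nat.le_of_dvd (Nat.pos_of_ne_zero hb0) hd

/-- the block EV directly from the subspace theorem -/
theorem ev (h : St_SUB) : St_EV := by
  intro M n ε hε
  obtain ⟨F, Z0, hF⟩ := US51.ev (sub h) M n ε hε
  exact ⟨F, Z0, fun Z ι s y i0 hZ hn hi hy h0 => hF Z ι s y i0 hZ hn hi (fun i hi => ok (hy i hi)) h0⟩

/-- the block EV1 directly from the subspace theorem -/
theorem ev1 (h : St_SUB) : St_EV1 := by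
  intro M n ε hε
  obtain ⟨F, Z0, hF⟩ := ev h M n ε hε
  refine ⟨F, Z0, fun Z ι s y i0 hZ hn hi hy h0 => ?_⟩
  obtain ⟨i, his, h1, h2⟩ := hF Z ι s y i0 hZ hn hi hy h0
  exact ⟨i, his, i0, hi, fun e => absurd h1 (by rw [e]; exact not_lt.2 (mul_self_nonneg _)), h2⟩

end EV0

theorem aEV0 (_ : St_PLC) (h : St_SUB) : St_EV0 := by
  intro M n ε hε
  obtain ⟨F, Z0, hF⟩ := EV0.ev1 h M (n + 1) ε hε
  refine ⟨F, ∅, Z0, fun Z y i0 hZ hy h0 => Or.inl ?_⟩
  obtain ⟨i, -, j, -, h1⟩ := hF Z _ univ y i0 hZ (by simp) (mem_univ _) (fun i _ => hy i) h0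
  exact ⟨i, j, h1⟩

end Pool.Agent.SU76
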