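import Pool.Agent.Lib.SU76.Defs

/-! Row EV1: two terms of a short sum of units have a ratio in a finite set. -/

namespace Pool.Agent.SU76

open Finset Real

namespace EV1

theorem un_mul {M M' K : ℕ} {Z : ℝ} {y : ℚ} {c : ℤ} (hM : M ≤ M') (hK : K < M')
    (hc : c ≠ 0) (hcK : |c| ≤ K) (hZ : (K : ℝ) ≤ Z) (hZ1 : 1 ≤ Z) (h : Un M Z y) :
    Un M' (Z ^ 2) ((c : ℚ) * y) := by
  obtain ⟨a, b, ha, hb, haZ, hbZ, hy⟩ := h
  have hn : c.natAbs ≤ K := by
    have : (c.natAbs : ℤ) ≤ K := by rw [Int.natCast_natAbs]; exact hcK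
    exact_mod_cast this
  have hs : c.natAbs ∈ M'.smoothNumbers :=
    Nat.mem_smoothNumbers_of_lt (Int.natAbs_pos.2 hc) (by omega)
  refine ⟨c.natAbs * a, b, Nat.mul_mem_smoothNumbers hs (Nat.smoothNumbers_mono hM ha),
    Nat.smoothNumbers_mono hM hb, ?_, ?_, ?_⟩
  · have h1 : (c.natAbs : ℝ) ≤ Z := le_trans (by exact_mod_cast hn) hZ
    rw [Nat.cast_mul, sq]
    exact mul_le_mul h1 haZ (Nat.cast_nonneg _) (by linarith)
  · nlinarith
  · rw [abs_mul, hy, Nat.cast_mul, mul_div_assoc]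
    congr 1
    rw [Nat.cast_natAbs, Int.cast_abs]

theorem bound {n : ℕ} (W : Finset (Fin n → ℤ)) :
    ∃ K : ℕ, 1 ≤ K ∧ ∀ w ∈ W, (∀ i, |w i| ≤ K) ∧ ∀ i j, |w i - w j| ≤ K := by
  refine ⟨2 * (W.sup (fun w => Finset.univ.sup (fun i => (w i).natAbs))) + 1, by omega, ?_⟩
  intro w hw
  have h : ∀ i, |w i| ≤ ((W.sup (fun w => Finset.univ.sup (fun i => (w i).natAbs)) : ℕ) : ℤ) := by
    intro i
    have h1 : (w i).natAbs ≤ Finset.univ.sup (fun i => (w i).natAbs) :=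
      Finset.le_sup (f := fun i => (w i).natAbs) (Finset.mem_univ i)
    have h2 : Finset.univ.sup (fun i => (w i).natAbs) ≤
        W.sup (fun w => Finset.univ.sup (fun i => (w i).natAbs)) :=
      Finset.le_sup (f := fun w : Fin n → ℤ => Finset.univ.sup (fun i => (w i).natAbs)) hw
    rw [← Int.natCast_natAbs]
    exact_mod_cast h1.trans h2
  refine ⟨fun i => ?_, fun i j => ?_⟩
  · have := h i
    push_cast
    have h0 := abs_nonneg (w i)
    linarith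
  · have h1 := h i
    have h2 := h j
    have h3 := abs_sub (w i) (w j)
    push_cast
    linarith

theorem pw {K Z ε : ℝ} (hε : 0 < ε) (hK : 1 ≤ K) (hZ : K ^ (2 / ε) ≤ Z) (hZ1 : 1 ≤ Z) :
    K * Z ^ (-ε) ≤ (Z ^ 2) ^ (-(ε / 4)) := by
  have hZ0 : 0 < Z := by linarith
  have h1 : (Z ^ 2) ^ (-(ε / 4)) = Z ^ (ε / 2) * Z ^ (-ε) := by
    rw [← Real.rpow_natCast, ← Real.rpow_mul hZ0.le, ← Real.rpow_add hZ0]
    congr 1
    push_cast
    ring
  have h2 : K ≤ Z ^ (ε / 2) := by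
    have h3 := Real.rpow_le_rpow (Real.rpow_nonneg (by linarith) _) hZ (by linarith : 0 ≤ ε / 2)
    rw [← Real.rpow_mul (by linarith)] at h3
    have h4 : 2 / ε * (ε / 2) = 1 := by field_simp
    rwa [h4, Real.rpow_one] at h3
  rw [h1]
  exact mul_le_mul_of_nonneg_right h2 (Real.rpow_nonneg hZ0.le _)

end EV1

theorem aEV1 (h0 : St_EV0) : St_EV1 := by
  classical
  intro M n
  induction n generalizing M with
  | zero =>
    intro ε _
    refine ⟨∅, 0, fun Z ι s y i0 _ hc hi _ _ => ?_⟩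
    have := Finset.card_pos.2 ⟨i0, hi⟩
    omega
  | succ n ih =>
    intro ε hε
    obtain ⟨F0, W, Z0, hW⟩ := h0 M n ε hε
    obtain ⟨K, hK1, hK⟩ := EV1.bound W
    obtain ⟨F1, Z1, h1⟩ := ih M ε hε
    obtain ⟨F2, Z2, h2⟩ := ih (M + K + 1) (ε / 4) (by linarith)
    refine ⟨F0 ∪ F1 ∪ ((Finset.Icc (-(K : ℤ)) K ×ˢ Finset.Icc (-(K : ℤ)) K) ×ˢ F2).image
        (fun t => t.2 * (t.1.2 : ℚ) / (t.1.1 : ℚ)),
      max (max Z0 Z1) (max (max Z2 1) (max (K : ℝ) ((K : ℝ) ^ (2 / ε)))), ?_⟩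
    intro Z ι s y i0 hZ hc hi hU hS
    simp only [max_le_iff] at hZ
    obtain ⟨⟨hZ0, hZ1⟩, ⟨hZ2, hone⟩, hZK, hZp⟩ := hZ
    by_cases hn : s.card ≤ n
    · obtain ⟨i, hi, j, hj, hij, hF⟩ := h1 Z ι s y i0 hZ1 hn hi hU hS
      exact ⟨i, hi, j, hj, hij, mem_union_left _ (mem_union_right _ hF)⟩
    have hcard : s.card = n + 1 := by omega
    let e : Fin (n + 1) ≃ s := (s.equivFinOfCardEq hcard).symm
    have hsum : ∑ k, y (e k) = ∑ i ∈ s, y i := by
      rw [← Finset.sum_coe_sort s y]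
      exact Equiv.sum_comp e (fun i : s => y i)
    obtain ⟨k0, hk0⟩ : ∃ k0, (e k0 : ι) = i0 := ⟨e.symm ⟨i0, hi⟩, by simp⟩
    have hne : ∀ k l, k ≠ l → (e k : ι) ≠ e l := fun k l hkl h =>
      hkl (e.injective (Subtype.ext h))
    rcases hW Z (fun k => y (e k)) k0 hZ0 (fun k => hU _ (e k).2)
      (by rw [hsum, hk0]; exact hS) with ⟨k, l, hkl, hF⟩ | ⟨w, hw, ⟨a, b, hab⟩, hrel⟩
    · exact ⟨e k, (e k).2, e l, (e l).2, hne k l hkl, mem_union_left _ (mem_union_left _ hF)⟩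
    obtain ⟨k1, hk1⟩ : ∃ k1, w k1 ≠ w k0 := by
      by_contra hcon
      push Not at hcon
      exact hab ((hcon a).trans (hcon b).symm)
    obtain ⟨hwK, hwd⟩ := hK w hw
    have hc' : (Finset.univ.filter (fun k => w k1 - w k ≠ 0)).card ≤ n := by
      have hlt : (Finset.univ.filter (fun k => w k1 - w k ≠ 0)).card <
          (Finset.univ : Finset (Fin (n + 1))).card := by
        refine Finset.card_lt_card ⟨Finset.filter_subset _ _, fun hsub => ?_⟩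
        have := hsub (Finset.mem_univ k1)
        simp at this
      rw [Finset.card_univ, Fintype.card_fin] at hlt
      omega
    have hsum' : ∑ k ∈ Finset.univ.filter (fun k => w k1 - w k ≠ 0),
        ((w k1 - w k : ℤ) : ℚ) * y (e k) = (w k1 : ℚ) * ∑ i ∈ s, y i := by
      have hfil : ∑ k ∈ Finset.univ.filter (fun k => w k1 - w k ≠ 0),
          ((w k1 - w k : ℤ) : ℚ) * y (e k) = ∑ k, ((w k1 - w k : ℤ) : ℚ) * y (e k) := by
        refine Finset.sum_filter_of_ne (fun k _ hk hz => hk ?_)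
        rw [hz, Int.cast_zero, zero_mul]
      rw [hfil, ← hsum, Finset.mul_sum]
      have : ∑ k, ((w k1 - w k : ℤ) : ℚ) * y (e k) =
          ∑ k, (w k1 : ℚ) * y (e k) - ∑ k, (w k : ℚ) * y (e k) := by
        rw [← Finset.sum_sub_distrib]
        refine Finset.sum_congr rfl (fun k _ => ?_)
        push_cast
        ring
      rw [this, hrel, sub_zero]
    have hd0 : w k1 - w k0 ≠ 0 := sub_ne_zero.2 hk1
    obtain ⟨k, hk, l, hl, hkl, hF⟩ := h2 (Z ^ 2) (Fin (n + 1))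
      (Finset.univ.filter (fun k => w k1 - w k ≠ 0))
      (fun k => ((w k1 - w k : ℤ) : ℚ) * y (e k)) k0 (by nlinarith) hc'
      (Finset.mem_filter.2 ⟨Finset.mem_univ _, hd0⟩)
      (fun k hk => EV1.un_mul (by omega) (by omega) (Finset.mem_filter.1 hk).2 (hwd k1 k) hZK hone
        (hU _ (e k).2))
      (by
        rw [hsum', hk0]
        have hA : |((w k1 : ℤ) : ℝ)| ≤ K := by exact_mod_cast hwK k1
        have hB : (1 : ℝ) ≤ |((w k1 - w k0 : ℤ) : ℝ)| := by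
          exact_mod_cast Int.one_le_abs hd0
        have hP := EV1.pw hε (by exact_mod_cast hK1 : (1 : ℝ) ≤ K) hZp hone
        have hy := abs_nonneg (y i0 : ℝ)
        have hq : 0 ≤ (Z ^ 2) ^ (-(ε / 4)) := Real.rpow_nonneg (sq_nonneg _) _
        rw [Rat.cast_mul, Rat.cast_mul, abs_mul, abs_mul, Rat.cast_intCast, Rat.cast_intCast]
        calc |((w k1 : ℤ) : ℝ)| * |((∑ i ∈ s, y i : ℚ) : ℝ)|
            ≤ K * (Z ^ (-ε) * |(y i0 : ℝ)|) :=
              mul_le_mul hA hS (abs_nonneg _) (Nat.cast_nonneg _)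
          _ = (K * Z ^ (-ε)) * (1 * |(y i0 : ℝ)|) := by ring
          _ ≤ (Z ^ 2) ^ (-(ε / 4)) * (|((w k1 - w k0 : ℤ) : ℝ)| * |(y i0 : ℝ)|) :=
              mul_le_mul hP (mul_le_mul_of_nonneg_right hB hy) (by linarith) hq)
    refine ⟨e k, (e k).2, e l, (e l).2, hne k l hkl, mem_union_right _ (Finset.mem_image.2
      ⟨((w k1 - w k, w k1 - w l), _), Finset.mem_product.2 ⟨Finset.mem_product.2
        ⟨Finset.mem_Icc.2 (abs_le.1 (hwd k1 k)), Finset.mem_Icc.2 (abs_le.1 (hwd k1 l))⟩, hF⟩, ?_⟩)⟩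
    have hk' : ((w k1 - w k : ℤ) : ℚ) ≠ 0 := Int.cast_ne_zero.2 (Finset.mem_filter.1 hk).2
    have hl' : ((w k1 - w l : ℤ) : ℚ) ≠ 0 := Int.cast_ne_zero.2 (Finset.mem_filter.1 hl).2
    show ((w k1 - w k : ℤ) : ℚ) * y (e k) / (((w k1 - w l : ℤ) : ℚ) * y (e l)) *
      ((w k1 - w l : ℤ) : ℚ) / ((w k1 - w k : ℤ) : ℚ) = y (e k) / y (e l)
    generalize ((w k1 - w k : ℤ) : ℚ) = c at hk' ⊢
    generalize ((w k1 - w l : ℤ) : ℚ) = d at hl' ⊢
    by_cases hy : y (e l) = 0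
    · simp [hy]
    · field_simp

end Pool.Agent.SU76
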