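import Mathlib

/-! Evertse's lemma over the reals with integer changes of basis, with the domination of all
forms on each step of the flag by the first forms. -/

namespace Pool.Agent.SU76.E44

open Finset Matrix

theorem step {n : ℕ} (a : Matrix (Fin (n + 1)) (Fin (n + 1)) ℝ) (ha : a.det ≠ 0) :
    ∃ (i0 : Fin (n + 1)) (β : Fin n → ℝ), (∀ i, |β i| ≤ 1) ∧
      (a.submatrix i0.succAbove Fin.castSucc).det ≠ 0 ∧
      ∀ j : Fin n, a i0 j.castSucc = ∑ i, β i * a (i0.succAbove i) j.castSucc := by
  set α : Fin (n + 1) → ℝ := fun i => a.adjugate (Fin.last n) i with hα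
  have hrow : ∀ j, ∑ i, α i * a i j = if Fin.last n = j then a.det else 0 := by
    intro j
    have h := congrFun (congrFun (Matrix.adjugate_mul a) (Fin.last n)) j
    rw [Matrix.mul_apply] at h
    rw [h, Matrix.smul_apply, Matrix.one_apply]
    split_ifs <;> simp
  obtain ⟨i0, -, hi0⟩ := Finset.exists_max_image Finset.univ (fun i => |α i|) ⟨0, mem_univ _⟩
  have hne : α i0 ≠ 0 := by
    intro h0
    have hz : ∀ i, α i = 0 := by
      intro i
      have := hi0 i (mem_univ _)
      simp only [h0, abs_zero] at this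
      exact abs_eq_zero.mp (le_antisymm this (abs_nonneg _))
    have := hrow (Fin.last n)
    simp [hz] at this
    exact ha this.symm
  refine ⟨i0, fun i => -α (i0.succAbove i) / α i0, ?_, ?_, ?_⟩
  · intro i
    rw [abs_div, abs_neg, div_le_one (abs_pos.mpr hne)]
    exact hi0 _ (mem_univ _)
  · intro h0
    apply hne
    simp only [hα]
    rw [Matrix.adjugate_fin_succ_eq_det_submatrix, Fin.succAbove_last, h0, mul_zero]
  · intro j
    have h := hrow j.castSucc
    rw [if_neg (Fin.castSucc_lt_last j).ne', Fin.sum_univ_succAbove _ i0] at h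
    have h2 : ∑ i, -α (i0.succAbove i) / α i0 * a (i0.succAbove i) j.castSucc
        = -(∑ i, α (i0.succAbove i) * a (i0.succAbove i) j.castSucc) / α i0 := by
      rw [← Finset.sum_neg_distrib, Finset.sum_div]
      refine Finset.sum_congr rfl fun i _ => by ring
    rw [h2, eq_div_iff hne]
    linarith

theorem comb {n : ℕ} (β x : Fin n → ℝ) (hβ : ∀ i, |β i| ≤ 1) (B : ℝ) (hx : ∀ i, |x i| ≤ B) :
    |∑ i, β i * x i| ≤ n * B := by
  calc |∑ i, β i * x i| ≤ ∑ i, |β i * x i| := Finset.abs_sum_le_sum_abs _ _
    _ ≤ ∑ _i : Fin n, B := by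
        refine Finset.sum_le_sum fun i _ => ?_
        rw [abs_mul]
        have := mul_le_mul (hβ i) (hx i) (abs_nonneg _) zero_le_one
        linarith
    _ = n * B := by simp

theorem evl (n : ℕ) : ∃ C : ℝ, 1 ≤ C ∧ ∀ (a : Matrix (Fin n) (Fin n) ℝ) (μ : Fin n → ℝ),
    a.det ≠ 0 → Monotone μ → (∀ i j, |a i j| ≤ μ j) →
    ∃ (π : Equiv.Perm (Fin n)) (ξ : Matrix (Fin n) (Fin n) ℤ),
      (∀ j, ξ j j = 1) ∧ (∀ k j, j < k → ξ k j = 0) ∧
      (∀ i j, |∑ k, a (π i) k * (ξ k j : ℝ)| ≤ C * min (μ i) (μ j)) ∧
      (∀ (k : Fin n) (t : Fin n → ℝ) (B : ℝ), (∀ j, k < j → t j = 0) →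
        (∀ l, l ≤ k → |∑ j, a (π l) j * t j| ≤ B) → ∀ i, |∑ j, a i j * t j| ≤ C * B) := by
  induction n with
  | zero =>
    exact ⟨1, le_rfl, fun a μ _ _ _ => ⟨1, 1, fun j => j.elim0, fun k => k.elim0,
      fun i => i.elim0, fun k => k.elim0⟩⟩
  | succ n ih =>
    obtain ⟨C, hC, ih⟩ := ih
    have hn : (0 : ℝ) ≤ n := Nat.cast_nonneg n
    have hnC : 0 ≤ (n : ℝ) * C := mul_nonneg hn (by linarith)
    have hnnC : 0 ≤ (n : ℝ) * (n * C) := mul_nonneg hn hnC
    refine ⟨1 + n + C + n * C + n * (n * C), by linarith, fun a μ ha hμ hb => ?_⟩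
    obtain ⟨i0, β, hβ, hdet, hrel⟩ := step a ha
    set a' : Matrix (Fin n) (Fin n) ℝ := a.submatrix i0.succAbove Fin.castSucc with ha'
    have ha'e : ∀ i j, a' i j = a (i0.succAbove i) j.castSucc := fun _ _ => rfl
    obtain ⟨π', ξ', hd, htri, hbd, hdom⟩ := ih a' (fun j => μ j.castSucc) hdet
      (fun i j h => hμ (Fin.castSucc_le_castSucc_iff.mpr h)) (fun i j => hb _ _)
    have hμ0 : ∀ j, 0 ≤ μ j := fun j => (abs_nonneg _).trans (hb 0 j)
    have hμl : ∀ j, μ j ≤ μ (Fin.last n) := fun j => hμ (Fin.le_last j)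
    set xr : Matrix (Fin n) (Fin n) ℝ := fun k j => (ξ' k j : ℝ) with hxr
    have hxd : xr.det = 1 := by
      rw [Matrix.det_of_isUpperTriangular]
      · exact Finset.prod_eq_one fun i _ => by simp [hxr, hd]
      · intro i j h
        simp [hxr, htri i j h]
    set b : Matrix (Fin n) (Fin n) ℝ := a' * xr with hbdef
    have hbe : ∀ i j, b i j = ∑ k, a' i k * (ξ' k j : ℝ) := fun i j => Matrix.mul_apply
    have hbdet : IsUnit b.det := by
      rw [hbdef, Matrix.det_mul, hxd, mul_one]
      exact isUnit_iff_ne_zero.mpr hdet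
    set γ : Fin n → ℝ := b⁻¹ *ᵥ (fun i => -a (i0.succAbove i) (Fin.last n)) with hγ
    have hγe : ∀ i, ∑ l, b i l * γ l = -a (i0.succAbove i) (Fin.last n) := by
      intro i
      have : b *ᵥ γ = fun i => -a (i0.succAbove i) (Fin.last n) := by
        rw [hγ, Matrix.mulVec_mulVec, Matrix.mul_nonsing_inv _ hbdet, Matrix.one_mulVec]
      exact congrFun this i
    set m : Fin n → ℤ := fun l => round (γ l) with hm
    have hmγ : ∀ l, |(m l : ℝ) - γ l| ≤ 1 := by
      intro l
      rw [abs_sub_comm]
      exact (abs_sub_round (γ l)).trans (by norm_num)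
    have hb1 : ∀ i j, |b (π' i) j| ≤ C * min (μ i.castSucc) (μ j.castSucc) := by
      intro i j
      rw [hbe]
      exact hbd i j
    have hb2 : ∀ i j, |b i j| ≤ C * μ j.castSucc := by
      intro i j
      have := hb1 (π'.symm i) j
      rw [Equiv.apply_symm_apply] at this
      exact this.trans (mul_le_mul_of_nonneg_left (min_le_right _ _) (by linarith))
    let π : Equiv.Perm (Fin (n + 1)) :=
      finSuccEquivLast.trans ((Equiv.optionCongr π').trans (finSuccEquiv' i0).symm)
    have hπl : π (Fin.last n) = i0 := by simp [π]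
    have hπc : ∀ l : Fin n, π l.castSucc = i0.succAbove (π' l) := by intro l; simp [π]
    let ξ : Matrix (Fin (n + 1)) (Fin (n + 1)) ℤ := fun k j =>
      Fin.lastCases (motive := fun _ => ℤ)
        (Fin.lastCases (motive := fun _ => ℤ) 1 (fun k' => ∑ l, ξ' k' l * m l) k)
        (fun j' => Fin.lastCases (motive := fun _ => ℤ) 0 (fun k' => ξ' k' j') k) j
    have x1 : ξ (Fin.last n) (Fin.last n) = 1 := by simp [ξ]
    have x2 : ∀ k : Fin n, ξ k.castSucc (Fin.last n) = ∑ l, ξ' k l * m l := by
      intro k; simp [ξ]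
    have x3 : ∀ j : Fin n, ξ (Fin.last n) j.castSucc = 0 := by intro j; simp [ξ]
    have x4 : ∀ k j : Fin n, ξ k.castSucc j.castSucc = ξ' k j := by intro k j; simp [ξ]
    have s1 : ∀ (i : Fin n) (j : Fin n),
        ∑ k, a (i0.succAbove i) k * (ξ k j.castSucc : ℝ) = b i j := by
      intro i j
      rw [Fin.sum_univ_castSucc, x3, hbe]
      simp [x4, ha'e]
    have r0 : ∀ j : Fin n, ∑ k : Fin n, a i0 k.castSucc * (ξ' k j : ℝ) = ∑ i, β i * b i j := by
      intro j
      simp only [hrel, hbe, ha'e, Finset.sum_mul, Finset.mul_sum]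
      rw [Finset.sum_comm]
      exact Finset.sum_congr rfl fun i _ => Finset.sum_congr rfl fun k _ => by ring
    have s2 : ∀ j : Fin n, ∑ k, a i0 k * (ξ k j.castSucc : ℝ) = ∑ i, β i * b i j := by
      intro j
      rw [Fin.sum_univ_castSucc, x3, ← r0]
      simp [x4]
    have s0 : ∀ i : Fin (n + 1), ∑ k, a i k * (ξ k (Fin.last n) : ℝ)
        = ∑ l, (∑ k : Fin n, a i k.castSucc * (ξ' k l : ℝ)) * (m l : ℝ) + a i (Fin.last n) := by
      intro i
      rw [Fin.sum_univ_castSucc, x1]
      simp only [x2, Int.cast_sum, Int.cast_mul, Int.cast_one, mul_one, Finset.mul_sum,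
        Finset.sum_mul]
      rw [Finset.sum_comm]
      congr 1
      exact Finset.sum_congr rfl fun i _ => Finset.sum_congr rfl fun k _ => by ring
    have s3 : ∀ i : Fin n, ∑ l, b i l * (m l : ℝ) + a (i0.succAbove i) (Fin.last n)
        = ∑ l, ((m l : ℝ) - γ l) * b i l := by
      intro i
      have := hγe i
      have h2 : ∑ l, ((m l : ℝ) - γ l) * b i l = ∑ l, b i l * (m l : ℝ) - ∑ l, b i l * γ l := by
        rw [← Finset.sum_sub_distrib]
        exact Finset.sum_congr rfl fun l _ => by ring
      rw [h2]; linarith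
    have s4 : ∀ i : Fin n, |∑ l, ((m l : ℝ) - γ l) * b (π' i) l| ≤ n * (C * μ i.castSucc) := by
      intro i
      refine comb _ _ hmγ _ fun l => (hb1 i l).trans ?_
      exact mul_le_mul_of_nonneg_left (min_le_left _ _) (by linarith)
    refine ⟨π, ξ, ?_, ?_, ?_, ?_⟩
    · intro j
      refine Fin.lastCases x1 (fun j' => ?_) j
      rw [x4, hd]
    · intro k j
      refine Fin.lastCases (fun h => absurd h (not_lt.mpr (Fin.le_last k))) (fun j' => ?_) j
      refine Fin.lastCases (fun _ => x3 j') (fun k' h => ?_) k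
      rw [x4, htri k' j' (Fin.castSucc_lt_castSucc_iff.mp h)]
    · intro i j
      refine Fin.lastCases ?_ (fun j' => ?_) j
      · refine Fin.lastCases ?_ (fun i' => ?_) i
        · rw [hπl, s0, min_self]
          have e1 : ∑ l, (∑ k : Fin n, a i0 k.castSucc * (ξ' k l : ℝ)) * (m l : ℝ)
              = ∑ i, β i * (∑ l, b i l * (m l : ℝ)) := by
            simp only [r0, Finset.sum_mul, Finset.mul_sum]
            rw [Finset.sum_comm]
            exact Finset.sum_congr rfl fun i _ => Finset.sum_congr rfl fun k _ => by ring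
          have e2 : ∀ i, |∑ l, b i l * (m l : ℝ)|
              ≤ n * (C * μ (Fin.last n)) + μ (Fin.last n) := by
            intro i
            have h3 := s3 i
            have h4 := s4 (π'.symm i)
            rw [Equiv.apply_symm_apply] at h4
            have h5 := hb (i0.succAbove i) (Fin.last n)
            have h6 : (n : ℝ) * (C * μ (π'.symm i).castSucc) ≤ n * (C * μ (Fin.last n)) :=
              mul_le_mul_of_nonneg_left (mul_le_mul_of_nonneg_left (hμl _) (by linarith)) hn
            rw [abs_le] at h4 h5 ⊢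
            constructor <;> linarith [h4.1, h4.2, h5.1, h5.2]
          have e3 := comb β _ hβ _ e2
          rw [e1]
          have h5 := hb i0 (Fin.last n)
          have h7 := hμ0 (Fin.last n)
          have h8 := abs_add_le (∑ i, β i * (∑ l, b i l * (m l : ℝ))) (a i0 (Fin.last n))
          have h9 : 0 ≤ C * μ (Fin.last n) := mul_nonneg (by linarith) h7
          have h10 : 0 ≤ n * C * μ (Fin.last n) := mul_nonneg hnC h7
          nlinarith
        · rw [hπc, s0, min_eq_left (hμl _)]
          have e1 : ∀ l, ∑ k : Fin n, a (i0.succAbove (π' i')) k.castSucc * (ξ' k l : ℝ)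
              = b (π' i') l := fun l => by rw [hbe]; rfl
          simp only [e1]
          rw [s3]
          refine (s4 i').trans ?_
          have h7 := hμ0 i'.castSucc
          have : 0 ≤ (1 + n + C + n * (n * C)) * μ i'.castSucc :=
            mul_nonneg (by linarith) h7
          nlinarith
      · refine Fin.lastCases ?_ (fun i' => ?_) i
        · rw [hπl, s2, min_eq_right (hμl _)]
          refine (comb β _ hβ _ fun i => hb2 i j').trans ?_
          have h7 := hμ0 j'.castSucc
          have : 0 ≤ (1 + n + C + n * (n * C)) * μ j'.castSucc :=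
            mul_nonneg (by linarith) h7
          nlinarith
        · rw [hπc, s1]
          refine (hb1 i' j').trans (mul_le_mul_of_nonneg_right (by linarith) ?_)
          exact le_min (hμ0 _) (hμ0 _)
    · intro k t B
      refine Fin.lastCases (fun _ h i => ?_) (fun k' ht h i => ?_) k
      · have h1 := h (π.symm i) (Fin.le_last _)
        rw [Equiv.apply_symm_apply] at h1
        have h0 : 0 ≤ B := (abs_nonneg _).trans h1
        have : 0 ≤ (n + C + n * C + n * (n * C)) * B := mul_nonneg (by linarith) h0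
        nlinarith
      · have tl : t (Fin.last n) = 0 := ht _ (Fin.castSucc_lt_last k')
        have red : ∀ i, ∑ j, a i j * t j = ∑ j : Fin n, a i j.castSucc * t j.castSucc := by
          intro i
          rw [Fin.sum_univ_castSucc, tl, mul_zero, add_zero]
        have h0 : 0 ≤ B := (abs_nonneg _).trans (h k'.castSucc le_rfl)
        have hI := hdom k' (fun j => t j.castSucc) B
          (fun j hj => ht _ (Fin.castSucc_lt_castSucc_iff.mpr hj))
          (fun l hl => by
            have := h l.castSucc (Fin.castSucc_le_castSucc_iff.mpr hl)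
            rw [hπc, red] at this
            exact this)
        rw [red]
        rcases Fin.eq_self_or_eq_succAbove i0 i with rfl | ⟨i', rfl⟩
        · have e1 : ∑ j : Fin n, a i j.castSucc * t j.castSucc
              = ∑ i', β i' * ∑ j, a' i' j * t j.castSucc := by
            simp only [hrel, ha'e, Finset.sum_mul, Finset.mul_sum]
            rw [Finset.sum_comm]
            exact Finset.sum_congr rfl fun i _ => Finset.sum_congr rfl fun k _ => by ring
          rw [e1]
          refine (comb β _ hβ _ hI).trans ?_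
          have : 0 ≤ (1 + n + C + n * (n * C)) * B := mul_nonneg (by linarith) h0
          nlinarith
        · refine (hI i').trans (mul_le_mul_of_nonneg_right (by linarith) h0)

end Pool.Agent.SU76.E44
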