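import Pool.Agent.Lib.SU76.Defs
import Pool.Agent.Lib.SU76.Evl44

/-! Row EVL: Evertse's lemma in the form of the blueprint. -/

namespace Pool.Agent.SU76

theorem aEVL : St_EVL := by
  intro n
  obtain ⟨C, hC, h⟩ := E44.evl n
  refine ⟨C, hC, fun x μ hx hμ hb => ?_⟩
  have hu : IsUnit (Matrix.of x) := Matrix.linearIndependent_rows_iff_isUnit.mp hx
  have hd : (Matrix.of x).transpose.det ≠ 0 := by
    rw [Matrix.det_transpose]
    exact ((Matrix.isUnit_iff_isUnit_det _).mp hu).ne_zero
  obtain ⟨π, ξ, h1, h2, h3, h4⟩ := h (Matrix.of x).transpose μ hd hμ (fun i j => hb j i)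
  refine ⟨fun j l => ξ l j, π, h1, fun j l hjl => h2 l j hjl, fun i j => ?_, fun k a t ha ht i => ?_⟩
  · have := h3 i j
    simp only [Matrix.transpose_apply, Matrix.of_apply] at this
    simp only [mul_comm (((ξ _ j : ℤ)) : ℝ)]
    exact this
  · have := h4 k a t ha (fun l hl => by
      have := ht l hl
      simp only [Matrix.transpose_apply, Matrix.of_apply]
      simp only [mul_comm (a _)] at this
      exact this) i
    simp only [Matrix.transpose_apply, Matrix.of_apply] at this
    simp only [mul_comm (a _)]
    exact this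

end Pool.Agent.SU76
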