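import Pool.Agent.Lib.Szpiro98.Interp
import Pool.Agent.Lib.SU76.Defs

/-! The extrapolation estimate of Baker's method over the reals, with polynomial coefficients. -/

namespace Pool.Agent.SU76

namespace EXT

open Finset Polynomial Real Pool.Agent.Szpiro98

/-- A system of divided differences. -/
structure DS (Φ : List ℝ → ℝ) : Prop where
  perm : ∀ l l', l.Perm l' → Φ l = Φ l'
  sub : ∀ y z zs, (y - z) * Φ (y :: z :: zs) = Φ (y :: zs) - Φ (z :: zs)

lemma newton {Φ : List ℝ → ℝ} (H : DS Φ) {τ R : ℕ} (τ1 : 1 ≤ τ) {ε ρ y : ℝ} (ε0 : 0 ≤ ε)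
    (hj : ∀ l : ℕ, 1 ≤ l → l ≤ R → ∀ k < τ, |Φ (List.replicate (k + 1) l)| ≤ ε) (hR : (R : ℝ) ≤ ρ) (y0 : 0 ≤ y)
    (y1 : y ≤ ρ) : ∃ zs : List ℝ, zs.length = R * τ + 1 ∧ (∀ z ∈ zs, |z| ≤ ρ) ∧
      |Φ [y]| ≤ ε * exp (4 * τ * ρ) + ρ ^ (R * τ) * |Φ zs| := by
  set a : ℕ → ℝ := fun i => ((i / τ + 1 : ℕ) : ℝ) with ha
  have t0 : (1 : ℝ) ≤ τ := by exact_mod_cast τ1
  have lt : ∀ i < R * τ, i / τ + 1 ≤ R := fun i h => (Nat.div_lt_iff_lt_mul τ1).2 h
  have D : ∀ n i, i + n < R * τ → |Φ ((List.range' i (n + 1)).map a)| ≤ ε * ((4 * τ) ^ n / n.factorial) := by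
    intro n
    induction n with
    | zero => intro i h; simpa [ha] using hj _ (Nat.le_add_left 1 _) (lt i h) 0 τ1
    | succ n ih =>
      intro i h
      have m1 := Nat.div_mul_le_self i τ
      have m2 := Nat.lt_div_mul_add (a := i + (n + 1)) τ1
      have m3 : i / τ ≤ (i + (n + 1)) / τ := Nat.div_le_div_right (by omega)
      rcases m3.eq_or_lt with e | e
      · have : (List.range' i (n + 1 + 1)).map a = List.replicate (n + 1 + 1) (a i) := by
          refine List.eq_replicate_iff.2 ⟨by simp, fun z hz => ?_⟩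
          obtain ⟨j, hj, rfl⟩ := List.mem_map.1 hz
          rw [List.mem_range'_1] at hj
          have : j / τ = i / τ := le_antisymm (e ▸ Nat.div_le_div_right (by omega)) (Nat.div_le_div_right hj.1)
          simp only [ha, this]
        have k : n + 1 < τ := by rw [← e] at m2; omega
        rw [this]
        refine (hj _ (Nat.le_add_left 1 _) (lt i (by omega)) _ k).trans (le_mul_of_one_le_right ε0 ?_)
        rw [one_le_div (by positivity)]
        exact_mod_cast (Nat.factorial_le_pow _).trans (Nat.pow_le_pow_left (by omega) _)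
      · have i1 := ih i (by omega)
        have i2 := ih (i + 1) (by omega)
        have s := congrArg abs (H.sub (a (i + (n + 1))) (a i) ((List.range' (i + 1) n).map a))
        have p2 : Φ (a (i + (n + 1)) :: (List.range' (i + 1) n).map a) = Φ ((List.range' (i + 1) (n + 1)).map a) :=
          H.perm _ _ (by
            rw [List.range'_concat, List.map_append, show i + 1 + 1 * n = i + (n + 1) by omega]
            exact (List.perm_append_singleton _ _).symm)
        have p3 : Φ (a (i + (n + 1)) :: a i :: (List.range' (i + 1) n).map a) =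
            Φ ((List.range' i (n + 1 + 1)).map a) := H.perm _ _ (by
          rw [List.range'_concat, List.map_append, one_mul]
          exact (List.perm_append_singleton _ _).symm)
        obtain ⟨g, hg⟩ := Nat.exists_eq_add_of_lt e
        have g1 : a (i + (n + 1)) - a i = g + 1 := by simp only [ha, hg]; push_cast; ring
        have g2 : (n + 1 : ℝ) ≤ 2 * τ * (g + 1) := by
          have : n + 1 ≤ 2 * τ * (g + 1) := by rw [hg] at m2; nlinarith
          exact_mod_cast this
        rw [p2, p3, g1, abs_mul, abs_of_pos (by positivity)] at s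
        have t := abs_sub (Φ ((List.range' (i + 1) (n + 1)).map a)) (Φ (a i :: (List.range' (i + 1) n).map a))
        rw [List.range'_succ, List.map_cons] at i1
        rw [Nat.factorial_succ, ← mul_div_assoc, le_div_iff₀ (by positivity)]
        push_cast
        calc _ ≤ |Φ ((List.range' i (n + 1 + 1)).map a)| * ((2 * τ * (g + 1)) * n.factorial) := by gcongr
          _ = 2 * τ * n.factorial * ((g + 1) * |Φ ((List.range' i (n + 1 + 1)).map a)|) := by ring
          _ ≤ 2 * τ * n.factorial * (2 * (ε * ((4 * τ) ^ n / n.factorial))) :=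
            mul_le_mul_of_nonneg_left (by linarith) (by positivity)
          _ = _ := by field_simp; ring
  have aρ : ∀ i < R * τ, 0 ≤ a i ∧ a i ≤ ρ := fun i h =>
    ⟨Nat.cast_nonneg _, le_trans (Nat.cast_le.2 (lt i h)) hR⟩
  have N : ∀ n ≤ R * τ, |Φ [y]| ≤ ε * ∑ j ∈ range n, (4 * τ * ρ) ^ j / j.factorial +
      ρ ^ n * |Φ (y :: (List.range' 0 n).map a)| := by
    intro n
    induction n with
    | zero => simp
    | succ n ih =>
      intro h
      have s := H.sub y (a n) ((List.range' 0 n).map a)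
      have p : (a n :: (List.range' 0 n).map a).Perm ((List.range' 0 (n + 1)).map a) := by
        rw [List.range'_concat, List.map_append, one_mul, zero_add]
        exact (List.perm_append_singleton _ _).symm
      rw [H.perm _ _ p, H.perm _ _ (p.cons y), eq_sub_iff_add_eq] at s
      have d := D n 0 (by omega)
      have r : |y - a n| ≤ ρ := abs_le.2 ⟨by linarith [aρ n h], by linarith [aρ n h]⟩
      have ρ0 : 0 ≤ ρ := y0.trans y1
      refine (ih (by omega)).trans ?_
      rw [← s, sum_range_succ]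
      calc _ ≤ ε * ∑ j ∈ range n, (4 * τ * ρ) ^ j / j.factorial +
            ρ ^ n * (ρ * |Φ (y :: (List.range' 0 (n + 1)).map a)| + ε * ((4 * τ) ^ n / n.factorial)) := by
            gcongr
            refine (abs_add_le _ _).trans (add_le_add ?_ d)
            rw [abs_mul]; gcongr
        _ = _ := by rw [mul_pow _ ρ]; ring
  refine ⟨y :: (List.range' 0 (R * τ)).map a, by simp, fun z hz => ?_, (N _ le_rfl).trans ?_⟩
  · rcases List.mem_cons.1 hz with rfl | hz
    · rwa [abs_of_nonneg y0]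
    · obtain ⟨j, hj, rfl⟩ := List.mem_map.1 hz
      have := aρ j (by simpa using hj)
      rw [abs_of_nonneg this.1]; exact this.2
  · gcongr
    exact Real.sum_le_exp_of_nonneg (by have := y0.trans y1; positivity) _

/-- Taylor coefficient of `Q(z + X) exp (t X)`. -/
noncomputable def J0 (t : ℝ) (Q : ℝ[X]) (z : ℝ) (k : ℕ) : ℝ :=
  ∑ p ∈ antidiagonal k, (taylor z Q).coeff p.1 * (t ^ p.2 / p.2.factorial)

lemma J0_zero (t : ℝ) (Q : ℝ[X]) (z : ℝ) : J0 t Q z 0 = Q.eval z := by simp [J0]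

lemma J0_succ (t : ℝ) (Q : ℝ[X]) (z : ℝ) (k : ℕ) : J0 t (X * Q) z (k + 1) = z * J0 t Q z (k + 1) + J0 t Q z k := by
  simp only [J0, Nat.sum_antidiagonal_succ, taylor_mul, taylor_X, add_mul, coeff_add, coeff_X_mul, coeff_C_mul,
    coeff_X_mul_zero, sum_add_distrib, mul_add, mul_sum, mul_assoc]
  ring

lemma mono {t w : ℝ} (h : |t| ≤ w) (j : ℕ) : ∃ Φ : List ℝ → ℝ, DS Φ ∧ Φ [] = 0 ∧
    (∀ z k, Φ (List.replicate (k + 1) z) = J0 t (X ^ j) z k * exp (t * z)) ∧
    ∀ ρ, 0 ≤ ρ → ∀ k zs, zs.length = k + 1 → (∀ z ∈ zs, |z| ≤ ρ) → |Φ zs| ≤ J0 w (X ^ j) ρ k * exp (w * ρ) := by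
  induction j with
  | zero =>
    have ex : ∀ (x z : ℝ) (k : ℕ), HasSum (fun m => G (List.replicate (k + 1) z) (m + 1) * (x ^ m / m.factorial))
        (J0 x (X ^ 0) z k * exp (x * z)) := fun x z k => by
      have : J0 x (X ^ 0) z k = x ^ k / k.factorial := by
        rw [J0, sum_eq_single (0, k)] <;> simp +contextual [coeff_one, Prod.ext_iff]
        omega
      rw [this, Real.exp_eq_exp_ℝ]; exact hasSum_rep (Real.summable_pow_div_factorial _) k
    have tm : ∀ ρ, 0 ≤ ρ → ∀ zs : List ℝ, (∀ z ∈ zs, |z| ≤ ρ) → ∀ m, ‖G zs (m + 1) * (t ^ m / m.factorial)‖ ≤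
        G (List.replicate zs.length ρ) (m + 1) * (w ^ m / m.factorial) := fun ρ ρ0 zs hz m => by
      rw [norm_mul, norm_div, norm_pow, Real.norm_natCast]
      have := norm_G_le ρ0 (m + 1) zs hz
      exact mul_le_mul this (by gcongr; exact h) (by positivity) ((norm_nonneg _).trans this)
    have sm : ∀ z zs, Summable fun m => G (z :: zs) (m + 1) * (t ^ m / m.factorial) := fun z zs =>
      (ex w _ zs.length).summable.of_norm_bounded (tm (((z :: zs).map abs).sum)
        (List.sum_nonneg (by simp)) _ fun x hx => List.single_le_sum (by simp) _ (List.mem_map_of_mem hx))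
    refine ⟨fun zs => DD zs t, ⟨fun l l' p => by simp only [DD, G_perm p], fun y z zs => ?_⟩, by simp [DD, G],
      fun z k => (ex t z k).tsum_eq, fun ρ ρ0 k zs hl hz =>
        tsum_of_norm_bounded (ex w ρ k) fun m => hl ▸ tm ρ ρ0 zs hz m⟩
    rw [DD, DD, DD, ← (sm _ _).tsum_sub (sm _ _), ← tsum_mul_left]
    congr 1; funext m; rw [← mul_assoc, G_sub, sub_mul]
  | succ j ih =>
    obtain ⟨Φ, H, h0, h1, h2⟩ := ih
    refine ⟨fun l => l.headD 0 * Φ l + Φ l.tail, ⟨fun l l' p => ?_, fun y z zs => ?_⟩, by simp [h0], fun z k => ?_,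
      fun ρ ρ0 k zs hl hz => ?_⟩
    · induction p with
      | nil => rfl
      | cons x p _ => simp [H.perm _ _ p, H.perm _ _ (p.cons x)]
      | swap x y l =>
        simp only [List.headD_cons, List.tail_cons, H.perm _ _ (List.Perm.swap x y l)]
        linear_combination H.sub x y l * (-1)
      | trans _ _ a b => exact a.trans b
    · simp only [List.headD_cons, List.tail_cons]
      linear_combination y * H.sub y z zs
    · beta_reduce
      rw [pow_succ', h1]
      cases k with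
      | zero => simp [J0_zero, h0, mul_assoc]
      | succ k => rw [J0_succ, List.replicate_succ, List.headD_cons, List.tail_cons, h1]; ring
    · have a := h2 ρ ρ0 k zs hl hz
      obtain _ | ⟨z, zs⟩ := zs
      · simp at hl
      have b : |z * Φ (z :: zs)| ≤ ρ * (J0 w (X ^ j) ρ k * exp (w * ρ)) := by
        rw [abs_mul]; gcongr; exact hz z (by simp)
      beta_reduce
      rw [pow_succ', List.headD_cons, List.tail_cons]
      cases k with
      | zero =>
        obtain rfl : zs = [] := by simpa using hl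
        simpa [J0_zero, h0, mul_assoc] using b
      | succ k =>
        have := h2 ρ ρ0 k zs (by simpa using hl) fun x hx => hz x (by simp [hx])
        rw [J0_succ]
        linarith [abs_add_le (z * Φ (z :: zs)) (Φ zs)]

/-- Nonnegative coefficients. -/
def NN (Q : ℝ[X]) : Prop := ∀ j, 0 ≤ Q.coeff j

lemma NN.mono {Q : ℝ[X]} (h : NN Q) {x y : ℝ} (x0 : 0 ≤ x) (xy : x ≤ y) : 0 ≤ Q.eval x ∧ Q.eval x ≤ Q.eval y := by
  simp only [eval_eq_sum_range]
  exact ⟨sum_nonneg fun j _ => mul_nonneg (h j) (by positivity), sum_le_sum fun j _ => by have := h j; gcongr⟩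

lemma NN.hasse {Q : ℝ[X]} (h : NN Q) (m : ℕ) : NN (hasseDeriv m Q) := fun j => by
  rw [hasseDeriv_coeff]; exact mul_nonneg (Nat.cast_nonneg _) (h _)

lemma NN.taylor {Q : ℝ[X]} (h : NN Q) {z : ℝ} (z0 : 0 ≤ z) : NN (taylor z Q) := fun j => by
  rw [taylor_coeff]; exact ((h.hasse j).mono z0 le_rfl).1

lemma NN.psum {Q : ℝ[X]} (h : NN Q) {z s : ℝ} (z0 : 0 ≤ z) (s0 : 0 ≤ s) (n : ℕ) :
    ∑ a ∈ range n, (Polynomial.taylor z Q).coeff a * s ^ a ≤ Q.eval (z + s) := by
  rw [add_comm, ← taylor_eval, eval_eq_sum_range' (n := (Polynomial.taylor z Q).natDegree + 1 + n) (by omega)]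
  exact sum_le_sum_of_subset_of_nonneg (range_mono (by omega)) fun a _ _ =>
    mul_nonneg (h.taylor z0 a) (by positivity)

lemma NN.J0_le {Q : ℝ[X]} (h : NN Q) {z s w : ℝ} (z0 : 0 ≤ z) (s0 : 0 ≤ s) (w0 : 0 ≤ w) (k : ℕ) :
    J0 w Q z k * s ^ k ≤ Q.eval (z + s) * exp (w * s) := by
  refine le_trans ?_ (mul_le_mul_of_nonneg_right (h.psum z0 s0 (k + 1)) (exp_pos _).le)
  rw [J0, Nat.sum_antidiagonal_eq_sum_range_succ_mk, sum_mul, sum_mul]
  refine sum_le_sum fun a ha => ?_
  have := h.taylor z0 a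
  calc _ = (Polynomial.taylor z Q).coeff a * s ^ a * ((w * s) ^ (k - a) / (k - a).factorial) := by
        rw [← pow_mul_pow_sub s (Nat.lt_succ_iff.1 (mem_range.1 ha)), mul_pow]; ring
    _ ≤ _ := by gcongr; exact Real.pow_div_factorial_le_exp _ (by positivity) _

lemma J0_sum (t : ℝ) (Q : ℝ[X]) (z : ℝ) (k : ℕ) : ∑ j ∈ Q.support, Q.coeff j * J0 t (X ^ j) z k = J0 t Q z k := by
  conv_rhs => rw [Q.as_sum_support_C_mul_X_pow]
  simp only [J0, map_sum, finset_sum_coeff, sum_mul, mul_sum, taylor_mul, taylor_C, coeff_C_mul, mul_assoc]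
  exact sum_comm

lemma jet_eq (P : ℝ[X]) (t x : ℝ) (k : ℕ) : jet P t x k = J0 t P x k * exp (t * x) := by
  simp only [jet, J0, Nat.sum_antidiagonal_eq_sum_range_succ_mk, sum_mul, taylor_coeff]

end EXT

open Finset Polynomial Real EXT in
theorem aEXT : St_EXT := by
  intro ι I A om P Ω ε ρ σ y R τ hP ho ε0 τ1 _ hR σ0 y0 y1 hj
  have ρ0 : 0 ≤ ρ := y0.trans y1
  choose! Φ H _ h1 h2 using fun i (hi : i ∈ I) j => mono (ho i hi) j
  set Ψ : List ℝ → ℝ := fun zs => ∑ i ∈ I, A i * ∑ j ∈ (P i).support, (P i).coeff j * Φ i j zs with hΨ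
  have rep : ∀ z k, Ψ (List.replicate (k + 1) z) = ∑ i ∈ I, A i * jet (P i) (om i) z k := fun z k =>
    sum_congr rfl fun i hi => by simp only [h1 i hi, ← mul_assoc, ← sum_mul, J0_sum, jet_eq]
  obtain ⟨zs, z1, z2, z3⟩ := newton (Φ := Ψ) ⟨fun l l' p => sum_congr rfl fun i hi => by
      simp only [(H i hi _).perm _ _ p], fun y z zs => by
      simp only [hΨ, mul_sum, ← sum_sub_distrib]
      refine sum_congr rfl fun i hi => sum_congr rfl fun j _ => ?_
      linear_combination A i * (P i).coeff j * (H i hi j).sub y z zs⟩ τ1 (R := R) ε0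
    (fun l a b k hk => rep l k ▸ hj l (mem_Icc.2 ⟨a, b⟩) k hk) hR y0 y1
  have e := rep y 0
  simp only [jet_eq, J0_zero, zero_add, List.replicate_one] at e
  rw [← e]
  refine z3.trans (add_le_add le_rfl ?_)
  rw [div_pow, div_mul_eq_mul_div, mul_div_assoc, sum_div]
  refine mul_le_mul_of_nonneg_left ((abs_sum_le_sum_abs _ _).trans (sum_le_sum fun i hi => ?_)) (by positivity)
  rw [abs_mul, mul_div_assoc]
  refine mul_le_mul_of_nonneg_left ?_ (abs_nonneg _)
  have c := NN.J0_le (hP i hi) ρ0 σ0.le ((abs_nonneg _).trans (ho i hi)) (R * τ)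
  rw [le_div_iff₀ (by positivity)]
  calc _ ≤ J0 Ω (P i) ρ (R * τ) * exp (Ω * ρ) * σ ^ (R * τ) := by
        gcongr
        rw [← J0_sum, sum_mul]
        refine (abs_sum_le_sum_abs _ _).trans (sum_le_sum fun j _ => ?_)
        rw [abs_mul, abs_of_nonneg (hP i hi j), mul_assoc]
        exact mul_le_mul_of_nonneg_left (h2 i hi j ρ ρ0 _ zs z1 z2) (hP i hi j)
    _ = J0 Ω (P i) ρ (R * τ) * σ ^ (R * τ) * exp (Ω * ρ) := by ring
    _ ≤ (P i).eval (ρ + σ) * exp (Ω * σ) * exp (Ω * ρ) := mul_le_mul_of_nonneg_right c (exp_pos _).le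
    _ = _ := by rw [mul_add, exp_add]; ring

end Pool.Agent.SU76
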