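import Pool.Agent.Lib.SU76.Defs
import Pool.Agent.Lib.MP_14338b_nt.Tree

/-! Row G: what one solution gives (the leaves `tau_prod`, `sp_eq`, `point` were typed by helper40). -/

namespace Pool.Agent.SU76

open Finset Pool.Agent.Lib.MP_14338b_nt

namespace G

/-- product form of the unitary divisor sum -/
def sp (n : ℕ) : ℕ := ∏ p ∈ n.primeFactors, (p ^ n.factorization p + 1)

/-- product of `1 + 1/p` over the primes `p > M0` of `n` -/
noncomputable def tau (M0 n : ℕ) : ℝ :=
  ∏ p ∈ n.primeFactors.filter (fun p => M0 < p), (1 + 1 / (p : ℝ))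

theorem tau_mul (M0 : ℕ) {a b : ℕ} (ha : a ≠ 0) (hb : b ≠ 0)
    (h : ∀ p, p.Prime → M0 < p → p ∣ a * b → ¬ p ^ 2 ∣ a * b) :
    tau M0 (a * b) = tau M0 a * tau M0 b := by
  unfold tau
  rw [Nat.primeFactors_mul ha hb, Finset.filter_union, Finset.prod_union]
  rw [Finset.disjoint_left]
  intro p h1 h2
  simp only [Finset.mem_filter, Nat.mem_primeFactors] at h1 h2
  exact h p h1.1.1 h1.2 (Dvd.dvd.mul_right h1.1.2.1 b)
    (by rw [sq]; exact mul_dvd_mul h1.1.2.1 h2.1.2.1)

theorem tau_prod (M0 : ℕ) (s : Finset ℕ) (g : ℕ → ℕ) (hg : ∀ i ∈ s, g i ≠ 0)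
    (h : ∀ p, p.Prime → M0 < p → p ∣ ∏ i ∈ s, g i → ¬ p ^ 2 ∣ ∏ i ∈ s, g i) :
    tau M0 (∏ i ∈ s, g i) = ∏ i ∈ s, tau M0 (g i) := by
  induction s using Finset.induction_on with
  | empty => simp [tau]
  | insert a s ha ih =>
    rw [Finset.prod_insert ha] at h ⊢
    rw [Finset.prod_insert ha, tau_mul M0 (hg a (Finset.mem_insert_self _ _))
      (Finset.prod_ne_zero_iff.2 fun i hi => hg i (Finset.mem_insert_of_mem hi)) h,
      ih (fun i hi => hg i (Finset.mem_insert_of_mem hi))]
    intro p hp hM hd h2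
    exact h p hp hM (Dvd.dvd.mul_left hd _) (Dvd.dvd.mul_left h2 _)

theorem sp_eq {n : ℕ} (hn : n ≠ 0) :
    (sp n : ℝ) = n * ∏ p ∈ n.primeFactors, (1 + 1 / (p : ℝ) ^ n.factorization p) := by
  have h : (n : ℝ) = ∏ p ∈ n.primeFactors, (p : ℝ) ^ n.factorization p := by
    have h0 := Nat.prod_factorization_pow_eq_self hn
    rw [Finsupp.prod, Nat.support_factorization] at h0
    exact_mod_cast h0.symm
  rw [show (n : ℝ) * ∏ p ∈ n.primeFactors, (1 + 1 / (p : ℝ) ^ n.factorization p) =
    (∏ p ∈ n.primeFactors, (p : ℝ) ^ n.factorization p) *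
      ∏ p ∈ n.primeFactors, (1 + 1 / (p : ℝ) ^ n.factorization p) by rw [← h],
    ← Finset.prod_mul_distrib]
  unfold sp
  push_cast
  refine Finset.prod_congr rfl fun p hp => ?_
  have hp0 : (0 : ℝ) < p := by exact_mod_cast (Nat.prime_of_mem_primeFactors hp).pos
  field_simp

theorem dvd_sp {n p : ℕ} (hp : p ∈ n.primeFactors) : p ^ n.factorization p + 1 ∣ sp n :=
  Finset.dvd_prod_of_mem (fun p => p ^ n.factorization p + 1) hp

/-- local factor at a small prime -/
noncomputable def sig (p e : ℕ) : ℝ := if e = 0 then 1 else 1 + 1 / (p : ℝ) ^ e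

/-- what one solution gives -/
theorem point {al be M' M0 A B : ℕ} (hal : 1 ≤ al) (hA : 0 < A) (hB : 0 < B)
    (h1 : sp A = al * B) (h2 : sp B = be * A)
    (hsm : ∀ l, l.Prime → l ∣ be * A → l ≤ M') (hM0 : al ≤ M0)
    (hF : ∀ x e, 2 ≤ x → 2 ≤ e → (∀ r, r.Prime → r ∣ x ^ e + 1 → r ≤ M') → x ^ e ≤ M0)
    (h1M : 1 ≤ M0) :
    (∀ p, p.Prime → M0 < p → p ∣ sp A → ¬ p ^ 2 ∣ sp A ∧ ∀ l, l.Prime → l ∣ p + 1 → l ≤ M') ∧
    (∀ p, B.factorization p ≤ M0) ∧
    ((al : ℝ) * be = (∏ q ∈ A.primeFactors,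
      (1 + 1 / (q : ℝ) ^ A.factorization q) * tau M0 (q ^ A.factorization q + 1)) *
        ∏ p ∈ range (M0 + 1), sig p (B.factorization p)) := by
  have hs : ∀ p ∈ B.primeFactors, ∀ r, r.Prime → r ∣ p ^ B.factorization p + 1 → r ≤ M' :=
    fun p hp r hr hd => hsm r hr (h2 ▸ hd.trans (dvd_sp hp))
  have hle : ∀ p, 2 ≤ B.factorization p → p ^ B.factorization p ≤ M0 := by
    intro p h
    have hp : p ∈ B.primeFactors := by
      rw [← Nat.support_factorization, Finsupp.mem_support_iff]; omega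
    exact hF p _ (Nat.prime_of_mem_primeFactors hp).two_le h (hs p hp)
  have hone : ∀ p ∈ B.primeFactors, M0 < p → B.factorization p = 1 := by
    intro p hp hM
    have h0 : B.factorization p ≠ 0 := by
      rwa [← Nat.support_factorization, Finsupp.mem_support_iff] at hp
    by_contra hne
    have h3 := hle p (by omega)
    have h4 : p ≤ p ^ B.factorization p := Nat.le_self_pow h0 p
    omega
  have hcop : ∀ p, p.Prime → M0 < p → Nat.Coprime p al := fun p hp hM =>
    (Nat.Prime.coprime_iff_not_dvd hp).2 fun hd => by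
      have := Nat.le_of_dvd hal hd; omega
  have hmem : ∀ p, p.Prime → M0 < p → p ∣ sp A → p ∈ B.primeFactors := fun p hp hM hd =>
    Nat.mem_primeFactors.2 ⟨hp, (hcop p hp hM).dvd_of_dvd_mul_left (h1 ▸ hd), hB.ne'⟩
  have hL : ∀ p, p.Prime → M0 < p → p ∣ sp A →
      ¬ p ^ 2 ∣ sp A ∧ ∀ l, l.Prime → l ∣ p + 1 → l ≤ M' := by
    intro p hp hM hd
    have hm := hmem p hp hM hd
    have h3 := hone p hm hM
    refine ⟨fun h => ?_, fun l hl hd' => hs p hm l hl (by rw [h3, pow_one]; exact hd')⟩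
    have h4 : p ^ 2 ∣ B := ((hcop p hp hM).pow_left 2).dvd_of_dvd_mul_left (h1 ▸ h)
    have h5 := (hp.pow_dvd_iff_le_factorization hB.ne').1 h4
    omega
  refine ⟨hL, fun p => ?_, ?_⟩
  · by_cases h : 2 ≤ B.factorization p
    · have h3 := hle p h
      have hp : p ∈ B.primeFactors := by
        rw [← Nat.support_factorization, Finsupp.mem_support_iff]; omega
      have h4 : B.factorization p < p ^ B.factorization p :=
        Nat.lt_pow_self (Nat.prime_of_mem_primeFactors hp).one_lt
      omega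
    · omega
  · have hA' : (0 : ℝ) < A := by exact_mod_cast hA
    have hB' : (0 : ℝ) < B := by exact_mod_cast hB
    have e1 := sp_eq hA.ne'
    have e2 := sp_eq hB.ne'
    rw [h1] at e1
    rw [h2] at e2
    push_cast at e1 e2
    have hspA : sp A ≠ 0 := by rw [h1]; positivity
    have e3 : ∏ p ∈ B.primeFactors, (1 + 1 / (p : ℝ) ^ B.factorization p) =
        tau M0 (sp A) * ∏ p ∈ range (M0 + 1), sig p (B.factorization p) := by
      rw [← Finset.prod_filter_mul_prod_filter_not B.primeFactors (fun p => M0 < p)]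
      congr 1
      · unfold tau
        refine Finset.prod_congr ?_ fun p hp => ?_
        · ext p
          simp only [Finset.mem_filter]
          constructor
          · rintro ⟨hp, hM⟩
            exact ⟨Nat.mem_primeFactors.2 ⟨Nat.prime_of_mem_primeFactors hp,
              h1 ▸ Dvd.dvd.mul_left (Nat.dvd_of_mem_primeFactors hp) al, hspA⟩, hM⟩
          · rintro ⟨hp, hM⟩
            exact ⟨hmem p (Nat.prime_of_mem_primeFactors hp) hM
              (Nat.dvd_of_mem_primeFactors hp), hM⟩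
        · simp only [Finset.mem_filter] at hp
          rw [hone p (hmem p (Nat.prime_of_mem_primeFactors hp.1) hp.2
            (Nat.dvd_of_mem_primeFactors hp.1)) hp.2, pow_one]
      · have e4 : ∏ p ∈ B.primeFactors.filter (fun p => ¬ M0 < p),
            (1 + 1 / (p : ℝ) ^ B.factorization p) =
            ∏ p ∈ B.primeFactors.filter (fun p => ¬ M0 < p), sig p (B.factorization p) := by
          refine Finset.prod_congr rfl fun p hp => ?_
          have h0 : B.factorization p ≠ 0 := by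
            have := (Finset.mem_filter.1 hp).1
            rwa [← Nat.support_factorization, Finsupp.mem_support_iff] at this
          rw [sig, if_neg h0]
        rw [e4]
        refine Finset.prod_subset (fun p hp => ?_) fun p hp hn => ?_
        · have := (Finset.mem_filter.1 hp).2
          exact Finset.mem_range.2 (by omega)
        · have h5 := Finset.mem_range.1 hp
          have h0 : B.factorization p = 0 := by
            by_contra h0
            refine hn (Finset.mem_filter.2 ⟨?_, by omega⟩)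
            rwa [← Nat.support_factorization, Finsupp.mem_support_iff]
          rw [sig, if_pos h0]
    have e5 : tau M0 (sp A) = ∏ q ∈ A.primeFactors, tau M0 (q ^ A.factorization q + 1) :=
      tau_prod M0 _ (fun q => q ^ A.factorization q + 1) (fun _ _ => Nat.succ_ne_zero _)
        fun p hp hM hd => (hL p hp hM hd).1
    rw [Finset.prod_mul_distrib, ← e5, mul_assoc, ← e3]
    have : ((al : ℝ) * be) * (A * B) = (al * B) * (be * A) := by ring
    rw [e1, e2] at this
    refine mul_right_cancel₀ (mul_pos hA' hB').ne' ?_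
    rw [this]; ring

theorem usigma_eq (n : ℕ) : n ≠ 0 → usigma n = sp n := by
  induction n using Nat.recOnPrimePow with
  | zero => exact fun h => absurd rfl h
  | one => intro _; simp [usigma, sp, Finset.filter_singleton]
  | prime_pow_mul a p n hp hpa hn ih =>
    intro _
    have a0 : a ≠ 0 := fun h => hpa (by simp [h])
    have p0 : p ^ n ≠ 0 := pow_ne_zero _ hp.ne_zero
    have hna : p ∉ a.primeFactors := fun h => hpa (Nat.dvd_of_mem_primeFactors h)
    rw [usigma_pow_mul hp hn hpa, ih a0]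
    unfold sp
    rw [Nat.primeFactors_mul p0 a0, Nat.primeFactors_prime_pow hn.ne' hp, ← Finset.insert_eq,
      Finset.prod_insert hna, Nat.factorization_mul p0 a0, hp.factorization_pow]
    congr 1
    · rw [Finsupp.add_apply, Finsupp.single_eq_same,
        Nat.factorization_eq_zero_of_not_dvd hpa, add_zero]
    · refine Finset.prod_congr rfl fun q hq => ?_
      have hqp : p ≠ q := fun h => hna (h ▸ hq)
      rw [Finsupp.add_apply, Finsupp.single_apply, if_neg hqp, zero_add]

/-- rational form of the local factor -/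
def sigq (p e : ℕ) : ℚ := if e = 0 then 1 else 1 + 1 / (p : ℚ) ^ e

theorem sigq_pos (p e : ℕ) : 0 < sigq p e := by
  unfold sigq
  split_ifs
  · exact one_pos
  · positivity

theorem sig_eq (p e : ℕ) : sig p e = (sigq p e : ℝ) := by
  unfold sig sigq
  split_ifs
  · simp
  · push_cast; rfl

end G

open G in
theorem aG (hN : St_N0) : St_G := by
  classical
  intro M al be hal hbe
  obtain ⟨b, hb⟩ := ((hN (M + be + 1)).image fun x => x.1 ^ x.2).bddAbove
  obtain ⟨M0, hM0⟩ : ∃ M0, M0 = b + (M + be) + al + 3 := ⟨_, rfl⟩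
  refine ⟨M0, (Fintype.piFinset fun _ : Fin (M0 + 1) => range (M0 + 1)).image
    fun g => (al : ℚ) * be / ∏ p : Fin (M0 + 1), sigq p (g p), by omega, by omega, ?_, ?_⟩
  · intro κ hκ
    obtain ⟨g, -, rfl⟩ := Finset.mem_image.1 hκ
    have h1 : (0 : ℚ) < al := by exact_mod_cast hal
    have h2 : (0 : ℚ) < be := by exact_mod_cast hbe
    exact div_pos (mul_pos h1 h2) (Finset.prod_pos fun p _ => sigq_pos _ _)
  intro A B hA hB h1 h2
  have A0 : A ≠ 0 := hA.1
  rw [usigma_eq A A0] at h1
  rw [usigma_eq B hB.ne'] at h2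
  have hsm : ∀ l, l.Prime → l ∣ be * A → l ≤ M + be := by
    intro l hl hd
    rcases (hl.dvd_mul).1 hd with h | h
    · have := Nat.le_of_dvd hbe h
      omega
    · have := Nat.mem_smoothNumbers'.1 hA l hl h
      omega
  have hF : ∀ x e, 2 ≤ x → 2 ≤ e → (∀ r, r.Prime → r ∣ x ^ e + 1 → r ≤ M + be) → x ^ e ≤ M0 := by
    intro x e hx he h
    have h3 : x ^ e ≤ b := hb ⟨(x, e), ⟨hx, he, Nat.mem_smoothNumbers'.2 fun r hr hd =>
      Nat.lt_succ_of_le (h r hr hd)⟩, rfl⟩
    omega
  obtain ⟨p1, p2, p3⟩ := point (M' := M + be) (M0 := M0) hal (Nat.pos_of_ne_zero A0) hB h1 h2 hsm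
    (by omega) hF (by omega)
  refine ⟨fun q hq p hp => ?_, (al : ℚ) * be / ∏ p : Fin (M0 + 1), sigq p (B.factorization p),
    Finset.mem_image.2 ⟨fun p => B.factorization p, Fintype.mem_piFinset.2 fun p =>
      Finset.mem_range.2 (Nat.lt_succ_of_le (p2 p)), rfl⟩, ?_⟩
  · obtain ⟨hp1, hp2⟩ := Finset.mem_filter.1 hp
    obtain ⟨q1, q2⟩ := p1 p (Nat.prime_of_mem_primeFactors hp1) hp2
      ((Nat.dvd_of_mem_primeFactors hp1).trans (dvd_sp hq))
    refine ⟨fun h => q1 (h.trans (dvd_sp hq)), Nat.mem_smoothNumbers'.2 fun l hl hd => ?_⟩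
    have := q2 l hl hd
    omega
  · have e1 : ∏ p ∈ range (M0 + 1), sig p (B.factorization p)
        = ((∏ p : Fin (M0 + 1), sigq p (B.factorization p) : ℚ) : ℝ) := by
      rw [Finset.prod_range, Rat.cast_prod]
      exact Finset.prod_congr rfl fun p _ => sig_eq _ _
    have e2 : (0 : ℝ) < ((∏ p : Fin (M0 + 1), sigq p (B.factorization p) : ℚ) : ℝ) :=
      Rat.cast_pos.2 (Finset.prod_pos fun p _ => sigq_pos _ _)
    rw [e1] at p3
    rw [Rat.cast_div, Rat.cast_mul, Rat.cast_natCast, Rat.cast_natCast, eq_div_iff e2.ne']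
    exact p3.symm

end Pool.Agent.SU76
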