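import Pool.Agent.Lib.SU76.Defs

/-! Row GEO: adapted successive minima and Minkowski's second theorem, from EVL and MIN. -/

namespace Pool.Agent.SU76

open Finset

namespace GEO

theorem det_ne {n : ℕ} {y : Fin n → Fin n → ℤ} (h : LinearIndependent ℤ y) : (Matrix.of y).det ≠ 0 := by
  intro h0
  obtain ⟨v, hv, hv0⟩ := Matrix.exists_vecMul_eq_zero_iff.2 h0
  apply hv
  have h1 := Fintype.linearIndependent_iff.1 h v (by
    ext i
    have := congrFun hv0 i
    simpa [Matrix.vecMul, dotProduct, Finset.sum_apply] using this)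
  exact funext h1

theorem li_of_det {n : ℕ} {R : Type} [CommRing R] [IsDomain R] {y : Fin n → Fin n → R}
    (h : (Matrix.of y).det ≠ 0) : LinearIndependent R y :=
  Matrix.linearIndependent_rows_of_det_ne_zero (A := Matrix.of y) h

theorem det_real {n : ℕ} {y : Fin n → Fin n → ℤ} (h : LinearIndependent ℤ y) :
    (Matrix.of fun j i => (y j i : ℝ)).det ≠ 0 := by
  have h1 : ((Matrix.of y).det : ℝ) ≠ 0 := by exact_mod_cast det_ne h
  have h2 : (Matrix.of fun j i => (y j i : ℝ)) = (Int.castRingHom ℝ).mapMatrix (Matrix.of y) := by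
    ext j i; simp
  rw [h2, ← RingHom.map_det]
  simpa using h1

theorem li_scaled {n : ℕ} {y : Fin n → Fin n → ℤ} (h : LinearIndependent ℤ y) (b : Fin n → ℝ)
    (hb : ∀ i, 0 < b i) : LinearIndependent ℝ (fun j i => (y j i : ℝ) / b i) := by
  have h1 := li_of_det (det_real h)
  rw [Fintype.linearIndependent_iff] at h1 ⊢
  intro g hg
  apply h1 g
  ext i
  have h2 := congrFun hg i
  simp only [Finset.sum_apply, Pi.smul_apply, smul_eq_mul, Pi.zero_apply] at h2 ⊢
  have h3 : (∑ c, g c * (y c i : ℝ)) = (∑ c, g c * ((y c i : ℝ) / b i)) * b i := by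
    rw [Finset.sum_mul]
    refine Finset.sum_congr rfl fun c _ => ?_
    have := (hb i).ne'
    field_simp
  rw [h3, h2, zero_mul]

theorem expand {n : ℕ} {y : Fin n → Fin n → ℤ} (h : LinearIndependent ℤ y) (x : Fin n → ℤ) :
    ∃ a : Fin n → ℝ, ∀ i, (x i : ℝ) = ∑ l, a l * (y l i : ℝ) := by
  have h1 : IsUnit (Matrix.of fun j i => (y j i : ℝ)) :=
    (Matrix.isUnit_iff_isUnit_det _).2 (isUnit_iff_ne_zero.2 (det_real h))
  obtain ⟨a, ha⟩ := Matrix.vecMul_surjective_iff_isUnit.2 h1 (fun i => (x i : ℝ))
  refine ⟨a, fun i => ?_⟩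
  have := congrFun ha i
  simpa [Matrix.vecMul, dotProduct] using this.symm

theorem li_tri {n : ℕ} {y : Fin n → Fin n → ℤ} (h : LinearIndependent ℤ y) (ξ : Fin n → Fin n → ℤ)
    (h1 : ∀ j, ξ j j = 1) (h0 : ∀ j l, j < l → ξ j l = 0) :
    LinearIndependent ℤ (fun j => ∑ l, ξ j l • y l) := by
  apply li_of_det
  have h2 : (Matrix.of fun j => ∑ l, ξ j l • y l) = Matrix.of ξ * Matrix.of y := by
    ext j i
    simp [Matrix.mul_apply, Finset.sum_apply]
  have h3 : (Matrix.of ξ).det = 1 := by
    rw [Matrix.det_of_isLowerTriangular (Matrix.of ξ) (fun i j hij => h0 i j hij)]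
    simp [h1]
  rw [h2, Matrix.det_mul, h3, one_mul]
  exact det_ne h

theorem back {n : ℕ} (y : Fin n → Fin n → ℤ) (ξ : Fin n → Fin n → ℤ)
    (h1 : ∀ j, ξ j j = 1) (h0 : ∀ j l, j < l → ξ j l = 0) (j : Fin n) :
    ∃ c : Fin n → ℤ, y j = ∑ t, c t • (∑ l, ξ t l • y l) ∧ ∀ t, j < t → c t = 0 := by
  induction j using WellFoundedLT.induction with
  | ind j ih =>
    choose c hc hc0 using ih
    classical
    let c' : Fin n → Fin n → ℤ := fun l t => if h : l < j then ξ j l * c l h t else 0
    refine ⟨fun t => (if t = j then 1 else 0) - ∑ l, c' l t, ?_, fun t ht => ?_⟩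
    · have e1 : ∀ l, ∑ t, c' l t • (∑ s, ξ t s • y s) = if l < j then ξ j l • y l else 0 := by
        intro l
        by_cases hl : l < j
        · simp only [c', dif_pos hl, if_pos hl]
          rw [hc l hl, Finset.smul_sum]
          refine Finset.sum_congr rfl fun t _ => ?_
          rw [mul_smul]
        · simp [c', hl]
      have e2 : ∑ t, ((if t = j then (1 : ℤ) else 0) - ∑ l, c' l t) • (∑ s, ξ t s • y s) =
          (∑ s, ξ j s • y s) - ∑ l, if l < j then ξ j l • y l else 0 := by
        simp only [sub_smul, Finset.sum_sub_distrib]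
        congr 1
        · simp [ite_smul]
        · simp only [Finset.sum_smul]
          rw [Finset.sum_comm]
          exact Finset.sum_congr rfl fun l _ => e1 l
      rw [e2, ← Finset.sum_sub_distrib, Finset.sum_eq_single j]
      · simp [h1]
      · intro l _ hl
        rcases lt_or_gt_of_ne hl with h | h
        · simp [h]
        · simp [h0 j l h, not_lt.2 h.le]
      · simp
    · have : ∑ l, c' l t = 0 := by
        refine Finset.sum_eq_zero fun l _ => ?_
        by_cases hl : l < j
        · simp only [c', dif_pos hl]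
          rw [hc0 l hl t (hl.trans ht), mul_zero]
        · simp [c', hl]
      simp [this, ht.ne']

end GEO

open GEO in
theorem aGEO (hE : St_EVL) (hM : St_MIN) : St_GEO := by
  intro n
  obtain ⟨C, hC1, hC⟩ := hE n
  have hC0 : 0 < C := by linarith
  have h2C : 1 ≤ 2 * C := by linarith
  have hCle : C ≤ (2 * C) ^ (n + 1) := by
    have := one_le_pow₀ (n := n) h2C
    rw [pow_succ]; nlinarith
  refine ⟨(2 * C) ^ (n + 1), one_le_pow₀ h2C, fun Λ b hΛ hb => ?_⟩
  obtain ⟨-, y, μ, hyΛ, hli, hmono, hμ, hyb, hmin⟩ := hM n Λ b hΛ hb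
  obtain ⟨ξ, pm, h1, h0, hbd, hext⟩ := hC (fun j i => (y j i : ℝ) / b i) μ (li_scaled hli b hb) hmono (by
    intro j i
    rw [abs_div, abs_of_pos (hb i), div_le_iff₀ (hb i)]
    exact hyb j i)
  refine ⟨fun j => ∑ l, ξ j l • y l, μ, pm, fun j => ?_, li_tri hli ξ h1 h0, hmono, hμ, fun i j => ?_, ?_, ?_⟩
  · exact Λ.sum_mem fun l _ => Λ.zsmul_mem (hyΛ l) _
  · have e : (((∑ l, ξ j l • y l) (pm i) : ℤ) : ℝ) =
        (∑ l, (ξ j l : ℝ) * ((y l (pm i) : ℝ) / b (pm i))) * b (pm i) := by
      rw [Finset.sum_mul, Finset.sum_apply]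
      push_cast
      refine Finset.sum_congr rfl fun l _ => ?_
      have := (hb (pm i)).ne'
      simp only [Pi.smul_apply, smul_eq_mul]
      push_cast
      field_simp
    show |(((∑ l, ξ j l • y l) (pm i) : ℤ) : ℝ)| ≤ _
    rw [e, abs_mul, abs_of_pos (hb (pm i))]
    refine mul_le_mul_of_nonneg_right ((hbd i j).trans ?_) (hb _).le
    exact mul_le_mul_of_nonneg_right hCle (le_min (hμ i).le (hμ j).le)
  · have hb' : ∀ i, 0 < μ (pm.symm i) * b i / (2 * C) := fun i =>
      div_pos (mul_pos (hμ _) (hb i)) (by linarith)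
    obtain ⟨h | ⟨x, hxΛ, hx0, hx⟩, -⟩ := hM n Λ (fun i => μ (pm.symm i) * b i / (2 * C)) hΛ hb'
    · rw [Finset.prod_div_distrib, Finset.prod_mul_distrib, Equiv.prod_comp pm.symm μ, Finset.prod_const,
        Finset.card_univ, Fintype.card_fin, div_le_iff₀ (by positivity)] at h
      refine h.trans ?_
      rw [mul_comm]
      refine mul_le_mul_of_nonneg_right ?_ (Nat.cast_nonneg _)
      exact pow_le_pow_right₀ h2C (Nat.le_succ n)
    · exfalso
      have key : ∀ t m : ℕ, m + t = n → ∃ a : Fin n → ℝ, (∀ i, (x i : ℝ) = ∑ l, a l * (y l i : ℝ)) ∧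
          ∀ l : Fin n, m ≤ l.val → a l = 0 := by
        intro t
        induction t with
        | zero =>
          intro m hm
          obtain ⟨a, ha⟩ := expand hli x
          exact ⟨a, ha, fun l hl => absurd l.isLt (by omega)⟩
        | succ t ih =>
          intro m hm
          obtain ⟨a, ha, ha0⟩ := ih (m + 1) (by omega)
          let k : Fin n := ⟨m, by omega⟩
          have e : ∀ i, ∑ l, a l * ((y l i : ℝ) / b i) = (x i : ℝ) / b i := by
            intro i
            rw [ha i, Finset.sum_div]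
            exact Finset.sum_congr rfl fun l _ => by ring
          have h3 := hext k a (μ k / (2 * C)) (fun l hl => ha0 l (Nat.succ_le_of_lt hl)) (by
            intro i hi
            rw [e, abs_div, abs_of_pos (hb _), div_le_iff₀ (hb _)]
            refine (hx (pm i)).trans ?_
            simp only [Equiv.symm_apply_apply]
            rw [div_mul_eq_mul_div]
            exact div_le_div_of_nonneg_right
              (mul_le_mul_of_nonneg_right (hmono hi) (hb _).le) (by linarith))
          obtain ⟨a0, a', ha0', hs, hz⟩ := hmin x hxΛ k (by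
            intro i
            have h4 := h3 i
            rw [e, abs_div, abs_of_pos (hb _), div_le_iff₀ (hb _)] at h4
            refine h4.trans_lt (mul_lt_mul_of_pos_right ?_ (hb i))
            have h5 : C * (μ k / (2 * C)) = μ k / 2 := by field_simp
            rw [h5]
            have := hμ k
            linarith)
          have ha0r : (a0 : ℝ) ≠ 0 := by exact_mod_cast ha0'
          refine ⟨fun l => (a' l : ℝ) / a0, fun i => ?_, fun l hl => ?_⟩
          · have h6 := congrFun hs i
            simp only [Finset.sum_apply, Pi.smul_apply, smul_eq_mul] at h6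
            have h7 : (a0 : ℝ) * x i = ∑ l, (a' l : ℝ) * (y l i : ℝ) := by exact_mod_cast h6
            have h8 : ∑ l, (a' l : ℝ) / a0 * (y l i : ℝ) = (∑ l, (a' l : ℝ) * (y l i : ℝ)) / a0 := by
              rw [Finset.sum_div]
              exact Finset.sum_congr rfl fun l _ => by ring
            rw [h8, ← h7]
            field_simp
          · have : a' l = 0 := hz l hl
            simp [this]
      obtain ⟨a, ha, ha0⟩ := key n 0 (by omega)
      apply hx0
      ext i
      have h9 := ha i
      rw [Finset.sum_eq_zero (fun l _ => by rw [ha0 l (Nat.zero_le _), zero_mul])] at h9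
      exact_mod_cast h9
  · intro x hxΛ k hx
    obtain ⟨a0, a, ha0, hs, hz⟩ := hmin x hxΛ k hx
    choose c hc hc0 using back y ξ h1 h0
    refine ⟨a0, fun t => ∑ j, a j * c j t, ha0, ?_, fun t ht => ?_⟩
    · rw [hs]
      simp only [Finset.sum_smul]
      rw [Finset.sum_comm]
      refine Finset.sum_congr rfl fun j _ => ?_
      conv_lhs => rw [hc j, Finset.smul_sum]
      exact Finset.sum_congr rfl fun t _ => by rw [mul_smul]
    · refine Finset.sum_eq_zero fun j _ => ?_
      by_cases hj : k ≤ j
      · rw [hz j hj, zero_mul]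
      · rw [hc0 j t ((not_le.1 hj).trans_le ht), mul_zero]

end Pool.Agent.SU76
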