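import Pool.Agent.Lib.SU76.Defs

/-! Row GR: a gap above one for the quotient `Th` unless the truncation is bad. -/

namespace Pool.Agent.SU76

open Finset Real

namespace GR

/-- Among `r + 1` consecutive intervals one contains none of `r` given numbers. -/
lemma gap (r : ℕ) (h : ℕ → ℝ) (hm : Monotone h) (x : Fin r → ℝ) :
    ∃ k ≤ r, ∀ i, x i < h k ∨ h (k + 1) ≤ x i := by
  by_contra hc
  push Not at hc
  have hc' : ∀ k : Fin (r + 1), ∃ i, h k ≤ x i ∧ x i < h (k + 1) :=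
    fun k => hc k (Nat.lt_succ_iff.mp k.2)
  choose f hf using hc'
  have hinj : Function.Injective f := by
    intro k k' hk
    by_contra hne
    have hne' : (k : ℕ) ≠ k' := fun e => hne (Fin.ext e)
    rcases lt_or_gt_of_ne hne' with hl | hl
    · have h1 := (hf k).2
      have h2 := (hf k').1
      have h3 : h (k + 1) ≤ h k' := hm hl
      rw [hk] at h1
      linarith
    · have h1 := (hf k').2
      have h2 := (hf k).1
      have h3 : h (k' + 1) ≤ h k := hm hl
      rw [hk] at h2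
      linarith
  have := Fintype.card_le_of_injective f hinj
  simp at this

lemma sm_prod {M : ℕ} {ι : Type} (s : Finset ι) (f : ι → ℕ) (hf : ∀ i ∈ s, f i ∈ M.smoothNumbers) :
    ∏ i ∈ s, f i ∈ M.smoothNumbers := by
  classical
  induction s using Finset.induction_on with
  | empty => simp [Nat.mem_smoothNumbers]
  | insert a s ha ih =>
    rw [prod_insert ha]
    exact Nat.mul_mem_smoothNumbers (hf a (mem_insert_self _ _))
      (ih fun i hi => hf i (mem_insert_of_mem hi))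

lemma tt_pos (R : Finset ℕ) : 0 < tt R := prod_pos fun p _ => by positivity

lemma le_ex (x : ℝ) : x ≤ exp x := by have := add_one_le_exp x; linarith

/-- The exponents of the scales. -/
def mm (C T : ℕ) : ℕ → ℕ
  | 0 => 0
  | k + 1 => (mm C T k + T) * C + 2 * T + 2

lemma mm_mono (C T : ℕ) (hC : 1 ≤ C) : Monotone (mm C T) := by
  refine monotone_nat_of_le_succ fun k => ?_
  have : mm C T k + T ≤ (mm C T k + T) * C := Nat.le_mul_of_pos_right _ hC
  simp only [mm]
  omega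

/-- The abstract statement: `a / b` is a fixed unit, the `X i` are natural numbers. -/
lemma core (r C T : ℕ) (hC : 1 ≤ C) (L B : ℝ) (hL : 2 ≤ L) (a b : ℕ) (hb : 0 < b) (X : Fin r → ℕ)
    (hX : ∀ i, 1 ≤ X i) (hT1 : (C : ℝ) ≤ 2 ^ T) (hT2 : 2 * (r : ℝ) + 1 ≤ 2 ^ T)
    (hB0 : 0 ≤ log B) (hB : log B ≤ L ^ (T + 1))
    (hBF : ∀ (a' b' : ℕ) (h : ℝ), 0 < a' → 0 < b' → 1 ≤ h → (a' : ℝ) ≤ exp h → (b' : ℝ) ≤ exp h →
      a * a' ≠ b * b' → exp (-(C * h ^ C * log B)) ≤ |(a : ℝ) * a' / (b * b') - 1|)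
    (Th : ℝ) (hTh : Th = (a : ℝ) / b * ∏ i, (1 + 1 / (X i : ℝ))) (h1 : 1 < Th)
    (hbad : ∀ I : Finset (Fin r), I.Nonempty → Th ≠ ∏ i ∈ I, (1 + 1 / (X i : ℝ))) :
    exp (-L ^ mm C T (r + 1)) ≤ Th - 1 := by
  classical
  have hL1 : 1 ≤ L := by linarith
  have hL0 : 0 ≤ L := by linarith
  have hmono : Monotone fun k => L ^ mm C T k := fun k k' hk => pow_le_pow_right₀ hL1 (mm_mono C T hC hk)
  obtain ⟨k, hk, hgap⟩ := gap r _ hmono fun i => log (X i)
  have hXp : ∀ i, (0 : ℝ) < X i := fun i => by exact_mod_cast hX i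
  have hX1 : ∀ i, (1 : ℝ) ≤ X i := fun i => by exact_mod_cast hX i
  have hbp : (0 : ℝ) < b := by exact_mod_cast hb
  set m := mm C T k with hm
  have hLT : (2 : ℝ) ^ T ≤ L ^ T := pow_le_pow_left₀ (by norm_num) hL T
  have hLm : 1 ≤ L ^ m := one_le_pow₀ hL1
  set J : Finset (Fin r) := univ.filter fun i => log (X i) < L ^ m with hJ
  have hcard : (J.card : ℝ) ≤ r := by
    have : J.card ≤ r := by simpa using card_le_univ J
    exact_mod_cast this
  set h : ℝ := L ^ (m + T) with hh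
  have hh1 : 1 ≤ h := one_le_pow₀ hL1
  have hhb : (r : ℝ) * (L ^ m + 1) ≤ h := by
    have : h = L ^ m * L ^ T := pow_add _ _ _
    have hr0 : (0 : ℝ) ≤ r := Nat.cast_nonneg r
    rw [this]
    nlinarith
  have hone : ∀ i ∈ J, (X i : ℝ) + 1 ≤ exp (L ^ m + 1) := by
    intro i hi
    have h2 : log (X i) < L ^ m := (mem_filter.mp hi).2
    have h3 : (X i : ℝ) ≤ exp (L ^ m) := by
      rw [← exp_log (hXp i)]; exact exp_le_exp.mpr h2.le
    have h4 : (2 : ℝ) ≤ exp 1 := by have := add_one_le_exp (1 : ℝ); linarith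
    rw [exp_add]
    have h5 := hX1 i
    nlinarith
  have ha' : ((∏ i ∈ J, (X i + 1) : ℕ) : ℝ) ≤ exp h := by
    push_cast
    calc ∏ i ∈ J, ((X i : ℝ) + 1) ≤ ∏ _i ∈ J, exp (L ^ m + 1) :=
          prod_le_prod (fun i _ => by have := hXp i; linarith) hone
      _ = exp (J.card * (L ^ m + 1)) := by rw [prod_const, ← exp_nat_mul]
      _ ≤ exp h := exp_le_exp.mpr (le_trans (mul_le_mul_of_nonneg_right hcard (by linarith)) hhb)
  have hb' : ((∏ i ∈ J, X i : ℕ) : ℝ) ≤ exp h := by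
    refine le_trans ?_ ha'
    exact_mod_cast prod_le_prod' fun i _ => Nat.le_succ (X i)
  set V : ℝ := (a : ℝ) * (∏ i ∈ J, (X i + 1) : ℕ) / (b * (∏ i ∈ J, X i : ℕ)) with hV
  set E : ℝ := ∏ i ∈ Jᶜ, (1 + 1 / (X i : ℝ)) with hE
  have hpX : (0 : ℝ) < ∏ i ∈ J, (X i : ℝ) := prod_pos fun i _ => hXp i
  have hVe : V = (a : ℝ) / b * ∏ i ∈ J, (1 + 1 / (X i : ℝ)) := by
    have h2 : ∏ i ∈ J, (1 + 1 / (X i : ℝ)) = (∏ i ∈ J, ((X i : ℝ) + 1)) / ∏ i ∈ J, (X i : ℝ) := by
      rw [← prod_div_distrib]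
      refine prod_congr rfl fun i _ => ?_
      have := (hXp i).ne'
      field_simp
    rw [h2, hV]
    push_cast
    field_simp
  have hThV : Th = V * E := by
    rw [hTh, hVe, hE, mul_assoc, prod_mul_prod_compl]
  have hE1 : 1 ≤ E := by
    calc (1 : ℝ) = ∏ _i ∈ Jᶜ, (1 : ℝ) := by simp
      _ ≤ E := prod_le_prod (fun _ _ => zero_le_one) fun i _ => by
          have : 0 ≤ 1 / (X i : ℝ) := by have := hXp i; positivity
          linarith
  have hne : a * ∏ i ∈ J, (X i + 1) ≠ b * ∏ i ∈ J, X i := by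
    intro e
    have hV1 : V = 1 := by
      rw [hV, ← Nat.cast_mul, e, Nat.cast_mul]
      refine div_self ?_
      push_cast
      positivity
    rw [hV1, one_mul] at hThV
    rcases (Jᶜ).eq_empty_or_nonempty with h0 | h0
    · rw [hE, h0, prod_empty] at hThV
      linarith
    · exact hbad _ h0 hThV
  have hbf := hBF _ _ h (prod_pos fun i _ => Nat.succ_pos _) (prod_pos fun i _ => hX i) hh1 ha' hb' hne
  set e : ℕ := (m + T) * C + 2 * T + 1 with he
  have hexp : (C : ℝ) * h ^ C * log B ≤ L ^ e := by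
    have h2 : L ^ e = L ^ T * h ^ C * L ^ (T + 1) := by
      rw [hh, ← pow_mul, ← pow_add, ← pow_add, he]
      congr 1
      ring
    rw [h2]
    have h3 : 0 ≤ h ^ C := by positivity
    exact mul_le_mul (mul_le_mul_of_nonneg_right (hT1.trans hLT) h3) hB hB0 (by positivity)
  have hk1 : mm C T (k + 1) = e + 1 := rfl
  set η : ℝ := exp (-L ^ e) with hη
  have hηV : η ≤ |V - 1| := le_trans (exp_le_exp.mpr (by linarith)) hbf
  have hEle : E ≤ exp η := by
    have h2 : ∀ i ∈ Jᶜ, 1 + 1 / (X i : ℝ) ≤ exp (exp (-L ^ (e + 1))) := by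
      intro i hi
      have h3 : ¬ log (X i) < L ^ m := fun hlt => (mem_compl.mp hi) (mem_filter.mpr ⟨mem_univ _, hlt⟩)
      have h4 : L ^ (e + 1) ≤ log (X i) := by
        rcases hgap i with h5 | h5
        · exact absurd h5 h3
        · rw [← hk1]; exact h5
      have h5 : 1 / (X i : ℝ) ≤ exp (-L ^ (e + 1)) := by
        rw [one_div, ← exp_log (hXp i), ← exp_neg]
        exact exp_le_exp.mpr (by linarith)
      have h6 := add_one_le_exp (exp (-L ^ (e + 1)))
      linarith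
    have hc2 : ((Jᶜ).card : ℝ) ≤ r := by
      have : (Jᶜ).card ≤ r := by simpa using card_le_univ Jᶜ
      exact_mod_cast this
    have h7 : (r : ℝ) * exp (-L ^ (e + 1)) ≤ η := by
      have h8 : L ^ T ≤ L ^ e := pow_le_pow_right₀ hL1 (by omega)
      have h9 : (r : ℝ) ≤ exp (L ^ T) := by
        have := le_ex (L ^ T)
        have hr0 : (0 : ℝ) ≤ r := Nat.cast_nonneg r
        linarith
      have h10 : L ^ T + L ^ e ≤ L ^ (e + 1) := by
        have h11 : 0 ≤ L ^ e := by positivity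
        have h12 : L ^ (e + 1) = L ^ e * L := pow_succ _ _
        have h13 : L ^ e * 2 ≤ L ^ e * L := mul_le_mul_of_nonneg_left hL h11
        linarith
      calc (r : ℝ) * exp (-L ^ (e + 1)) ≤ exp (L ^ T) * exp (-L ^ (e + 1)) :=
            mul_le_mul_of_nonneg_right h9 (exp_pos _).le
        _ = exp (L ^ T + -L ^ (e + 1)) := (exp_add _ _).symm
        _ ≤ η := exp_le_exp.mpr (by linarith)
    calc E ≤ ∏ _i ∈ Jᶜ, exp (exp (-L ^ (e + 1))) :=
          prod_le_prod (fun i _ => by have := hXp i; positivity) h2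
      _ = exp ((Jᶜ).card * exp (-L ^ (e + 1))) := by rw [prod_const, ← exp_nat_mul]
      _ ≤ exp η := exp_le_exp.mpr (le_trans (mul_le_mul_of_nonneg_right hc2 (exp_pos _).le) h7)
  have hη0 : 0 < η := exp_pos _
  have hfin : exp (-L ^ mm C T (r + 1)) ≤ η := by
    refine exp_le_exp.mpr (neg_le_neg (pow_le_pow_right₀ hL1 ?_))
    have := mm_mono C T hC (Nat.succ_le_succ hk)
    simp only [Nat.succ_eq_add_one] at this
    omega
  rcases le_abs.mp hηV with h2 | h2
  · have : V ≤ V * E := le_mul_of_one_le_right (by linarith) hE1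
    linarith
  · exfalso
    have h3 : V ≤ exp (-η) := by have := add_one_le_exp (-η); linarith
    have h4 : V * E ≤ exp (-η) * exp η :=
      mul_le_mul h3 hEle (by linarith) (exp_pos _).le
    rw [← exp_add, neg_add_cancel, exp_zero] at h4
    linarith

end GR

open GR in
theorem aGR (hKIT : St_KIT) (hBF : St_BF) : St_GR := by
  intro r S
  obtain ⟨C, hC, hbf⟩ := hBF S.M
  set K : ℝ := S.kn + S.kd + r * (2 * S.ka) + ∑ i, (S.Q i : ℝ) + 3 with hK
  have hka0 : 0 ≤ S.ka := by unfold Lo.ka; positivity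
  have hQ0 : 0 ≤ ∑ i, (S.Q i : ℝ) := sum_nonneg fun i _ => Nat.cast_nonneg _
  have hkn : (0 : ℝ) ≤ S.kn := Nat.cast_nonneg _
  have hkd : (0 : ℝ) ≤ S.kd := Nat.cast_nonneg _
  have hr0 : (0 : ℝ) ≤ r := Nat.cast_nonneg r
  have hrk : 0 ≤ (r : ℝ) * (2 * S.ka) := by positivity
  have hK3 : 3 ≤ K := by linarith
  obtain ⟨T, hT⟩ := pow_unbounded_of_one_lt (C + (2 * r + 1) + K) (one_lt_two (α := ℝ))
  have hC0 : (0 : ℝ) ≤ C := Nat.cast_nonneg _
  refine ⟨mm C T (r + 1), fun d L hd hL hdL hbad => ?_⟩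
  have hL1 : 1 ≤ L := by linarith
  choose n hns hnle hw using fun i => (hKIT r S i).2.2.1 (d i) (hd i)
  have hXs : ∀ i, S.Q i ^ d i ∈ S.M.smoothNumbers := fun i => (hKIT r S i).2.2.2.2.1 (d i)
  have hQ2 : ∀ i, 2 ≤ S.Q i := fun i => (hKIT r S i).2.2.2.2.2.1
  have hQp : ∀ i, (0 : ℝ) < S.Q i := fun i => by
    have : 0 < S.Q i := by have := hQ2 i; omega
    exact_mod_cast this
  have hE1 : 1 ≤ exp L := one_le_exp (by linarith)
  have hde : ∀ i, (d i : ℝ) ≤ exp L := by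
    intro i
    have h0 : 0 < d i := (S.odd i _ (hd i)).pos
    have h0' : (0 : ℝ) < d i := by exact_mod_cast h0
    rw [← exp_log h0']
    exact exp_le_exp.mpr (hdL i)
  have hXe : ∀ i, (S.Q i : ℝ) ^ d i ≤ exp (S.Q i * exp L) := by
    intro i
    calc (S.Q i : ℝ) ^ d i ≤ exp (S.Q i) ^ d i := pow_le_pow_left₀ (hQp i).le (le_ex _) _
      _ = exp (d i * S.Q i) := (exp_nat_mul _ _).symm
      _ ≤ exp (S.Q i * exp L) := by
          refine exp_le_exp.mpr ?_
          rw [mul_comm]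
          exact mul_le_mul_of_nonneg_left (hde i) (hQp i).le
  have has : S.kn * ∏ i, S.Q i ^ d i ∈ S.M.smoothNumbers :=
    Nat.mul_mem_smoothNumbers S.kns (sm_prod _ _ fun i _ => hXs i)
  have hbs : S.kd * ∏ i, n i ∈ S.M.smoothNumbers :=
    Nat.mul_mem_smoothNumbers S.kds (sm_prod _ _ fun i _ => hns i)
  have hB3 : 3 ≤ K * exp L := by nlinarith
  have haB : ((S.kn * ∏ i, S.Q i ^ d i : ℕ) : ℝ) ≤ exp (K * exp L) := by
    push_cast
    calc (S.kn : ℝ) * ∏ i, (S.Q i : ℝ) ^ d i ≤ exp S.kn * ∏ i, exp (S.Q i * exp L) :=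
          mul_le_mul (le_ex _) (prod_le_prod (fun i _ => by positivity) fun i _ => hXe i)
            (prod_nonneg fun i _ => by positivity) (exp_pos _).le
      _ = exp (S.kn + (∑ i, (S.Q i : ℝ)) * exp L) := by rw [← exp_sum, ← exp_add, sum_mul]
      _ ≤ exp (K * exp L) := by
          refine exp_le_exp.mpr ?_
          rw [hK]
          nlinarith
  have hbB : ((S.kd * ∏ i, n i : ℕ) : ℝ) ≤ exp (K * exp L) := by
    push_cast
    have h1 : ∀ i, (n i : ℝ) ≤ exp (2 * S.ka + S.Q i * exp L) := by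
      intro i
      rw [exp_add]
      exact (hnle i).trans (mul_le_mul (le_ex _) (hXe i) (by positivity) (exp_pos _).le)
    calc (S.kd : ℝ) * ∏ i, (n i : ℝ) ≤ exp S.kd * ∏ i, exp (2 * S.ka + S.Q i * exp L) :=
          mul_le_mul (le_ex _) (prod_le_prod (fun i _ => by positivity) fun i _ => h1 i)
            (prod_nonneg fun i _ => by positivity) (exp_pos _).le
      _ = exp (S.kd + (r * (2 * S.ka) + (∑ i, (S.Q i : ℝ)) * exp L)) := by
          rw [← exp_sum, ← exp_add, sum_add_distrib, sum_mul]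
          simp
      _ ≤ exp (K * exp L) := by
          refine exp_le_exp.mpr ?_
          rw [hK]
          nlinarith
  have hT1 : 1 ≤ T := by
    by_contra h0
    have : T = 0 := by omega
    rw [this, pow_zero] at hT
    linarith
  have hLT : (2 : ℝ) ^ T ≤ L ^ T := pow_le_pow_left₀ (by norm_num) hL T
  have hlog : log (K * exp L) ≤ L ^ (T + 1) := by
    rw [log_mul (by linarith) (exp_pos _).ne', log_exp]
    have h1 : log K ≤ K := (log_le_sub_one_of_pos (by linarith)).trans (by linarith)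
    have h2 : L ≤ L ^ T := le_self_pow₀ hL1 (by omega)
    have h3 : 0 ≤ L ^ T := by positivity
    rw [pow_succ]
    nlinarith
  have hbpos : 0 < S.kd * ∏ i, n i := Nat.pos_of_ne_zero (Nat.ne_zero_of_mem_smoothNumbers hbs)
  have htp : 0 < ∏ i, tt (S.P i (d i)) := prod_pos fun i _ => tt_pos _
  refine core r C T hC L (K * exp L) hL _ _ hbpos (fun i => S.Q i ^ d i)
    (fun i => Nat.one_le_pow _ _ (by have := hQ2 i; omega)) (by linarith) (by linarith)
    (log_nonneg (by linarith)) hlog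
    (fun a' b' h ha' hb' hh hah hbh hne => hbf _ _ a' b' _ h has hbs ha' hb' hB3 hh haB hbB hah hbh hne)
    (S.Th d) ?_ ?_ ?_
  · have h1 : ∀ i, tt (S.P i (d i)) = (n i : ℝ) / (S.Q i : ℝ) ^ d i / (1 + 1 / (S.Q i : ℝ) ^ d i) := by
      intro i
      have h2 := hw i
      unfold Lo.w Lo.z at h2
      have h3 : (0 : ℝ) < 1 + 1 / (S.Q i : ℝ) ^ d i := by have := hQp i; positivity
      rw [← h2]
      field_simp
    have hn0 : ∀ i, (n i : ℝ) ≠ 0 := fun i => by
      exact_mod_cast Nat.ne_zero_of_mem_smoothNumbers (hns i)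
    have hkd0 : (S.kd : ℝ) ≠ 0 := by exact_mod_cast Nat.ne_zero_of_mem_smoothNumbers S.kds
    have hp1 : ∏ i, (n i : ℝ) ≠ 0 := prod_ne_zero_iff.mpr fun i _ => hn0 i
    have hp2 : ∏ i, (S.Q i : ℝ) ^ d i ≠ 0 := prod_ne_zero_iff.mpr fun i _ => pow_ne_zero _ (hQp i).ne'
    have hp3 : ∏ i, (1 + 1 / (S.Q i : ℝ) ^ d i) ≠ 0 :=
      prod_ne_zero_iff.mpr fun i _ => by have := hQp i; positivity
    unfold Lo.Th Lo.ka
    rw [prod_congr rfl fun i _ => h1 i, prod_div_distrib, prod_div_distrib]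
    push_cast
    generalize ∏ i, (1 + 1 / (S.Q i : ℝ) ^ d i) = u at hp3 ⊢
    generalize ∏ i, (S.Q i : ℝ) ^ d i = v at hp2 ⊢
    generalize ∏ i, (n i : ℝ) = t at hp1 ⊢
    field_simp
  · unfold Lo.Th
    rw [lt_div_iff₀ htp, one_mul]
    exact S.lt d hd
  · intro I hI e
    refine hbad ⟨I, hI, ?_⟩
    rw [e]
    refine prod_congr rfl fun i _ => ?_
    unfold Lo.z
    push_cast
    rfl

end Pool.Agent.SU76
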