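import Pool.Agent.Lib.SU76.Defs
import Pool.Agent.Lib.US24.Ht24

namespace Pool.Agent.SU76

open Finset Real Matrix

namespace HT

theorem normal {N : ℕ} (η : Fin N → Fin (N + 1) → ℤ) :
    ∃ w a : Fin (N + 1) → ℤ, ∑ i, w i * a i = 1 ∧ ∀ j, w ⬝ᵥ η j = 0 := by
  set Y : Matrix (Fin (N + 1)) (Fin (N + 1)) ℤ :=
    Matrix.of fun i j => (Fin.cons (0 : Fin (N + 1) → ℤ) η : Fin (N + 1) → Fin (N + 1) → ℤ) j i with hY
  have h0 : Y.det = 0 := Matrix.det_eq_zero_of_column_eq_zero 0 fun i => by simp [hY]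
  obtain ⟨w0, hw0, hk⟩ := Matrix.exists_vecMul_eq_zero_iff.mpr h0
  obtain ⟨g, w, a, hg, hgw, ha⟩ := US24.prim w0 hw0
  refine ⟨w, a, ha, fun j => ?_⟩
  have h1 : w0 ⬝ᵥ η j = 0 := by
    have h2 := congrFun hk j.succ
    simpa [hY, Matrix.vecMul, dotProduct] using h2
  apply mul_left_cancel₀ hg
  rw [mul_zero, ← h1, dotProduct, dotProduct, Finset.mul_sum]
  exact Finset.sum_congr rfl fun i _ => by rw [hgw i]; ring

theorem det_ne {N : ℕ} (η : Fin N → Fin (N + 1) → ℤ) (hη : LinearIndependent ℤ η)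
    (w : Fin (N + 1) → ℤ) (hw : w ≠ 0) (hk : ∀ j, w ⬝ᵥ η j = 0) :
    (Matrix.of fun i j => (Fin.cons w η : Fin (N + 1) → Fin (N + 1) → ℤ) j i).det ≠ 0 := by
  intro h0
  obtain ⟨t, ht, hz⟩ := Matrix.exists_mulVec_eq_zero_iff.mpr h0
  have h1 : t 0 • w + ∑ j, t j.succ • η j = 0 := by
    funext i
    have h2 := congrFun hz i
    simp only [Matrix.mulVec, dotProduct, Matrix.of_apply, Fin.sum_univ_succ, Fin.cons_zero,
      Fin.cons_succ, Pi.zero_apply] at h2
    simp only [Pi.add_apply, Pi.smul_apply, smul_eq_mul, Finset.sum_apply, Pi.zero_apply]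
    rw [← h2, mul_comm]
    exact congrArg _ (Finset.sum_congr rfl fun j _ => mul_comm _ _)
  have h3 : t 0 = 0 := by
    have h4 := congrArg (fun x => w ⬝ᵥ x) h1
    simp only [dotProduct_add, dotProduct_smul, dotProduct_sum, hk,
      Finset.sum_const_zero, add_zero, dotProduct_zero, smul_eq_mul, mul_zero] at h4
    rcases mul_eq_zero.mp h4 with h | h
    · exact h
    · exact absurd (dotProduct_self_eq_zero.mp h) hw
  rw [h3, zero_smul, zero_add] at h1
  have h5 := Fintype.linearIndependent_iff.mp hη (fun j => t j.succ) h1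
  apply ht
  funext j
  refine Fin.cases h3 (fun j => h5 j) j

theorem den_dvd {I : Type} [Fintype I] [DecidableEq I] (w a : I → ℤ) (ha : ∑ i, w i * a i = 1)
    (i1 : I) (h1 : w i1 ≠ 0) :
    w i1 ∣ ∏ i ∈ Finset.univ.erase i1, ((((w i : ℚ) / w i1).den : ℕ) : ℤ) := by
  set D : ℤ := ∏ i ∈ Finset.univ.erase i1, ((((w i : ℚ) / w i1).den : ℕ) : ℤ) with hD
  have h2 : ∀ i, w i1 ∣ D * w i := by
    intro i
    by_cases hi : i = i1
    · rw [hi]; exact Dvd.intro_left _ rfl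
    · have h3 : ((((w i : ℚ) / w i1).den : ℕ) : ℤ) ∣ D :=
        Finset.dvd_prod_of_mem (fun i => ((((w i : ℚ) / w i1).den : ℕ) : ℤ))
          (Finset.mem_erase.mpr ⟨hi, Finset.mem_univ _⟩)
      have h4 : ((((w i : ℚ) / w i1).den : ℕ) : ℤ) * w i = w i1 * ((w i : ℚ) / w i1).num := by
        have h5 : (w i1 : ℚ) ≠ 0 := by exact_mod_cast h1
        have h6 := Rat.mul_den_eq_num ((w i : ℚ) / w i1)
        have h7 : (((((w i : ℚ) / w i1).den : ℕ) : ℤ) : ℚ) * w i =
            w i1 * (((w i : ℚ) / w i1).num : ℚ) := by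
          rw [← h6]
          push_cast
          field_simp
        exact_mod_cast h7
      exact (Dvd.intro _ h4.symm).trans (mul_dvd_mul_right h3 _)
  have h8 : D = ∑ i, D * w i * a i := by
    calc D = D * ∑ i, w i * a i := by rw [ha, mul_one]
      _ = _ := by rw [Finset.mul_sum]; exact Finset.sum_congr rfl fun i _ => by ring
  rw [h8]
  exact Finset.dvd_sum fun i _ => (h2 i).mul_right _

end HT

theorem aHT : St_HT := by
  intro V _ f N A A' c hf hA hc
  obtain ⟨W, hW, hht⟩ := US24.ht (Fin (N + 1)) V f hf.1 hf.2 A A' hA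
  obtain ⟨de2, q0, hde, H⟩ := hht c (-(∑ v, ∑ i, c v i)) (by linarith) (by linarith)
  refine ⟨W, de2 / (N + 1), exp (max q0 1), hW, by positivity, fun Q η hQ hη hP => ?_⟩
  have hQ0 : 0 < Q := (exp_pos _).trans_le hQ
  have hlq : max q0 1 ≤ log Q := (le_log_iff_exp_le hQ0).mpr hQ
  have hl1 : 1 ≤ log Q := (le_max_right _ _).trans hlq
  obtain ⟨w, a, ha, hk⟩ := HT.normal η
  have hw : w ≠ 0 := by
    intro h
    simp [h] at ha
  have hb : ∀ v i j, j ≠ (0 : Fin (N + 1)) → f v ((A v * Matrix.of fun i j =>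
      (Fin.cons w η : Fin (N + 1) → Fin (N + 1) → ℤ) j i) i j) ≤ exp (c v i * log Q) := by
    intro v i j hj
    obtain ⟨j, rfl⟩ := Fin.exists_succ_eq.mpr hj
    have h1 := hP j v i
    rw [rpow_def_of_pos hQ0, mul_comm] at h1
    exact h1
  have hk' : ∀ j, j ≠ (0 : Fin (N + 1)) → ∑ i, w i * (Matrix.of fun i j =>
      (Fin.cons w η : Fin (N + 1) → Fin (N + 1) → ℤ) j i) i j = 0 := by
    intro j hj
    obtain ⟨j, rfl⟩ := Fin.exists_succ_eq.mpr hj
    exact hk j
  rcases H (log Q) _ 0 w ((le_max_left _ _).trans hlq) (HT.det_ne η hη w hw hk) hb hw hk' with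
    ⟨u, hu, huk⟩ | hbig
  · exact Or.inl ⟨u, hu, fun j => huk j.succ (Fin.succ_ne_zero j)⟩
  · right
    obtain ⟨i1, -, hmax⟩ := Finset.exists_max_image Finset.univ (fun i => |w i|)
      (Finset.univ_nonempty (α := Fin (N + 1)))
    have h1 : w i1 ≠ 0 := by
      intro h
      apply hw
      funext i
      have := hmax i (Finset.mem_univ _)
      rw [h, abs_zero] at this
      exact abs_nonpos_iff.mp this
    by_contra hcon
    have hlt : ∀ i, i ≠ i1 → ((((w i : ℚ) / w i1).den : ℕ) : ℝ) ≤ Q ^ (de2 / (N + 1)) := by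
      intro i hi
      by_contra h2
      exact hcon ⟨w, i1, i, hi.symm, h1, hk, (not_le.mp h2).le⟩
    have hD : (0 : ℤ) < ∏ i ∈ Finset.univ.erase i1, ((((w i : ℚ) / w i1).den : ℕ) : ℤ) :=
      Finset.prod_pos fun i _ => by exact_mod_cast Rat.den_pos _
    have h3 : |w i1| ≤ ∏ i ∈ Finset.univ.erase i1, ((((w i : ℚ) / w i1).den : ℕ) : ℤ) :=
      Int.le_of_dvd hD ((abs_dvd _ _).mpr (HT.den_dvd w a ha i1 h1))
    have h4 : |(w i1 : ℝ)| ≤ ∏ i ∈ Finset.univ.erase i1, ((((w i : ℚ) / w i1).den : ℕ) : ℝ) := by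
      exact_mod_cast h3
    have h5 : ∏ i ∈ Finset.univ.erase i1, ((((w i : ℚ) / w i1).den : ℕ) : ℝ) ≤
        ∏ _i ∈ Finset.univ.erase i1, Q ^ (de2 / (N + 1)) :=
      Finset.prod_le_prod (fun i _ => Nat.cast_nonneg _) fun i hi => hlt i (Finset.ne_of_mem_erase hi)
    rw [Finset.prod_const, Finset.card_erase_of_mem (Finset.mem_univ _), Finset.card_univ,
      Fintype.card_fin, Nat.add_sub_cancel] at h5
    have h6 : ‖w‖ ≤ |(w i1 : ℝ)| := by
      refine (pi_norm_le_iff_of_nonneg (abs_nonneg _)).mpr fun i => ?_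
      rw [Int.norm_eq_abs]
      exact_mod_cast hmax i (Finset.mem_univ _)
    have h7 : log ‖w‖ ≤ log ((Q ^ (de2 / (N + 1))) ^ N) :=
      log_le_log (norm_pos_iff.mpr hw) (h6.trans (h4.trans h5))
    rw [log_pow, log_rpow hQ0] at h7
    have h8 : (N : ℝ) * (de2 / (N + 1) * log Q) + de2 / (N + 1) * log Q = de2 * log Q := by
      field_simp
    have h9 : 0 < de2 / (N + 1) * log Q := by positivity
    linarith

end Pool.Agent.SU76
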