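import Pool.Agent.Lib.SU76.Defs

/-! Block KEY: a near-unit product of factors `1 + 1/p` contains a small `p`. -/

namespace Pool.Agent.SU76

open Finset Real

namespace KEY

lemma one_le_tt (R : Finset ℕ) : 1 ≤ tt R := by
  unfold tt
  refine Finset.prod_induction _ (fun x : ℝ => 1 ≤ x) (fun x y hx hy => one_le_mul_of_one_le_of_one_le hx hy)
    le_rfl fun p _ => ?_
  have : (0 : ℝ) ≤ 1 / (p : ℝ) := by positivity
  linarith

lemma rp (y : ℝ) (hy : 0 < y) (k : ℕ) : (y ^ (6 * k)) ^ (-(5 / 6 : ℝ)) = 1 / y ^ (5 * k) := by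
  rw [← Real.rpow_natCast y (6 * k), ← Real.rpow_mul hy.le, one_div, ← Real.rpow_natCast y (5 * k),
    ← Real.rpow_neg hy.le]
  congr 1
  push_cast
  ring

lemma ex (y : ℝ) (hy : 0 < y) (C : ℕ) :
    exp (-((C : ℝ) * (1 : ℝ) ^ C * log (y ^ 4))) = 1 / y ^ (4 * C) := by
  rw [one_pow, mul_one, ← Real.log_pow, Real.exp_neg, Real.exp_log (by positivity), one_div, ← pow_mul]

end KEY

theorem aKEY (hBF : St_BF) (hRK : St_RK) : St_KEY := by
  intro M
  obtain ⟨C, -, hC⟩ := hBF M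
  obtain ⟨D, hD1, hD⟩ := hRK M
  obtain ⟨n, hn⟩ := pow_unbounded_of_one_lt (4 * D) (one_lt_two (α := ℝ))
  refine ⟨4 * C + 1, 6 * (4 * C + n), fun y E R a b hy ha hb haB hbB hab hR hE hE1 => ?_⟩
  by_contra hcon
  push Not at hcon
  have hy0 : 0 < y := by linarith
  have hy1 : 1 ≤ y := by linarith
  have h16 : (3 : ℝ) ≤ y ^ 4 := by
    have : (2 : ℝ) ^ 4 ≤ y ^ 4 := pow_le_pow_left₀ (by norm_num) hy 4
    norm_num at this
    linarith
  have h1e : ((1 : ℕ) : ℝ) ≤ exp 1 := by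
    rw [Nat.cast_one]
    exact Real.one_le_exp zero_le_one
  have hlow := hC a b 1 1 (y ^ 4) 1 ha hb one_pos one_pos h16 le_rfl haB hbB h1e h1e (by simpa using hab)
  rw [KEY.ex y hy0, Nat.cast_one, mul_one, mul_one, hE] at hlow
  have hup := hD R (y ^ (6 * (4 * C + n))) (one_le_pow₀ hy1) fun p hp => ⟨(hcon p hp).le, (hR p hp).2⟩
  rw [KEY.rp y hy0] at hup
  have ht := KEY.one_le_tt R
  set δ : ℝ := 1 / y ^ (4 * C) with hδ
  have hδ0 : 0 < δ := by positivity
  have hδ1 : δ ≤ 1 := by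
    rw [hδ, div_le_one (by positivity)]
    exact one_le_pow₀ hy1
  have h2 : 1 / y ^ (4 * C + 1) ≤ δ / 2 := by
    rw [hδ, pow_succ, div_div]
    exact one_div_le_one_div_of_le (by positivity) (mul_le_mul_of_nonneg_left hy (by positivity))
  have h3 : D * (1 / y ^ (5 * (4 * C + n))) < δ / 4 := by
    have e1 : y ^ (4 * C) * 2 ^ n ≤ y ^ (5 * (4 * C + n)) := by
      calc y ^ (4 * C) * 2 ^ n ≤ y ^ (4 * C) * y ^ n :=
            mul_le_mul_of_nonneg_left (pow_le_pow_left₀ (by norm_num) hy n) (by positivity)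
        _ = y ^ (4 * C + n) := (pow_add _ _ _).symm
        _ ≤ y ^ (5 * (4 * C + n)) := pow_le_pow_right₀ hy1 (by omega)
    have e2 : y ^ (4 * C) * (4 * D) < y ^ (5 * (4 * C + n)) :=
      (mul_lt_mul_of_pos_left hn (by positivity)).trans_le e1
    rw [hδ, mul_one_div, div_div, div_lt_div_iff₀ (by positivity) (by positivity)]
    linarith
  have hE2 := abs_le.1 (hE1.trans h2)
  have hlt : |tt R * E - 1| < δ := by
    rw [abs_lt]
    constructor <;> nlinarith [hE2.1, hE2.2]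
  linarith

end Pool.Agent.SU76
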