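import Pool.Agent.Lib.SU76.Defs

/-! Row KIT: elementary facts on the limit object. -/

namespace Pool.Agent.SU76

open Finset Real

namespace KIT

theorem mem_big {M0 N p : ℕ} (hN : N ≠ 0) : p ∈ big M0 N ↔ p.Prime ∧ M0 < p ∧ p ∣ N := by
  simp only [big, mem_filter, Nat.mem_primeFactors]
  tauto

theorem one_le_tt (R : Finset ℕ) : 1 ≤ tt R := by
  unfold tt
  induction R using Finset.induction_on with
  | empty => simp
  | insert a s ha ih =>
    rw [prod_insert ha]
    have h : (1 : ℝ) ≤ 1 + 1 / (a : ℝ) := le_add_of_nonneg_right (by positivity)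
    exact one_le_mul_of_one_le_of_one_le h ih

theorem dvd_iff (Q p e : ℕ) (he : Odd e) : p ∣ Q ^ e + 1 ↔ orderOf (-(Q : ZMod p)) ∣ e := by
  rw [orderOf_dvd_iff_pow_eq_one, he.neg_pow, ← ZMod.natCast_eq_zero_iff]
  push_cast
  constructor
  · intro h
    linear_combination -h
  · intro h
    linear_combination -h

theorem tt_mul (R : Finset ℕ) (h : ∀ p ∈ R, p ≠ 0) :
    tt R * ((∏ p ∈ R, p : ℕ) : ℝ) = ((∏ p ∈ R, (p + 1) : ℕ) : ℝ) := by
  unfold tt
  push_cast
  rw [← prod_mul_distrib]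
  refine prod_congr rfl fun p hp => ?_
  have : (p : ℝ) ≠ 0 := by exact_mod_cast h p hp
  field_simp

theorem prod_dvd (R : Finset ℕ) (k : ℕ) (h : ∀ p ∈ R, p.Prime ∧ p ∣ k) : ∏ p ∈ R, p ∣ k :=
  Finset.prod_primes_dvd k (fun p hp => (h p hp).1.prime) fun p hp => (h p hp).2

theorem prod_smooth (M : ℕ) (R : Finset ℕ) (g : ℕ → ℕ) (h : ∀ p ∈ R, g p ∈ M.smoothNumbers) :
    ∏ p ∈ R, g p ∈ M.smoothNumbers := by
  rw [Nat.mem_smoothNumbers']
  intro l hl hd
  obtain ⟨p, hp, hlp⟩ := (Prime.dvd_finsetProd_iff hl.prime _).1 hd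
  exact Nat.mem_smoothNumbers'.1 (h p hp) l hl hlp

/-- A large prime `p` with `p + 1` dividing a power of `q` does not divide `(q^a)^e + 1`. -/
theorem no_mers {q a e p t : ℕ} (hq : q.Prime) (hp : p.Prime) (h3 : 3 < p) (h1 : p + 1 ∣ q ^ t)
    (h2 : p ∣ (q ^ a) ^ e + 1) : False := by
  obtain ⟨x, -, hx⟩ := (Nat.dvd_prime_pow hq).1 h1
  have hodd : Odd p := hp.odd_of_ne_two (by omega)
  have h2q : 2 ∣ q ^ x := by
    rw [← hx]
    obtain ⟨k, hk⟩ := hodd
    exact ⟨k + 1, by omega⟩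
  have hq2 : q = 2 := ((Nat.prime_dvd_prime_iff_eq Nat.prime_two hq).1 (Nat.prime_two.dvd_of_dvd_pow h2q)).symm
  subst hq2
  have hxo : Odd x := by
    rcases Nat.even_or_odd x with ⟨k, hk⟩ | h
    · exfalso
      have h4 : 2 ^ x % 3 = 1 := by
        rw [hk, ← two_mul, pow_mul, Nat.pow_mod]
        simp
      have h5 : 3 ∣ p := by omega
      have := (Nat.prime_dvd_prime_iff_eq Nat.prime_three hp).1 h5
      omega
    · exact h
  have e1 : ((2 : ZMod p)) ^ x = 1 := by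
    have : ((p + 1 : ℕ) : ZMod p) = ((2 ^ x : ℕ) : ZMod p) := by rw [hx]
    push_cast at this
    rw [← this]
    simp
  have e2 : (((2 : ZMod p)) ^ a) ^ e = -1 := by
    have := (ZMod.natCast_eq_zero_iff _ _).2 h2
    push_cast at this
    linear_combination this
  have e3 : ((((2 : ZMod p)) ^ a) ^ e) ^ x = 1 := by
    rw [← pow_mul, ← pow_mul, mul_comm e x, ← mul_assoc, mul_comm a x, mul_assoc, pow_mul, e1, one_pow]
  rw [e2, hxo.neg_one_pow] at e3
  have e4 : ((2 : ℕ) : ZMod p) = 0 := by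
    push_cast
    linear_combination -e3
  have := Nat.le_of_dvd (by norm_num) ((ZMod.natCast_eq_zero_iff _ _).1 e4)
  omega

variable {r : ℕ} (S : Lo r)

theorem two_le (i : Fin r) : 2 ≤ S.Q i :=
  le_trans (S.qp i).two_le (Nat.le_self_pow (by have := S.a1 i; omega) _)

theorem memP (i : Fin r) (p e : ℕ) : p ∈ S.P i e ↔ p.Prime ∧ S.M0 < p ∧ p ∣ S.A i e :=
  mem_big (Nat.succ_ne_zero _)

theorem tt_le (i : Fin r) (e : ℕ) (he : e ∈ S.D i) : tt (S.P i e) < S.ka := by
  classical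
  have h := S.lt (Function.update (fun _ => 1) i e) fun j => by
    by_cases hj : j = i
    · subst hj
      simpa using he
    · simpa [Function.update_of_ne hj] using S.one j
  refine lt_of_le_of_lt ?_ h
  rw [← mul_prod_erase univ _ (mem_univ i), Function.update_self]
  refine le_mul_of_one_le_right (le_trans zero_le_one (one_le_tt _)) ?_
  exact Finset.prod_induction _ (fun x : ℝ => 1 ≤ x) (fun a b ha hb => one_le_mul_of_one_le_of_one_le ha hb)
    le_rfl fun j _ => one_le_tt _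

theorem w_eq (i : Fin r) (e : ℕ) : S.w i e = (S.A i e : ℝ) / (S.Q i : ℝ) ^ e * tt (S.P i e) := by
  have hQ : (0 : ℝ) < S.Q i := by
    have := two_le S i
    exact_mod_cast (by omega : 0 < S.Q i)
  unfold Lo.w Lo.z Lo.A
  push_cast
  field_simp

end KIT

open KIT in
theorem aKIT : St_KIT := by
  classical
  intro r S i
  have hQ2 := two_le S i
  have hQ : (0 : ℝ) < S.Q i := by exact_mod_cast (by omega : 0 < S.Q i)
  have h1 : ∀ p e, Odd e → (p ∈ S.P i e ↔ p.Prime ∧ S.M0 < p ∧ S.de i p ∣ e) := fun p e he => by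
    rw [memP, Lo.A, dvd_iff _ _ _ he, Lo.de]
  refine ⟨h1, fun e he p hp => ?_, fun e he => ?_, fun e he d hd hne hw => ?_, fun e => ?_, hQ2, ?_⟩
  · obtain ⟨hpp, -, hde⟩ := (h1 p e (S.odd i e he)).1 hp
    refine ⟨S.dvd i e he _ hde, ?_, (S.sq i e he p hp).2⟩
    have := Fact.mk hpp
    have h0 : -(S.Q i : ZMod p) ≠ 0 := by
      intro h
      have h2 := orderOf_dvd_iff_pow_eq_one.1 hde
      rw [h, zero_pow (S.odd i e he).pos.ne'] at h2
      exact zero_ne_one h2
    exact ((Nat.modEq_iff_dvd' hpp.one_le).2 (ZMod.orderOf_dvd_card_sub_one h0)).symm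
  · obtain ⟨s, hs⟩ := prod_dvd (S.P i e) (S.A i e) fun p hp => ⟨((memP S i p e).1 hp).1, ((memP S i p e).1 hp).2.2⟩
    have hw : S.w i e = ((s * ∏ p ∈ S.P i e, (p + 1) : ℕ) : ℝ) / (S.Q i : ℝ) ^ e := by
      rw [w_eq, Nat.cast_mul, ← tt_mul _ fun p hp => ((memP S i p e).1 hp).1.ne_zero]
      conv_lhs => rw [hs]
      push_cast
      ring
    refine ⟨s * ∏ p ∈ S.P i e, (p + 1), Nat.mul_mem_smoothNumbers ?_
      (prod_smooth _ _ _ fun p hp => (S.sq i e he p hp).2), ?_, hw⟩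
    · rw [Nat.mem_smoothNumbers']
      intro l hl hls
      by_contra hlt
      have hM := S.hM
      have hlP : l ∈ S.P i e := (memP S i l e).2 ⟨hl, by omega, hs ▸ Dvd.dvd.mul_left hls _⟩
      refine (S.sq i e he l hlP).1 ?_
      have : l ^ 2 ∣ S.A i e := by
        rw [hs, pow_two]
        exact mul_dvd_mul (dvd_prod_of_mem (fun p => p) hlP) hls
      exact this
    · rw [← div_le_iff₀ (pow_pos hQ e), ← hw, Lo.w]
      have hz : S.z i e ≤ 1 := by
        unfold Lo.z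
        rw [div_le_one (pow_pos hQ e)]
        exact one_le_pow₀ (by exact_mod_cast (by omega : 1 ≤ S.Q i))
      exact mul_le_mul (by linarith) (tt_le S i e he).le (le_trans zero_le_one (one_le_tt _)) (by norm_num)
  · have hoe := S.odd i e he
    obtain ⟨c, rfl⟩ := hd
    have hoc : Odd c := (Nat.odd_mul.1 hoe).2
    have hd0 : 0 < d := (Nat.odd_mul.1 hoe).1.pos
    have hlt : d < d * c := lt_of_le_of_ne (Nat.le_mul_of_pos_right d hoc.pos) hne
    obtain ⟨k, hk⟩ : S.A i d ∣ S.A i (d * c) := by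
      have := hoc.nat_add_dvd_pow_add_pow (S.Q i ^ d) 1
      rwa [one_pow, ← pow_mul] at this
    have hsub : S.P i d ⊆ S.P i (d * c) := fun p hp => by
      rw [memP] at hp ⊢
      exact ⟨hp.1, hp.2.1, hk ▸ hp.2.2.mul_right k⟩
    set B := S.P i (d * c) \ S.P i d with hB
    have hBm : ∀ p ∈ B, p.Prime ∧ S.M0 < p ∧ p ∣ S.A i (d * c) ∧ p ∣ k := fun p hp => by
      rw [hB, mem_sdiff, memP, memP] at hp
      obtain ⟨⟨a1, a2, a3⟩, a4⟩ := hp
      refine ⟨a1, a2, a3, ?_⟩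
      rw [hk] at a3
      exact ((Nat.Prime.dvd_mul a1).1 a3).resolve_left fun h => a4 ⟨a1, a2, h⟩
    obtain ⟨ρ, hρ⟩ := prod_dvd B k fun p hp => ⟨(hBm p hp).1, (hBm p hp).2.2.2⟩
    have htt : tt (S.P i (d * c)) = tt B * tt (S.P i d) := (prod_sdiff hsub).symm
    have hA : (0 : ℝ) < S.A i d := by exact_mod_cast Nat.succ_pos _
    have ht : 0 < tt (S.P i d) := lt_of_lt_of_le one_pos (one_le_tt _)
    obtain ⟨t, ht1⟩ := Nat.exists_eq_add_of_lt hlt
    have key : ρ * ∏ p ∈ B, (p + 1) = S.Q i ^ (t + 1) := by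
      have e1 := tt_mul B fun p hp => (hBm p hp).1.ne_zero
      rw [w_eq, w_eq, htt, hk, hρ, ht1, add_assoc, pow_add] at hw
      have e2 : ((ρ * ∏ p ∈ B, (p + 1) : ℕ) : ℝ) = ((S.Q i ^ (t + 1) : ℕ) : ℝ) := by
        rw [Nat.cast_mul, ← e1, Nat.cast_pow]
        rw [Nat.cast_mul, Nat.cast_mul] at hw
        field_simp at hw
        linear_combination hw
      exact_mod_cast e2
    have hBe : B = ∅ := by
      rw [eq_empty_iff_forall_notMem]
      intro p hp
      have h3 := S.h3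
      have h4 := (hBm p hp).2.1
      refine no_mers (t := S.a i * (t + 1)) (S.qp i) (hBm p hp).1 (by omega) ?_ (hBm p hp).2.2.1
      rw [pow_mul]
      exact Dvd.dvd.trans ((dvd_prod_of_mem (fun p => p + 1) hp).mul_left ρ) (dvd_of_eq key)
    rw [hBe, prod_empty] at key hρ
    have h5 : S.Q i ∣ S.A i (d * c) := by
      rw [hk, hρ, one_mul, ← mul_one ρ, key]
      exact (dvd_pow_self _ (Nat.succ_ne_zero t)).mul_left _
    have h6 : S.Q i ∣ 1 := (Nat.dvd_add_right (dvd_pow_self _ (by omega))).1 h5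
    have := Nat.le_of_dvd one_pos h6
    omega
  · rw [Nat.mem_smoothNumbers']
    intro l hl hd
    have h2 := (Nat.prime_dvd_prime_iff_eq hl (S.qp i)).1 (hl.dvd_of_dvd_pow (hl.dvd_of_dvd_pow hd))
    have h3 := S.qle i
    have h4 := S.hM
    omega
  · exact lt_of_le_of_lt (one_le_tt _) (tt_le S i 1 (S.one i))

end Pool.Agent.SU76
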