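import Pool.Agent.Lib.SU76.Defs

/-! Row LP: there is no limit object. -/

namespace Pool.Agent.SU76

open Finset Real Filter

namespace LP

/-- Above every large `x` some prime of some `D i` has logarithm at most a power of `log x`. -/
theorem gap (hTR : St_TR) (hGR : St_GR) (hBAD : St_BAD) {r : ℕ} (S : Lo r) :
    ∃ (B x1 : ℕ) (u1 : ℝ), 1 ≤ u1 ∧ ∀ x : ℕ, x1 ≤ x → u1 ≤ log x →
      ∃ l : ℕ, l.Prime ∧ (∃ i, l ∈ S.D i) ∧ x < l ∧ log l ≤ log x ^ B := by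
  obtain ⟨C, hC, hT⟩ := hTR r S
  obtain ⟨A, hA⟩ := hGR r S
  obtain ⟨x1, hx1⟩ := hBAD r S
  refine ⟨3 * A + 2, max x1 3, max 4 C, le_trans (by norm_num) (le_max_left _ _), ?_⟩
  intro x hx hu
  have h4 : (4 : ℝ) ≤ log x := le_trans (le_max_left _ _) hu
  have hCu : C ≤ log x := le_trans (le_max_right _ _) hu
  obtain ⟨d, hd, hlog, hTh⟩ := hT x (le_trans (le_max_right _ _) hx)
  have hnb := hx1 x d (le_trans (le_max_left _ _) hx) hd
  set u := log (x : ℝ) with hudef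
  have h1 : (1 : ℝ) ≤ u := by linarith
  have hL2 : 2 ≤ C * u ^ 2 := by nlinarith
  have hg := hA d (C * u ^ 2) (fun i => (hd i).1) hL2 hlog hnb
  have hLu : C * u ^ 2 ≤ u ^ 3 := by nlinarith [sq_nonneg u]
  have hLA : (C * u ^ 2) ^ A ≤ u ^ (3 * A) := by
    rw [pow_mul]; exact pow_le_pow_left₀ (by linarith) hLu A
  have hp1 : u ^ (3 * A) ≤ u ^ (3 * A + 1) := pow_le_pow_right₀ h1 (by omega)
  have hp2 : u ≤ u ^ (3 * A + 1) := le_self_pow₀ h1 (by omega)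
  have hp3 : u ^ (3 * A + 2) = u ^ (3 * A + 1) * u := by ring
  have hp0 : 0 ≤ u ^ (3 * A + 1) := by positivity
  have hbig : 2 * ((C * u ^ 2) ^ A + C) ≤ u ^ (3 * A + 2) := by rw [hp3]; nlinarith
  by_contra hno
  have hZ : ∀ i l, l.Prime → l ∈ S.D i → x < l → exp (u ^ (3 * A + 2)) ≤ (l : ℝ) := by
    intro i l hl hD hxl
    have hl0 : (0 : ℝ) < l := by exact_mod_cast hl.pos
    by_contra hlt
    refine hno ⟨l, hl, ⟨i, hD⟩, hxl, ?_⟩
    rw [log_le_iff_le_exp hl0]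
    exact (not_le.1 hlt).le
  have h2 := hTh (exp (u ^ (3 * A + 2))) (one_le_exp (by positivity)) hZ
  rw [← exp_mul] at h2
  have h3 : C < exp C := by linarith [add_one_le_exp C]
  have h5 : C * exp (u ^ (3 * A + 2) * -(1 / 2 : ℝ)) < exp (-(C * u ^ 2) ^ A) := by
    calc C * exp (u ^ (3 * A + 2) * -(1 / 2 : ℝ))
        < exp C * exp (u ^ (3 * A + 2) * -(1 / 2 : ℝ)) := mul_lt_mul_of_pos_right h3 (exp_pos _)
      _ = exp (C + u ^ (3 * A + 2) * -(1 / 2 : ℝ)) := (exp_add _ _).symm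
      _ ≤ exp (-(C * u ^ 2) ^ A) := exp_le_exp.2 (by linarith)
  linarith

/-- Iteration of the gap bound. -/
theorem chain {Pr : ℕ → Prop} {B x1 : ℕ} {u1 : ℝ} (hu1 : 1 ≤ u1)
    (h : ∀ x : ℕ, x1 ≤ x → u1 ≤ log x → ∃ l : ℕ, Pr l ∧ x < l ∧ log l ≤ log x ^ B)
    (x0 : ℕ) (h0 : x1 ≤ x0) (hu : u1 ≤ log x0) (m : ℕ) :
    ∃ (T : Finset ℕ) (x : ℕ), T.card = m ∧ x0 ≤ x ∧ log x ≤ log x0 ^ B ^ m ∧
      ∀ l ∈ T, Pr l ∧ x0 < l ∧ l ≤ x := by
  have hx0 : (0 : ℝ) < x0 := by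
    rcases Nat.eq_zero_or_pos x0 with rfl | hp
    · simp at hu; linarith
    · exact_mod_cast hp
  induction m with
  | zero => exact ⟨∅, x0, rfl, le_rfl, by simp, by simp⟩
  | succ m ih =>
    obtain ⟨T, x, hc, hx, hl, hT⟩ := ih
    have hux : log (x0 : ℝ) ≤ log x := log_le_log hx0 (by exact_mod_cast hx)
    obtain ⟨l, hP, hxl, hll⟩ := h x (le_trans h0 hx) (le_trans hu hux)
    have hnm : l ∉ T := fun hm => by have := (hT l hm).2.2; omega
    refine ⟨insert l T, l, by rw [card_insert_of_notMem hnm, hc], by omega, ?_, ?_⟩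
    · rw [pow_succ, pow_mul]
      exact hll.trans (pow_le_pow_left₀ (by linarith) hl B)
    · intro k hk
      rcases mem_insert.1 hk with rfl | hk
      · exact ⟨hP, by omega, le_rfl⟩
      · exact ⟨(hT k hk).1, (hT k hk).2.1, by have := (hT k hk).2.2; omega⟩

theorem start (K n x1 : ℕ) (u1 : ℝ) :
    ∃ x0 : ℕ, x1 ≤ x0 ∧ u1 ≤ log x0 ∧ (K : ℝ) * log x0 ^ n ≤ x0 := by
  have h1 : ∀ᶠ x : ℝ in atTop, (K : ℝ) * log x ^ n ≤ x := by
    have h := (isLittleO_pow_log_id_atTop (n := n)).const_mul_left (K : ℝ)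
    filter_upwards [h.bound one_pos, eventually_ge_atTop (0 : ℝ)] with x hx h0
    have : |(K : ℝ) * log x ^ n| ≤ x := by simpa [abs_of_nonneg h0] using hx
    exact (le_abs_self _).trans this
  have h2 : ∀ᶠ x : ℝ in atTop, u1 ≤ log x := tendsto_log_atTop.eventually_ge_atTop u1
  have h3 := (tendsto_natCast_atTop_atTop (R := ℝ)).eventually (h1.and h2)
  obtain ⟨x0, hx, hy⟩ := (h3.and (eventually_ge_atTop x1)).exists
  exact ⟨x0, hy, hx.2, hx.1⟩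

end LP

theorem aLP (_hKIT : St_KIT) (hTR : St_TR) (hGR : St_GR) (hSP : St_SP) (hBAD : St_BAD) : St_LP := by
  intro r
  refine ⟨fun S => ?_⟩
  classical
  obtain ⟨B, x1, u1, hu1, hg⟩ := LP.gap hTR hGR hBAD S
  obtain ⟨K, N, _, hS⟩ := hSP r S
  obtain ⟨x0, h0, hu, hK⟩ := LP.start K (B ^ (r * N + 1)) x1 u1
  obtain ⟨T, x, hc, hx, hl, hT⟩ := LP.chain (Pr := fun l => l.Prime ∧ ∃ i, l ∈ S.D i) hu1
    (fun x a b => by
      obtain ⟨l, h1, h2, h3, h4⟩ := hg x a b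
      exact ⟨l, ⟨h1, h2⟩, h3, h4⟩) x0 h0 hu (r * N + 1)
  have hlog0 : 0 ≤ log (x0 : ℝ) := by linarith
  have hi : ∀ i : Fin r, (T.filter (· ∈ S.D i)).card ≤ N := by
    intro i
    refine hS i (exp (log x0 ^ B ^ (r * N + 1))) _ (one_le_exp (by positivity)) ?_
    intro l hlm
    obtain ⟨hlT, hlD⟩ := mem_filter.1 hlm
    obtain ⟨⟨hp, _⟩, h1, h2⟩ := hT l hlT
    have hl0 : (0 : ℝ) < l := by exact_mod_cast hp.pos
    refine ⟨hp, hlD, ?_, ?_⟩
    · rw [log_exp]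
      exact hK.trans (by exact_mod_cast h1.le)
    · rw [← log_le_iff_le_exp hl0]
      exact (log_le_log hl0 (by exact_mod_cast h2)).trans hl
  have hsub : T ⊆ univ.biUnion fun i : Fin r => T.filter (· ∈ S.D i) := by
    intro l hlT
    obtain ⟨⟨_, i, hD⟩, _⟩ := hT l hlT
    exact mem_biUnion.2 ⟨i, mem_univ i, mem_filter.2 ⟨hlT, hD⟩⟩
  have h1 := card_le_card hsub
  have h2 := card_biUnion_le_card_mul univ (fun i : Fin r => T.filter (· ∈ S.D i)) N fun i _ => hi i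
  rw [card_univ, Fintype.card_fin] at h2
  omega

end Pool.Agent.SU76
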