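import Pool.Agent.Lib.SU76.Defs
import Pool.Agent.Lib.US49.Min49

namespace Pool.Agent.SU76

open Finset

namespace MIN

theorem basis {n : ℕ} (Λ : AddSubgroup (Fin n → ℤ)) (h : Λ.index ≠ 0) :
    ∃ G : Matrix (Fin n) (Fin n) ℤ, G.det.natAbs = Λ.index ∧
      ∀ x, x ∈ Λ ↔ ∃ c : Fin n → ℤ, x = Matrix.vecMul c G := by
  classical
  have : Λ.FiniteIndex := ⟨h⟩
  have : Module.Finite ℤ Λ := inferInstanceAs (Module.Finite ℤ Λ.toIntSubmodule)
  have : Module.Free ℤ Λ := inferInstanceAs (Module.Free ℤ Λ.toIntSubmodule)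
  have hr : Module.finrank ℤ Λ = n := by
    rw [AddSubgroup.finrank_eq_of_finiteIndex Λ, Module.finrank_fin_fun]
  let bN := Module.finBasisOfFinrankEq ℤ Λ hr
  refine ⟨Matrix.of fun j => (bN j : Fin n → ℤ), ?_, fun x => ⟨fun hx => ?_, ?_⟩⟩
  · rw [AddSubgroup.index_eq_natAbs_det (Pi.basisFun ℤ (Fin n)) Λ bN, Pi.basisFun_det_apply]
  · refine ⟨fun j => bN.repr ⟨x, hx⟩ j, ?_⟩
    have h1 := congrArg (fun z : Λ => (z : Fin n → ℤ)) (bN.sum_repr ⟨x, hx⟩)
    simp only [AddSubmonoidClass.coe_finsetSum, AddSubgroupClass.coe_zsmul] at h1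
    rw [Matrix.vecMul_eq_sum]
    exact h1.symm
  · rintro ⟨c, rfl⟩
    rw [Matrix.vecMul_eq_sum]
    exact Λ.sum_mem fun j _ => Λ.zsmul_mem (bN j).2 _

/-- The real matrix of the lattice, scaled by the sides of the box. -/
theorem mat {n : ℕ} (G : Matrix (Fin n) (Fin n) ℤ) (b : Fin n → ℝ) (hb : ∀ i, 0 < b i) :
    ∃ a : Matrix (Fin n) (Fin n) ℝ, |a.det| * ∏ i, b i = G.det.natAbs ∧
      ∀ (c : Fin n → ℤ) i, |((Matrix.vecMul c G i : ℤ) : ℝ)| =
        |a.mulVec (fun l => (c l : ℝ)) i| * b i := by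
  refine ⟨Matrix.diagonal (fun i => (b i)⁻¹) * (G.map (Int.castRingHom ℝ)).transpose, ?_,
    fun c i => ?_⟩
  · have hp : 0 < ∏ i, b i := prod_pos fun i _ => hb i
    rw [Matrix.det_mul, Matrix.det_diagonal, Matrix.det_transpose, ← RingHom.mapMatrix_apply,
      ← RingHom.map_det, prod_inv_distrib, abs_mul, abs_inv, abs_of_pos hp, Nat.cast_natAbs,
      Int.cast_abs, eq_intCast]
    field_simp
  · rw [← Matrix.mulVec_mulVec, Matrix.mulVec_diagonal, abs_mul, abs_inv, abs_of_pos (hb i),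
      mul_right_comm, inv_mul_cancel₀ (hb i).ne', one_mul]
    congr 1
    simp [Matrix.vecMul, Matrix.mulVec, dotProduct, mul_comm]

theorem clear {n : ℕ} (G : Matrix (Fin n) (Fin n) ℤ) (y : Fin n → Fin n → ℤ) (c : Fin n → ℤ)
    (t : Fin n → ℚ) (h : ∀ l, (c l : ℚ) = ∑ j, t j * y j l) :
    ∃ (a0 : ℤ) (a : Fin n → ℤ), a0 ≠ 0 ∧
      a0 • Matrix.vecMul c G = ∑ j, a j • Matrix.vecMul (y j) G ∧ ∀ j, t j = 0 → a j = 0 := by
  obtain ⟨d, hd⟩ := IsLocalization.exist_integer_multiples_of_finite (nonZeroDivisors ℤ) t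
  choose a ha using hd
  have hd0 : (d : ℤ) ≠ 0 := nonZeroDivisors.coe_ne_zero d
  have ha' : ∀ j, (a j : ℚ) = ((d : ℤ) : ℚ) * t j := fun j => by simpa using ha j
  refine ⟨d, a, hd0, ?_, fun j hj => ?_⟩
  · have e : (d : ℤ) • c = ∑ j, a j • y j := by
      funext l
      have : (((d : ℤ) * c l : ℤ) : ℚ) = ((∑ j, a j * y j l : ℤ) : ℚ) := by
        push_cast
        rw [h l, mul_sum]
        exact sum_congr rfl fun j _ => by rw [ha' j, mul_assoc]
      simpa [Finset.sum_apply] using (Int.cast_injective this)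
    rw [← Matrix.smul_vecMul, e, ← Matrix.vecMulLinear_apply, map_sum]
    exact sum_congr rfl fun j _ => by rw [map_smul, Matrix.vecMulLinear_apply]
  · have := ha' j
    rw [hj, mul_zero] at this
    exact_mod_cast this

end MIN

theorem aMIN : St_MIN := by
  intro n Λ b hΛ hb
  obtain ⟨G, hG, hmem⟩ := MIN.basis Λ hΛ
  obtain ⟨a, hdet, ha⟩ := MIN.mat G b hb
  have hG0 : G.det ≠ 0 := fun h => hΛ (by rw [← hG, h]; rfl)
  have hp : 0 < ∏ i, b i := prod_pos fun i _ => hb i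
  have ha0 : a.det ≠ 0 := by
    intro h
    rw [h, abs_zero, zero_mul, hG] at hdet
    exact hΛ (by exact_mod_cast hdet.symm)
  constructor
  · by_cases h : ∏ i, b i ≤ Λ.index
    · exact Or.inl h
    · have h1 : |a.det| < ∏ _i : Fin n, (1 : ℝ) := by
        rw [prod_const_one]
        rw [← hG, ← hdet, not_le] at h
        nlinarith
      obtain ⟨c, hc0, hc⟩ := Lib.US49.mink1 a ha0 (fun _ => 1) (fun _ => one_pos) h1
      refine Or.inr ⟨Matrix.vecMul c G, (hmem _).2 ⟨c, rfl⟩,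
        fun h0 => hc0 (Matrix.eq_zero_of_vecMul_eq_zero hG0 h0), fun i => ?_⟩
      rw [ha]
      exact mul_le_of_le_one_left (hb i).le (hc i).le
  · obtain ⟨y, hy, hpos, hmono, hlow, -⟩ := Lib.US49.minima a ha0
    refine ⟨fun j => Matrix.vecMul (y j) G, _, fun j => (hmem _).2 ⟨_, rfl⟩, ?_, hmono, hpos,
      fun j i => ?_, fun x hx k hk => ?_⟩
    · exact Matrix.linearIndependent_rows_of_det_ne_zero (A := Matrix.of y * G)
        (by rw [Matrix.det_mul]; exact mul_ne_zero hy hG0)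
    · rw [ha]
      exact mul_le_mul_of_nonneg_right (norm_le_pi_norm (a.mulVec fun l => (y j l : ℝ)) i) (hb i).le
    · obtain ⟨c, rfl⟩ := (hmem x).1 hx
      obtain ⟨t, ht, hct⟩ := hlow c k ((pi_norm_lt_iff (hpos k)).2 fun i => by
        have := hk i
        rw [ha] at this
        exact lt_of_mul_lt_mul_right this (hb i).le)
      obtain ⟨a0, a', h0, h1, h2⟩ := MIN.clear G y c t hct
      exact ⟨a0, a', h0, h1, fun j hj => h2 j (ht j hj)⟩

end Pool.Agent.SU76
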