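import Pool.Agent.Lib.SU76.Defs

/-! Row PLC: the places below `M`, the product formula and the congruence lattice. -/

namespace Pool.Agent.SU76

open Finset Real

namespace PLC

variable {M : ℕ}

lemma fact (q : {q : ℕ // q ∈ M.primesBelow}) : Fact q.1.Prime :=
  ⟨Nat.prime_of_mem_primesBelow q.2⟩

lemma av_none (y : ℚ) : av M none y = |(y : ℝ)| := rfl
lemma av_some (q : {q : ℕ // q ∈ M.primesBelow}) (y : ℚ) :
    av M (some q) y = (padicNorm q.1 y : ℝ) := rfl

lemma av_mul (v : Plc M) (y y' : ℚ) : av M v (y * y') = av M v y * av M v y' := by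
  cases v with
  | none => simp only [av_none, Rat.cast_mul, abs_mul]
  | some q =>
    have := fact q
    simp only [av_some, padicNorm.mul, Rat.cast_mul]

lemma av_nonneg (v : Plc M) (y : ℚ) : 0 ≤ av M v y := by
  cases v with
  | none => exact abs_nonneg _
  | some q => rw [av_some]; exact_mod_cast padicNorm.nonneg y

lemma av_pos (v : Plc M) (y : ℚ) (hy : y ≠ 0) : 0 < av M v y := by
  cases v with
  | none => rw [av_none]; exact abs_pos.2 (by exact_mod_cast hy)
  | some q =>
    have := fact q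
    rw [av_some]
    exact_mod_cast (padicNorm.nonneg y).lt_of_ne' (padicNorm.nonzero hy)

lemma av_zero (v : Plc M) : av M v 0 = 0 := by
  cases v with
  | none => simp [av_none]
  | some q => simp [av_some]

lemma av_one (v : Plc M) : av M v 1 = 1 := by
  cases v with
  | none => simp [av_none]
  | some q => simp [av_some]

lemma av_neg (v : Plc M) (y : ℚ) : av M v (-y) = av M v y := by
  cases v with
  | none => simp [av_none]
  | some q => simp [av_some]

lemma av_abs (v : Plc M) (y : ℚ) : av M v |y| = av M v y := by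
  rcases abs_choice y with h | h <;> rw [h]
  exact av_neg v y

lemma av_add (v : Plc M) (y y' : ℚ) : av M v (y + y') ≤ av M v y + av M v y' := by
  cases v with
  | none => simp only [av_none, Rat.cast_add]; exact abs_add_le _ _
  | some q =>
    have := fact q
    simp only [av_some]
    exact_mod_cast padicNorm.triangle_ineq (p := q.1) y y'

lemma av_le (v : Plc M) (y : ℤ) : av M v y ≤ |(y : ℝ)| := by
  cases v with
  | none => simp [av_none]
  | some q =>
    have := fact q
    rcases eq_or_ne y 0 with h | h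
    · simp [h, av_zero]
    · have h1 : av M (some q) y ≤ 1 := by
        rw [av_some]; exact_mod_cast padicNorm.of_int (p := q.1) y
      have h2 : (1 : ℝ) ≤ |(y : ℝ)| := by exact_mod_cast Int.one_le_abs h
      exact h1.trans h2

lemma prod_mul (y y' : ℚ) :
    ∏ v, av M v (y * y') = (∏ v, av M v y) * ∏ v, av M v y' := by
  simp only [av_mul, prod_mul_distrib]

lemma av_ne {p : ℕ} (hp : p.Prime) (q : {q : ℕ // q ∈ M.primesBelow}) (h : q.1 ≠ p) :
    av M (some q) p = 1 := by
  have := fact q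
  have : Fact p.Prime := ⟨hp⟩
  rw [av_some, padicNorm.padicNorm_of_prime_of_ne h, Rat.cast_one]

lemma prod_small {p : ℕ} (hp : p.Prime) (h : p < M) : ∏ v, av M v p = 1 := by
  have hm : p ∈ M.primesBelow := Nat.mem_primesBelow.2 ⟨h, hp⟩
  rw [Fintype.prod_option, prod_eq_single (⟨p, hm⟩ : {q : ℕ // q ∈ M.primesBelow})
    (fun q _ hq => av_ne hp q fun e => hq (Subtype.ext e)) (fun h => absurd (mem_univ _) h),
    av_none, av_some, padicNorm.padicNorm_p hp.one_lt]
  have : (p : ℝ) ≠ 0 := by exact_mod_cast hp.ne_zero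
  simp [this]

lemma prod_prime {p : ℕ} (hp : p.Prime) : 1 ≤ ∏ v, av M v p := by
  by_cases h : p < M
  · exact (prod_small hp h).ge
  · rw [Fintype.prod_option, prod_eq_one fun q _ => av_ne hp q fun e =>
      h (e ▸ (Nat.mem_primesBelow.1 q.2).1), av_none]
    have : (1 : ℝ) ≤ p := by exact_mod_cast hp.one_lt.le
    simpa using this

lemma prod_nat (a : ℕ) : a ≠ 0 → 1 ≤ ∏ v, av M v a := by
  induction a using induction_on_primes with
  | zero => exact fun h => absurd rfl h
  | one => intro _; simp [av_one]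
  | prime_mul p a hp ih =>
    intro h
    rw [Nat.cast_mul, prod_mul]
    exact one_le_mul_of_one_le_of_one_le (prod_prime hp) (ih (right_ne_zero_of_mul h))

lemma prod_smooth (a : ℕ) : a ∈ M.smoothNumbers → ∏ v, av M v a = 1 := by
  induction a using induction_on_primes with
  | zero => exact fun h => absurd rfl h.1
  | one => intro _; simp [av_one]
  | prime_mul p a hp ih =>
    intro h
    rw [Nat.cast_mul, prod_mul, ih (Nat.mem_smoothNumbers_of_dvd h (dvd_mul_left _ _)),
      prod_small hp (Nat.mem_smoothNumbers'.1 h p hp (dvd_mul_right _ _)), one_mul]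

lemma prod_int (y : ℤ) (hy : y ≠ 0) : 1 ≤ ∏ v, av M v y := by
  have h := prod_nat (M := M) y.natAbs (Int.natAbs_ne_zero.2 hy)
  rw [Nat.cast_natAbs, Int.cast_abs] at h
  simpa only [av_abs] using h

lemma prod_un (Z : ℝ) (y : ℚ) (h : Un M Z y) : ∏ v, av M v y = 1 := by
  obtain ⟨a, b, ha, hb, -, -, e⟩ := h
  have hb0 : (b : ℚ) ≠ 0 := by exact_mod_cast hb.1
  have h1 := prod_mul (M := M) |y| b
  rw [prod_smooth b hb, mul_one, show |y| * b = a by rw [e]; field_simp, prod_smooth a ha] at h1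
  simpa only [av_abs] using h1.symm

lemma exists_f : ∃ f : Plc M → AbsoluteValue ℤ ℝ, PF f ∧ ∀ v (y : ℤ), f v y = av M v y := by
  refine ⟨fun v => ⟨⟨fun y => av M v y, fun y y' => ?_⟩, fun y => av_nonneg v y, fun y => ?_,
    fun y y' => ?_⟩, ⟨fun v y => av_le v y, fun y hy => prod_int y hy⟩, fun v y => rfl⟩
  · rw [Int.cast_mul, av_mul]
  · show av M v y = 0 ↔ y = 0
    refine ⟨fun h => by_contra fun hy => ?_, fun h => by rw [h, Int.cast_zero, av_zero]⟩
    exact (av_pos v y (by exact_mod_cast hy)).ne' h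
  · show av M v ((y + y' : ℤ) : ℚ) ≤ av M v y + av M v y'
    rw [Int.cast_add]
    exact av_add v y y'

lemma pow_of (q : {q : ℕ // q ∈ M.primesBelow}) (z : ℤ) (hz : z ≠ 0) :
    ∃ N : ℕ, N ≠ 0 ∧ (N : ℝ) * av M (some q) z = 1 ∧
      ∀ t : ℤ, (N : ℤ) ∣ t ↔ av M (some q) t ≤ av M (some q) z := by
  have hq := fact q
  have h1 : padicNorm q.1 z = (q.1 : ℚ) ^ (-(padicValInt q.1 z : ℕ) : ℤ) := by
    rw [padicNorm.eq_zpow_of_nonzero (by exact_mod_cast hz), padicValRat.of_int]
  have h0 : (q.1 : ℝ) ≠ 0 := by exact_mod_cast hq.out.ne_zero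
  refine ⟨q.1 ^ padicValInt q.1 z, pow_ne_zero _ hq.out.ne_zero, ?_, fun t => ?_⟩
  · rw [av_some, h1]
    push_cast
    rw [zpow_neg, zpow_natCast]
    exact mul_inv_cancel₀ (pow_ne_zero _ h0)
  · rw [padicNorm.dvd_iff_norm_le, av_some, av_some, h1, Rat.cast_le]

lemma lat {ι : Type} [Fintype ι] {n : ℕ} (L : ι → (Fin n → ℤ) →+ ℤ) (N : ι → ℕ)
    (hN : ∀ i, N i ≠ 0) : ∃ Λ : AddSubgroup (Fin n → ℤ), Λ.index ≠ 0 ∧ Λ.index ≤ ∏ i, N i ∧
      ∀ y, y ∈ Λ ↔ ∀ i, (N i : ℤ) ∣ L i y := by
  have : ∀ i, NeZero (N i) := fun i => ⟨hN i⟩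
  let φ : (Fin n → ℤ) →+ ∀ i, ZMod (N i) :=
    AddMonoidHom.pi fun i => (Int.castAddHom (ZMod (N i))).comp (L i)
  refine ⟨φ.ker, ?_, ?_, fun y => ?_⟩
  · rw [AddSubgroup.index_ker]
    exact Nat.card_pos.ne'
  · rw [AddSubgroup.index_ker]
    refine (Nat.card_le_card_of_injective _ Subtype.val_injective).trans_eq ?_
    rw [Nat.card_pi]
    exact prod_congr rfl fun i _ => Nat.card_zmod _
  · rw [AddMonoidHom.mem_ker, funext_iff]
    exact forall_congr' fun i => ZMod.intCast_zmod_eq_zero_iff_dvd (L i y) (N i)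

end PLC

theorem aPLC : St_PLC := by
  intro M
  refine ⟨PLC.exists_f, PLC.av_mul, PLC.av_pos, PLC.prod_un, fun n A A' x _ hx => ?_⟩
  choose N hN0 hN1 hN2 using fun k : {q : ℕ // q ∈ M.primesBelow} × Fin n =>
    PLC.pow_of k.1 ((A (some k.1)).mulVec x k.2) (hx _ _)
  obtain ⟨Λ, h1, h2, h3⟩ := PLC.lat (ι := {q : ℕ // q ∈ M.primesBelow} × Fin n)
    (fun k => AddMonoidHom.mk' (fun y => (A (some k.1)).mulVec ((A' none).mulVec y) k.2)
      fun y y' => by rw [Matrix.mulVec_add, Matrix.mulVec_add, Pi.add_apply]) N hN0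
  refine ⟨Λ, h1, ?_, fun y => ?_⟩
  · have h4 : (Λ.index : ℝ) ≤ ∏ k, (N k : ℝ) := by exact_mod_cast h2
    rw [← Fintype.prod_prod_type']
    refine (mul_le_mul_of_nonneg_right h4 (prod_nonneg fun k _ => PLC.av_nonneg _ _)).trans_eq ?_
    rw [← prod_mul_distrib]
    exact prod_eq_one fun k _ => hN1 k
  · rw [h3, Prod.forall]
    exact forall_congr' fun q => forall_congr' fun i => hN2 (q, i) _

end Pool.Agent.SU76
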