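import Pool.Agent.Lib.SU76.Defs

/-! Reduction from a multihomogeneous polynomial to a polynomial in one variable per block. -/

namespace Pool.Agent.SU76

open Finset MvPolynomial

namespace RED

theorem span {N : ℕ} (η : Fin N → Fin (N + 1) → ℤ) (w : Fin (N + 1) → ℤ) (i1 : Fin (N + 1))
    (hli : LinearIndependent ℤ η) (hw : ∀ j, w ⬝ᵥ η j = 0) (h1 : w i1 ≠ 0) (v : Fin (N + 1) → ℚ)
    (hv : ∑ i, (w i : ℚ) * v i = 0) : ∃ b : Fin N → ℚ, ∀ i, ∑ j, b j * (η j i : ℚ) = v i := by
  classical
  let e : Fin N → Fin (N + 1) → ℚ := fun j => algebraMap ℤ ℚ ∘ η j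
  have he : LinearIndependent ℚ e := linearIndependent_algebraMap_comp_iff.2 hli
  let L : (Fin (N + 1) → ℚ) →ₗ[ℚ] ℚ := ∑ i, (w i : ℚ) • LinearMap.proj i
  have hL : ∀ x, L x = ∑ i, (w i : ℚ) * x i := by
    intro x
    simp [L, LinearMap.sum_apply]
  have hle : Submodule.span ℚ (Set.range e) ≤ LinearMap.ker L := by
    rw [Submodule.span_le]
    rintro _ ⟨j, rfl⟩
    have h := hw j
    have h2 : ((w ⬝ᵥ η j : ℤ) : ℚ) = 0 := by rw [h]; simp
    simp only [dotProduct] at h2
    push_cast at h2
    simpa [LinearMap.mem_ker, hL, e] using h2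
  have hne : LinearMap.ker L ≠ ⊤ := by
    intro h
    have h2 : (Pi.single i1 (1 : ℚ) : Fin (N + 1) → ℚ) ∈ LinearMap.ker L := by rw [h]; trivial
    rw [LinearMap.mem_ker, hL] at h2
    simp [Pi.single_apply] at h2
    exact h1 h2
  have hlt : Module.finrank ℚ (LinearMap.ker L) < N + 1 := by
    have h := Submodule.finrank_lt hne
    simpa using h
  have hsp : Module.finrank ℚ (Submodule.span ℚ (Set.range e)) = N := by
    rw [finrank_span_eq_card he]; simp
  have heq : Submodule.span ℚ (Set.range e) = LinearMap.ker L :=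
    Submodule.eq_of_le_of_finrank_le hle (by omega)
  have hm : v ∈ Submodule.span ℚ (Set.range e) := by
    rw [heq, LinearMap.mem_ker, hL]; exact hv
  obtain ⟨b, hb⟩ := (Submodule.mem_span_range_iff_exists_fun ℚ).1 hm
  refine ⟨b, fun i => ?_⟩
  have h := congrFun hb i
  simpa [e, Finset.sum_apply] using h

variable {m N : ℕ}

/-- The exponents of the parameters `t h`. -/
noncomputable def tx (k : Fin m × Option (Fin N) →₀ ℕ) : Fin m →₀ ℕ :=
  Finsupp.equivFunOnFinite.symm fun h => k (h, none)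

/-- The substitution of the parameters. -/
noncomputable def sub {σ : Type} (la : Fin m → Fin N → MvPolynomial σ ℚ) (x : Fin m × Option (Fin N)) :
    MvPolynomial σ (MvPolynomial (Fin m) ℚ) :=
  x.2.elim (C (X x.1)) fun j => map C (la x.1 j)

theorem sub_mono {σ : Type} (la : Fin m → Fin N → MvPolynomial σ ℚ) (k : Fin m × Option (Fin N) →₀ ℕ)
    (c : ℤ) (a : σ →₀ ℕ) : ∃ q : ℚ, coeff a (aeval (sub la) (monomial k c)) = monomial (tx k) q := by
  classical
  refine ⟨c * coeff a (∏ h, ∏ j, la h j ^ k (h, some j)), ?_⟩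
  have h1 : aeval (sub la) (monomial k c) =
      C (monomial (tx k) (c : ℚ)) * map C (∏ h, ∏ j, la h j ^ k (h, some j)) := by
    rw [aeval_monomial, Finsupp.prod_fintype _ _ (by simp), Fintype.prod_prod_type, monomial_eq,
      Finsupp.prod_fintype _ _ (by simp)]
    simp only [Fintype.prod_option, sub, Option.elim, tx, Finsupp.coe_equivFunOnFinite_symm,
      Finset.prod_mul_distrib, map_mul, map_prod, map_pow, eq_intCast, map_intCast, mul_assoc]
  rw [h1, coeff_C_mul, coeff_map, mul_comm, C_mul_monomial, mul_comm]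

theorem sub_supp {σ : Type} (la : Fin m → Fin N → MvPolynomial σ ℚ)
    (F : MvPolynomial (Fin m × Option (Fin N)) ℤ) (a : σ →₀ ℕ) (e : Fin m →₀ ℕ)
    (he : e ∈ (coeff a (aeval (sub la) F)).support) : ∃ k ∈ F.support, e = tx k := by
  classical
  rw [F.as_sum, map_sum, coeff_sum] at he
  obtain ⟨k, hk, h⟩ := Finset.mem_biUnion.1 (support_sum he)
  obtain ⟨q, hq⟩ := sub_mono la k (coeff k F) a
  rw [hq] at h
  exact ⟨k, hk, Finset.mem_singleton.1 (support_monomial_subset h)⟩

/-- The exponents of the other variables. -/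
noncomputable def oth (i1 i2 : Fin m → Fin (N + 1)) (d : Fin m × Fin (N + 1) →₀ ℕ) :
    Fin m × Fin (N + 1) →₀ ℕ :=
  Finsupp.equivFunOnFinite.symm fun x => if x.2 = i1 x.1 ∨ x.2 = i2 x.1 then 0 else d x

noncomputable def fst (i1 : Fin m → Fin (N + 1)) (d : Fin m × Fin (N + 1) →₀ ℕ) : Fin m →₀ ℕ :=
  Finsupp.equivFunOnFinite.symm fun h => d (h, i1 h)

theorem low {T : Type} [CommRing T] [Algebra ℤ T] (i1 i2 : Fin m → Fin (N + 1))
    (G : Fin m × Fin (N + 1) → MvPolynomial (Fin m × Fin (N + 1)) T) (z : Fin m → T)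
    (g1 : ∀ h i, i ≠ i1 h → i ≠ i2 h → G (h, i) = X (h, i)) (g2 : ∀ h, G (h, i2 h) = 1)
    (g3 : ∀ h, constantCoeff (G (h, i1 h)) = z h) (d a : Fin m × Fin (N + 1) →₀ ℕ) (c : ℤ)
    (hd : ∑ x, a x ≤ ∑ x, oth i1 i2 d x) :
    coeff a (aeval G (monomial d c)) =
      if oth i1 i2 d = a then (c : T) * ∏ h, z h ^ d (h, i1 h) else 0 := by
  classical
  have h0 : ∀ h i, G (h, i) ^ d (h, i) =
      X (h, i) ^ oth i1 i2 d (h, i) * if i = i1 h then G (h, i1 h) ^ d (h, i1 h) else 1 := by
    intro h i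
    by_cases e1 : i = i1 h
    · subst e1; simp [oth]
    · by_cases e2 : i = i2 h
      · subst e2; simp [oth, g2, e1]
      · simp [oth, e1, e2, g1 h i e1 e2]
  have h1 : aeval G (monomial d c) =
      monomial (oth i1 i2 d) (c : T) * ∏ h, G (h, i1 h) ^ d (h, i1 h) := by
    rw [aeval_monomial, Finsupp.prod_fintype _ _ (by simp), Fintype.prod_prod_type, monomial_eq,
      Finsupp.prod_fintype _ _ (by simp), Fintype.prod_prod_type,
      Finset.prod_congr rfl fun h _ => Finset.prod_congr rfl fun i _ => h0 h i]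
    simp only [Finset.prod_mul_distrib, Finset.prod_ite_eq', Finset.mem_univ, if_true, eq_intCast,
      map_intCast, mul_assoc]
  rw [h1, coeff_monomial_mul']
  by_cases e : oth i1 i2 d = a
  · rw [if_pos e, if_pos e.le, e, tsub_self, ← constantCoeff_eq]
    simp only [map_prod, map_pow, g3]
  · rw [if_neg e, if_neg]
    intro hle
    apply e
    ext x
    have h2 := (Finset.sum_eq_sum_iff_of_le (s := Finset.univ) (f := fun x => oth i1 i2 d x)
      (g := fun x => a x) (fun x _ => hle x)).1
      (le_antisymm (Finset.sum_le_sum fun x _ => hle x) hd)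
    exact h2 x (Finset.mem_univ x)

theorem inj (i1 i2 : Fin m → Fin (N + 1)) (d d' : Fin m × Fin (N + 1) →₀ ℕ)
    (hs : ∀ h, ∑ i, d (h, i) = ∑ i, d' (h, i)) (ho : oth i1 i2 d = oth i1 i2 d')
    (hf : fst i1 d = fst i1 d') : d = d' := by
  classical
  have key : ∀ h i, i ≠ i2 h → d (h, i) = d' (h, i) := by
    intro h i e2
    by_cases e1 : i = i1 h
    · subst e1
      have := DFunLike.congr_fun hf h
      simpa [fst] using this
    · have := DFunLike.congr_fun ho (h, i)
      simpa [oth, e1, e2] using this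
  ext ⟨h, i⟩
  by_cases e2 : i = i2 h
  · subst e2
    have a1 := Finset.add_sum_erase Finset.univ (fun i => d (h, i)) (Finset.mem_univ (i2 h))
    have a2 := Finset.add_sum_erase Finset.univ (fun i => d' (h, i)) (Finset.mem_univ (i2 h))
    have a3 : ∑ i ∈ Finset.univ.erase (i2 h), d (h, i) = ∑ i ∈ Finset.univ.erase (i2 h), d' (h, i) :=
      Finset.sum_congr rfl fun i hi => key h i (Finset.ne_of_mem_erase hi)
    have a4 := hs h
    omega
  · exact key h i e2

theorem l1_le {σ τ : Type} (S : Finset (σ →₀ ℕ)) (P : MvPolynomial σ ℤ) (f : (σ →₀ ℕ) → τ →₀ ℕ)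
    (hS : S ⊆ P.support) : l1 (∑ d ∈ S, monomial (f d) (coeff d P)) ≤ l1 P := by
  classical
  unfold l1
  calc ∑ e ∈ (∑ d ∈ S, monomial (f d) (coeff d P)).support,
        |((coeff e (∑ d ∈ S, monomial (f d) (coeff d P)) : ℤ) : ℝ)|
      ≤ ∑ e ∈ (∑ d ∈ S, monomial (f d) (coeff d P)).support,
          ∑ d ∈ S, if f d = e then |((coeff d P : ℤ) : ℝ)| else 0 := by
        refine Finset.sum_le_sum fun e _ => ?_
        rw [coeff_sum]
        push_cast
        refine (Finset.abs_sum_le_sum_abs _ _).trans (Finset.sum_le_sum fun d _ => ?_)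
        rw [coeff_monomial]
        split_ifs <;> simp
    _ ≤ ∑ d ∈ S, |((coeff d P : ℤ) : ℝ)| := by
        rw [Finset.sum_comm]
        refine Finset.sum_le_sum fun d _ => ?_
        rw [Finset.sum_ite_eq]
        split_ifs <;> simp
    _ ≤ _ := Finset.sum_le_sum_of_subset_of_nonneg hS fun _ _ _ => abs_nonneg _

end RED

open RED in
theorem aRED : St_RED := by
  classical
  intro m N r P η w i1 i2 θ hP hH hli hw h12 h1 hpar
  have hB : ∀ h i', ∃ b : Fin N → ℚ, ∀ i, ∑ j, b j * (η h j i : ℚ) =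
      (if i = i' then 1 else 0) - if i = i1 h then (w h i' : ℚ) / w h (i1 h) else 0 := by
    intro h i'
    refine span (η h) (w h) (i1 h) (hli h) (hw h) (h1 h) _ ?_
    have h2 : (w h (i1 h) : ℚ) ≠ 0 := by exact_mod_cast h1 h
    simp only [mul_sub, Finset.sum_sub_distrib, mul_ite, mul_one, mul_zero, Finset.sum_ite_eq',
      Finset.mem_univ, if_true]
    field_simp
    ring
  choose B hB using hB
  let Y : Fin m → Fin (N + 1) → MvPolynomial (Fin m × Fin (N + 1)) ℚ :=
    fun h i => if i = i2 h then 1 else X (h, i)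
  let la : Fin m → Fin N → MvPolynomial (Fin m × Fin (N + 1)) ℚ :=
    fun h j => ∑ i', C (B h i' j) * Y h i'
  let G : Fin m × Fin (N + 1) → MvPolynomial (Fin m × Fin (N + 1)) (MvPolynomial (Fin m) ℚ) :=
    fun x => aeval (sub la) (par η i1 (X x))
  have hG : ∀ h i, G (h, i) = map C (Y h i -
      if i = i1 h then ∑ i', C ((w h i' : ℚ) / w h (i1 h)) * Y h i' else 0) +
      if i = i1 h then C (X h) else 0 := by
    intro h i
    have e1 : ∑ j, (η h j i : MvPolynomial (Fin m × Fin (N + 1)) ℚ) * la h j = Y h i -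
        if i = i1 h then ∑ i', C ((w h i' : ℚ) / w h (i1 h)) * Y h i' else 0 := by
      have e2 : ∑ j, (η h j i : MvPolynomial (Fin m × Fin (N + 1)) ℚ) * la h j =
          ∑ i', C (∑ j, B h i' j * (η h j i : ℚ)) * Y h i' := by
        simp only [la, Finset.mul_sum, map_sum, Finset.sum_mul, map_mul, map_intCast]
        rw [Finset.sum_comm]
        exact Finset.sum_congr rfl fun _ _ => Finset.sum_congr rfl fun _ _ => by ring
      rw [e2]
      simp only [hB, map_sub, sub_mul, Finset.sum_sub_distrib]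
      refine congrArg₂ _ ?_ ?_
      · simp [apply_ite C, ite_mul]
      · split_ifs <;> simp
    rw [← e1]
    simp only [G, par, bind₁_X_right, map_add, map_sum, map_mul, eq_intCast, map_intCast, aeval_X,
      sub, Option.elim]
    split_ifs <;> simp [sub]
  have hGP : aeval G P = aeval (sub la) (par η i1 P) := by
    have e : (aeval G : Pl m (N + 1) →ₐ[ℤ] _) = (aeval (sub la)).comp (bind₁ fun x =>
        ∑ j, C (η x.1 j x.2) * X (x.1, some j) + if x.2 = i1 x.1 then X (x.1, none) else 0) := by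
      refine MvPolynomial.algHom_ext fun x => ?_
      simp only [aeval_X, G, par, AlgHom.comp_apply]
    rw [e]
    rfl
  obtain ⟨d0, hd0, hmin⟩ := Finset.exists_min_image P.support (fun d => ∑ x, oth i1 i2 d x)
    (support_nonempty.2 hP)
  let S := P.support.filter fun d => oth i1 i2 d = oth i1 i2 d0
  refine ⟨∑ d ∈ S, monomial (fst i1 d) (coeff d P), ?_, ?_, l1_le S P _ (Finset.filter_subset _ _), ?_⟩
  · intro h0
    have h2 : coeff (fst i1 d0) (∑ d ∈ S, monomial (fst i1 d) (coeff d P)) = coeff d0 P := by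
      rw [coeff_sum, Finset.sum_eq_single d0]
      · simp
      · intro d hd hne
        rw [coeff_monomial, if_neg]
        intro hf
        have hd' := Finset.mem_filter.1 hd
        exact hne (inj i1 i2 d d0 (fun h => by rw [hH d hd'.1 h, hH d0 hd0 h]) hd'.2 hf)
      · intro h
        exact absurd (show d0 ∈ S from Finset.mem_filter.2 ⟨hd0, rfl⟩) h
    rw [h0, coeff_zero] at h2
    exact (mem_support_iff.1 hd0) h2.symm
  · intro e he h
    obtain ⟨d, hd, h2⟩ := Finset.mem_biUnion.1 (support_sum he)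
    have h3 := Finset.mem_singleton.1 (support_monomial_subset h2)
    rw [h3, ← hH d (Finset.mem_filter.1 hd).1 h]
    exact Finset.single_le_sum (f := fun i => d (h, i)) (fun _ _ => Nat.zero_le _)
      (Finset.mem_univ (i1 h))
  · intro k hk
    have key : sh (fun h => -((w h (i2 h) : ℚ) / w h (i1 h)))
        (∑ d ∈ S, monomial (fst i1 d) (coeff d P)) = coeff (oth i1 i2 d0) (aeval G P) := by
      conv_rhs => rw [P.as_sum, map_sum, coeff_sum]
      rw [sh, map_sum, Finset.sum_filter]
      refine Finset.sum_congr rfl fun d hd => ?_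
      rw [low i1 i2 G (fun h => X h + C (-((w h (i2 h) : ℚ) / w h (i1 h)))) ?_ ?_ ?_ d _ _
        (hmin d hd)]
      · split_ifs
        · rw [aeval_monomial, Finsupp.prod_fintype _ _ (by simp)]
          simp [fst]
        · rfl
      · intro h i e1 e2
        simp [hG, e1, e2, Y]
      · intro h
        simp [hG, (h12 h).symm, Y]
      · intro h
        rw [hG]
        simp [Y, h12 h, apply_ite constantCoeff, add_comm]
        rw [← map_sum, Finset.sum_ite_eq']
        simp
    rw [key, hGP] at hk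
    obtain ⟨k', hk', rfl⟩ := sub_supp la _ _ _ hk
    simpa [tx] using hpar k' hk'

end Pool.Agent.SU76
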