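import Mathlib
import Pool.Agent.Lib.SU76.Defs

namespace Pool.Agent.SU76

namespace RK

open Finset

/-- Sum of `u ^ (-1/6)` over any finite set of smooth numbers is bounded. -/
theorem smooth_sum (M : ℕ) : ∃ E : ℝ, 0 < E ∧ ∀ T : Finset ℕ,
    (∀ u ∈ T, u ≠ 0 ∧ ∀ r, r.Prime → r ∣ u → r ≤ M) →
      ∑ u ∈ T, (u : ℝ) ^ (-(1 / 6) : ℝ) ≤ E := by
  let f : ℕ →* ℝ :=
    { toFun := fun n => (n : ℝ) ^ (-(1 / 6) : ℝ)
      map_one' := by simp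
      map_mul' := fun a b => by
        rw [Nat.cast_mul, Real.mul_rpow (Nat.cast_nonneg a) (Nat.cast_nonneg b)] }
  have hf : ∀ n : ℕ, f n = (n : ℝ) ^ (-(1 / 6) : ℝ) := fun _ => rfl
  have h0 : ∀ n : ℕ, 0 ≤ f n := fun n => Real.rpow_nonneg (Nat.cast_nonneg n) _
  have hp : ∀ {p : ℕ}, p.Prime → ‖f p‖ < 1 := by
    intro p hp
    rw [Real.norm_of_nonneg (h0 p), hf]
    exact Real.rpow_lt_one_of_one_lt_of_neg (by exact_mod_cast hp.one_lt) (by norm_num)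
  have hs := (EulerProduct.summable_and_hasSum_smoothNumbers_prod_primesBelow_geometric
    (f := f) hp (M + 1)).1
  have hs' : Summable (Set.indicator (Nat.smoothNumbers (M + 1)) fun n => ‖f n‖) :=
    summable_subtype_iff_indicator.1 hs
  have hnn : ∀ n, 0 ≤ Set.indicator (Nat.smoothNumbers (M + 1)) (fun n => ‖f n‖) n :=
    fun n => Set.indicator_nonneg (fun _ _ => norm_nonneg _) n
  refine ⟨∑' n, Set.indicator (Nat.smoothNumbers (M + 1)) (fun n => ‖f n‖) n + 1,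
    add_pos_of_nonneg_of_pos (tsum_nonneg hnn) one_pos, fun T hT => ?_⟩
  have h1 := hs'.sum_le_tsum T (fun n _ => hnn n)
  have h2 : ∑ u ∈ T, (u : ℝ) ^ (-(1 / 6) : ℝ)
      = ∑ u ∈ T, Set.indicator (Nat.smoothNumbers (M + 1)) (fun n => ‖f n‖) u := by
    refine Finset.sum_congr rfl fun u hu => ?_
    have hm : u ∈ Nat.smoothNumbers (M + 1) := by
      rw [Nat.mem_smoothNumbers']
      intro r hr hd
      exact Nat.lt_succ_of_le ((hT u hu).2 r hr hd)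
    rw [Set.indicator_of_mem hm, Real.norm_of_nonneg (h0 u), hf]
  linarith

/-- Rankin bound for the sum of reciprocals. -/
theorem rk_sum (M : ℕ) : ∃ E : ℝ, 0 < E ∧ ∀ (Z : ℝ) (R : Finset ℕ), 1 ≤ Z →
    (∀ p ∈ R, Z ≤ p ∧ ∀ r, r.Prime → r ∣ p + 1 → r ≤ M) →
      ∑ p ∈ R, 1 / (p : ℝ) ≤ E * Z ^ (-(5 / 6) : ℝ) := by
  obtain ⟨E, hE, h⟩ := smooth_sum M
  refine ⟨2 * E, by positivity, fun Z R hZ hR => ?_⟩
  have hZ0 : 0 < Z := by linarith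
  have h1 := h (R.image (· + 1)) (by
    intro u hu
    obtain ⟨p, hp, rfl⟩ := Finset.mem_image.1 hu
    exact ⟨Nat.succ_ne_zero p, (hR p hp).2⟩)
  rw [Finset.sum_image (fun a _ b _ hab => Nat.succ_injective hab)] at h1
  have h2 : ∀ p ∈ R, 1 / (p : ℝ)
      ≤ 2 * Z ^ (-(5 / 6) : ℝ) * ((p + 1 : ℕ) : ℝ) ^ (-(1 / 6) : ℝ) := by
    intro p hp
    have hpZ := (hR p hp).1
    have hp1 : (1 : ℝ) ≤ p := le_trans hZ hpZ
    have hu0 : (0 : ℝ) < ((p + 1 : ℕ) : ℝ) := by positivity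
    have huZ : Z ≤ ((p + 1 : ℕ) : ℝ) := by push_cast; linarith
    have e1 : ((p + 1 : ℕ) : ℝ) ^ (-(5 / 6) : ℝ) ≤ Z ^ (-(5 / 6) : ℝ) :=
      Real.rpow_le_rpow_of_nonpos hZ0 huZ (by norm_num)
    have e2 : ((p + 1 : ℕ) : ℝ) ^ (-(5 / 6) : ℝ) * ((p + 1 : ℕ) : ℝ) ^ (-(1 / 6) : ℝ)
        = ((p + 1 : ℕ) : ℝ)⁻¹ := by
      rw [← Real.rpow_add hu0, ← Real.rpow_neg_one]; norm_num
    have e3 : 1 / (p : ℝ) ≤ 2 * ((p + 1 : ℕ) : ℝ)⁻¹ := by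
      rw [← div_eq_mul_inv, div_le_div_iff₀ (by linarith) hu0]; push_cast; linarith
    have e4 : 0 ≤ ((p + 1 : ℕ) : ℝ) ^ (-(1 / 6) : ℝ) := Real.rpow_nonneg hu0.le _
    have e5 := mul_le_mul_of_nonneg_right e1 e4
    rw [e2] at e5
    nlinarith
  have h3 := Finset.sum_le_sum h2
  rw [← Finset.mul_sum] at h3
  have e6 : 0 ≤ 2 * Z ^ (-(5 / 6) : ℝ) := by positivity
  have h4 := mul_le_mul_of_nonneg_left h1 e6
  calc ∑ p ∈ R, 1 / (p : ℝ) ≤ 2 * Z ^ (-(5 / 6) : ℝ) * E := le_trans h3 h4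
    _ = 2 * E * Z ^ (-(5 / 6) : ℝ) := by ring

/-- RK. -/
theorem rk (M : ℕ) : ∃ C : ℝ, 0 < C ∧ ∀ (Z : ℝ) (R : Finset ℕ), 1 ≤ Z →
    (∀ p ∈ R, Z ≤ p ∧ ∀ r, r.Prime → r ∣ p + 1 → r ≤ M) →
      ∏ p ∈ R, (1 + 1 / (p : ℝ)) ≤ 1 + C * Z ^ (-(5 / 6) : ℝ) := by
  obtain ⟨E, hE, h⟩ := rk_sum M
  refine ⟨E * Real.exp E, by positivity, fun Z R hZ hR => ?_⟩
  have h1 := h Z R hZ hR
  set S := ∑ p ∈ R, 1 / (p : ℝ) with hS
  have hS0 : 0 ≤ S := Finset.sum_nonneg fun p _ => by positivity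
  have hz1 : Z ^ (-(5 / 6) : ℝ) ≤ 1 := Real.rpow_le_one_of_one_le_of_nonpos hZ (by norm_num)
  have hz0 : 0 ≤ Z ^ (-(5 / 6) : ℝ) := Real.rpow_nonneg (by linarith) _
  have hSE : S ≤ E := by nlinarith
  have h2 : ∏ p ∈ R, (1 + 1 / (p : ℝ)) ≤ Real.exp S := by
    rw [hS, Real.exp_sum]
    refine Finset.prod_le_prod (fun p _ => by positivity) fun p _ => ?_
    have := Real.add_one_le_exp (1 / (p : ℝ)); linarith
  have h3 : Real.exp S ≤ 1 + S * Real.exp S := by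
    have a1 := Real.add_one_le_exp (-S)
    have a2 : Real.exp (-S) * Real.exp S = 1 := by rw [← Real.exp_add]; simp
    have a3 := mul_le_mul_of_nonneg_right a1 (Real.exp_pos S).le
    nlinarith
  have h4 : Real.exp S ≤ Real.exp E := Real.exp_le_exp.2 hSE
  have h5 : S * Real.exp S ≤ E * Z ^ (-(5 / 6) : ℝ) * Real.exp E :=
    mul_le_mul h1 h4 (Real.exp_pos S).le (by positivity)
  calc ∏ p ∈ R, (1 + 1 / (p : ℝ)) ≤ 1 + E * Z ^ (-(5 / 6) : ℝ) * Real.exp E := by linarith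
    _ = 1 + E * Real.exp E * Z ^ (-(5 / 6) : ℝ) := by ring

end RK

theorem aRK : St_RK := by
  intro M
  obtain ⟨C, hC, h⟩ := RK.rk M
  refine ⟨C + 1, by linarith, fun R Z hZ hR => ?_⟩
  have h1 := h Z R hZ fun p hp => ⟨(hR p hp).1, fun r hr hd =>
    (Nat.mem_smoothNumbers'.1 (hR p hp).2 r hr hd).le⟩
  have h2 : 0 ≤ Z ^ (-(5 / 6) : ℝ) := Real.rpow_nonneg (by linarith) _
  have h3 : C * Z ^ (-(5 / 6) : ℝ) ≤ (C + 1) * Z ^ (-(5 / 6) : ℝ) :=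
    mul_le_mul_of_nonneg_right (by linarith) h2
  unfold tt
  linarith

end Pool.Agent.SU76
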