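import Pool.Agent.Lib.SU76.Defs
import Pool.Agent.Lib.US76.Roth89

open MvPolynomial

namespace Pool.Agent.SU76

theorem aROTH : St_ROTH := by
  intro m θ hθ
  obtain ⟨ω, h0, -, H⟩ := US76.R89.roth m θ hθ
  refine ⟨ω, h0, fun r ξ P Y hP hY hr hd hl hf hh => ?_⟩
  obtain ⟨i, hi, wi⟩ := H r ξ P Y hP hr (fun h => degreeOf_le_iff.2 fun d hd' => hd d hd' h) hf hY
    (fun a => by
      refine le_trans ?_ hl
      by_cases ha : a ∈ P.support
      · exact Finset.single_le_sum (f := fun d => |((coeff d P : ℤ) : ℝ)|)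
          (fun d _ => abs_nonneg _) ha
      · rw [notMem_support_iff.1 ha]
        simp only [Int.cast_zero, abs_zero]
        exact Finset.sum_nonneg fun d _ => abs_nonneg _)
    (fun h => (hh h).trans (mul_le_mul_of_nonneg_left
      (Real.log_le_log (by exact_mod_cast (ξ h).pos) (by exact_mod_cast le_max_right _ _))
      (by positivity)))
  exact ⟨i, mem_support_iff.2 hi, wi⟩

end Pool.Agent.SU76
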