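import Pool.Agent.Lib.SU76.Defs

/-! The primes of the limit object are sparse. -/

namespace Pool.Agent.SU76

open Finset Real

namespace SP

lemma tt_ge (R : Finset ℕ) : 1 ≤ tt R := by
  have h := Finset.prod_le_prod (s := R) (f := fun _ => (1 : ℝ)) (g := fun p : ℕ => 1 + 1 / (p : ℝ))
    (fun _ _ => zero_le_one) (fun p _ => le_add_of_nonneg_right (by positivity))
  rwa [Finset.prod_const_one] at h

lemma tt_blk {U V W : Finset ℕ} (hU : U ⊆ W) (hV : V ⊆ W) :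
    tt W * tt (U ∩ V) = tt (W \ (U ∪ V)) * (tt U * tt V) := by
  unfold tt
  rw [← Finset.prod_sdiff (Finset.union_subset hU hV), mul_assoc, Finset.prod_union_inter]

lemma err {a z1 z2 z3 : ℝ} (h0 : 0 < a) (ha : a ≤ 1 / 8) (h1 : 0 ≤ z1) (h12 : z1 ≤ z2) (h3 : 0 ≤ z3)
    (h2a : z2 ≤ a ^ 3) (h3a : z3 ≤ a ^ 3) :
    1 < (1 + z1) * (1 + a) / ((1 + z2) * (1 + z3)) ∧
      (1 + z1) * (1 + a) / ((1 + z2) * (1 + z3)) ≤ 1 + a := by
  have h2 : 0 ≤ z2 := h1.trans h12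
  have hp : 0 < (1 + z2) * (1 + z3) := by positivity
  have ha2 : a ^ 2 ≤ 1 / 64 := by nlinarith
  have ha3 : a ^ 3 ≤ a / 64 := by nlinarith
  constructor
  · rw [one_lt_div hp]
    have h4 : z2 * z3 ≤ a / 64 := by nlinarith
    nlinarith [mul_nonneg h1 h0.le]
  · rw [div_le_iff₀ hp, mul_comm (1 + a)]
    refine mul_le_mul_of_nonneg_right ?_ (by positivity)
    nlinarith [mul_nonneg h2 h3]

lemma dvd_of {l m d : ℕ} (hl : l.Prime) (hd : d ∣ m * l) (hn : ¬ d ∣ m) : l ∣ d := by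
  by_contra h
  exact hn (((Nat.Prime.coprime_iff_not_dvd hl).2 h).symm.dvd_of_dvd_mul_right hd)

lemma pow_le_exp (Q m : ℕ) : (Q : ℝ) ^ m ≤ exp (Q * m) := by
  rw [mul_comm, Real.exp_nat_mul]
  exact pow_le_pow_left₀ (by positivity) (by linarith [Real.add_one_le_exp (Q : ℝ)]) m

lemma ht {k y : ℝ} {Q m n1 n2 e1 e2 e3 : ℕ} (hk : 1 < k) (hy : 1 ≤ y) (h1 : (n1 : ℝ) ≤ 2 * k * Q ^ e1)
    (h2 : (n2 : ℝ) ≤ 2 * k * Q ^ e2) (hm : e1 + e2 + e3 = m) (hm' : (m : ℝ) ≤ 4 * y ^ 3)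
    (h0 : 4 * k ^ 2 + 4 * Q ≤ y) : ((n1 * n2 * Q ^ e3 : ℕ) : ℝ) ≤ exp (y ^ 4) := by
  have hy3 : 1 ≤ y ^ 3 := one_le_pow₀ hy
  have hQ : (0 : ℝ) ≤ Q := by positivity
  have a1 : ((n1 * n2 * Q ^ e3 : ℕ) : ℝ) ≤ 4 * k ^ 2 * Q ^ m := by
    push_cast
    rw [← hm, pow_add, pow_add]
    have : (n1 : ℝ) * n2 ≤ (2 * k * Q ^ e1) * (2 * k * Q ^ e2) :=
      mul_le_mul h1 h2 (by positivity) (by positivity)
    calc (n1 : ℝ) * n2 * Q ^ e3 ≤ (2 * k * Q ^ e1) * (2 * k * Q ^ e2) * Q ^ e3 :=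
          mul_le_mul_of_nonneg_right this (by positivity)
      _ = _ := by ring
  have a2 : 4 * k ^ 2 * (Q : ℝ) ^ m ≤ exp (4 * k ^ 2) * exp (Q * m) :=
    mul_le_mul (by linarith [Real.add_one_le_exp (4 * k ^ 2)]) (pow_le_exp Q m) (by positivity)
      (by positivity)
  rw [← Real.exp_add] at a2
  refine a1.trans (a2.trans (Real.exp_le_exp.2 ?_))
  have a3 : (Q : ℝ) * m ≤ Q * (4 * y ^ 3) := mul_le_mul_of_nonneg_left hm' hQ
  have a4 : 4 * k ^ 2 ≤ 4 * k ^ 2 * y ^ 3 := le_mul_of_one_le_right (by positivity) hy3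
  have a5 : (4 * k ^ 2 + 4 * Q) * y ^ 3 ≤ y * y ^ 3 := mul_le_mul_of_nonneg_right h0 (by positivity)
  calc 4 * k ^ 2 + (Q : ℝ) * m ≤ (4 * k ^ 2 + 4 * Q) * y ^ 3 := by linarith
    _ ≤ y * y ^ 3 := a5
    _ = y ^ 4 := by ring

lemma mul_mem {r : ℕ} (S : Lo r) (i : Fin r) {a b : ℕ} (ha : a ∈ S.D i) (hb : b ∈ S.D i)
    (h : a.Coprime b) : a * b ∈ S.D i := h.lcm_eq_mul ▸ S.lcm i a ha b hb

lemma three {r : ℕ} (S : Lo r) (i : Fin r) {l : ℕ} (hl : l.Prime) (h : l ∈ S.D i) : 3 ≤ l := by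
  have h1 := hl.two_le
  obtain ⟨k, hk⟩ := S.odd i l h
  omega

lemma blk (hK : St_KIT) {r : ℕ} (S : Lo r) (i : Fin r) {c1 c2 : ℕ}
    (hc : ∀ (y E : ℝ) (R : Finset ℕ) (a b : ℕ), 2 ≤ y →
      a ∈ S.M.smoothNumbers → b ∈ S.M.smoothNumbers → (a : ℝ) ≤ exp (y ^ 4) → (b : ℝ) ≤ exp (y ^ 4) →
      a ≠ b → (∀ p ∈ R, 1 ≤ p ∧ p + 1 ∈ S.M.smoothNumbers) → (a : ℝ) / b = tt R * E →
      |E - 1| ≤ 1 / y ^ c1 → ∃ p ∈ R, (p : ℝ) ≤ y ^ c2)
    {k l y : ℕ} (hk : k.Prime) (hl : l.Prime) (hy : y.Prime) (kD : k ∈ S.D i) (lD : l ∈ S.D i)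
    (yD : y ∈ S.D i) (kl : k < l) (ly : l < y) (h0 : 4 * S.ka ^ 2 + 4 * S.Q i ≤ y)
    (h1 : (y : ℝ) ^ c1 ≤ 2 ^ k) :
    ∃ p, (p + 1 ∈ S.M.smoothNumbers ∧ p ≤ y ^ c2 ∧ p ≡ 1 [MOD y]) ∧ l ∣ S.de i p ∧
      S.de i p ∣ k * l * y := by
  obtain ⟨k1, k2, k3, -, k5, k6, k7⟩ := hK r S i
  have ckl : k.Coprime l := (Nat.coprime_primes hk hl).2 kl.ne
  have cky : k.Coprime y := (Nat.coprime_primes hk hy).2 (kl.trans ly).ne
  have cly : l.Coprime y := (Nat.coprime_primes hl hy).2 ly.ne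
  have d3 : k * l ∈ S.D i := mul_mem S i kD lD ckl
  have d2 : k * y ∈ S.D i := mul_mem S i kD yD cky
  have d1 : k * l * y ∈ S.D i := mul_mem S i d3 yD (Nat.Coprime.mul_left cky cly)
  have k3' := three S i hk kD
  have sU : S.P i (k * y) ⊆ S.P i (k * l * y) := fun p hp => by
    obtain ⟨a, b, c⟩ := (k1 p _ (S.odd i _ d2)).1 hp
    exact (k1 p _ (S.odd i _ d1)).2 ⟨a, b, c.trans ⟨l, by ring⟩⟩
  have sV : S.P i (k * l) ⊆ S.P i (k * l * y) := fun p hp => by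
    obtain ⟨a, b, c⟩ := (k1 p _ (S.odd i _ d3)).1 hp
    exact (k1 p _ (S.odd i _ d1)).2 ⟨a, b, c.trans ⟨y, rfl⟩⟩
  have sI : S.P i (k * y) ∩ S.P i (k * l) = S.P i k := by
    ext p
    rw [Finset.mem_inter, k1 p _ (S.odd i _ d2), k1 p _ (S.odd i _ d3), k1 p _ (S.odd i _ kD)]
    constructor
    · rintro ⟨⟨a, b, c⟩, -, -, d⟩
      refine ⟨a, b, ?_⟩
      have := Nat.dvd_gcd c d
      rwa [Nat.gcd_mul_left, cly.symm.gcd_eq_one, mul_one] at this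
    · rintro ⟨a, b, c⟩
      exact ⟨⟨a, b, c.mul_right _⟩, a, b, c.mul_right _⟩
  have hb := tt_blk sU sV
  rw [sI] at hb
  set R := S.P i (k * l * y) \ (S.P i (k * y) ∪ S.P i (k * l)) with hR
  obtain ⟨n1, s1, b1, e1⟩ := k3 _ d1
  obtain ⟨n0, s0, b0, e0⟩ := k3 _ kD
  obtain ⟨n2, s2, b2, e2⟩ := k3 _ d2
  obtain ⟨n3, s3, b3, e3⟩ := k3 _ d3
  have hQ2 : (2 : ℝ) ≤ S.Q i := by exact_mod_cast k6
  have hQ : (0 : ℝ) < S.Q i := by linarith
  have zm : ∀ {a b : ℕ}, a ≤ b → S.z i b ≤ S.z i a := fun h =>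
    one_div_le_one_div_of_le (by positivity) (pow_le_pow_right₀ (by linarith) h)
  have z0 : ∀ a, 0 < S.z i a := fun a => by unfold Lo.z; positivity
  have z3 : S.z i (k * 3) = S.z i k ^ 3 := by unfold Lo.z; rw [pow_mul, one_div_pow]
  have zk : S.z i k ≤ 1 / 2 ^ k :=
    one_div_le_one_div_of_le (by positivity) (pow_le_pow_left₀ (by norm_num) hQ2 k)
  have z8 : S.z i k ≤ 1 / 8 := zk.trans (one_div_le_one_div_of_le (by norm_num) (by
    calc (8 : ℝ) = 2 ^ 3 := by norm_num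
      _ ≤ 2 ^ k := pow_le_pow_right₀ (by norm_num) k3'))
  obtain ⟨E1, E2⟩ := err (z0 k) z8 (z0 (k * l * y)).le
    (zm (show k * y ≤ k * l * y from Nat.mul_le_mul_right y (Nat.le_mul_of_pos_right k hl.pos)))
    (z0 (k * l)).le (z3 ▸ zm (Nat.mul_le_mul_left k (by omega)))
    (z3 ▸ zm (Nat.mul_le_mul_left k (by omega)))
  set E := (1 + S.z i (k * l * y)) * (1 + S.z i k) / ((1 + S.z i (k * y)) * (1 + S.z i (k * l)))
    with hE
  have p2 : (0 : ℝ) < n2 := by exact_mod_cast Nat.pos_of_ne_zero s2.1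
  have p3 : (0 : ℝ) < n3 := by exact_mod_cast Nat.pos_of_ne_zero s3.1
  have t2 := tt_ge (S.P i (k * y))
  have t3 := tt_ge (S.P i (k * l))
  have hW : ((n1 * n0 * S.Q i ^ (k * y + k * l) : ℕ) : ℝ) /
      (n2 * n3 * S.Q i ^ (k * l * y + k) : ℕ) = tt R * E := by
    have a1 : ((n1 * n0 * S.Q i ^ (k * y + k * l) : ℕ) : ℝ) /
        (n2 * n3 * S.Q i ^ (k * l * y + k) : ℕ) =
        S.w i (k * l * y) * S.w i k / (S.w i (k * y) * S.w i (k * l)) := by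
      rw [e1, e0, e2, e3]
      push_cast
      rw [pow_add, pow_add]
      field_simp
    have q2 := z0 (k * y)
    have q3 := z0 (k * l)
    rw [a1, hE]
    unfold Lo.w
    rw [mul_mul_mul_comm, hb]
    field_simp
  have hy1 : (1 : ℝ) ≤ y := by exact_mod_cast hy.pos
  have hy2 : (2 : ℝ) ≤ y := by exact_mod_cast hy.two_le
  have hm : ((k * l * y + k + (k * y + k * l) : ℕ) : ℝ) ≤ 4 * (y : ℝ) ^ 3 := by
    have a1 : k * l ≤ y * y := Nat.mul_le_mul (by omega) ly.le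
    have a2 : k * y ≤ y * y := Nat.mul_le_mul_right y (by omega)
    have a3 : k * l * y ≤ y * y * y := Nat.mul_le_mul_right y a1
    have a4 : y * y ≤ y * y * y := Nat.le_mul_of_pos_right _ hy.pos
    have a5 : y ≤ y * y := Nat.le_mul_of_pos_right _ hy.pos
    have : k * l * y + k + (k * y + k * l) ≤ 4 * y ^ 3 := by
      rw [show y ^ 3 = y * y * y by ring]
      omega
    exact_mod_cast this
  have hne : n1 * n0 * S.Q i ^ (k * y + k * l) ≠ n2 * n3 * S.Q i ^ (k * l * y + k) := fun h => by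
    rw [h, div_self (by push_cast; positivity)] at hW
    nlinarith [tt_ge R]
  obtain ⟨p, hp, hpy⟩ := hc y E R _ _ hy2
    (Nat.mul_mem_smoothNumbers (Nat.mul_mem_smoothNumbers s1 s0) (k5 _))
    (Nat.mul_mem_smoothNumbers (Nat.mul_mem_smoothNumbers s2 s3) (k5 _))
    (ht k7 hy1 b1 b0 rfl hm h0) (ht k7 hy1 b2 b3 (by ring) hm h0) hne
    (fun p hp => ⟨((k1 p _ (S.odd i _ d1)).1 (Finset.mem_sdiff.1 hp).1).1.pos,
      (k2 _ d1 p (Finset.mem_sdiff.1 hp).1).2.2⟩) hW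
    (by
      rw [abs_of_pos (by linarith)]
      have := one_div_le_one_div_of_le (by positivity) h1
      linarith)
  obtain ⟨m1, m2⟩ := Finset.mem_sdiff.1 hp
  obtain ⟨a, b, c⟩ := (k1 p _ (S.odd i _ d1)).1 m1
  obtain ⟨-, f2, f3⟩ := k2 _ d1 p m1
  have g1 : l ∣ S.de i p := dvd_of (m := k * y) hl (by rwa [mul_right_comm]) fun h =>
    m2 (Finset.mem_union_left _ ((k1 p _ (S.odd i _ d2)).2 ⟨a, b, h⟩))
  have g2 : y ∣ S.de i p := dvd_of hy c fun h =>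
    m2 (Finset.mem_union_right _ ((k1 p _ (S.odd i _ d3)).2 ⟨a, b, h⟩))
  exact ⟨p, ⟨f3, by exact_mod_cast hpy, f2.of_dvd g2⟩, g1, c⟩

end SP

theorem aSP (hK : St_KIT) (hY : St_KEY) (hC : St_CNT) : St_SP := by
  classical
  intro r S
  obtain ⟨c1, c2, hc⟩ := hY S.M
  obtain ⟨N, hN⟩ := hC S.M c2
  refine ⟨2 * c1 + 1, ⌈4 * S.ka ^ 2⌉₊ + 4 * ∑ j, S.Q j + (N + 2), by omega, fun i Y T hY1 hT => ?_⟩
  rcases T.eq_empty_or_nonempty with rfl | hne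
  · simp
  have hy := T.max'_mem hne
  have hk := T.min'_mem hne
  set y := T.max' hne with hyd
  set k := T.min' hne with hkd
  by_cases h0 : y < ⌈4 * S.ka ^ 2⌉₊ + 4 * ∑ j, S.Q j
  · have : T ⊆ Finset.range (⌈4 * S.ka ^ 2⌉₊ + 4 * ∑ j, S.Q j) := fun l hl =>
      Finset.mem_range.2 ((T.le_max' l hl).trans_lt h0)
    have := Finset.card_le_card this
    rw [Finset.card_range] at this
    omega
  obtain ⟨yp, yD, -, yY⟩ := hT y hy
  obtain ⟨kp, kD, kY, -⟩ := hT k hk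
  have h0' : 4 * S.ka ^ 2 + 4 * S.Q i ≤ y := by
    have a1 : S.Q i ≤ ∑ j, S.Q j := Finset.single_le_sum (fun _ _ => Nat.zero_le _) (Finset.mem_univ i)
    have a2 : ⌈4 * S.ka ^ 2⌉₊ + 4 * S.Q i ≤ y := by omega
    have a3 : (⌈4 * S.ka ^ 2⌉₊ : ℝ) + 4 * S.Q i ≤ y := by exact_mod_cast a2
    linarith [Nat.le_ceil (4 * S.ka ^ 2)]
  have h1 : (y : ℝ) ^ c1 ≤ 2 ^ k := by
    have y0 : (0 : ℝ) < y := by exact_mod_cast yp.pos
    have l0 : 0 ≤ log Y := Real.log_nonneg hY1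
    rw [← Real.log_le_log_iff (by positivity) (by positivity), Real.log_pow, Real.log_pow]
    have a1 : (c1 : ℝ) * log y ≤ c1 * log Y :=
      mul_le_mul_of_nonneg_left (Real.log_le_log y0 yY) (by positivity)
    have a2 : (k : ℝ) * (1 / 2) ≤ k * log 2 :=
      mul_le_mul_of_nonneg_left (by linarith [Real.log_two_gt_d9]) (by positivity)
    push_cast at kY
    linarith
  have key : ∀ l ∈ (T.erase y).erase k, ∃ p,
      (p + 1 ∈ S.M.smoothNumbers ∧ p ≤ y ^ c2 ∧ p ≡ 1 [MOD y]) ∧ l ∣ S.de i p ∧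
        S.de i p ∣ k * l * y := fun l hl => by
    obtain ⟨a, hl⟩ := Finset.mem_erase.1 hl
    obtain ⟨b, hl⟩ := Finset.mem_erase.1 hl
    exact SP.blk hK S i hc kp (hT l hl).1 yp kD (hT l hl).2.1 yD
      (lt_of_le_of_ne (T.min'_le l hl) a.symm) (lt_of_le_of_ne (T.le_max' l hl) b) h0' h1
  choose! f hf using key
  have inj : Set.InjOn f ((T.erase y).erase k : Finset ℕ) := fun l hl l' hl' h => by
    have hl0 := Finset.mem_coe.1 hl
    have hl0' := Finset.mem_coe.1 hl'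
    obtain ⟨a, h2⟩ := Finset.mem_erase.1 hl0
    obtain ⟨b, h2⟩ := Finset.mem_erase.1 h2
    have h3 := (Finset.mem_erase.1 (Finset.mem_erase.1 hl0').2).2
    have lp := (hT l h2).1
    have d : l ∣ k * l' * y := (hf l hl0).2.1.trans (h ▸ (hf l' hl0').2.2)
    rcases (Nat.Prime.dvd_mul lp).1 d with d | d
    · rcases (Nat.Prime.dvd_mul lp).1 d with d | d
      · exact absurd ((Nat.prime_dvd_prime_iff_eq lp kp).1 d) a
      · exact (Nat.prime_dvd_prime_iff_eq lp (hT l' h3).1).1 d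
    · exact absurd ((Nat.prime_dvd_prime_iff_eq lp yp).1 d) b
  have h4 := hN y (((T.erase y).erase k).image f) (S.odd i y yD) (SP.three S i yp yD) fun p hp => by
    obtain ⟨l, hl, rfl⟩ := Finset.mem_image.1 hp
    exact (hf l hl).1
  rw [Finset.card_image_of_injOn inj] at h4
  have h5 := Finset.pred_card_le_card_erase (s := T) (a := y)
  have h6 := Finset.pred_card_le_card_erase (s := T.erase y) (a := k)
  omega

end Pool.Agent.SU76
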