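import Pool.Agent.Lib.SU76.Defs

/-! Row SUB: the subspace theorem from the gap, the exterior power and the hyperplane case. -/

namespace Pool.Agent.SU76

open Finset Real

namespace SUB

lemma prod_gap {n : ℕ} (μ : Fin n → ℝ) (hμ : Monotone μ) (h0 : ∀ j, 0 < μ j) (k : Fin n) (ρ : ℝ)
    (hρ0 : 0 ≤ ρ) (hρ1 : ρ ≤ 1) (hg : ∀ j, j < k → μ j ≤ ρ * μ k) (J : Finset (Fin n)) (hJ : J ≠ Ici k)
    (hc : J.card = (Ici k).card) : ∏ l ∈ J, μ l ≤ ρ * ∏ l ∈ Ici k, μ l := by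
  have hcard : (J \ Ici k).card = (Ici k \ J).card := card_sdiff_comm hc
  have hpos : (J \ Ici k).card ≠ 0 := by
    intro h
    rw [card_eq_zero, sdiff_eq_empty_iff_subset] at h
    exact hJ (eq_of_subset_of_card_le h hc.ge)
  have h1 : ∏ l ∈ J \ Ici k, μ l ≤ (ρ * μ k) ^ (J \ Ici k).card := by
    rw [← prod_const]
    refine prod_le_prod (fun l _ => (h0 l).le) fun l hl => hg l ?_
    have := (mem_sdiff.1 hl).2
    simpa using this
  have h2 : μ k ^ (J \ Ici k).card ≤ ∏ l ∈ Ici k \ J, μ l := by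
    rw [hcard, ← prod_const]
    refine prod_le_prod (fun l _ => (h0 k).le) fun l hl => hμ ?_
    simpa using (mem_sdiff.1 hl).1
  have h3 : ρ ^ (J \ Ici k).card ≤ ρ := pow_le_of_le_one hρ0 hρ1 hpos
  have h4 : ∏ l ∈ J \ Ici k, μ l ≤ ρ * ∏ l ∈ Ici k \ J, μ l := by
    refine h1.trans ?_
    rw [mul_pow]
    exact mul_le_mul h3 h2 (pow_nonneg (h0 k).le _) hρ0
  have h5 : 0 ≤ ∏ l ∈ J ∩ Ici k, μ l := prod_nonneg fun l _ => (h0 l).le
  rw [← prod_inter_mul_prod_sdiff J (Ici k) μ, ← prod_inter_mul_prod_sdiff (Ici k) J μ, inter_comm (Ici k) J]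
  calc _ ≤ (∏ l ∈ J ∩ Ici k, μ l) * (ρ * ∏ l ∈ Ici k \ J, μ l) := mul_le_mul_of_nonneg_left h4 h5
    _ = _ := by ring

lemma cnt_le {n N p : ℕ} (e : Fin N → Finset (Fin n)) (hi : Function.Injective e)
    (hr : ∀ I, I ∈ Set.range e ↔ I.card = p) (i i' : Fin n) :
    (univ.filter fun I => i ∈ e I).card ≤ (univ.filter fun I => i' ∈ e I).card := by
  have h : ∀ I, ∃ I', e I' = (e I).map (Equiv.swap i i').toEmbedding := fun I =>
    (hr _).2 (by rw [card_map]; exact (hr _).1 ⟨I, rfl⟩)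
  choose σ hσ using h
  refine card_le_card_of_injOn σ (fun I hI => ?_) fun I _ I' _ h => ?_
  · have hI' : i ∈ e I := by simpa using hI
    have : i' ∈ e (σ I) := by
      rw [hσ]
      exact mem_map.2 ⟨i, hI', by simp⟩
    simpa using this
  · have h2 : (e I).map (Equiv.swap i i').toEmbedding = (e I').map (Equiv.swap i i').toEmbedding := by
      rw [← hσ, ← hσ, h]
    exact hi (map_injective _ h2)

lemma prod_sub {n N p : ℕ} (e : Fin N → Finset (Fin n)) (hi : Function.Injective e)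
    (hr : ∀ I, I ∈ Set.range e ↔ I.card = p) (k : Fin n) :
    ∃ m, m ≤ N ∧ ∀ g : Fin n → ℝ, ∏ I, ∏ i ∈ e I, g i = (∏ i, g i) ^ m := by
  refine ⟨(univ.filter fun I => k ∈ e I).card, (card_filter_le _ _).trans (by simp), fun g => ?_⟩
  rw [prod_comm' (t' := univ) (s' := fun i => univ.filter fun I => i ∈ e I) (by simp), ← prod_pow]
  refine prod_congr rfl fun i _ => ?_
  rw [prod_const, le_antisymm (cnt_le e hi hr i k) (cnt_le e hi hr k i)]

lemma mulVec_le {n : ℕ} (A : Mx n) (x : Fin n → ℤ) (H : ℝ) (hx : ∀ i, |(x i : ℝ)| ≤ H) (i : Fin n) :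
    |((A.mulVec x i : ℤ) : ℝ)| ≤ (∑ j, |(A i j : ℝ)|) * H := by
  have : ((A.mulVec x i : ℤ) : ℝ) = ∑ j, (A i j : ℝ) * x j := by
    simp [Matrix.mulVec, dotProduct]
  rw [this, sum_mul]
  refine (abs_sum_le_sum_abs _ _).trans (sum_le_sum fun j _ => ?_)
  rw [abs_mul]
  exact mul_le_mul_of_nonneg_left (hx j) (abs_nonneg _)

lemma arch {n : ℕ} (μ : Fin n → ℝ) (hμ : Monotone μ) (h0 : ∀ j, 0 < μ j) (k : Fin n) (ρ C : ℝ)
    (hρ0 : 0 ≤ ρ) (hρ1 : ρ ≤ 1) (hC : 1 ≤ C) (hg : ∀ j, j < k → μ j ≤ ρ * μ k) (pm : Equiv.Perm (Fin n))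
    (a : Fin n → ℝ) (ha : ∀ i, 0 ≤ a i) (b : Fin n → Fin n → ℝ) (hb0 : ∀ j i, 0 ≤ b j i)
    (hb : ∀ i j, b j (pm i) ≤ C * min (μ i) (μ j) * a (pm i)) (S J : Finset (Fin n)) (hJ : J ≠ Ici k)
    (hc : J.card = (Ici k).card) (φ : Fin n → Fin n) (hφ : Set.BijOn φ S J) (d : ℝ)
    (hd : d = 1 ∨ (d = ρ ∧ S = (Ici k).map pm.toEmbedding)) :
    ∏ i ∈ S, b (φ i) i ≤ C ^ n * (∏ i ∈ S, a i * μ (pm.symm i)) * d := by
  have hCn : C ^ S.card ≤ C ^ n := pow_le_pow_right₀ hC (by simpa using card_le_univ S)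
  have h1 : ∏ i ∈ S, b (φ i) i ≤ ∏ i ∈ S, C * min (μ (pm.symm i)) (μ (φ i)) * a i := by
    refine prod_le_prod (fun i _ => hb0 _ _) fun i _ => ?_
    have := hb (pm.symm i) (φ i)
    rwa [Equiv.apply_symm_apply] at this
  have hm : ∏ i ∈ S, min (μ (pm.symm i)) (μ (φ i)) ≤ (∏ i ∈ S, μ (pm.symm i)) * d := by
    rcases hd with rfl | ⟨rfl, hS⟩
    · rw [mul_one]
      exact prod_le_prod (fun i _ => le_min (h0 _).le (h0 _).le) fun i _ => min_le_left _ _
    · have h2 : ∏ i ∈ S, min (μ (pm.symm i)) (μ (φ i)) ≤ ∏ i ∈ S, μ (φ i) :=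
        prod_le_prod (fun i _ => le_min (h0 _).le (h0 _).le) fun i _ => min_le_right _ _
      have h3 : ∏ i ∈ S, μ (φ i) = ∏ l ∈ J, μ l :=
        prod_nbij φ hφ.mapsTo hφ.injOn hφ.surjOn fun _ _ => rfl
      have h4 : ∏ i ∈ S, μ (pm.symm i) = ∏ l ∈ Ici k, μ l := by
        rw [hS, prod_map]
        simp
      rw [h4, mul_comm]
      exact h2.trans (h3.le.trans (prod_gap μ hμ h0 k d hρ0 hρ1 hg J hJ hc))
  refine h1.trans ?_
  rw [prod_mul_distrib, prod_mul_distrib, prod_mul_distrib, prod_const]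
  have hA : 0 ≤ ∏ i ∈ S, a i := prod_nonneg fun i _ => ha i
  have hM : 0 ≤ ∏ i ∈ S, min (μ (pm.symm i)) (μ (φ i)) :=
    prod_nonneg fun i _ => le_min (h0 _).le (h0 _).le
  calc _ ≤ C ^ n * ((∏ i ∈ S, μ (pm.symm i)) * d) * ∏ i ∈ S, a i :=
        mul_le_mul_of_nonneg_right (mul_le_mul hCn hm hM (by positivity)) hA
    _ = _ := by ring

lemma large (K δ : ℝ) (hδ : 0 < δ) : ∃ H0 : ℝ, ∀ H, H0 ≤ H → K ≤ H ^ δ := by
  obtain ⟨H0, h⟩ := Filter.eventually_atTop.1 ((tendsto_rpow_atTop hδ).eventually_ge_atTop K)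
  exact ⟨H0, h⟩

end SUB

open SUB in
theorem aSUB (hPLC : St_PLC) (hGAP : St_GAP) (hWDG : St_WDG) (hSUBH : St_SUBH) : St_SUB := by
  intro M n A A' ε hA hε
  obtain ⟨⟨f, hf, hfa⟩, -, hpos, -, -⟩ := hPLC M
  obtain ⟨C, κ, δ, H0, hC, hδ, hH0, hG⟩ := hGAP M n A A' ε hA hε
  choose N e B B' ψ he her hB hψ hW using fun k => hWDG n k (Plc M) A A' hA
  choose W Q0 hW0 hS using fun k => hSUBH (Plc M) f (N k) (B k) (B' k) (δ / 2)
    (n * (max κ 0 + 2) + 1) hf (hB k) (half_pos hδ)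
  set K : ℝ := n.factorial * C ^ n with hK
  have hK1 : 1 ≤ K := by
    have h1 : (1 : ℝ) ≤ n.factorial := by exact_mod_cast n.factorial_pos
    have h2 : (1 : ℝ) ≤ C ^ n := one_le_pow₀ hC
    nlinarith
  choose H1 hH1 using fun k => large ((K ^ (N k + 1)) ^ Fintype.card (Plc M) * C ^ (N k + 1)) (δ / 2) (half_pos hδ)
  obtain ⟨H2, hH2⟩ := Finite.exists_le fun k => max (Q0 k) (H1 k)
  obtain ⟨cA, hcA⟩ := Finite.exists_le fun t : Plc M × Fin n => ∑ j, |(A t.1 t.2 j : ℝ)|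
  refine ⟨univ.biUnion fun k => (W k).image (ψ k), max (max H0 H2) (max cA K), fun w hw => ?_, ?_⟩
  · obtain ⟨k, -, hk⟩ := mem_biUnion.1 hw
    obtain ⟨w', hw', rfl⟩ := mem_image.1 hk
    exact hψ k w' (hW0 k w' hw')
  intro x H hH hx hx0 hxε
  have hHa : H0 ≤ H := ((le_max_left _ _).trans (le_max_left _ _)).trans hH
  have hHb : H2 ≤ H := ((le_max_right _ _).trans (le_max_left _ _)).trans hH
  have hHc : cA ≤ H := ((le_max_left _ _).trans (le_max_right _ _)).trans hH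
  have hHd : K ≤ H := ((le_max_right _ _).trans (le_max_right _ _)).trans hH
  have hH1' : 1 ≤ H := by linarith
  have hHp : 0 < H := by linarith
  obtain ⟨y, μ, pm, k, hy, hμ, hμ0, hgap, hinf, hfin, hprod, -, a0, a, ha0, hxa, ha⟩ := hG x H hHa hx hx0 hxε
  obtain ⟨η, J, hη, hJ, hψy, hbd⟩ := hW k y hy
  obtain ⟨I0, hI0⟩ := (her k ((Ici k).map pm.toEmbedding)).2 (card_map _)
  obtain ⟨m, hm, hmp⟩ := prod_sub (e k) (he k) (her k) k
  set ρ : ℝ := H ^ (-δ) with hρ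
  have hρ0 : 0 < ρ := rpow_pos_of_pos hHp _
  have hρ1 : ρ ≤ 1 := rpow_le_one_of_one_le_of_nonpos hH1' (by linarith)
  set al : Plc M → Fin n → ℝ := fun v i => av M v ((A v).mulVec x i : ℤ) with hal
  have hal0 : ∀ v i, 0 < al v i := fun v i => hpos v _ (by exact_mod_cast hx0 v i)
  set ν : Plc M → Fin n → ℝ := fun v i => v.elim (μ (pm.symm i)) fun _ => 1 with hν
  set d : Plc M → Fin (N k + 1) → ℝ := fun v I => v.elim (if I = I0 then ρ else 1) fun _ => 1 with hd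
  have hν0 : ∀ v i, 0 < ν v i := by
    rintro (_ | q) i
    · exact (hμ0 _).1
    · exact one_pos
  have hd0 : ∀ v I, 0 < d v I ∧ d v I ≤ 1 := by
    rintro (_ | q) I
    · show 0 < (if I = I0 then ρ else 1) ∧ (if I = I0 then ρ else 1) ≤ 1
      split_ifs
      · exact ⟨hρ0, hρ1⟩
      · exact ⟨one_pos, le_rfl⟩
    · exact ⟨one_pos, le_rfl⟩
  have hκ1 : 1 ≤ H ^ max κ 0 := one_le_rpow hH1' (le_max_right _ _)
  have hν1 : ∀ v i, ν v i ≤ H ^ max κ 0 := by
    rintro (_ | q) i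
    · exact (hμ0 _).2.trans (rpow_le_rpow_of_exponent_le hH1' (le_max_left _ _))
    · exact hκ1
  have hal1 : ∀ v i, al v i ≤ H ^ (2 : ℝ) := fun v i => by
    have h1 : al v i ≤ |(((A v).mulVec x i : ℤ) : ℝ)| := by
      have := hf.1 v ((A v).mulVec x i)
      rwa [hfa] at this
    have h2 := mulVec_le (A v) x H hx i
    have h3 : (∑ j, |(A v i j : ℝ)|) * H ≤ H * H :=
      mul_le_mul_of_nonneg_right ((hcA (v, i)).trans hHc) hHp.le
    rw [rpow_two, sq]
    linarith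
  suffices hex : ∃ w ∈ W k, ∀ j, w ⬝ᵥ η j = 0 by
    obtain ⟨w, hw, hwη⟩ := hex
    refine ⟨ψ k w, mem_biUnion.2 ⟨k, mem_univ _, mem_image_of_mem _ hw⟩, ?_⟩
    have h1 : ψ k w ⬝ᵥ (a0 • x) = 0 := by
      rw [hxa, dotProduct_sum]
      refine sum_eq_zero fun j _ => ?_
      rcases lt_or_ge j k with h | h
      · rw [dotProduct_smul, hψy w hwη j h, smul_zero]
      · rw [ha j h, zero_smul, dotProduct_zero]
    rw [dotProduct_smul, smul_eq_mul] at h1
    exact (mul_eq_zero.1 h1).resolve_left ha0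
  refine hS k H (fun v I => K * (∏ i ∈ e k I, al v i * ν v i) * d v I) η
    (((le_max_left _ _).trans (hH2 k)).trans hHb) (fun v I => ⟨?_, ?_⟩) ?_ hη ?_
  · exact mul_pos (mul_pos (by linarith) (prod_pos fun i _ => mul_pos (hal0 v i) (hν0 v i))) (hd0 v I).1
  · have hb1 : 1 ≤ H ^ (max κ 0 + 2) := one_le_rpow hH1' (by have := le_max_right κ 0; linarith)
    have h1 : ∏ i ∈ e k I, al v i * ν v i ≤ (H ^ (max κ 0 + 2)) ^ n := by
      refine le_trans ?_ (pow_le_pow_right₀ hb1 (show (e k I).card ≤ n by simpa using card_le_univ (e k I)))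
      rw [← prod_const]
      refine prod_le_prod (fun i _ => (mul_pos (hal0 v i) (hν0 v i)).le) fun i _ => ?_
      rw [rpow_add hHp, mul_comm (H ^ max κ 0)]
      exact mul_le_mul (hal1 v i) (hν1 v i) (hν0 v i).le (by positivity)
    have h2 : 0 ≤ ∏ i ∈ e k I, al v i * ν v i := prod_nonneg fun i _ => (mul_pos (hal0 v i) (hν0 v i)).le
    rw [rpow_add hHp, rpow_one, mul_comm (n : ℝ), rpow_mul hHp.le, rpow_natCast]
    calc K * (∏ i ∈ e k I, al v i * ν v i) * d v I ≤ K * (∏ i ∈ e k I, al v i * ν v i) * 1 :=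
          mul_le_mul_of_nonneg_left (hd0 v I).2 (mul_nonneg (by linarith) h2)
      _ ≤ H * (H ^ (max κ 0 + 2)) ^ n := by
          rw [mul_one]
          exact mul_le_mul hHd h1 h2 hHp.le
      _ = _ := mul_comm _ _
  · have h1 : ∀ v, ∏ I, K * (∏ i ∈ e k I, al v i * ν v i) * d v I =
        K ^ (N k + 1) * ((∏ i, al v i) * ∏ i, ν v i) ^ m * ∏ I, d v I := fun v => by
      rw [prod_mul_distrib, prod_mul_distrib, prod_const, card_univ, Fintype.card_fin,
        hmp fun i => al v i * ν v i, prod_mul_distrib]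
    have h2 : ∏ v, ∏ I, d v I = ρ := by
      rw [Fintype.prod_option]
      simp [hd]
    have h3 : ∏ v, ∏ i, ν v i = ∏ j, μ j := by
      rw [Fintype.prod_option]
      simp only [hν, Option.elim_none, Option.elim_some, prod_const_one, mul_one]
      exact Equiv.prod_comp pm.symm μ
    have h4 : 0 ≤ (∏ v, ∏ i, al v i) * ∏ j, μ j :=
      mul_nonneg (prod_nonneg fun v _ => prod_nonneg fun i _ => (hal0 v i).le) (prod_nonneg fun j _ => (hμ0 j).1.le)
    have h5 : ((∏ v, ∏ i, al v i) * ∏ j, μ j) ^ m ≤ C ^ (N k + 1) :=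
      (pow_le_pow_left₀ h4 ((mul_comm _ _).le.trans hprod) m).trans (pow_le_pow_right₀ hC hm)
    have h6 := hH1 k H (((le_max_right _ _).trans (hH2 k)).trans hHb)
    rw [prod_congr rfl fun v _ => h1 v, prod_mul_distrib, prod_mul_distrib, prod_const, card_univ, prod_pow,
      prod_mul_distrib, h2, h3]
    have h7 : H ^ (-(δ / 2)) = H ^ (δ / 2) * ρ := by
      rw [hρ, ← rpow_add hHp]
      congr 1
      ring
    rw [h7]
    refine mul_le_mul_of_nonneg_right (le_trans ?_ h6) hρ0.le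
    exact mul_le_mul_of_nonneg_left h5 (by positivity)
  · intro v j I
    have hfac : (0 : ℝ) ≤ n.factorial := by positivity
    refine (hbd v (f v) j I (C ^ n * (∏ i ∈ e k I, al v i * ν v i) * d v I) fun φ hφ => ?_).trans
      (le_of_eq (by rw [hK]; ring))
    rcases v with _ | q
    · refine arch μ hμ (fun j => (hμ0 j).1) k ρ C hρ0.le hρ1 hC hgap pm (al none) (fun i => (hal0 _ i).le)
        (fun j i => f none ((A none).mulVec (y j) i)) (fun j i => (f none).nonneg _) (fun i j => ?_) (e k I) (J j)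
        (hJ j).1 (hJ j).2 φ hφ _ ?_
      · rw [hfa]
        exact hinf i j
      · show (if I = I0 then ρ else 1) = 1 ∨ ((if I = I0 then ρ else 1) = ρ ∧ _)
        split_ifs with h
        · exact Or.inr ⟨rfl, by rw [h, hI0]⟩
        · exact Or.inl rfl
    · have h1 : ∏ i ∈ e k I, f (some q) ((A (some q)).mulVec (y (φ i)) i) ≤ ∏ i ∈ e k I, al (some q) i * ν (some q) i := by
        refine prod_le_prod (fun i _ => (f _).nonneg _) fun i _ => ?_
        rw [hfa]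
        exact (hfin q i (φ i)).trans (mul_one _).ge
      have h2 : 0 ≤ ∏ i ∈ e k I, al (some q) i * ν (some q) i :=
        prod_nonneg fun i _ => (mul_pos (hal0 _ i) (hν0 _ i)).le
      have h3 : (1 : ℝ) ≤ C ^ n := one_le_pow₀ hC
      have h4 : d (some q) I = 1 := rfl
      rw [h4, mul_one]
      exact h1.trans (le_mul_of_one_le_left h2 h3)

end Pool.Agent.SU76
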