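import Pool.Agent.Lib.SU76.Defs

/-! Row SUBC: the hyperplane case of the subspace theorem for fixed exponents. -/

namespace Pool.Agent.SU76

open Finset Real

namespace SUBC

theorem chain (G : ℝ → Prop) (hG : ∀ q, ∃ Q, q ≤ Q ∧ G Q) (q0 ω : ℝ) (hq0 : 1 < q0) (hω : 0 < ω) :
    ∃ Q : ℕ → ℝ, (∀ h, G (Q h)) ∧ (∀ h, q0 ≤ Q h) ∧
      ∀ h h', h < h' → log (Q h) ≤ ω * log (Q h') := by
  choose g hg hgG using hG
  let Q : ℕ → ℝ := fun h => Nat.rec (g q0) (fun _ x => g (max x (exp (log x / ω)))) h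
  have hs : ∀ h, Q (h + 1) = g (max (Q h) (exp (log (Q h) / ω))) := fun _ => rfl
  have hm : Monotone Q := monotone_nat_of_le_succ fun h => by
    rw [hs]; exact (le_max_left _ _).trans (hg _)
  have h0 : ∀ h, q0 ≤ Q h := fun h => (hg q0).trans (hm (Nat.zero_le h))
  refine ⟨Q, fun h => ?_, h0, fun h h' hh => ?_⟩
  · cases h with
    | zero => exact hgG _
    | succ h => rw [hs]; exact hgG _
  · have h1 : exp (log (Q h) / ω) ≤ Q h' :=
      ((le_max_right _ _).trans (hg _)).trans ((hs h).symm.le.trans (hm (Nat.succ_le_of_lt hh)))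
    have h2 : log (Q h) / ω ≤ log (Q h') := by
      rw [le_log_iff_exp_le (by linarith [h0 h'])]; exact h1
    rw [div_le_iff₀ hω] at h2
    linarith

end SUBC

theorem aSUBC (hHT : St_HT) (hAUX : St_AUX) (hEST : St_EST) (hRED : St_RED) (hROTH : St_ROTH) :
    St_SUBC := by
  intro V _ f N A A' c hf hA hc
  obtain ⟨W, γ, Q0, hW, hγ, hht⟩ := hHT V f N A A' c hf hA hc
  by_contra hcon
  have hG : ∀ q : ℝ, ∃ Q, q ≤ Q ∧ ∃ (η : Fin N → Fin (N + 1) → ℤ) (w : Fin (N + 1) → ℤ)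
      (i1 i2 : Fin (N + 1)), LinearIndependent ℤ η ∧ (∀ j, Pi f A c Q (η j)) ∧ i1 ≠ i2 ∧
        w i1 ≠ 0 ∧ (∀ j, w ⬝ᵥ η j = 0) ∧ Q ^ γ ≤ ((w i2 : ℚ) / w i1).den := by
    intro q
    by_contra hq
    refine hcon ⟨W, max q Q0, hW, fun Q η hQ hli hpi => ?_⟩
    rcases hht Q η ((le_max_right _ _).trans hQ) hli hpi with h | ⟨w, i1, i2, h1, h2, h3, h4⟩
    · exact h
    · exact absurd ⟨Q, (le_max_left _ _).trans hQ, η, w, i1, i2, hli, hpi, h1, h2, h3, h4⟩ hq
  obtain ⟨θ, hθ, hest⟩ := hEST V f N A c hf hc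
  obtain ⟨m, c0, hm, hc0, haux⟩ := hAUX V N A A' θ hA hθ
  obtain ⟨QE, hest⟩ := hest m c0 hm
  obtain ⟨ω, hω, hroth⟩ := hROTH m θ hθ
  set L : ℝ := (c0 + 1) * m * (1 + θ) / (ω * γ) + 1 with hL
  have hL0 : 0 < L := by positivity
  have hq1 : 1 < max QE (exp L) := lt_max_of_lt_right (by simpa using hL0)
  obtain ⟨Q, hQG, hQ0, hQc⟩ := SUBC.chain _ hG (max QE (exp L)) (ω / (1 + θ)) hq1 (by positivity)
  choose η w i1 i2 hli hpi h12 hw1 hwη hden using hQG
  have hQpos : ∀ h, 0 < Q h := fun h => by linarith [hQ0 h]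
  have hlog : ∀ h, L ≤ log (Q h) := fun h => by
    rw [le_log_iff_exp_le (hQpos h)]; exact (le_max_right _ _).trans (hQ0 h)
  have hlp : ∀ h, 0 < log (Q h) := fun h => hL0.trans_le (hlog h)
  set R : ℝ := (∑ h : Fin m, log (Q h)) / θ + 1 with hR
  have hsum : 0 ≤ ∑ h : Fin m, log (Q h) := sum_nonneg fun h _ => (hlp h).le
  have hR0 : 0 < R := by positivity
  have hθR : ∀ h : Fin m, log (Q h) ≤ θ * R := fun h => by
    have h1 : log (Q h) ≤ ∑ h : Fin m, log (Q h) :=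
      single_le_sum (f := fun h : Fin m => log (Q h)) (fun h _ => (hlp h).le) (mem_univ h)
    have h2 : θ * R = (∑ h : Fin m, log (Q h)) + θ := by rw [hR]; field_simp
    linarith
  let r : Fin m → ℕ := fun h => ⌈R / log (Q h)⌉₊
  have hr1 : ∀ h, 1 ≤ r h := fun h => Nat.one_le_iff_ne_zero.mpr
    (Nat.ceil_pos.mpr (div_pos hR0 (hlp h))).ne'
  have hrl : ∀ h : Fin m, R ≤ r h * log (Q h) := fun h => by
    have := Nat.le_ceil (R / log (Q h))
    rwa [div_le_iff₀ (hlp h)] at this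
  have hru : ∀ h : Fin m, r h * log (Q h) ≤ (1 + θ) * R := fun h => by
    have h1 : (r h : ℝ) ≤ R / log (Q h) + 1 := (Nat.ceil_lt_add_one (div_pos hR0 (hlp h)).le).le
    have h2 := mul_le_mul_of_nonneg_right h1 (hlp h).le
    rw [add_mul, div_mul_cancel₀ _ (hlp h).ne'] at h2
    linarith [hθR h]
  obtain ⟨P, hP⟩ := haux r hr1
  have hvan := hest r (fun h => Q h) R P (fun h => η h) (fun h => i1 h) hr1
    (fun h => (le_max_left _ _).trans (hQ0 h)) (fun h => ⟨hrl h, hru h⟩) hP (fun h j => hpi h j)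
  obtain ⟨P', hP0, hdeg, hl1, hind⟩ := hRED m N r P (fun h => η h) (fun h => w h) (fun h => i1 h)
    (fun h => i2 h) θ hP.1 hP.2.1 (fun h => hli h) (fun h j => hwη h j) (fun h => h12 h)
    (fun h => hw1 h) hvan
  have hsr : 0 ≤ ∑ h, (r h : ℝ) := sum_nonneg fun h _ => Nat.cast_nonneg _
  have hsrL : (∑ h, (r h : ℝ)) * L ≤ m * ((1 + θ) * R) := by
    rw [sum_mul]
    refine (sum_le_sum fun (h : Fin m) _ =>
      (mul_le_mul_of_nonneg_left (hlog h) (Nat.cast_nonneg _)).trans (hru h)).trans ?_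
    simp
  obtain ⟨k, hk, hkθ⟩ := hroth r (fun h => -((w h (i2 h) : ℚ) / w h (i1 h))) P'
    (c0 * ∑ h, (r h : ℝ)) hP0 (mul_nonneg hc0 hsr) hr1 hdeg (hl1.trans hP.2.2.1)
    (fun h h' hh => by
      have h1 := hQc h h' hh
      have h2 : r h' * log (Q h') ≤ (1 + θ) * (r h * log (Q h)) :=
        (hru h').trans (mul_le_mul_of_nonneg_left (hrl h) (by linarith))
      have h3 : (1 + θ) * (r h * log (Q h)) ≤ ω * r h * log (Q h') := by
        have h4 : (1 + θ) * log (Q h) ≤ ω * log (Q h') := by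
          have := mul_le_mul_of_nonneg_left h1 (show 0 ≤ 1 + θ by linarith)
          rwa [← mul_assoc, mul_div_cancel₀ _ (show 1 + θ ≠ 0 by linarith)] at this
        nlinarith [mul_le_mul_of_nonneg_left h4 (Nat.cast_nonneg (α := ℝ) (r h))]
      exact le_of_mul_le_mul_right (h2.trans h3) (hlp h'))
    (fun h => by
      rw [Rat.neg_den]
      have h1 : γ * log (Q h) ≤ log (((w h (i2 h) : ℚ) / w h (i1 h)).den : ℝ) := by
        rw [← log_rpow (hQpos h)]
        exact log_le_log (rpow_pos_of_pos (hQpos h) _) (hden h)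
      have h2 : ω * γ * R ≤ ω * r h * log (((w h (i2 h) : ℚ) / w h (i1 h)).den : ℝ) := by
        calc ω * γ * R ≤ ω * γ * (r h * log (Q h)) :=
              mul_le_mul_of_nonneg_left (hrl h) (by positivity)
          _ = ω * r h * (γ * log (Q h)) := by ring
          _ ≤ _ := mul_le_mul_of_nonneg_left h1 (by positivity)
      refine le_trans ?_ h2
      have h3 : (c0 + 1) * m * (1 + θ) ≤ ω * γ * L := by
        have h7 : ω * γ * L = (c0 + 1) * m * (1 + θ) + ω * γ := by rw [hL]; field_simp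
        linarith [mul_pos hω hγ]
      have h4 : (c0 * ∑ h, (r h : ℝ) + ∑ h, (r h : ℝ)) * L ≤ ω * γ * R * L := by
        have h5 := mul_le_mul_of_nonneg_left hsrL (show 0 ≤ c0 + 1 by linarith)
        have h6 := mul_le_mul_of_nonneg_right h3 hR0.le
        nlinarith
      exact le_of_mul_le_mul_right h4 hL0)
  exact absurd (hind k hk) (not_lt.mpr hkθ)

end Pool.Agent.SU76
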