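import Pool.Agent.Lib.SU76.Defs

/-! Row SUBH: rounding of the exponents. -/

namespace Pool.Agent.SU76

open Finset Real

namespace SUBH

/-- Finitely many integer arrays dominate all admissible exponent arrays. -/
theorem grid (P : Type) [Fintype P] (δ κ : ℝ) (hδ : 0 < δ) : ∃ (s : ℝ) (G : Finset (P → ℤ)),
    ∀ b : P → ℝ, (∀ p, b p ≤ κ) → ∑ p, b p ≤ -δ →
      ∃ g ∈ G, (∀ p, b p ≤ s * g p) ∧ ∑ p, s * (g p : ℝ) < 0 := by
  classical
  set K : ℝ := (Fintype.card P : ℝ) with hK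
  have K0 : 0 ≤ K := Nat.cast_nonneg _
  have k0 := abs_nonneg κ
  have s0 : 0 < δ / (K + 1) := by positivity
  have T0 : 0 ≤ K * |κ| + δ := by positivity
  refine ⟨δ / (K + 1), Fintype.piFinset fun _ =>
    Icc ⌈-(K * |κ| + δ) / (δ / (K + 1))⌉ ⌈|κ| / (δ / (K + 1))⌉, fun b hb hs => ?_⟩
  have up : ∀ p, max (b p) (-(K * |κ| + δ)) ≤ |κ| := fun p =>
    max_le ((hb p).trans (le_abs_self κ)) (by linarith)
  have sm : ∑ p, max (b p) (-(K * |κ| + δ)) ≤ -δ := by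
    by_cases c : ∀ p, -(K * |κ| + δ) ≤ b p
    · exact (sum_congr rfl fun p _ => max_eq_left (c p)).trans_le hs
    · obtain ⟨p, hp⟩ := not_forall.1 c
      have h1 := single_le_sum (f := fun p => |κ| - max (b p) (-(K * |κ| + δ)))
        (fun p _ => sub_nonneg.2 (up p)) (mem_univ p)
      rw [sum_sub_distrib, sum_const, card_univ, nsmul_eq_mul, ← hK,
        max_eq_right (not_le.1 hp).le] at h1
      linarith
  refine ⟨fun p => ⌈max (b p) (-(K * |κ| + δ)) / (δ / (K + 1))⌉, Fintype.mem_piFinset.2 fun p =>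
    mem_Icc.2 ⟨Int.ceil_mono (div_le_div_of_nonneg_right (le_max_right _ _) s0.le),
      Int.ceil_mono (div_le_div_of_nonneg_right (up p) s0.le)⟩, fun p => ?_, ?_⟩
  · refine (le_max_left _ (-(K * |κ| + δ))).trans ?_
    exact (div_le_iff₀' s0).1 (Int.le_ceil _)
  · have h2 : ∀ p, δ / (K + 1) * (⌈max (b p) (-(K * |κ| + δ)) / (δ / (K + 1))⌉ : ℝ) ≤
        max (b p) (-(K * |κ| + δ)) + δ / (K + 1) := fun p => by
      have := mul_le_mul_of_nonneg_left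
        (Int.ceil_lt_add_one (max (b p) (-(K * |κ| + δ)) / (δ / (K + 1)))).le s0.le
      rwa [mul_add, mul_one, mul_div_cancel₀ _ s0.ne'] at this
    refine (sum_le_sum fun p _ => h2 p).trans_lt ?_
    rw [sum_add_distrib, sum_const, card_univ, nsmul_eq_mul, ← hK]
    have h3 : (K + 1) * (δ / (K + 1)) = δ := mul_div_cancel₀ _ (by positivity)
    linarith

end SUBH

theorem aSUBH (hC : St_SUBC) : St_SUBH := by
  classical
  intro V _ f N A A' δ κ hf hA hδ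
  obtain ⟨s, G, hG⟩ := SUBH.grid (V × Fin (N + 1)) δ κ hδ
  have H : ∀ g : V × Fin (N + 1) → ℤ, ∃ (W : Finset (Fin (N + 1) → ℤ)) (Q0 : ℝ),
      (∀ w ∈ W, w ≠ 0) ∧ (∑ p, s * (g p : ℝ) < 0 → ∀ (Q : ℝ) (η : Fin N → Fin (N + 1) → ℤ),
        Q0 ≤ Q → LinearIndependent ℤ η → (∀ j, Pi f A (fun v i => s * g (v, i)) Q (η j)) →
        ∃ w ∈ W, ∀ j, w ⬝ᵥ η j = 0) := fun g => by
    by_cases c : ∑ p, s * (g p : ℝ) < 0
    · obtain ⟨W, Q0, h1, h2⟩ := hC V f N A A' (fun v i => s * g (v, i)) hf hA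
        (by rwa [Fintype.sum_prod_type] at c)
      exact ⟨W, Q0, h1, fun _ => h2⟩
    · exact ⟨∅, 0, fun _ h => absurd h (notMem_empty _), fun h => absurd h c⟩
  choose W Q0 h1 h2 using H
  refine ⟨G.biUnion W, 2 + ∑ g ∈ G, |Q0 g|, fun w hw => ?_, fun Q β η hQ hβ hp hη hb => ?_⟩
  · obtain ⟨g, -, h⟩ := mem_biUnion.1 hw
    exact h1 g w h
  have s0 : 0 ≤ ∑ g ∈ G, |Q0 g| := sum_nonneg fun _ _ => abs_nonneg _
  have Q1 : 1 < Q := by linarith
  have Qp : 0 < Q := by linarith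
  obtain ⟨g, hg, g1, g2⟩ := hG (fun p => logb Q (β p.1 p.2))
    (fun p => (logb_le_iff_le_rpow Q1 (hβ _ _).1).2 (hβ _ _).2) (by
      rw [← Fintype.prod_prod_type' (f := β)] at hp
      rw [← logb_prod _ _ fun p _ => (hβ p.1 p.2).1.ne']
      exact (logb_le_iff_le_rpow Q1 (prod_pos fun p _ => (hβ p.1 p.2).1)).2 hp)
  obtain ⟨w, hw, k⟩ := h2 g g2 Q η (by
    have := single_le_sum (f := fun g => |Q0 g|) (fun _ _ => abs_nonneg _) hg
    linarith [le_abs_self (Q0 g)]) hη fun j v i =>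
      (hb v j i).trans ((logb_le_iff_le_rpow Q1 (hβ v i).1).1 (g1 (v, i)))
  exact ⟨w, mem_biUnion.2 ⟨g, hg, hw⟩, k⟩

end Pool.Agent.SU76
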