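import Pool.Agent.Lib.SU76.Defs

/-! Row TR: the truncation of the limit object. -/

namespace Pool.Agent.SU76

open Finset Real

namespace TR

theorem le_pow_card (e x J : ℕ) (he : e ≠ 0) (hx : ∀ l, l.Prime → l ∣ e → l ≤ x)
    (hJ : ∀ l, l.Prime → ¬ l ^ J ∣ e) : e ≤ (x ^ J) ^ e.primeFactors.card := by
  have h1 : e = ∏ l ∈ e.primeFactors, l ^ e.factorization l := by
    have := Nat.prod_factorization_pow_eq_self he
    rw [Finsupp.prod, Nat.support_factorization] at this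
    exact this.symm
  calc e = ∏ l ∈ e.primeFactors, l ^ e.factorization l := h1
    _ ≤ (x ^ J) ^ e.primeFactors.card := by
      apply Finset.prod_le_pow_card
      intro l hl
      have hp : l.Prime := Nat.prime_of_mem_primeFactors hl
      have hd : l ∣ e := Nat.dvd_of_mem_primeFactors hl
      have hv : e.factorization l ≤ J := by
        by_contra hc
        exact hJ l hp ((hp.pow_dvd_iff_le_factorization he).2 (by omega))
      calc l ^ e.factorization l ≤ l ^ J := Nat.pow_le_pow_right hp.pos hv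
        _ ≤ x ^ J := Nat.pow_le_pow_left (hx l hp hd) J

theorem tt_pos (R : Finset ℕ) : 0 < tt R := by
  unfold tt
  exact Finset.prod_pos fun p _ => by positivity

theorem tt_le (A B : Finset ℕ) : tt A ≤ tt B * tt (A \ B) := by
  have h1 : tt B * tt (A \ B) = tt (B ∪ A \ B) := by
    unfold tt
    rw [Finset.prod_union Finset.disjoint_sdiff]
  rw [h1]
  have hs : A ⊆ B ∪ A \ B := by
    intro p hp
    by_cases hB : p ∈ B
    · exact Finset.mem_union_left _ hB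
    · exact Finset.mem_union_right _ (Finset.mem_sdiff.2 ⟨hp, hB⟩)
  unfold tt
  rw [← Finset.prod_sdiff hs]
  have h2 : (1 : ℝ) ≤ ∏ p ∈ (B ∪ A \ B) \ A, (1 + 1 / (p : ℝ)) := by
    calc (1 : ℝ) = ∏ _p ∈ (B ∪ A \ B) \ A, (1 : ℝ) := by simp
      _ ≤ _ := Finset.prod_le_prod (fun _ _ => zero_le_one) fun p _ => by
        have : (0 : ℝ) ≤ 1 / (p : ℝ) := by positivity
        linarith
  have h3 : (0 : ℝ) ≤ ∏ p ∈ A, (1 + 1 / (p : ℝ)) := Finset.prod_nonneg fun p _ => by positivity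
  nlinarith

theorem pow_lin (c v : ℝ) (hc : 0 ≤ c) (hv : 0 ≤ v) (hv1 : v ≤ 1) (n : ℕ) :
    (1 + c * v) ^ n ≤ 1 + ((1 + c) ^ n - 1) * v := by
  induction n with
  | zero => simp
  | succ n ih =>
    have hA : 0 ≤ (1 + c) ^ n - 1 := by
      have : (1 : ℝ) ≤ (1 + c) ^ n := one_le_pow₀ (by linarith)
      linarith
    have hcv : 0 ≤ c * v := mul_nonneg hc hv
    have h1 : (1 + c * v) ^ (n + 1) ≤ (1 + ((1 + c) ^ n - 1) * v) * (1 + c * v) := by
      rw [pow_succ]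
      exact mul_le_mul_of_nonneg_right ih (by linarith)
    have h2 : ((1 + c) ^ n - 1) * c * v * v ≤ ((1 + c) ^ n - 1) * c * v * 1 :=
      mul_le_mul_of_nonneg_left hv1 (mul_nonneg (mul_nonneg hA hc) hv)
    rw [pow_succ (1 + c) n]
    nlinarith

theorem ex_tr {r : ℕ} (S : Lo r) (J : ℕ) (hJ : ∀ i l, l.Prime → l ^ J ∉ S.D i) (x : ℕ) (hx : 3 ≤ x) (i : Fin r) :
    ∃ d : ℕ, d ∈ S.D i ∧ (∀ l, l.Prime → l ∣ d → l ≤ x) ∧
      ∀ e ∈ S.D i, (∀ l, l.Prime → l ∣ e → l ≤ x) → e ∣ d := by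
  have hfin : {e : ℕ | e ∈ S.D i ∧ ∀ l, l.Prime → l ∣ e → l ≤ x}.Finite := by
    apply (Set.finite_le_nat ((x ^ J) ^ (x + 1))).subset
    rintro e ⟨heD, hex⟩
    have he : e ≠ 0 := (S.odd i e heD).pos.ne'
    have h1 := le_pow_card e x J he hex fun l hl hd => hJ i l hl (S.dvd i e heD _ hd)
    have h2 : e.primeFactors.card ≤ x + 1 := by
      have : e.primeFactors ⊆ range (x + 1) := fun l hl =>
        Finset.mem_range.2 (Nat.lt_succ_of_le
          (hex l (Nat.prime_of_mem_primeFactors hl) (Nat.dvd_of_mem_primeFactors hl)))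
      simpa using Finset.card_le_card this
    exact h1.trans (Nat.pow_le_pow_right (by positivity) h2)
  have hne : {e : ℕ | e ∈ S.D i ∧ ∀ l, l.Prime → l ∣ e → l ≤ x}.Nonempty :=
    ⟨1, S.one i, fun l hl hd => absurd (Nat.dvd_one.1 hd) hl.one_lt.ne'⟩
  obtain ⟨d, ⟨hdD, hdx⟩, hmax⟩ := Set.exists_max_image _ (fun e => e) hfin hne
  refine ⟨d, hdD, hdx, fun e heD hex => ?_⟩
  have he : 0 < e := (S.odd i e heD).pos
  have hd : 0 < d := (S.odd i d hdD).pos
  have hl : Nat.lcm e d ≤ d := by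
    apply hmax (Nat.lcm e d)
    refine ⟨S.lcm i e heD d hdD, fun l hl hld => ?_⟩
    have : l ∣ e * d := hld.trans (Nat.lcm_dvd_mul e d)
    rcases (Nat.Prime.dvd_mul hl).1 this with h | h
    · exact hex l hl h
    · exact hdx l hl h
  have h2 : d ≤ Nat.lcm e d := Nat.le_of_dvd (Nat.lcm_pos he hd) (Nat.dvd_lcm_right e d)
  have h3 : Nat.lcm e d = d := le_antisymm hl h2
  rw [← h3]
  exact Nat.dvd_lcm_left e d

theorem log_le {r : ℕ} (S : Lo r) (J K N : ℕ) (hJ : ∀ i l, l.Prime → l ^ J ∉ S.D i)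
    (hSP : ∀ (i : Fin r) (Y : ℝ) (T : Finset ℕ), 1 ≤ Y →
      (∀ l ∈ T, l.Prime ∧ l ∈ S.D i ∧ K * log Y ≤ l ∧ (l : ℝ) ≤ Y) → T.card ≤ N)
    (x : ℕ) (hx : 3 ≤ x) (i : Fin r) (d : ℕ) (hdD : d ∈ S.D i) (hdx : ∀ l, l.Prime → l ∣ d → l ≤ x) :
    log (d : ℝ) ≤ (J * (K + 1 + N) : ℝ) * log x ^ 2 := by
  have hd : 0 < d := (S.odd i d hdD).pos
  have hx3 : (3 : ℝ) ≤ x := by exact_mod_cast hx
  have hlx : 1 ≤ log (x : ℝ) := by
    rw [Real.le_log_iff_exp_le (by linarith)]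
    have := Real.exp_one_lt_d9
    linarith
  have h1 := le_pow_card d x J hd.ne' hdx fun l hl hdv => hJ i l hl (S.dvd i d hdD _ hdv)
  have h2 : log (d : ℝ) ≤ d.primeFactors.card * (J * log x) := by
    have h3 : (d : ℝ) ≤ ((x : ℝ) ^ J) ^ d.primeFactors.card := by exact_mod_cast h1
    have h4 := Real.log_le_log (by exact_mod_cast hd) h3
    rwa [Real.log_pow, Real.log_pow] at h4
  have hA : (d.primeFactors.filter fun l : ℕ => (K : ℝ) * log x ≤ l).card ≤ N := by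
    apply hSP i x _ (by linarith)
    intro l hl
    obtain ⟨hl1, hl2⟩ := Finset.mem_filter.1 hl
    have hp := Nat.prime_of_mem_primeFactors hl1
    have hdv := Nat.dvd_of_mem_primeFactors hl1
    exact ⟨hp, S.dvd i d hdD l hdv, hl2, by exact_mod_cast hdx l hp hdv⟩
  have hK0 : (0 : ℝ) ≤ K * log x := by positivity
  have hB : (d.primeFactors.filter fun l : ℕ => ¬ (K : ℝ) * log x ≤ l).card ≤ ⌊(K : ℝ) * log x⌋₊ + 1 := by
    have : (d.primeFactors.filter fun l : ℕ => ¬ (K : ℝ) * log x ≤ l) ⊆ range (⌊(K : ℝ) * log x⌋₊ + 1) := by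
      intro l hl
      obtain ⟨_, hl2⟩ := Finset.mem_filter.1 hl
      exact Finset.mem_range.2 (Nat.lt_succ_of_le (Nat.le_floor (not_le.1 hl2).le))
    simpa using Finset.card_le_card this
  have hc := Finset.card_filter_add_card_filter_not (s := d.primeFactors) (fun l : ℕ => (K : ℝ) * log x ≤ l)
  have hc2 : d.primeFactors.card ≤ N + (⌊(K : ℝ) * log x⌋₊ + 1) := by omega
  have hc3 : (d.primeFactors.card : ℝ) ≤ N + (K * log x + 1) := by
    have h5 : (d.primeFactors.card : ℝ) ≤ N + ((⌊(K : ℝ) * log x⌋₊ : ℝ) + 1) := by exact_mod_cast hc2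
    have h6 := Nat.floor_le hK0
    linarith
  have hN : (N : ℝ) * 1 ≤ N * log x := mul_le_mul_of_nonneg_left hlx (by positivity)
  have hc4 : (d.primeFactors.card : ℝ) ≤ (K + 1 + N) * log x := by nlinarith
  have hJ0 : (0 : ℝ) ≤ J * log x := by positivity
  calc log (d : ℝ) ≤ d.primeFactors.card * (J * log x) := h2
    _ ≤ ((K + 1 + N) * log x) * (J * log x) := mul_le_mul_of_nonneg_right hc4 hJ0
    _ = (J * (K + 1 + N) : ℝ) * log x ^ 2 := by ring

end TR

theorem aTR (hKIT : St_KIT) (hVAL : St_VAL) (hSP : St_SP) (hRK : St_RK) : St_TR := by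
  intro r S
  obtain ⟨J, hJ⟩ := hVAL r S
  obtain ⟨K, N, -, hS⟩ := hSP r S
  obtain ⟨C0, hC0, hR⟩ := hRK S.M
  have hP1 : (1 : ℝ) ≤ (1 + C0) ^ (r + 1) := one_le_pow₀ (by linarith)
  have hJK : (0 : ℝ) ≤ J * (K + 1 + N) := by positivity
  refine ⟨J * (K + 1 + N) + (1 + C0) ^ (r + 1), by linarith, fun x hx => ?_⟩
  choose d hd using TR.ex_tr S J hJ x hx
  refine ⟨d, hd, fun i => ?_, fun Z hZ hZl => ?_⟩
  · have h1 := TR.log_le S J K N hJ hS x hx i (d i) (hd i).1 (hd i).2.1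
    have h2 : (0 : ℝ) ≤ (1 + C0) ^ (r + 1) * log x ^ 2 := by positivity
    nlinarith
  · have hZ0 : 0 < Z := by linarith
    have hv0 : 0 < Z ^ (-(1 / 2 : ℝ)) := Real.rpow_pos_of_pos hZ0 _
    have hv1 : Z ^ (-(1 / 2 : ℝ)) ≤ 1 := Real.rpow_le_one_of_one_le_of_nonpos hZ (by norm_num)
    have huv : Z ^ (-(5 / 6 : ℝ)) ≤ Z ^ (-(1 / 2 : ℝ)) :=
      Real.rpow_le_rpow_of_exponent_le hZ (by norm_num)
    set v : ℝ := Z ^ (-(1 / 2 : ℝ)) with hv
    have hcv : 0 < C0 * v := mul_pos (by linarith) hv0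
    obtain ⟨e, heD, hka⟩ := S.ap (C0 * v) hcv
    have hstep : ∀ i, tt (S.P i (e i)) ≤ tt (S.P i (d i)) * (1 + C0 * v) := by
      intro i
      obtain ⟨k1, k2, -⟩ := hKIT r S i
      have hrest : tt (S.P i (e i) \ S.P i (d i)) ≤ 1 + C0 * Z ^ (-(5 / 6 : ℝ)) := by
        apply hR _ Z hZ
        intro p hp
        obtain ⟨hpe, hpd⟩ := Finset.mem_sdiff.1 hp
        obtain ⟨hdeD, hmod, hsm⟩ := k2 (e i) (heD i) p hpe
        obtain ⟨hpp, hpM, -⟩ := (k1 p (e i) (S.odd i _ (heD i))).1 hpe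
        refine ⟨?_, hsm⟩
        have hnd : ¬ S.de i p ∣ d i := fun h =>
          hpd ((k1 p (d i) (S.odd i _ (hd i).1)).2 ⟨hpp, hpM, h⟩)
        have hex : ∃ l, l.Prime ∧ l ∣ S.de i p ∧ x < l := by
          by_contra hc
          apply hnd
          apply (hd i).2.2 _ hdeD
          intro l hl hld
          by_contra hlx
          exact hc ⟨l, hl, hld, not_le.1 hlx⟩
        obtain ⟨l, hl, hld, hxl⟩ := hex
        have hZ1 : Z ≤ l := hZl i l hl (S.dvd i _ hdeD l hld) hxl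
        have hdv : S.de i p ∣ p - 1 := (Nat.modEq_iff_dvd' hpp.one_le).1 hmod.symm
        have h2 := hpp.two_le
        have hlp : l ≤ p - 1 := Nat.le_of_dvd (by omega) (hld.trans hdv)
        have hlp2 : (l : ℝ) ≤ p := by exact_mod_cast (by omega : l ≤ p)
        linarith
      have h3 : C0 * Z ^ (-(5 / 6 : ℝ)) ≤ C0 * v := mul_le_mul_of_nonneg_left huv (by linarith)
      exact (TR.tt_le _ (S.P i (d i))).trans
        (mul_le_mul_of_nonneg_left (by linarith) (TR.tt_pos _).le)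
    have hprod : ∏ i, tt (S.P i (e i)) ≤ (∏ i, tt (S.P i (d i))) * (1 + C0 * v) ^ r := by
      calc ∏ i, tt (S.P i (e i)) ≤ ∏ i, (tt (S.P i (d i)) * (1 + C0 * v)) :=
            Finset.prod_le_prod (fun i _ => (TR.tt_pos _).le) fun i _ => hstep i
        _ = (∏ i, tt (S.P i (d i))) * (1 + C0 * v) ^ r := by
            rw [Finset.prod_mul_distrib, Finset.prod_const, Finset.card_univ, Fintype.card_fin]
    have hpos : 0 < ∏ i, tt (S.P i (d i)) := Finset.prod_pos fun i _ => TR.tt_pos _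
    have hka2 : S.ka ≤ (1 + C0 * v) * ∏ i, tt (S.P i (e i)) := hka
    have hTh : S.Th d ≤ (1 + C0 * v) ^ (r + 1) := by
      unfold Lo.Th
      rw [div_le_iff₀ hpos]
      calc S.ka ≤ (1 + C0 * v) * ∏ i, tt (S.P i (e i)) := hka2
        _ ≤ (1 + C0 * v) * ((∏ i, tt (S.P i (d i))) * (1 + C0 * v) ^ r) :=
            mul_le_mul_of_nonneg_left hprod (by linarith)
        _ = (1 + C0 * v) ^ (r + 1) * ∏ i, tt (S.P i (d i)) := by ring
    have h4 := TR.pow_lin C0 v (by linarith) hv0.le hv1 (r + 1)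
    have h5 : 0 ≤ (J * (K + 1 + N) : ℝ) * v := mul_nonneg hJK hv0.le
    nlinarith

end Pool.Agent.SU76
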