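import Mathlib
import Pool.Agent.Lib.SU76.Defs

/-! Bounded prime powers in the divisor sets of the limit object. -/

namespace Pool.Agent.SU76

open Finset Real

namespace VAL

theorem pow_le_two_pow (c : ℕ) : ∃ y0 : ℕ, ∀ y : ℕ, y0 ≤ y → (y : ℝ) ^ c ≤ 2 ^ y := by
  have h := tendsto_pow_const_div_const_pow_of_one_lt c (r := (2 : ℝ)) (by norm_num)
  have h2 := h.eventually (gt_mem_nhds (show (0 : ℝ) < 1 by norm_num))
  obtain ⟨y0, hy⟩ := Filter.eventually_atTop.1 h2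
  refine ⟨y0, fun y hy0 => ?_⟩
  have h3 := hy y hy0
  have h4 : (0 : ℝ) < 2 ^ y := by positivity
  exact ((div_lt_one h4).1 h3).le

theorem tt_pos (R : Finset ℕ) : 0 < tt R :=
  Finset.prod_pos fun p _ => by positivity

theorem tt_sdiff {R T : Finset ℕ} (h : T ⊆ R) : tt (R \ T) * tt T = tt R :=
  Finset.prod_sdiff h

/-- The size of numerator and denominator. -/
theorem size {ka Q n y : ℝ} {e d : ℕ} (hka : 1 < ka) (hQ : 2 ≤ Q) (hn : n ≤ 2 * ka * Q ^ e)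
    (he : (e : ℝ) ≤ y ^ 2) (hd : (d : ℝ) ≤ y ^ 2) (hy : 2 * ka + 2 * Q ≤ y) :
    n * Q ^ d ≤ exp (y ^ 4) := by
  have hQ0 : 0 < Q := by linarith
  have h1 : Q ≤ exp Q := by have := add_one_le_exp Q; linarith
  have h2 : 2 * ka ≤ exp (2 * ka) := by have := add_one_le_exp (2 * ka); linarith
  have h3 : Q ^ (e + d) ≤ exp (((e + d : ℕ) : ℝ) * Q) := by
    rw [exp_nat_mul]; exact pow_le_pow_left₀ hQ0.le h1 _
  have hy1 : 1 ≤ y := by linarith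
  have hy2 : 1 ≤ y ^ 2 := one_le_pow₀ hy1
  have hy3 : y ≤ y ^ 2 := by nlinarith
  have h4 : 2 * ka + ((e + d : ℕ) : ℝ) * Q ≤ y ^ 4 := by
    push_cast
    have a1 : ((e : ℝ) + d) * Q ≤ 2 * y ^ 2 * Q := mul_le_mul_of_nonneg_right (by linarith) hQ0.le
    have a2 : 2 * ka ≤ 2 * ka * y ^ 2 := le_mul_of_one_le_right (by linarith) hy2
    have a3 : (2 * ka + 2 * Q) * y ^ 2 ≤ y ^ 2 * y ^ 2 :=
      mul_le_mul_of_nonneg_right (by linarith) (by positivity)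
    nlinarith
  calc n * Q ^ d ≤ 2 * ka * Q ^ e * Q ^ d := mul_le_mul_of_nonneg_right hn (by positivity)
    _ = 2 * ka * Q ^ (e + d) := by ring
    _ ≤ exp (2 * ka) * exp (((e + d : ℕ) : ℝ) * Q) :=
        mul_le_mul h2 h3 (by positivity) (exp_pos _).le
    _ = exp (2 * ka + ((e + d : ℕ) : ℝ) * Q) := (exp_add _ _).symm
    _ ≤ exp (y ^ 4) := exp_le_exp.2 h4

theorem ratio {s t : ℝ} (hs : 0 ≤ s) (hst : s ≤ t) : |(1 + s) / (1 + t) - 1| ≤ t := by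
  have ht : 0 ≤ t := hs.trans hst
  have h1 : 0 < 1 + t := by linarith
  have h2 : (1 + s) / (1 + t) ≤ 1 := (div_le_one h1).2 (by linarith)
  have h3 : 1 - t ≤ (1 + s) / (1 + t) := (le_div_iff₀ h1).2 (by nlinarith)
  rw [abs_le]; constructor <;> linarith

/-- One block contains a small prime. -/
theorem block (hKIT : St_KIT) {r : ℕ} (S : Lo r) (i : Fin r) {c1 c2 : ℕ}
    (hK : ∀ (y E : ℝ) (R : Finset ℕ) (a b : ℕ), 2 ≤ y →
      a ∈ S.M.smoothNumbers → b ∈ S.M.smoothNumbers → (a : ℝ) ≤ exp (y ^ 4) → (b : ℝ) ≤ exp (y ^ 4) →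
      a ≠ b → (∀ p ∈ R, 1 ≤ p ∧ p + 1 ∈ S.M.smoothNumbers) → (a : ℝ) / b = tt R * E →
      |E - 1| ≤ 1 / y ^ c1 → ∃ p ∈ R, (p : ℝ) ≤ y ^ c2)
    {y d e : ℕ} (he : e ∈ S.D i) (hde : d ∣ e) (hne : d ≠ e) (hyd : y ≤ d) (hey : e ≤ y ^ 2)
    (hy : 2 * S.ka + 2 * (S.Q i : ℝ) ≤ y) (hc : (y : ℝ) ^ c1 ≤ 2 ^ y) :
    ∃ p ∈ S.P i e, p ∉ S.P i d ∧ p ≤ y ^ c2 := by
  obtain ⟨k1, k2, k3, k4, k5, k6, k7⟩ := hKIT r S i
  have hd : d ∈ S.D i := S.dvd i e he d hde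
  have ho := S.odd i e he
  have hod := S.odd i d hd
  have hdle : d ≤ e := Nat.le_of_dvd ho.pos hde
  obtain ⟨n1, s1, b1, w1⟩ := k3 e he
  obtain ⟨n0, s0, b0, w0⟩ := k3 d hd
  have hQ : (2 : ℝ) ≤ S.Q i := by exact_mod_cast k6
  have hQ0 : (0 : ℝ) < S.Q i := by linarith
  have hy2 : (2 : ℝ) ≤ y := by linarith
  have he2 : (e : ℝ) ≤ (y : ℝ) ^ 2 := by exact_mod_cast hey
  have hd2 : (d : ℝ) ≤ (y : ℝ) ^ 2 := by exact_mod_cast hdle.trans hey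
  have hsub : S.P i d ⊆ S.P i e := fun p hp => by
    obtain ⟨h1, h2, h3⟩ := (k1 p d hod).1 hp
    exact (k1 p e ho).2 ⟨h1, h2, h3.trans hde⟩
  have hn0 : (0 : ℝ) < n0 := by
    have : n0 ≠ 0 := s0.1
    positivity
  have hz : ∀ m : ℕ, 0 ≤ S.z i m := fun m => by unfold Lo.z; positivity
  have hzle : S.z i e ≤ S.z i d :=
    one_div_le_one_div_of_le (by positivity) (pow_le_pow_right₀ (by linarith) hdle)
  have hzd : S.z i d ≤ 1 / (y : ℝ) ^ c1 := by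
    refine one_div_le_one_div_of_le (by positivity) (hc.trans ?_)
    exact (pow_le_pow_left₀ (by norm_num) hQ y).trans (pow_le_pow_right₀ (by linarith) hyd)
  have hquot : ((n1 * S.Q i ^ d : ℕ) : ℝ) / ((n0 * S.Q i ^ e : ℕ) : ℝ) = S.w i e / S.w i d := by
    rw [w1, w0]; push_cast; field_simp
  have hw0 : S.w i d ≠ 0 := by rw [w0]; positivity
  have hab : n1 * S.Q i ^ d ≠ n0 * S.Q i ^ e := by
    intro h
    have hb : ((n0 * S.Q i ^ e : ℕ) : ℝ) ≠ 0 := by push_cast; positivity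
    rw [h, div_self hb] at hquot
    exact k4 e he d hde hne ((div_eq_one_iff_eq hw0).1 hquot.symm)
  have hE : S.w i e / S.w i d = tt (S.P i e \ S.P i d) * ((1 + S.z i e) / (1 + S.z i d)) := by
    have t0 := tt_pos (S.P i d)
    have z0 := hz d
    unfold Lo.w
    rw [← tt_sdiff hsub]
    field_simp
  obtain ⟨p, hp, hpy⟩ := hK y ((1 + S.z i e) / (1 + S.z i d)) (S.P i e \ S.P i d)
    (n1 * S.Q i ^ d) (n0 * S.Q i ^ e) hy2 (Nat.mul_mem_smoothNumbers s1 (k5 d))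
    (Nat.mul_mem_smoothNumbers s0 (k5 e))
    (by push_cast; exact size k7 hQ b1 he2 hd2 hy) (by push_cast; exact size k7 hQ b0 hd2 he2 hy) hab
    (fun p hp => by
      have hp' := (Finset.mem_sdiff.1 hp).1
      exact ⟨((k1 p e ho).1 hp').1.one_le, (k2 e he p hp').2.2⟩)
    (hquot.trans hE) ((ratio (hz e) hzle).trans hzd)
  exact ⟨p, (Finset.mem_sdiff.1 hp).1, (Finset.mem_sdiff.1 hp).2, by exact_mod_cast hpy⟩

theorem one (hKIT : St_KIT) (hKEY : St_KEY) (hCNT : St_CNT) {r : ℕ} (S : Lo r) (i : Fin r) :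
    ∃ J : ℕ, ∀ l : ℕ, l.Prime → l ^ J ∉ S.D i := by
  obtain ⟨c1, c2, hK⟩ := hKEY S.M
  obtain ⟨N, hN⟩ := hCNT S.M c2
  obtain ⟨y0, hy0⟩ := pow_le_two_pow c1
  obtain ⟨y1, hy1⟩ := exists_nat_ge (2 * S.ka + 2 * (S.Q i : ℝ))
  obtain ⟨k1, k2, -⟩ := hKIT r S i
  obtain ⟨J, hJ⟩ : ∃ J : ℕ, J = N + y0 + y1 + 3 := ⟨_, rfl⟩
  refine ⟨2 * J, fun l hl hD => ?_⟩
  have hJy : J < l ^ J := Nat.lt_pow_self hl.one_lt
  have hmem : ∀ k, k ≤ 2 * J → l ^ k ∈ S.D i := fun k hk => S.dvd i _ hD _ (pow_dvd_pow l hk)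
  have hall : ∀ k : ℕ, ∃ p : ℕ, k ∈ Ico J (2 * J) →
      S.de i p = l ^ (k + 1) ∧ p + 1 ∈ S.M.smoothNumbers ∧ p ≤ (l ^ J) ^ c2 ∧ p ≡ 1 [MOD l ^ J] := by
    intro k
    by_cases hk : k ∈ Ico J (2 * J)
    · obtain ⟨hk1, hk2⟩ := Finset.mem_Ico.1 hk
      have he := hmem (k + 1) (by omega)
      have hd := hmem k (by omega)
      obtain ⟨p, hp, hnp, hpy⟩ := block hKIT S i hK (y := l ^ J) (d := l ^ k) he
        (pow_dvd_pow l (Nat.le_succ k)) (Nat.pow_lt_pow_right hl.one_lt (Nat.lt_succ_self k)).ne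
        (Nat.pow_le_pow_right hl.pos hk1)
        (by rw [← pow_mul]; exact Nat.pow_le_pow_right hl.pos (by omega))
        (hy1.trans (by exact_mod_cast (by omega : y1 ≤ l ^ J))) (hy0 _ (by omega))
      obtain ⟨h1, h2, h3⟩ := (k1 p _ (S.odd i _ he)).1 hp
      have h4 : ¬ S.de i p ∣ l ^ k := fun h => hnp ((k1 p _ (S.odd i _ hd)).2 ⟨h1, h2, h⟩)
      have h5 : S.de i p = l ^ (k + 1) := Nat.eq_prime_pow_of_dvd_least_prime_pow hl h4 h3
      obtain ⟨-, h6, h7⟩ := k2 _ he p hp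
      refine ⟨p, fun _ => ⟨h5, h7, hpy, ?_⟩⟩
      rw [h5] at h6
      exact h6.of_dvd (pow_dvd_pow l (by omega))
    · exact ⟨0, fun h => absurd h hk⟩
  choose f hf using hall
  have hinj : Set.InjOn f (Ico J (2 * J) : Finset ℕ) := fun a ha b hb hab => by
    have h1 := (hf a ha).1
    have h2 := (hf b hb).1
    rw [hab, h2] at h1
    have := Nat.pow_right_injective hl.two_le h1
    omega
  have hcard := hN (l ^ J) ((Ico J (2 * J)).image f) (S.odd i _ (hmem J (by omega))) (by omega)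
    (fun p hp => by
      obtain ⟨k, hk, rfl⟩ := Finset.mem_image.1 hp
      exact (hf k hk).2)
  rw [Finset.card_image_of_injOn hinj, Nat.card_Ico] at hcard
  omega

end VAL

theorem aVAL (hKIT : St_KIT) (hKEY : St_KEY) (hCNT : St_CNT) : St_VAL := by
  intro r S
  choose J hJ using VAL.one hKIT hKEY hCNT S
  refine ⟨Finset.univ.sup J, fun i l hl hD => hJ i l hl ?_⟩
  exact S.dvd i _ hD _ (pow_dvd_pow l (Finset.le_sup (Finset.mem_univ i)))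

end Pool.Agent.SU76
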