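import Mathlib

namespace Pool.Agent.SU76.W97

open Matrix Finset

abbrev I (N p : ℕ) : Type := Set.powersetCard (Fin N) p

noncomputable def en {N p : ℕ} (s : I N p) : Fin p ↪o Fin N :=
  Set.powersetCard.ofFinEmbEquiv.symm s

theorem mem_iff {N p : ℕ} (s : I N p) (i : Fin N) : i ∈ s.1 ↔ ∃ l, en s l = i :=
  (Set.powersetCard.mem_range_ofFinEmbEquiv_symm_iff_mem s i).symm

theorem en_mem {N p : ℕ} (s : I N p) (l : Fin p) : en s l ∈ s.1 :=
  (mem_iff s _).2 ⟨l, rfl⟩

theorem prod_en {N p : ℕ} {M : Type*} [CommMonoid M] (s : I N p) (b : Fin N → M) :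
    ∏ l, b (en s l) = ∏ i ∈ s.1, b i := by
  refine Finset.prod_bij (fun l _ => en s l) (fun l _ => en_mem s l)
    (fun a _ c _ h => (en s).injective h) (fun i hi => ?_) (fun _ _ => rfl)
  obtain ⟨l, hl⟩ := (mem_iff s i).1 hi
  exact ⟨l, Finset.mem_univ _, hl⟩

/-- The compound matrix of `p`-minors. -/
noncomputable def cmp {R : Type*} [CommRing R] {N : ℕ} (p : ℕ) (M : Matrix (Fin N) (Fin N) R) :
    Matrix (I N p) (I N p) R :=
  Matrix.of fun t s => (M.submatrix (en t) (en s)).det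

theorem cmp_apply {R : Type*} [CommRing R] {N : ℕ} (p : ℕ) (M : Matrix (Fin N) (Fin N) R)
    (t s : I N p) : cmp p M t s = (M.submatrix (en t) (en s)).det := rfl

theorem cmp_eq {R : Type*} [CommRing R] {N : ℕ} (p : ℕ) (M : Matrix (Fin N) (Fin N) R) :
    cmp p M = LinearMap.toMatrix ((Pi.basisFun R (Fin N)).exteriorPower p)
      ((Pi.basisFun R (Fin N)).exteriorPower p) (exteriorPower.map p (Matrix.toLin' M)) := by
  ext t s
  rw [LinearMap.toMatrix_apply, exteriorPower.basis_apply, exteriorPower.ιMulti_family,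
    exteriorPower.map_apply_ιMulti, exteriorPower.basis_repr_apply,
    exteriorPower.ιMultiDual_apply_ιMulti, cmp_apply, ← Matrix.det_transpose]
  congr 1
  ext i j
  simp [en]

theorem cmp_mul {R : Type*} [CommRing R] {N : ℕ} (p : ℕ) (M M' : Matrix (Fin N) (Fin N) R) :
    cmp p (M * M') = cmp p M * cmp p M' := by
  rw [cmp_eq, cmp_eq, cmp_eq, Matrix.toLin'_mul, exteriorPower.map_comp,
    LinearMap.toMatrix_comp _ ((Pi.basisFun R (Fin N)).exteriorPower p)]

theorem cmp_one {R : Type*} [CommRing R] {N : ℕ} (p : ℕ) :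
    cmp p (1 : Matrix (Fin N) (Fin N) R) = 1 := by
  rw [cmp_eq, Matrix.toLin'_one, exteriorPower.map_id, LinearMap.toMatrix_id]

theorem cmp_smul {R : Type*} [CommRing R] {N : ℕ} (p : ℕ) (d : R) (M : Matrix (Fin N) (Fin N) R) :
    cmp p (d • M) = d ^ p • cmp p M := by
  ext t s
  rw [Matrix.smul_apply, cmp_apply, cmp_apply, Matrix.submatrix_smul, Pi.smul_apply, Pi.smul_apply,
    Matrix.det_smul, Fintype.card_fin, smul_eq_mul]

theorem cmp_unit {R : Type*} [CommRing R] {N : ℕ} (p : ℕ) (M : Matrix (Fin N) (Fin N) R)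
    (h : IsUnit M.det) : IsUnit (cmp p M).det := by
  have h1 : cmp p M * cmp p M⁻¹ = 1 := by rw [← cmp_mul, Matrix.mul_nonsing_inv _ h, cmp_one]
  exact Matrix.isUnit_det_of_right_inverse h1

theorem cmp_det_ne {N : ℕ} (p : ℕ) (M : Matrix (Fin N) (Fin N) ℤ) (h : M.det ≠ 0) :
    (cmp p M).det ≠ 0 := by
  have h1 : cmp p M * cmp p M.adjugate = M.det ^ p • (1 : Matrix (I N p) (I N p) ℤ) := by
    rw [← cmp_mul, Matrix.mul_adjugate, cmp_smul, cmp_one]
  have h2 := congrArg Matrix.det h1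
  rw [Matrix.det_mul, Matrix.det_smul, Matrix.det_one, mul_one] at h2
  intro h0
  rw [h0, zero_mul] at h2
  exact (pow_ne_zero _ (pow_ne_zero _ h)) h2.symm

theorem det_le {R : Type*} [CommRing R] [Nontrivial R] {p : ℕ} (f : AbsoluteValue R ℝ)
    (M : Matrix (Fin p) (Fin p) R) (B : ℝ)
    (h : ∀ σ : Equiv.Perm (Fin p), ∏ i, f (M (σ i) i) ≤ B) : f M.det ≤ p.factorial * B := by
  rw [Matrix.det_apply']
  refine (f.sum_le _ _).trans ?_
  have : ∀ σ ∈ (Finset.univ : Finset (Equiv.Perm (Fin p))),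
      f (((Equiv.Perm.sign σ : ℤ) : R) * ∏ i, M (σ i) i) ≤ B := by
    intro σ _
    rw [f.map_mul, map_prod]
    have h1 : f (((Equiv.Perm.sign σ : ℤ) : R)) = 1 := by
      rcases Int.units_eq_one_or (Equiv.Perm.sign σ) with h | h <;> simp [h]
    rw [h1, one_mul]
    exact h σ
  refine (Finset.sum_le_card_nsmul _ _ B this).trans ?_
  simp [Fintype.card_perm]

theorem cmp_le {R : Type*} [CommRing R] [Nontrivial R] {N p : ℕ} (f : AbsoluteValue R ℝ)
    (M : Matrix (Fin N) (Fin N) R) (b : Fin N → ℝ) (h : ∀ i j, f (M i j) ≤ b i) (t s : I N p) :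
    f (cmp p M t s) ≤ p.factorial * ∏ i ∈ t.1, b i := by
  refine det_le f _ _ fun σ => ?_
  rw [← prod_en, ← Equiv.prod_comp σ (fun l => b (en t l))]
  exact Finset.prod_le_prod (fun _ _ => f.nonneg _) fun l _ => h _ _

theorem cmp_le_gap {R : Type*} [CommRing R] [Nontrivial R] {N p : ℕ} (f : AbsoluteValue R ℝ)
    (M : Matrix (Fin N) (Fin N) R) (b : Fin N → ℝ) (h : ∀ i j, f (M i j) ≤ b i) (t s : I N p)
    (g : ℝ) (j0 : Fin N) (hj : j0 ∈ s.1) (hg : ∀ i ∈ t.1, f (M i j0) ≤ g * b i) :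
    f (cmp p M t s) ≤ p.factorial * (g * ∏ i ∈ t.1, b i) := by
  refine det_le f _ _ fun σ => ?_
  obtain ⟨l0, hl⟩ := (mem_iff s j0).1 hj
  rw [← prod_en, ← Equiv.prod_comp σ (fun l => b (en t l)),
    ← Finset.mul_prod_erase _ _ (Finset.mem_univ l0),
    ← Finset.mul_prod_erase _ (fun l => b (en t (σ l))) (Finset.mem_univ l0), ← mul_assoc]
  have h1 : f (M.submatrix (en t) (en s) (σ l0) l0) ≤ g * b (en t (σ l0)) := by
    rw [Matrix.submatrix_apply, hl]; exact hg _ (en_mem _ _)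
  refine mul_le_mul h1 (Finset.prod_le_prod (fun _ _ => f.nonneg _) fun l _ => h _ _)
    (Finset.prod_nonneg fun _ _ => f.nonneg _) ((f.nonneg _).trans h1)

theorem prod_prod {N p : ℕ} (hp : 1 ≤ p) {M : Type*} [CommMonoid M] (b : Fin N → M) :
    ∏ t : I N p, ∏ i ∈ t.1, b i = (∏ i, b i) ^ (N - 1).choose (p - 1) := by
  classical
  have h1 : ∏ t : I N p, ∏ i ∈ t.1, b i
      = ∏ t ∈ (Finset.univ : Finset (Fin N)).powersetCard p, ∏ i ∈ t, b i := by
    symm
    apply Finset.prod_subtype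
    intro t
    simp [Finset.mem_powersetCard]
  have h2 : ∀ t ∈ (Finset.univ : Finset (Fin N)).powersetCard p,
      ∏ i ∈ t, b i = ∏ i, if i ∈ t then b i else 1 := by
    intro t _
    rw [← Finset.prod_filter]
    simp
  rw [h1, Finset.prod_congr rfl h2, Finset.prod_comm, ← Finset.prod_pow]
  refine Finset.prod_congr rfl fun i _ => ?_
  rw [← Finset.prod_filter, Finset.prod_const]
  congr 1
  have := Finset.card_filter_powersetCard_subset ({i} : Finset (Fin N)) Finset.univ p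
    (Finset.subset_univ _) (by simpa using hp)
  simpa using this

theorem exists_not_mem {N p : ℕ} {s s0 : I N p} (h : s ≠ s0) : ∃ j ∈ s.1, j ∉ s0.1 :=
  (Set.powersetCard.exists_mem_notMem_iff_ne s s0).1 h

theorem recover {N p : ℕ} (hp : 1 ≤ p) (w : I N p → ℤ) (hw : w ≠ 0) :
    ∃ c : Fin N → ℤ, c ≠ 0 ∧ ∀ (Y : Matrix (Fin N) (Fin N) ℤ) (s0 : I N p), Y.det ≠ 0 →
      (∀ s, s ≠ s0 → ∑ t, w t * cmp p Y t s = 0) →
      ∀ j, j ∉ s0.1 → ∑ i, c i * Y i j = 0 := by
  classical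
  obtain ⟨t0, ht0⟩ := Function.ne_iff.1 hw
  let l0 : Fin p := ⟨0, hp⟩
  let Z : (Fin N → ℤ) → Matrix (Fin N) (Fin N) ℤ := fun x => (1 : Matrix _ _ ℤ).updateCol (en t0 l0) x
  let L : (Fin N → ℤ) →ₗ[ℤ] ℤ := ∑ t : I N p, w t • ((LinearMap.proj l0) ∘ₗ
    (Matrix.cramer ((1 : Matrix (Fin N) (Fin N) ℤ).submatrix (en t) (en t0))) ∘ₗ
      LinearMap.funLeft ℤ ℤ (en t))
  have hL : ∀ x, L x = ∑ t, w t * cmp p (Z x) t t0 := by
    intro x
    simp only [L, LinearMap.sum_apply, LinearMap.smul_apply, LinearMap.comp_apply,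
      LinearMap.proj_apply, smul_eq_mul, Matrix.cramer_apply, cmp_apply]
    refine Finset.sum_congr rfl fun t _ => ?_
    congr 2
    ext a b
    simp only [Matrix.updateCol_apply, Matrix.submatrix_apply, Z, LinearMap.funLeft_apply,
      (en t0).injective.eq_iff]
  refine ⟨fun i => L (Pi.single i 1), ?_, ?_⟩
  · intro h0
    have h1 := congrFun h0 (en t0 l0)
    have h2 : Z (Pi.single (en t0 l0) 1) = 1 := by
      ext a b
      simp only [Z, Matrix.updateCol_apply, Matrix.one_apply, Pi.single_apply]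
      split_ifs <;> simp_all
    simp only [hL, h2, cmp_one, Pi.zero_apply, Matrix.one_apply, mul_ite, mul_one, mul_zero,
      Finset.sum_ite_eq', Finset.mem_univ, if_true] at h1
    exact ht0 h1
  · intro Y s0 hY hk j hj
    have h1 : ∑ i, L (Pi.single i 1) * Y i j = L (fun i => Y i j) := by
      rw [LinearMap.pi_apply_eq_sum_univ L (fun i => Y i j)]
      refine Finset.sum_congr rfl fun i _ => ?_
      rw [smul_eq_mul, mul_comm]
      congr 2
      ext a
      simp [Pi.single_apply, eq_comm]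
    rw [h1, hL]
    set U := Y.adjugate * Z (fun i => Y i j) with hU
    have h2 : Y * U = Y.det • Z (fun i => Y i j) := by
      rw [hU, ← Matrix.mul_assoc, Matrix.mul_adjugate, Matrix.smul_mul, Matrix.one_mul]
    have h3 : cmp p U s0 t0 = 0 := by
      rw [cmp_apply]
      refine Matrix.det_eq_zero_of_column_eq_zero l0 fun a => ?_
      have h4 : U (en s0 a) (en t0 l0) = (Y.adjugate * Y) (en s0 a) j := by
        simp [hU, Matrix.mul_apply, Z]
      have h5 : en s0 a ≠ j := fun h => hj (h ▸ en_mem s0 a)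
      rw [Matrix.submatrix_apply, h4, Matrix.adjugate_mul]
      simp [h5]
    have h6 : Y.det ^ p * ∑ t, w t * cmp p (Z fun i => Y i j) t t0
        = ∑ s, (∑ t, w t * cmp p Y t s) * cmp p U s t0 := by
      have h7 : ∀ t, Y.det ^ p * cmp p (Z fun i => Y i j) t t0 = ∑ s, cmp p Y t s * cmp p U s t0 := by
        intro t
        rw [← Matrix.mul_apply, ← cmp_mul, h2, cmp_smul, Matrix.smul_apply, smul_eq_mul]
      simp only [Finset.mul_sum, Finset.sum_mul]
      rw [Finset.sum_comm]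
      refine Finset.sum_congr rfl fun t _ => ?_
      rw [mul_left_comm, h7, Finset.mul_sum]
      exact Finset.sum_congr rfl fun s _ => by ring
    have h8 : ∑ s, (∑ t, w t * cmp p Y t s) * cmp p U s t0 = 0 := by
      refine Finset.sum_eq_zero fun s _ => ?_
      by_cases hs : s = s0
      · rw [hs, h3, mul_zero]
      · rw [hk s hs, zero_mul]
    rw [h8] at h6
    exact (mul_eq_zero.1 h6).resolve_left (pow_ne_zero _ hY)

end Pool.Agent.SU76.W97
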