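import Pool.Agent.Lib.SU76.Defs
import Pool.Agent.Lib.SU76.Wedge97

namespace Pool.Agent.SU76

open Finset Matrix W97

namespace WDG

theorem det_ne_of_li {n : ℕ} (y : Fin n → Fin n → ℤ) (hy : LinearIndependent ℤ y) :
    (Matrix.of y)ᵀ.det ≠ 0 := by
  rw [Matrix.det_transpose]
  intro h
  obtain ⟨v, hv, h0⟩ := Matrix.exists_vecMul_eq_zero_iff.2 h
  refine hv (funext fun i => Fintype.linearIndependent_iff.1 hy v ?_ i)
  ext j
  have := congrFun h0 j
  simpa [Matrix.vecMul, dotProduct, Finset.sum_apply] using this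

theorem li_of_det_ne {ι : Type} [Fintype ι] [DecidableEq ι] (M : Matrix ι ι ℤ) (h : M.det ≠ 0) :
    LinearIndependent ℤ (fun j i => M i j) := by
  refine Fintype.linearIndependent_iff.2 fun g hg => ?_
  by_contra hne
  refine h (Matrix.exists_mulVec_eq_zero_iff.1 ⟨g, fun h0 => hne fun i => by simp [h0], ?_⟩)
  ext i
  have := congrFun hg i
  simpa [Matrix.mulVec, dotProduct, Finset.sum_apply, mul_comm] using this

theorem bound {n p : ℕ} (hpn : p ≤ n) (M : Matrix (Fin n) (Fin n) ℤ) (g : AbsoluteValue ℤ ℝ)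
    (t s : I n p) (b : ℝ)
    (h : ∀ φ : Fin n → Fin n, Set.BijOn φ (t.1 : Set (Fin n)) (s.1 : Set (Fin n)) →
      ∏ i ∈ t.1, g (M i (φ i)) ≤ b) : g (cmp p M t s) ≤ n.factorial * b := by
  classical
  have key : ∀ σ : Equiv.Perm (Fin p), ∏ l, g (M.submatrix (en t) (en s) (σ l) l) ≤ b := by
    intro σ
    let φ : Fin n → Fin n := Function.extend (en t) (fun l => en s (σ.symm l)) id
    have hφ : ∀ l, φ (en t l) = en s (σ.symm l) := fun l => (en t).injective.extend_apply _ _ l
    have hb : Set.BijOn φ (t.1 : Set (Fin n)) (s.1 : Set (Fin n)) := by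
      refine ⟨fun i hi => ?_, fun i hi i' hi' hh => ?_, fun j hj => ?_⟩
      · obtain ⟨l, rfl⟩ := (mem_iff t i).1 hi
        rw [hφ]; exact en_mem s _
      · obtain ⟨l, rfl⟩ := (mem_iff t i).1 hi
        obtain ⟨l', rfl⟩ := (mem_iff t i').1 hi'
        rw [hφ, hφ] at hh
        rw [σ.symm.injective ((en s).injective hh)]
      · obtain ⟨l, rfl⟩ := (mem_iff s j).1 hj
        exact ⟨en t (σ l), en_mem t _, by rw [hφ, σ.symm_apply_apply]⟩
    refine le_of_eq_of_le ?_ (h φ hb)
    rw [← prod_en, ← Equiv.prod_comp σ (fun l => g (M (en t l) (φ (en t l))))]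
    refine Finset.prod_congr rfl fun l _ => ?_
    rw [hφ, σ.symm_apply_apply, Matrix.submatrix_apply]
  have hb0 : 0 ≤ b := (Finset.prod_nonneg fun _ _ => g.nonneg _).trans (key 1)
  refine (det_le g _ b key).trans (mul_le_mul_of_nonneg_right ?_ hb0)
  exact_mod_cast Nat.factorial_le hpn

end WDG

open WDG in
theorem aWDG : St_WDG := by
  classical
  intro n k V A A' hA
  set p := (Ici k).card with hp
  have hp1 : 1 ≤ p := Finset.card_pos.2 ⟨k, Finset.mem_Ici.2 le_rfl⟩
  have hpn : p ≤ n := (Finset.card_le_univ (Ici k)).trans (Fintype.card_fin n).le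
  let s0 : I n p := ⟨Ici k, rfl⟩
  have : Nonempty (I n p) := ⟨s0⟩
  obtain ⟨N, hN⟩ : ∃ N, Fintype.card (I n p) = N + 1 :=
    Nat.exists_eq_succ_of_ne_zero Fintype.card_ne_zero
  let E : Fin (N + 1) ≃ I n p := (Fintype.equivFinOfCardEq hN).symm
  have hrec : ∀ w : Fin (N + 1) → ℤ, ∃ c : Fin n → ℤ, (w ≠ 0 → c ≠ 0) ∧
      ∀ (Y : Matrix (Fin n) (Fin n) ℤ), Y.det ≠ 0 →
      (∀ s, s ≠ s0 → ∑ t, w (E.symm t) * cmp p Y t s = 0) →
      ∀ j, j ∉ s0.1 → ∑ i, c i * Y i j = 0 := by
    intro w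
    by_cases hw : w = 0
    · exact ⟨0, fun h => absurd hw h, fun _ _ _ _ _ => by simp⟩
    · obtain ⟨c, hc, h⟩ := recover hp1 (fun t => w (E.symm t)) (fun h0 => hw (funext fun i => by
        simpa using congrFun h0 (E i)))
      exact ⟨c, fun _ => hc, fun Y hY => h Y s0 hY⟩
  choose ψ hψ hψ' using hrec
  refine ⟨N, fun i => (E i).1, fun v => (cmp p (A v)).submatrix E E,
    fun v => (cmp p (A' v)).submatrix E E, ψ, Subtype.val_injective.comp E.injective, ?_, ?_, hψ, ?_⟩
  · intro s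
    constructor
    · rintro ⟨i, rfl⟩
      exact (E i).2
    · intro hs
      exact ⟨E.symm ⟨s, hs⟩, by simp⟩
  · intro v
    rw [Matrix.submatrix_mul_equiv, ← cmp_mul, hA v, cmp_one, Matrix.submatrix_one_equiv]
  · intro y hy
    have hY := det_ne_of_li y hy
    set Y := (Matrix.of y)ᵀ with hYd
    let j0 := E.symm s0
    have hne : ∀ j : Fin N, E (j0.succAbove j) ≠ s0 := by
      intro j h
      exact Fin.succAbove_ne j0 j (by rw [← E.symm_apply_apply (j0.succAbove j), h])
    refine ⟨fun j i => cmp p Y (E i) (E (j0.succAbove j)), fun j => (E (j0.succAbove j)).1, ?_, ?_, ?_, ?_⟩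
    · have h1 : ((cmp p Y).submatrix E E).det ≠ 0 := by
        rw [Matrix.det_submatrix_equiv_self]; exact cmp_det_ne p Y hY
      exact (li_of_det_ne _ h1).comp j0.succAbove Fin.succAbove_right_injective
    · intro j
      exact ⟨fun h => hne j (Subtype.ext h), (E _).2⟩
    · intro w hw l hl
      have h1 := hψ' w Y hY (fun s hs => ?_) l (by simpa [s0] using hl)
      · simpa [dotProduct, hYd] using h1
      · have h2 : E.symm s ≠ j0 := fun h => hs (E.symm.injective h)
        obtain ⟨j, hj⟩ := Fin.exists_succAbove_eq h2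
        have h3 := hw j
        rw [← Equiv.sum_comp E]
        simpa [dotProduct, hj] using h3
    · intro v g j a t ht
      have h1 : ((cmp p (A v)).submatrix E E).mulVec
          (fun i => cmp p Y (E i) (E (j0.succAbove j))) a
          = cmp p (A v * Y) (E a) (E (j0.succAbove j)) := by
        rw [cmp_mul, Matrix.mul_apply, ← Equiv.sum_comp E]
        rfl
      rw [h1]
      exact bound hpn _ g _ _ t ht

end Pool.Agent.SU76
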