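import Pool.Agent.Lib.SU76.Defs

/-! Block ZERO: an exponential polynomial with many consecutive integer zeros vanishes. -/

namespace Pool.Agent.SU76

open Finset Polynomial

namespace ZERO

lemma deg_shift_le (a c : ℝ) (P : ℝ[X]) : (C a * taylor 1 P - C c * P).degree ≤ P.degree := by
  refine (degree_sub_le _ _).trans (max_le ?_ ?_)
  · rw [← smul_eq_C_mul]
    exact (degree_smul_le _ _).trans (degree_taylor P 1).le
  · rw [← smul_eq_C_mul]
    exact degree_smul_le _ _

lemma deg_shift_lt (a : ℝ) (P : ℝ[X]) (d : ℕ) (h : P.degree < (d + 1 : ℕ)) :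
    (C a * taylor 1 P - C a * P).degree < (d : ℕ) := by
  rw [← mul_sub, ← smul_eq_C_mul]
  refine (degree_smul_le _ _).trans_lt ?_
  by_cases h0 : P = 0
  · simp [h0]
  · have h1 : (taylor 1 P - P).degree < (taylor 1 P).degree :=
      degree_sub_lt_left (degree_taylor P 1) (by rwa [Ne, taylor_eq_zero]) (leadingCoeff_taylor 1 P)
    rw [degree_taylor] at h1
    refine h1.trans_le ?_
    rw [degree_eq_natDegree h0] at h ⊢
    have h2 : P.natDegree < d + 1 := by exact_mod_cast h
    exact_mod_cast Nat.lt_succ_iff.1 h2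

lemma eq_zero_of_shift {a c : ℝ} (hac : a ≠ c) (P : ℝ[X]) (h : C a * taylor 1 P - C c * P = 0) :
    P = 0 := by
  have h1 := congrArg leadingCoeff (sub_eq_zero.1 h)
  simp only [leadingCoeff_mul, leadingCoeff_C, leadingCoeff_taylor] at h1
  by_contra h0
  exact hac (mul_right_cancel₀ (leadingCoeff_ne_zero.2 h0) h1)

lemma main {ι : Type} (I : Finset ι) (α : ι → ℝ) (hα : Set.InjOn α I) (hp : ∀ i ∈ I, 0 < α i)
    (N : ℕ) : ∀ (d : ι → ℕ) (P : ι → ℝ[X]), ∑ i ∈ I, d i = N → (∀ i ∈ I, (P i).degree < (d i : ℕ)) →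
    (∀ l ∈ Icc 1 N, ∑ i ∈ I, (P i).eval (l : ℝ) * α i ^ l = 0) → ∀ i ∈ I, P i = 0 := by
  classical
  induction N with
  | zero =>
    intro d P hd hP _ i hi
    have h0 : d i = 0 := (sum_eq_zero_iff.1 hd) i hi
    have := hP i hi
    rw [h0] at this
    exact degree_eq_bot.1 (Nat.WithBot.lt_zero_iff.1 this)
  | succ N ih =>
    intro d P hd hP hz
    obtain ⟨j, hj, hdj⟩ : ∃ j ∈ I, d j ≠ 0 := exists_ne_zero_of_sum_ne_zero (by omega)
    obtain ⟨e, he⟩ := Nat.exists_eq_succ_of_ne_zero hdj
    have hQ := ih (Function.update d j e) (fun i => C (α i) * taylor 1 (P i) - C (α j) * P i)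
      (by
        rw [sum_update_of_mem hj]
        rw [← add_sum_erase I d hj, ← sdiff_singleton_eq_erase] at hd
        omega)
      (fun i hi => by
        by_cases hij : i = j
        · subst hij
          rw [Function.update_self]
          exact deg_shift_lt _ _ _ (by have := hP i hi; rwa [he] at this)
        · rw [Function.update_of_ne hij]
          exact (deg_shift_le _ _ _).trans_lt (hP i hi))
      (fun l hl => by
        rw [mem_Icc] at hl
        have h1 := hz (l + 1) (mem_Icc.2 ⟨by omega, by omega⟩)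
        have h2 := hz l (mem_Icc.2 ⟨by omega, by omega⟩)
        have h3 : ∑ i ∈ I, (C (α i) * taylor 1 (P i) - C (α j) * P i).eval (l : ℝ) * α i ^ l =
            ∑ i ∈ I, (P i).eval ((l + 1 : ℕ) : ℝ) * α i ^ (l + 1) -
              α j * ∑ i ∈ I, (P i).eval (l : ℝ) * α i ^ l := by
          rw [mul_sum, ← sum_sub_distrib]
          refine sum_congr rfl fun i _ => ?_
          simp only [eval_sub, eval_mul, eval_C, taylor_eval, Nat.cast_add, Nat.cast_one]
          ring
        rw [h3, h1, h2, mul_zero, sub_zero])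
    have hne : ∀ i ∈ I, i ≠ j → P i = 0 := fun i hi hij =>
      eq_zero_of_shift (fun h => hij (hα hi hj h)) _ (hQ i hi)
    intro i hi
    by_cases hij : i = j
    · subst hij
      refine eq_zero_of_degree_lt_of_eval_finset_eq_zero
        ((Icc 1 (N + 1)).image (Nat.cast : ℕ → ℝ)) ?_ ?_
      · rw [card_image_of_injective _ Nat.cast_injective, Nat.card_Icc]
        refine (hP i hi).trans_le ?_
        have : d i ≤ N + 1 := hd ▸ single_le_sum (f := d) (fun _ _ => Nat.zero_le _) hi
        exact_mod_cast this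
      · intro x hx
        obtain ⟨l, hl, rfl⟩ := mem_image.1 hx
        have h1 := hz l hl
        rw [sum_eq_single_of_mem i hi fun k hk hki => by simp [hne k hk hki]] at h1
        exact (mul_eq_zero.1 h1).resolve_right (pow_pos (hp i hi) l).ne'
    · exact hne i hi hij

end ZERO

theorem aZERO : St_ZERO := by
  intro ι I α P D hα hp hP hz
  refine ZERO.main I α hα hp (I.card * D) (fun _ => D) P (by simp) (fun i hi => ?_) hz
  exact degree_le_natDegree.trans_lt (by exact_mod_cast hP i hi)

end Pool.Agent.SU76
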