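import Pool.Agent.Lib.SU76.B_N0
import Pool.Agent.Lib.SU76.B_RK
import Pool.Agent.Lib.SU76.B_CNT
import Pool.Agent.Lib.SU76.B_G
import Pool.Agent.Lib.SU76.B_KIT
import Pool.Agent.Lib.SU76.B_DEN
import Pool.Agent.Lib.SU76.B_ZERO
import Pool.Agent.Lib.SU76.B_EXT
import Pool.Agent.Lib.SU76.B_BS
import Pool.Agent.Lib.SU76.B_BJ
import Pool.Agent.Lib.SU76.B_BX
import Pool.Agent.Lib.SU76.B_BFC
import Pool.Agent.Lib.SU76.B_BF
import Pool.Agent.Lib.SU76.B_NRM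
import Pool.Agent.Lib.SU76.B_CN2
import Pool.Agent.Lib.SU76.B_AUX
import Pool.Agent.Lib.SU76.B_EST
import Pool.Agent.Lib.SU76.B_RED
import Pool.Agent.Lib.SU76.B_ROTH
import Pool.Agent.Lib.SU76.B_HT
import Pool.Agent.Lib.SU76.B_SUBC
import Pool.Agent.Lib.SU76.B_SUBH
import Pool.Agent.Lib.SU76.B_EVL
import Pool.Agent.Lib.SU76.B_MIN
import Pool.Agent.Lib.SU76.B_GEO
import Pool.Agent.Lib.SU76.B_WDG
import Pool.Agent.Lib.SU76.B_PLC
import Pool.Agent.Lib.SU76.B_GAP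
import Pool.Agent.Lib.SU76.B_SUB
import Pool.Agent.Lib.SU76.B_EV0
import Pool.Agent.Lib.SU76.B_EV1
import Pool.Agent.Lib.SU76.B_EV
import Pool.Agent.Lib.SU76.B_KEY
import Pool.Agent.Lib.SU76.B_VAL
import Pool.Agent.Lib.SU76.B_SP
import Pool.Agent.Lib.SU76.B_TR
import Pool.Agent.Lib.SU76.B_GR
import Pool.Agent.Lib.SU76.B_B1
import Pool.Agent.Lib.SU76.B_B2
import Pool.Agent.Lib.SU76.B_BAD
import Pool.Agent.Lib.SU76.B_LP
import Pool.Agent.Lib.SU76.B_MAIN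

/-! All blocks put together. -/

namespace Pool.Agent.SU76.All

theorem tN0 : St_N0 := aN0
theorem tRK : St_RK := aRK
theorem tCNT : St_CNT := aCNT
theorem tG : St_G := aG tN0
theorem tKIT : St_KIT := aKIT
theorem tDEN : St_DEN := aDEN
theorem tZERO : St_ZERO := aZERO
theorem tEXT : St_EXT := aEXT
theorem tBS : St_BS := aBS tDEN
theorem tBJ : St_BJ := aBJ tDEN
theorem tBX : St_BX := aBX tDEN tEXT tBJ
theorem tBFC : St_BFC := aBFC tDEN tZERO tBS tBX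
theorem tBF : St_BF := aBF tBFC
theorem tNRM : St_NRM := aNRM
theorem tCN2 : St_CN2 := aCN2
theorem tAUX : St_AUX := aAUX tNRM tCN2
theorem tEST : St_EST := aEST tNRM
theorem tRED : St_RED := aRED
theorem tROTH : St_ROTH := aROTH
theorem tHT : St_HT := aHT
theorem tSUBC : St_SUBC := aSUBC tHT tAUX tEST tRED tROTH
theorem tSUBH : St_SUBH := aSUBH tSUBC
theorem tEVL : St_EVL := aEVL
theorem tMIN : St_MIN := aMIN
theorem tGEO : St_GEO := aGEO tEVL tMIN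
theorem tWDG : St_WDG := aWDG
theorem tPLC : St_PLC := aPLC
theorem tGAP : St_GAP := aGAP tPLC tGEO
theorem tSUB : St_SUB := aSUB tPLC tGAP tWDG tSUBH
theorem tEV0 : St_EV0 := aEV0 tPLC tSUB
theorem tEV1 : St_EV1 := aEV1 tEV0
theorem tEV : St_EV := aEV tEV1
theorem tKEY : St_KEY := aKEY tBF tRK
theorem tVAL : St_VAL := aVAL tKIT tKEY tCNT
theorem tSP : St_SP := aSP tKIT tKEY tCNT
theorem tTR : St_TR := aTR tKIT tVAL tSP tRK
theorem tGR : St_GR := aGR tKIT tBF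
theorem tB1 : St_B1 := aB1 tKIT tKEY tSP tCNT tRK
theorem tB2 : St_B2 := aB2 tEV
theorem tBAD : St_BAD := aBAD tKIT tTR tB1 tB2
theorem tLP : St_LP := aLP tKIT tTR tGR tSP tBAD
theorem tMAIN : St_MAIN := aMAIN tG tRK tLP

end Pool.Agent.SU76.All
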