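import Pool.Agent.Lib.SU76.Defs

/-! Row GAP: successive minima with a gap. -/

namespace Pool.Agent.SU76

open Finset Real

namespace GAP

lemma det_bd {n : ℕ} (g : AbsoluteValue ℤ ℝ) (Z : Mx n) (r c : Fin n → ℝ)
    (h : ∀ i j, g (Z i j) ≤ r i * c j) : g Z.det ≤ n.factorial * ((∏ i, r i) * ∏ j, c j) := by
  rw [Matrix.det_apply]
  calc g (∑ σ : Equiv.Perm (Fin n), Equiv.Perm.sign σ • ∏ i, Z (σ i) i)
      ≤ ∑ σ : Equiv.Perm (Fin n), g (Equiv.Perm.sign σ • ∏ i, Z (σ i) i) := g.sum_le _ _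
    _ ≤ ∑ _σ : Equiv.Perm (Fin n), (∏ i, r i) * ∏ j, c j := by
        refine sum_le_sum fun σ _ => ?_
        rw [g.map_units_int_smul, map_prod]
        calc ∏ i, g (Z (σ i) i) ≤ ∏ i, r (σ i) * c i :=
              prod_le_prod (fun i _ => g.nonneg _) fun i _ => h _ _
          _ = _ := by rw [prod_mul_distrib, Equiv.prod_comp σ r]
    _ = _ := by simp [Fintype.card_perm]

lemma unit_abs {n : ℕ} (g : AbsoluteValue ℤ ℝ) (A A' : Mx n) (h : A * A' = 1) : g A.det = 1 := by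
  have h1 : A.det * A'.det = 1 := by rw [← Matrix.det_mul, h, Matrix.det_one]
  rcases Int.eq_one_or_neg_one_of_mul_eq_one h1 with h2 | h2
  · rw [h2, g.map_one]
  · rw [h2, g.map_neg, g.map_one]

lemma low {V : Type} [Fintype V] (f : V → AbsoluteValue ℤ ℝ) (hf : PF f) (z : ℤ) (hz : z ≠ 0) (L : ℝ)
    (h1 : 1 ≤ L) (hL : |(z : ℝ)| ≤ L) (v : V) : 1 ≤ f v z * L ^ Fintype.card V := by
  classical
  have h2 := hf.2 z hz
  rw [← mul_prod_erase univ (fun w => f w z) (mem_univ v)] at h2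
  refine h2.trans (mul_le_mul_of_nonneg_left ?_ ((f v).nonneg _))
  calc ∏ w ∈ univ.erase v, f w z ≤ ∏ _w ∈ univ.erase v, L :=
        prod_le_prod (fun w _ => (f w).nonneg _) fun w _ => (hf.1 w z).trans hL
    _ = L ^ (univ.erase v).card := prod_const _
    _ ≤ _ := pow_le_pow_right₀ h1 (card_le_univ _)

lemma gap {n : ℕ} (μ : Fin n → ℝ) (t : ℝ) (ht : 1 ≤ t)
    (h : ¬ ∃ k, 1 < μ k ∧ ∀ j, j < k → t * μ j ≤ μ k) : ∀ k, μ k ≤ t ^ n := by
  have key : ∀ m : ℕ, ∀ k : Fin n, k.1 = m → μ k ≤ t ^ m := by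
    intro m
    induction m using Nat.strong_induction_on with
    | _ m ih =>
      intro k hk
      by_cases h1 : μ k ≤ 1
      · exact h1.trans (one_le_pow₀ ht)
      · have h2 : ∃ j, j < k ∧ μ k < t * μ j := by
          by_contra h3
          refine h ⟨k, not_le.1 h1, fun j hj => ?_⟩
          by_contra h4
          exact h3 ⟨j, hj, not_le.1 h4⟩
        obtain ⟨j, hj, h3⟩ := h2
        have hjm : j.1 < m := by rw [← hk]; exact hj
        have h4 := ih j.1 hjm j rfl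
        calc μ k ≤ t * t ^ j.1 := h3.le.trans (mul_le_mul_of_nonneg_left h4 (by linarith))
          _ = t ^ (j.1 + 1) := by ring
          _ ≤ _ := pow_le_pow_right₀ ht hjm
  intro k
  exact (key k.1 k rfl).trans (pow_le_pow_right₀ ht k.2.le)

lemma mu_up {n : ℕ} (μ : Fin n → ℝ) (T : ℝ) (hT : 1 ≤ T) (h : ∀ j, 1 ≤ T * μ j) (j : Fin n) :
    μ j ≤ T ^ n * ∏ l, μ l := by
  have hp : 0 < μ j := by
    by_contra h1
    have h2 := h j
    have h3 : T * μ j ≤ 0 := mul_nonpos_of_nonneg_of_nonpos (by linarith) (not_lt.1 h1)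
    linarith
  have h1 : T ^ n * ∏ l, μ l = ∏ l, T * μ l := by
    rw [prod_mul_distrib, prod_const, card_univ, Fintype.card_fin]
  rw [h1, ← mul_prod_erase univ (fun l => T * μ l) (mem_univ j)]
  have h2 : (1 : ℝ) ≤ ∏ l ∈ univ.erase j, T * μ l := by
    calc (1 : ℝ) = ∏ _l ∈ univ.erase j, (1 : ℝ) := by simp
      _ ≤ _ := prod_le_prod (fun _ _ => zero_le_one) fun l _ => h l
  have h3 : μ j ≤ T * μ j := le_mul_of_one_le_left hp.le hT
  exact h3.trans (le_mul_of_one_le_right (by positivity) h2)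

lemma det_ne {n : ℕ} (y : Fin n → Fin n → ℤ) (hy : LinearIndependent ℤ y) : (Matrix.of y).det ≠ 0 := by
  intro h
  obtain ⟨v, hv, h1⟩ := Matrix.exists_vecMul_eq_zero_iff.2 h
  apply hv
  funext j
  refine Fintype.linearIndependent_iff.1 hy v ?_ j
  funext i
  have h2 := congrFun h1 i
  simpa [Matrix.vecMul, dotProduct, Finset.sum_apply] using h2

lemma mv_bd {V : Type} [Fintype V] {n : ℕ} (A : V → Mx n) : ∃ K : ℝ, 1 ≤ K ∧ ∀ (x : Fin n → ℤ) (H : ℝ), 0 ≤ H →
    (∀ i, |(x i : ℝ)| ≤ H) → ∀ v i, |(((A v).mulVec x i : ℤ) : ℝ)| ≤ K * H := by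
  have hnn : ∀ v i, 0 ≤ ∑ j, |(A v i j : ℝ)| := fun v i => sum_nonneg fun _ _ => abs_nonneg _
  have hnn2 : ∀ v, 0 ≤ ∑ i, ∑ j, |(A v i j : ℝ)| := fun v => sum_nonneg fun i _ => hnn v i
  have hnn3 : 0 ≤ ∑ v, ∑ i, ∑ j, |(A v i j : ℝ)| := sum_nonneg fun v _ => hnn2 v
  refine ⟨1 + ∑ v, ∑ i, ∑ j, |(A v i j : ℝ)|, by linarith, fun x H hH hx v i => ?_⟩
  have h1 : (((A v).mulVec x i : ℤ) : ℝ) = ∑ j, (A v i j : ℝ) * x j := by
    simp [Matrix.mulVec, dotProduct]
  have h2 : ∑ j, |(A v i j : ℝ)| ≤ ∑ i, ∑ j, |(A v i j : ℝ)| :=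
    single_le_sum (f := fun i => ∑ j, |(A v i j : ℝ)|) (fun i _ => hnn v i) (mem_univ i)
  have h3 : ∑ i, ∑ j, |(A v i j : ℝ)| ≤ ∑ v, ∑ i, ∑ j, |(A v i j : ℝ)| :=
    single_le_sum (f := fun v => ∑ i, ∑ j, |(A v i j : ℝ)|) (fun v _ => hnn2 v) (mem_univ v)
  rw [h1]
  calc |∑ j, (A v i j : ℝ) * x j| ≤ ∑ j, |(A v i j : ℝ) * x j| := abs_sum_le_sum_abs _ _
    _ ≤ ∑ j, |(A v i j : ℝ)| * H := sum_le_sum fun j _ => by
        rw [abs_mul]; exact mul_le_mul_of_nonneg_left (hx j) (abs_nonneg _)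
    _ = (∑ j, |(A v i j : ℝ)|) * H := (sum_mul _ _ _).symm
    _ ≤ _ := mul_le_mul_of_nonneg_right (by linarith) hH

/-- The lower bound for the product of the minima. -/
lemma prod_low {V : Type} [Fintype V] {n : ℕ} (f : V → AbsoluteValue ℤ ℝ) (hf : PF f) (A A' : V → Mx n)
    (hA : ∀ v, A v * A' v = 1) (y : Fin n → Fin n → ℤ) (hy : LinearIndependent ℤ y) (r c : V → Fin n → ℝ)
    (h : ∀ v i j, f v ((A v).mulVec (y j) i) ≤ r v i * c v j) :
    1 ≤ (n.factorial : ℝ) ^ Fintype.card V * ((∏ v, ∏ i, r v i) * ∏ v, ∏ j, c v j) := by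
  have h1 := hf.2 _ (det_ne y hy)
  have h2 : ∀ v, f v (Matrix.of y).det ≤ n.factorial * ((∏ i, r v i) * ∏ j, c v j) := by
    intro v
    have h3 := det_bd (f v) (A v * (Matrix.of y).transpose) (r v) (c v) fun i j => by
      have h4 : (A v * (Matrix.of y).transpose) i j = (A v).mulVec (y j) i := by
        simp [Matrix.mul_apply, Matrix.mulVec, dotProduct]
      rw [h4]; exact h v i j
    rwa [Matrix.det_mul, Matrix.det_transpose, (f v).map_mul, unit_abs (f v) _ _ (hA v), one_mul] at h3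
  calc (1 : ℝ) ≤ ∏ v, f v (Matrix.of y).det := h1
    _ ≤ ∏ v, (n.factorial : ℝ) * ((∏ i, r v i) * ∏ j, c v j) :=
        prod_le_prod (fun v _ => (f v).nonneg _) fun v _ => h2 v
    _ = _ := by rw [prod_mul_distrib, prod_mul_distrib, prod_const, card_univ]

end GAP

open GAP

theorem aGAP (hPLC : St_PLC) (hGEO : St_GEO) : St_GAP := by
  intro M n A A' ε hA hε
  obtain ⟨⟨f, hf, hfe⟩, -, hpos, -, hΛ⟩ := hPLC M
  obtain ⟨C, hC, hG⟩ := hGEO n
  obtain ⟨K, hK, hKb⟩ := mv_bd A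
  set N := Fintype.card (Plc M) with hN
  set C1 : ℝ := (n.factorial : ℝ) ^ N * C ^ n with hC1
  have hfac : (1 : ℝ) ≤ n.factorial := by exact_mod_cast n.factorial_pos
  have hC1p : 1 ≤ C1 := one_le_mul_of_one_le_of_one_le (one_le_pow₀ hfac) (one_le_pow₀ hC)
  have hn1 : (0 : ℝ) < 2 * ((n : ℝ) ^ 2 + 1) := by positivity
  have hC2 : 0 ≤ C1 ^ (2 / ε) := rpow_nonneg (by linarith) _
  refine ⟨C, ((3 * n + (1 + 2 * (N * n * N)) : ℕ) : ℝ), ε / (2 * ((n : ℝ) ^ 2 + 1)), 2 + C + K + C1 ^ (2 / ε), hC,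
    div_pos hε hn1, by linarith, fun x H hH hx hne hP => ?_⟩
  have hH2 : 2 ≤ H := by linarith
  have hH0 : 0 < H := by linarith
  have hCH : C ≤ H := by linarith
  have hKH : K ≤ H := by linarith
  have hC1H : C1 ^ (2 / ε) < H := by linarith
  have hA' : A' none * A none = 1 := mul_eq_one_comm.1 (hA none)
  obtain ⟨Λ, hi, hib, hm⟩ := hΛ n A A' x (hA none) hne
  set b : Fin n → ℝ := fun i => av M none ((A none).mulVec x i : ℤ) with hb
  have hbe : ∀ i, b i = |(((A none).mulVec x i : ℤ) : ℝ)| := fun i => by simp [hb, av]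
  have hbp : ∀ i, 0 < b i := fun i => hpos none _ (by exact_mod_cast hne none i)
  obtain ⟨y', μ, pm, hyΛ, hli, hmono, hμ, hy, hup, hsp⟩ := hG Λ b hi hbp
  set y : Fin n → Fin n → ℤ := fun j => (A' none).mulVec (y' j) with hyd
  have hAy : ∀ j, (A none).mulVec (y j) = y' j := fun j => by
    rw [hyd]; simp only; rw [Matrix.mulVec_mulVec, hA none, Matrix.one_mulVec]
  have hAx : (A' none).mulVec ((A none).mulVec x) = x := by
    rw [Matrix.mulVec_mulVec, hA', Matrix.one_mulVec]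
  have hli2 : LinearIndependent ℤ y := by
    refine LinearIndependent.of_comp (A none).mulVecLin ?_
    have h1 : (A none).mulVecLin ∘ y = y' := funext fun j => hAy j
    rw [h1]; exact hli
  have hX : (A none).mulVec x ∈ Λ := (hm _).2 fun q i => by rw [hAx]
  have hq : ∀ q i j, av M (some q) ((A (some q)).mulVec (y j) i : ℤ) ≤
      av M (some q) ((A (some q)).mulVec x i : ℤ) := fun q i j => (hm _).1 (hyΛ j) q i
  have hn : ∀ i j, av M none ((A none).mulVec (y j) (pm i) : ℤ) ≤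
      C * min (μ i) (μ j) * av M none ((A none).mulVec x (pm i) : ℤ) := fun i j => by
    have h1 := hy i j
    rw [hAy j]
    simpa [av, hb] using h1
  have hy2 : ∀ i j, |(y' j i : ℝ)| ≤ b i * (C * μ j) := fun i j => by
    have h1 := hy (pm.symm i) j
    rw [pm.apply_symm_apply] at h1
    have h2 : C * min (μ (pm.symm i)) (μ j) * b i ≤ C * μ j * b i :=
      mul_le_mul_of_nonneg_right (mul_le_mul_of_nonneg_left (min_le_right _ _) (by linarith)) (hbp i).le
    linarith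
  set P : ℝ := ∏ v, ∏ i, av M v ((A v).mulVec x i : ℤ) with hPd
  have hμp : 0 < ∏ j, μ j := prod_pos fun j _ => hμ j
  have hqp : 0 < ∏ q, ∏ i, av M (some q) ((A (some q)).mulVec x i : ℤ) :=
    prod_pos fun q _ => prod_pos fun i _ => hpos _ _ (by exact_mod_cast hne (some q) i)
  have hPe : P = (∏ i, b i) * ∏ q, ∏ i, av M (some q) ((A (some q)).mulVec x i : ℤ) := by
    rw [hPd, Fintype.prod_option]
  have hU : (∏ j, μ j) * P ≤ C := by
    rw [hPe, ← mul_assoc]
    calc _ ≤ C * Λ.index * ∏ q, ∏ i, av M (some q) ((A (some q)).mulVec x i : ℤ) :=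
          mul_le_mul_of_nonneg_right hup hqp.le
      _ ≤ C * 1 := by rw [mul_assoc]; exact mul_le_mul_of_nonneg_left hib (by linarith)
      _ = C := mul_one _
  -- lower bound for the product
  have hL : 1 ≤ C1 * (P * ∏ j, μ j) := by
    have h1 := prod_low f hf A A' hA y hli2 (fun v i => av M v ((A v).mulVec x i : ℤ))
      (fun v j => Option.elim v (C * μ j) fun _ => 1) (by
        intro v i j
        rw [hfe]
        cases v with
        | none =>
          have h2 := hy2 i j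
          rw [hAy j]
          simpa [av, hb] using h2
        | some q => simpa using hq q i j)
    rw [Fintype.prod_option (fun v : Plc M => ∏ j, Option.elim v (C * μ j) fun _ => (1 : ℝ))] at h1
    simp only [Option.elim, prod_const_one, mul_one, prod_mul_distrib, prod_const, card_univ,
      Fintype.card_fin] at h1
    rw [hC1]
    calc (1 : ℝ) ≤ _ := h1
      _ = _ := by rw [← hPd, ← hN]; ring
  -- upper bound for the minima
  have hKH1 : 1 ≤ K * H := one_le_mul_of_one_le_of_one_le hK (by linarith)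
  have hKH2 : K * H ≤ H ^ 2 := by rw [sq]; exact mul_le_mul_of_nonneg_right hKH hH0.le
  have hH21 : 1 ≤ H ^ 2 := hKH1.trans hKH2
  have hPl : 1 ≤ P * H ^ (2 * (N * n * N)) := by
    have h1 : ∀ v i, 1 ≤ av M v ((A v).mulVec x i : ℤ) * (H ^ 2) ^ N := fun v i => by
      rw [← hfe]
      exact low f hf _ (hne v i) _ hH21 ((hKb x H hH0.le hx v i).trans hKH2) v
    calc (1 : ℝ) = ∏ _v : Plc M, ∏ _i : Fin n, (1 : ℝ) := by simp
      _ ≤ ∏ v : Plc M, ∏ i : Fin n, av M v ((A v).mulVec x i : ℤ) * (H ^ 2) ^ N :=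
          prod_le_prod (fun _ _ => by simp) fun v _ => prod_le_prod (fun _ _ => zero_le_one) fun i _ => h1 v i
      _ = _ := by
          simp only [prod_mul_distrib, prod_const, card_univ, Fintype.card_fin]
          rw [← hPd, ← hN, ← pow_mul, ← pow_mul, ← pow_mul, mul_assoc]
  have hμl : ∀ j, 1 ≤ H ^ 3 * μ j := fun j => by
    obtain ⟨i, hi0⟩ : ∃ i, y' j i ≠ 0 := by
      by_contra h1
      exact hli.ne_zero j (funext fun i => by
        by_contra h2
        exact h1 ⟨i, h2⟩)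
    have h1 : (1 : ℝ) ≤ |(y' j i : ℝ)| := by exact_mod_cast Int.one_le_abs hi0
    have h2 : b i ≤ H ^ 2 := by rw [hbe]; exact (hKb x H hH0.le hx none i).trans hKH2
    have h3 : b i * (C * μ j) ≤ H ^ 2 * (H * μ j) :=
      mul_le_mul h2 (mul_le_mul_of_nonneg_right hCH (hμ j).le) (mul_nonneg (by linarith) (hμ j).le) (by positivity)
    calc (1 : ℝ) ≤ _ := h1.trans ((hy2 i j).trans h3)
      _ = _ := by ring
  have hμu : ∀ j, μ j ≤ H ^ (((3 * n + (1 + 2 * (N * n * N)) : ℕ) : ℝ)) := fun j => by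
    rw [rpow_natCast]
    have h1 := mu_up μ (H ^ 3) (one_le_pow₀ (by linarith)) hμl j
    have h2 : ∏ l, μ l ≤ H ^ (1 + 2 * (N * n * N)) := by
      calc ∏ l, μ l ≤ (∏ l, μ l) * (P * H ^ (2 * (N * n * N))) := le_mul_of_one_le_right hμp.le hPl
        _ = ((∏ l, μ l) * P) * H ^ (2 * (N * n * N)) := by ring
        _ ≤ H * H ^ (2 * (N * n * N)) := mul_le_mul_of_nonneg_right (hU.trans hCH) (by positivity)
        _ = _ := by ring
    calc μ j ≤ (H ^ 3) ^ n * H ^ (1 + 2 * (N * n * N)) :=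
          h1.trans (mul_le_mul_of_nonneg_left h2 (by positivity))
      _ = _ := by rw [← pow_mul, ← pow_add]
  -- the gap
  set δ : ℝ := ε / (2 * ((n : ℝ) ^ 2 + 1)) with hδ
  have hδp : 0 < δ := div_pos hε hn1
  have ht : 1 ≤ H ^ δ := one_le_rpow (by linarith) hδp.le
  obtain ⟨k, hk1, hk2⟩ : ∃ k, 1 < μ k ∧ ∀ j, j < k → H ^ δ * μ j ≤ μ k := by
    by_contra h0
    have h1 := gap μ _ ht h0
    have h2 : ∏ j, μ j ≤ H ^ (ε / 2) := by
      calc ∏ j, μ j ≤ ∏ _j : Fin n, (H ^ δ) ^ n := prod_le_prod (fun j _ => (hμ j).le) fun j _ => h1 j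
        _ = H ^ (δ * ((n * n : ℕ) : ℝ)) := by
            rw [prod_const, card_univ, Fintype.card_fin, ← pow_mul, rpow_mul hH0.le, rpow_natCast]
        _ ≤ _ := by
            refine rpow_le_rpow_of_exponent_le (by linarith) ?_
            rw [hδ, div_mul_eq_mul_div, div_le_div_iff₀ hn1 two_pos]
            push_cast
            nlinarith
    have hPp : 0 < P := by rw [hPe]; exact mul_pos (prod_pos fun i _ => hbp i) hqp
    have h3 : P * ∏ j, μ j ≤ H ^ (-ε) * H ^ (ε / 2) := mul_le_mul hP h2 hμp.le (rpow_nonneg hH0.le _)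
    have h4 : C1 < H ^ (ε / 2) := by
      have h5 := rpow_lt_rpow hC2 hC1H (half_pos hε)
      rw [← rpow_mul (by linarith), show 2 / ε * (ε / 2) = 1 by field_simp, rpow_one] at h5
      exact h5
    have h5 : H ^ (ε / 2) * (H ^ (-ε) * H ^ (ε / 2)) = 1 := by
      rw [← rpow_add hH0, ← rpow_add hH0, show ε / 2 + (-ε + ε / 2) = 0 by ring, rpow_zero]
    have h6 : C1 * (P * ∏ j, μ j) < H ^ (ε / 2) * (H ^ (-ε) * H ^ (ε / 2)) :=
      mul_lt_mul h4 h3 (mul_pos hPp hμp) (rpow_nonneg hH0.le _)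
    linarith
  obtain ⟨a0, a, ha0, ha, hak⟩ := hsp _ hX k fun i => by
    rw [← hbe]; exact lt_mul_of_one_lt_left (hbp i) hk1
  refine ⟨y, μ, pm, k, hli2, hmono, fun j => ⟨hμ j, hμu j⟩, fun j hj => ?_, hn, hq, hU, ?_, a0, a, ha0, ?_, hak⟩
  · rw [rpow_neg hH0.le, le_inv_mul_iff₀ (by linarith)]
    exact hk2 j hj
  · by_contra h0
    have h1 : ∀ j, a j = 0 := fun j => hak j (not_lt.1 fun h => h0 ⟨j, h⟩)
    have h2 := congrFun ha k
    simp only [h1, zero_smul, sum_const_zero, Pi.smul_apply, smul_eq_mul, Pi.zero_apply, mul_eq_zero] at h2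
    exact h2.elim ha0 (hne none k)
  · have h1 := congrArg (A' none).mulVecLin ha
    rw [map_smul, map_sum] at h1
    simp only [map_smul, Matrix.mulVecLin_apply, hAx] at h1
    exact h1

end Pool.Agent.SU76
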