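import Pool.Agent.Lib.SU76.Defs

/-! Reduction of the finiteness theorem to the non-existence of a limit object. -/

namespace Pool.Agent.SU76

open Finset Filter Pool.Agent.Lib.MP_14338b_nt

namespace MAIN

theorem fac (p : ℕ) : (1 : ℝ) ≤ 1 + 1 / (p : ℝ) := le_add_of_nonneg_right (by positivity)

theorem one_le_pr {α : Type} (s : Finset α) (g : α → ℝ) (h : ∀ a ∈ s, 1 ≤ g a) : 1 ≤ ∏ a ∈ s, g a :=
  prod_induction _ (fun x : ℝ => 1 ≤ x) (fun _ _ ha hb => one_le_mul_of_one_le_of_one_le ha hb)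
    le_rfl h

theorem one_le_tt (R : Finset ℕ) : 1 ≤ tt R := one_le_pr _ _ fun p _ => fac p

theorem tt_mono {s t : Finset ℕ} (h : s ⊆ t) : tt s ≤ tt t :=
  prod_le_prod_of_subset_of_one_le h (fun p _ => by positivity) (fun p _ _ => fac p)

theorem big_mono (M0 : ℕ) {a b : ℕ} (h : a ∣ b) (hb : b ≠ 0) : big M0 a ⊆ big M0 b :=
  filter_subset_filter _ (Nat.primeFactors_mono h hb)

theorem tt_split (R R' : Finset ℕ) (N : ℕ) (K : ℝ) (h1 : ∀ p ∈ R, p ≤ N → p ∈ R')
    (h2 : tt (R.filter fun p => ¬ p ≤ N) ≤ K) : tt R ≤ tt R' * K := by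
  have e : tt R = tt (R.filter fun p => p ≤ N) * tt (R.filter fun p => ¬ p ≤ N) :=
    (prod_filter_mul_prod_filter_not R (fun p => p ≤ N) _).symm
  rw [e]
  exact mul_le_mul (tt_mono fun p hp => h1 p (mem_filter.1 hp).1 (mem_filter.1 hp).2) h2
    (zero_le_one.trans (one_le_tt _)) (zero_le_one.trans (one_le_tt _))

theorem uconst {X : Type} (U : Ultrafilter X) (f : X → ℕ) (K : ℕ)
    (h : ∀ᶠ x in (U : Filter X), f x ≤ K) : ∃ c, ∀ᶠ x in (U : Filter X), f x = c := by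
  have h1 : ∀ᶠ x in (U : Filter X), ∃ c ∈ Set.Iic K, f x = c := h.mono fun x hx => ⟨_, hx, rfl⟩
  obtain ⟨c, _, hc⟩ := (Ultrafilter.eventually_exists_mem_iff (Set.finite_Iic K)).1 h1
  exact ⟨c, hc⟩

theorem udich {X : Type} (U : Ultrafilter X) (f : X → ℕ)
    (h : ¬ ∃ c, ∀ᶠ x in (U : Filter X), f x = c) (K : ℕ) : ∀ᶠ x in (U : Filter X), K ≤ f x := by
  rcases U.em (fun x => f x ≤ K) with h1 | h1
  · exact absurd (uconst U f K h1) h
  · exact h1.mono fun x hx => by omega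

theorem dvd_gcd_step {p Q o N : ℕ} (hp : p.Prime) (ho : Odd o) (hN : p ≤ N)
    (h : p ∣ Q ^ o + 1) : p ∣ Q ^ Nat.gcd o N.factorial + 1 := by
  have := Fact.mk hp
  have hodd : Odd (Nat.gcd o N.factorial) := ho.of_dvd_nat (Nat.gcd_dvd_left _ _)
  rw [← ZMod.natCast_eq_zero_iff] at h ⊢
  push_cast at h ⊢
  have h1 : (-(Q : ZMod p)) ^ o = 1 := by
    rw [ho.neg_pow]; exact neg_eq_of_add_eq_zero_right h
  have h0 : (-(Q : ZMod p)) ≠ 0 := by
    intro h0
    rw [h0, zero_pow ho.pos.ne'] at h1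
    exact zero_ne_one h1
  have h2 : (-(Q : ZMod p)) ^ N.factorial = 1 := by
    obtain ⟨k, hk⟩ : p - 1 ∣ N.factorial :=
      Nat.dvd_factorial (by have := hp.two_le; omega) (by omega)
    rw [hk, pow_mul, ZMod.pow_card_sub_one_eq_one h0, one_pow]
  have h3 := pow_gcd_eq_one.2 ⟨h1, h2⟩
  rw [hodd.neg_pow] at h3
  rw [← h3]; ring

theorem not_dvd_step {p q f N : ℕ} (hp : p.Prime) (h2 : 2 < p) (hf : f ≠ 0) (hN : p ≤ N)
    (hv : N ≤ f.factorization 2) : ¬ p ∣ q ^ f + 1 := by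
  intro h
  have := Fact.mk hp
  rw [← ZMod.natCast_eq_zero_iff] at h
  push_cast at h
  have h1 : (q : ZMod p) ^ f = -1 := eq_neg_of_add_eq_zero_left h
  have h0 : (q : ZMod p) ≠ 0 := by
    intro h0
    rw [h0, zero_pow hf] at h1
    exact one_ne_zero (neg_eq_zero.1 h1.symm)
  have h3 : (q : ZMod p) ^ (2 * f) = 1 := by rw [mul_comm, pow_mul, h1]; ring
  have h4 := pow_gcd_eq_one.2 ⟨h3, ZMod.pow_card_sub_one_eq_one h0⟩
  have hg : Nat.gcd (2 * f) (p - 1) ≠ 0 := Nat.gcd_ne_zero_left (by omega)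
  have h5 : Nat.gcd (2 * f) (p - 1) ∣ f := by
    rw [← Nat.factorization_prime_le_iff_dvd hg hf]
    intro l hl
    by_cases h2l : l = 2
    · subst h2l
      have a1 := (Nat.factorization_prime_le_iff_dvd hg (show p - 1 ≠ 0 by omega)).2
        (Nat.gcd_dvd_right _ _) 2 hl
      have a2 := Nat.factorization_lt 2 (show p - 1 ≠ 0 by omega)
      omega
    · have a1 := (Nat.factorization_prime_le_iff_dvd hg (show 2 * f ≠ 0 by omega)).2
        (Nat.gcd_dvd_left _ _) l hl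
      rw [Nat.factorization_mul two_ne_zero hf, Finsupp.add_apply,
        Nat.Prime.factorization Nat.prime_two, Finsupp.single_apply,
        if_neg (fun h => h2l h.symm), zero_add] at a1
      exact a1
  obtain ⟨k, hk⟩ := h5
  have h6 : (q : ZMod p) ^ f = 1 := by rw [hk, pow_mul, h4, one_pow]
  rw [h1] at h6
  have h7 : ((2 : ℕ) : ZMod p) = 0 := by
    push_cast
    have : (2 : ZMod p) = 1 - -1 := by ring
    rw [this, h6, sub_self]
  rw [ZMod.natCast_eq_zero_iff] at h7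
  have := Nat.le_of_dvd two_pos h7
  omega

theorem pdvd {Q e o : ℕ} (ho : Odd o) (h : e ∣ o) : Q ^ e + 1 ∣ Q ^ o + 1 := by
  obtain ⟨k, rfl⟩ := h
  have := (Nat.Odd.of_mul_right ho).nat_add_dvd_pow_add_pow (Q ^ e) 1
  rwa [one_pow, ← pow_mul] at this

theorem level (C η : ℝ) (k : ℕ) (hη : 0 < η) : ∃ N : ℕ, 1 ≤ N ∧
    ((1 + 1 / (N : ℝ)) * (1 + C * (N : ℝ) ^ (-(5 / 6 : ℝ)))) ^ k ≤ 1 + η := by
  have h1 : Tendsto (fun N : ℕ => (N : ℝ) ^ (-(5 / 6 : ℝ))) atTop (nhds 0) :=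
    (tendsto_rpow_neg_atTop (by norm_num)).comp tendsto_natCast_atTop_atTop
  have h2 := (((tendsto_one_div_atTop_nhds_zero_nat (𝕜 := ℝ)).const_add 1).mul
    ((h1.const_mul C).const_add 1)).pow k
  have h3 := h2.eventually (eventually_le_nhds (b := 1 + η) (by simpa using hη))
  obtain ⟨N, hN⟩ := ((eventually_ge_atTop 1).and h3).exists
  exact ⟨N, hN⟩

theorem core (hRK : St_RK) (hLP : St_LP) {X : Type} (U : Ultrafilter X) (T : Finset ℕ) (M0 : ℕ)
    (h3 : 3 ≤ M0) (hT : ∀ q ∈ T, q.Prime ∧ q ≤ M0) (hne : T.Nonempty) (f : X → ℕ → ℕ) (κ : ℚ)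
    (hκ : 0 < κ) (hinf : ∀ q ∈ T, ∀ K, ∀ᶠ x in (U : Filter X), K ≤ f x q)
    (hsq : ∀ᶠ x in (U : Filter X), ∀ q ∈ T, ∀ p ∈ big M0 (q ^ f x q + 1),
      ¬ p ^ 2 ∣ q ^ f x q + 1 ∧ p + 1 ∈ M0.smoothNumbers)
    (hk : ∀ᶠ x in (U : Filter X),
      ∏ q ∈ T, ((1 + 1 / (q : ℝ) ^ f x q) * tt (big M0 (q ^ f x q + 1))) = κ) : False := by
  classical
  obtain ⟨B, hB⟩ : ∃ B : Finset ℕ,
      B = T.filter fun q => ∃ c, ∀ᶠ x in (U : Filter X), (f x q).factorization 2 = c := ⟨_, rfl⟩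
  have hBT : B ⊆ T := hB ▸ filter_subset _ _
  have hs : ∀ q, ∃ c, q ∈ B → ∀ᶠ x in (U : Filter X), (f x q).factorization 2 = c := fun q => by
    by_cases h : q ∈ B
    · obtain ⟨c, hc⟩ := (mem_filter.1 (hB ▸ h)).2
      exact ⟨c, fun _ => hc⟩
    · exact ⟨0, fun h' => absurd h' h⟩
  choose s hs using hs
  obtain ⟨o, ho⟩ : ∃ o : X → ℕ → ℕ, ∀ x q, o x q = ordCompl[2] (f x q) := ⟨_, fun _ _ => rfl⟩
  have hinf' : ∀ K, ∀ᶠ x in (U : Filter X), ∀ q ∈ T, K ≤ f x q := fun K =>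
    (eventually_all_finset T).2 fun q hq => hinf q hq K
  have hodd : ∀ᶠ x in (U : Filter X), ∀ q ∈ B,
      Odd (o x q) ∧ q ^ f x q + 1 = (q ^ 2 ^ s q) ^ o x q + 1 := by
    filter_upwards [hinf' 1, (eventually_all_finset B).2 hs] with x h1 h2 q hq
    have h0 : f x q ≠ 0 := by have := h1 q (hBT hq); omega
    refine ⟨?_, ?_⟩
    · rw [ho, ← Nat.not_even_iff_odd, even_iff_two_dvd]
      exact Nat.not_dvd_ordCompl Nat.prime_two h0
    · rw [← pow_mul, ho, ← h2 q hq, Nat.ordProj_mul_ordCompl_eq_self]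
  obtain ⟨q, hqB, hqi, hqp⟩ : ∃ q : Fin B.card → ℕ, (∀ i, q i ∈ B) ∧ Function.Injective q ∧
      ∀ F : ℕ → ℝ, ∏ i, F (q i) = ∏ z ∈ B, F z :=
    ⟨fun i => B.equivFin.symm i, fun i => (B.equivFin.symm i).2,
      Subtype.val_injective.comp B.equivFin.symm.injective,
      fun F => (B.equivFin.symm.prod_comp fun z => F z).trans (prod_coe_sort B F)⟩
  have hκe : ((κ.num.natAbs : ℕ) : ℝ) / (κ.den : ℕ) = κ := by
    rw [Rat.cast_def, ← Int.cast_natCast, Int.natAbs_of_nonneg (Rat.num_pos.2 hκ).le]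
  have hn0 : 0 < κ.num.natAbs := Int.natAbs_pos.2 (Rat.num_pos.2 hκ).ne'
  refine (hLP B.card).elim
    { M0 := M0
      M := M0 + κ.num.natAbs + κ.den + ∑ i, (q i ^ 2 ^ s (q i) + 1) + 1
      q := q
      a := fun i => 2 ^ s (q i)
      D := fun i => {e | ∀ᶠ x in (U : Filter X), e ∣ o x (q i)}
      kn := κ.num.natAbs
      kd := κ.den
      h3 := h3
      hM := by omega
      qp := fun i => (hT _ (hBT (hqB i))).1
      qle := fun i => (hT _ (hBT (hqB i))).2
      qinj := hqi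
      a1 := fun i => Nat.one_le_two_pow
      qs := fun i => Nat.mem_smoothNumbers_of_lt (Nat.succ_pos _) (by
        have := single_le_sum (f := fun i => q i ^ 2 ^ s (q i) + 1) (fun _ _ => Nat.zero_le _)
          (mem_univ i)
        omega)
      kns := Nat.mem_smoothNumbers_of_lt hn0 (by omega)
      kds := Nat.mem_smoothNumbers_of_lt κ.den_pos (by omega)
      odd := fun i e he => by
        obtain ⟨x, h1, h2⟩ := (hodd.and he).exists
        exact (h1 _ (hqB i)).1.of_dvd_nat h2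
      one := fun i => Eventually.of_forall fun x => one_dvd _
      dvd := fun i e he d hd => Eventually.mono he fun x hx => hd.trans hx
      lcm := fun i e he d hd => (Eventually.and he hd).mono fun x hx => Nat.lcm_dvd hx.1 hx.2
      sq := fun i e he p hp => by
        obtain ⟨x, h1, h2, h4⟩ := (hodd.and (hsq.and he)).exists
        have h5 := pdvd (Q := q i ^ 2 ^ s (q i)) (h1 _ (hqB i)).1 h4
        rw [← (h1 _ (hqB i)).2] at h5
        have h6 := h2 _ (hBT (hqB i)) p (big_mono M0 h5 (Nat.succ_ne_zero _) hp)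
        exact ⟨fun h => h6.1 (h.trans h5), Nat.smoothNumbers_mono (by omega) h6.2⟩
      lt := fun e he => by
        obtain ⟨x, h1, h2, h4⟩ := (hodd.and (hk.and (eventually_all.2 he))).exists
        rw [hκe, ← h2, prod_mul_distrib]
        have a1 : ∏ i, tt (big M0 ((q i ^ 2 ^ s (q i)) ^ e i + 1)) ≤
            ∏ z ∈ T, tt (big M0 (z ^ f x z + 1)) := by
          refine le_trans (prod_le_prod (fun i _ => zero_le_one.trans (one_le_tt _)) fun i _ => ?_)
            ((hqp fun z => tt (big M0 (z ^ f x z + 1))).le.trans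
              (prod_le_prod_of_subset_of_one_le hBT (fun _ _ => zero_le_one.trans (one_le_tt _))
                fun _ _ _ => one_le_tt _))
          rw [(h1 _ (hqB i)).2]
          exact tt_mono (big_mono M0 (pdvd (h1 _ (hqB i)).1 (h4 i)) (Nat.succ_ne_zero _))
        have a2 : 1 < ∏ z ∈ T, (1 + 1 / (z : ℝ) ^ f x z) := by
          obtain ⟨z, hz⟩ := hne
          rw [← mul_prod_erase T _ hz]
          have hz0 : (0 : ℝ) < z := by exact_mod_cast (hT z hz).1.pos
          exact one_lt_mul_of_lt_of_le (lt_add_of_pos_right _ (by positivity))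
            (one_le_pr _ _ fun a _ => le_add_of_nonneg_right (by positivity))
        have a3 : 1 ≤ ∏ z ∈ T, tt (big M0 (z ^ f x z + 1)) := one_le_pr _ _ fun _ _ => one_le_tt _
        exact a1.trans_lt (lt_mul_of_one_lt_left (by linarith) a2)
      ap := fun η hη => by
        obtain ⟨C, hC, H⟩ := hRK M0
        obtain ⟨N, hN, hl⟩ := level C η T.card hη
        have he : ∀ z, ∃ c, ∀ᶠ x in (U : Filter X), Nat.gcd (o x z) N.factorial = c := fun z =>
          uconst U _ N.factorial (Eventually.of_forall fun x =>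
            Nat.gcd_le_right _ N.factorial_pos)
        choose e he using he
        refine ⟨fun i => e (q i), fun i => (he (q i)).mono fun x hx =>
          (dvd_of_eq hx.symm).trans (Nat.gcd_dvd_left _ _), ?_⟩
        have hv : ∀ᶠ x in (U : Filter X), ∀ z ∈ T, z ∉ B → N ≤ (f x z).factorization 2 :=
          (eventually_all_finset T).2 fun z hz => by
            by_cases h : z ∈ B
            · exact Eventually.of_forall fun x h' => absurd h h'
            · exact (udich U _ (fun h' => h (hB ▸ mem_filter.2 ⟨hz, h'⟩)) N).mono fun x hx _ => hx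
        obtain ⟨x, h1, h2, h4, h5, h6, h7⟩ := (hodd.and (hk.and (hsq.and ((hinf' N).and (hv.and
          ((eventually_all_finset T).2 fun z _ => he z)))))).exists
        rw [hκe, ← h2, hqp fun z => tt (big M0 ((z ^ 2 ^ s z) ^ e z + 1))]
        obtain ⟨β, hβ⟩ : ∃ β : ℝ, β = 1 + C * (N : ℝ) ^ (-(5 / 6 : ℝ)) := ⟨_, rfl⟩
        have e1 : ∏ z ∈ B, tt (big M0 ((z ^ 2 ^ s z) ^ e z + 1)) =
            ∏ z ∈ T, tt (if z ∈ B then big M0 ((z ^ 2 ^ s z) ^ e z + 1) else ∅) := by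
          rw [← prod_subset hBT fun z _ h => by simp [h, tt]]
          exact prod_congr rfl fun z h => by rw [if_pos h]
        rw [e1]
        rw [← hβ] at hl
        refine le_trans ?_ (mul_le_mul_of_nonneg_right hl
          (prod_nonneg fun _ _ => zero_le_one.trans (one_le_tt _)))
        rw [← prod_const, ← prod_mul_distrib]
        refine prod_le_prod (fun z _ => mul_nonneg (by positivity)
          (zero_le_one.trans (one_le_tt _))) fun z hz => ?_
        have b1 : 1 / (z : ℝ) ^ f x z ≤ 1 / (N : ℝ) :=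
          one_div_le_one_div_of_le (by exact_mod_cast hN) (by
            exact_mod_cast (h5 z hz).trans (Nat.lt_pow_self (hT z hz).1.one_lt).le)
        have b2 : tt (big M0 (z ^ f x z + 1)) ≤
            tt (if z ∈ B then big M0 ((z ^ 2 ^ s z) ^ e z + 1) else ∅) * β := by
          refine tt_split _ _ N β (fun p hp hpN => ?_) (hβ ▸ H _ N (by exact_mod_cast hN)
            fun p hp => ⟨by exact_mod_cast (not_le.1 (mem_filter.1 hp).2).le,
              (h4 z hz p (mem_filter.1 hp).1).2⟩)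
          simp only [big, mem_filter, Nat.mem_primeFactors] at hp
          split_ifs with h
          · simp only [big, mem_filter, Nat.mem_primeFactors]
            refine ⟨⟨hp.1.1, ?_, Nat.succ_ne_zero _⟩, hp.2⟩
            rw [← h7 z hz]
            exact dvd_gcd_step hp.1.1 (h1 z h).1 hpN ((h1 z h).2 ▸ hp.1.2.1)
          · exact absurd hp.1.2.1 (not_dvd_step hp.1.1 (by omega)
              (by have := h5 z hz; omega) hpN (h6 z hz h))
        rw [mul_assoc, mul_comm β]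
        exact mul_le_mul (by linarith) b2 (zero_le_one.trans (one_le_tt _)) (by positivity) }

theorem rat (M0 q e : ℕ) : ∃ c : ℚ, 0 < c ∧
    (if e = 0 then 1 else (1 + 1 / (q : ℝ) ^ e) * tt (big M0 (q ^ e + 1))) = c := by
  split_ifs
  · exact ⟨1, one_pos, by simp⟩
  · refine ⟨(1 + 1 / (q : ℚ) ^ e) * ∏ p ∈ big M0 (q ^ e + 1), (1 + 1 / (p : ℚ)),
      mul_pos (by positivity) (prod_pos fun p _ => by positivity), ?_⟩
    unfold tt
    push_cast
    rfl

end MAIN

open MAIN in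
theorem aMAIN (hG : St_G) (hRK : St_RK) (hLP : St_LP) : St_MAIN := by
  classical
  intro M al be hal hbe
  by_contra hS
  obtain ⟨M0, K, h3, hM, hK, H⟩ := hG M al be hal hbe
  have := cofinite_inf_principal_neBot_iff.2 hS
  obtain ⟨U, hU⟩ := exists_ultrafilter_le (cofinite ⊓ principal
    {x : ℕ × ℕ | x.1 ∈ M.smoothNumbers ∧ 0 < x.2 ∧ usigma x.1 = al * x.2 ∧ usigma x.2 = be * x.1})
  have hU1 : ∀ᶠ x in (U : Filter (ℕ × ℕ)),
      x.1 ∈ M.smoothNumbers ∧ 0 < x.2 ∧ usigma x.1 = al * x.2 ∧ usigma x.2 = be * x.1 :=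
    (le_inf_iff.1 hU).2 (mem_principal_self _)
  have hsub : ∀ A ∈ M.smoothNumbers, A.primeFactors ⊆ M.primesBelow := fun A hA =>
    Nat.primeFactors_subset_of_mem_smoothNumbers hA
  have hz : ∀ A q : ℕ, q ∈ A.primeFactors ↔ A.factorization q ≠ 0 := fun A q => by
    rw [← Nat.support_factorization, Finsupp.mem_support_iff]
  obtain ⟨κ, hκ, hk⟩ := (Ultrafilter.eventually_exists_mem_iff K.finite_toSet).1
    (hU1.mono fun x hx => (H x.1 x.2 hx.1 hx.2.1 hx.2.2.1 hx.2.2.2).2)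
  obtain ⟨g, hg⟩ : ∃ g : ℕ → ℕ → ℝ, ∀ q e, g q e =
      if e = 0 then 1 else (1 + 1 / (q : ℝ) ^ e) * tt (big M0 (q ^ e + 1)) := ⟨_, fun _ _ => rfl⟩
  obtain ⟨Pa, hPa⟩ : ∃ Pa : ℕ → Prop, ∀ q, Pa q ↔
      ∃ c, ∀ᶠ x in (U : Filter (ℕ × ℕ)), x.1.factorization q = c := ⟨_, fun _ => Iff.rfl⟩
  have hc : ∀ q, ∃ c, Pa q → ∀ᶠ x in (U : Filter (ℕ × ℕ)), x.1.factorization q = c := fun q => by
    by_cases h : Pa q
    · obtain ⟨c, hc⟩ := (hPa q).1 h
      exact ⟨c, fun _ => hc⟩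
    · exact ⟨0, fun h' => absurd h' h⟩
  choose c hc using hc
  have hc' : ∀ᶠ x in (U : Filter (ℕ × ℕ)), ∀ q ∈ M.primesBelow.filter Pa,
      x.1.factorization q = c q :=
    (eventually_all_finset _).2 fun q hq => hc q (mem_filter.1 hq).2
  choose ρ hρ0 hρ using fun q => rat M0 q (c q)
  have hinf : ∀ q ∈ M.primesBelow.filter fun q => ¬ Pa q, ∀ L,
      ∀ᶠ x in (U : Filter (ℕ × ℕ)), L ≤ x.1.factorization q := fun q hq L =>
    udich U _ (fun h => (mem_filter.1 hq).2 ((hPa q).2 h)) L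
  have hone := (eventually_all_finset _).2 fun q hq => hinf q hq 1
  have hρp : 0 < ∏ q ∈ M.primesBelow.filter Pa, ρ q := prod_pos fun q _ => hρ0 q
  refine core hRK hLP U (M.primesBelow.filter fun q => ¬ Pa q) M0 h3 (fun q hq => ?_) ?_
    (fun x q => x.1.factorization q) (κ / ∏ q ∈ M.primesBelow.filter Pa, ρ q)
    (div_pos (hK κ hκ) hρp) hinf ?_ ?_
  · have := Nat.mem_primesBelow.1 (mem_filter.1 hq).1
    exact ⟨this.2, by omega⟩
  · by_contra hn
    have hall : ∀ q ∈ M.primesBelow, q ∈ M.primesBelow.filter Pa := fun q hq =>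
      mem_filter.2 ⟨hq, by_contra fun h => hn ⟨q, mem_filter.2 ⟨hq, h⟩⟩⟩
    obtain ⟨y, hy1, hy2⟩ := (hU1.and hc').exists
    obtain ⟨x, hx1, hx2, hx3⟩ := (hU1.and (hc'.and
      ((eventually_cofinite_ne y).filter_mono (le_inf_iff.1 hU).1))).exists
    have e : x.1 = y.1 := by
      refine Nat.eq_of_factorization_eq hx1.1.1 hy1.1.1 fun q => ?_
      by_cases hq : q ∈ M.primesBelow
      · rw [hx2 q (hall q hq), hy2 q (hall q hq)]
      · rw [not_not.1 fun h => hq (hsub _ hx1.1 ((hz _ q).2 h)),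
          not_not.1 fun h => hq (hsub _ hy1.1 ((hz _ q).2 h))]
    refine hx3 (Prod.ext e (Nat.eq_of_mul_eq_mul_left hal ?_))
    rw [← hx1.2.2.1, ← hy1.2.2.1, e]
  · filter_upwards [hU1, hone] with x hx h1 q hq
    exact (H x.1 x.2 hx.1 hx.2.1 hx.2.2.1 hx.2.2.2).1 q ((hz _ q).2 (by have := h1 q hq; omega))
  · filter_upwards [hU1, hone, hc', hk] with x hx h1 h2 h4
    have e1 : ∏ q ∈ M.primesBelow, g q (x.1.factorization q) = κ := by
      rw [← h4, ← prod_subset (hsub _ hx.1) fun q _ h => by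
        rw [hg, if_pos (not_not.1 fun h' => h ((hz _ q).2 h'))]]
      exact prod_congr rfl fun q h => by rw [hg, if_neg ((hz _ q).1 h)]
    rw [← prod_filter_mul_prod_filter_not _ Pa] at e1
    have e2 : ∏ q ∈ M.primesBelow.filter Pa, g q (x.1.factorization q) =
        ((∏ q ∈ M.primesBelow.filter Pa, ρ q : ℚ) : ℝ) := by
      push_cast
      exact prod_congr rfl fun q h => by rw [h2 q h, hg, hρ]
    have e3 : (0 : ℝ) < ((∏ q ∈ M.primesBelow.filter Pa, ρ q : ℚ) : ℝ) := by exact_mod_cast hρp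
    rw [Rat.cast_div, eq_div_iff e3.ne', ← e1, e2, mul_comm]
    congr 1
    exact prod_congr rfl fun q h => by rw [hg, if_neg (by have := h1 q h; omega)]

end Pool.Agent.SU76
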