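import Pool.Agent.Lib.SU76.Defs
import Pool.Agent.Lib.US27.N0

namespace Pool.Agent.SU76

theorem aN0 : St_N0 := fun M =>
  (Pool.Agent.Lib.US27.n0 M).subset fun _ hx =>
    ⟨hx.1, hx.2.1, fun r hr hd => ((Nat.mem_smoothNumbers'.mp hx.2.2) r hr hd).le⟩

end Pool.Agent.SU76
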