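import Mathlib
import Pool.Agent.Lib.SU76.Defs

/-! The weighted norm of integer polynomials. -/

namespace Pool.Agent.SU76

open Finset MvPolynomial

namespace NRM

variable {σ : Type} [Fintype σ] (g : AbsoluteValue ℤ ℝ) {θ : σ → ℝ}

theorem w_nonneg (hθ : ∀ s, 0 ≤ θ s) (d : σ →₀ ℕ) : 0 ≤ ∏ s, θ s ^ d s :=
  prod_nonneg fun s _ => pow_nonneg (hθ s) _

theorem nw_eq (P : MvPolynomial σ ℤ) (S : Finset (σ →₀ ℕ)) (h : P.support ⊆ S) :
    nw g θ P = ∑ d ∈ S, g (P.coeff d) * ∏ s, θ s ^ d s := by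
  unfold nw
  refine sum_subset h fun d _ hd => ?_
  rw [notMem_support_iff.1 hd, g.map_zero, zero_mul]

theorem nw_nonneg (hθ : ∀ s, 0 ≤ θ s) (P : MvPolynomial σ ℤ) : 0 ≤ nw g θ P :=
  sum_nonneg fun d _ => mul_nonneg (g.nonneg _) (w_nonneg hθ d)

theorem nw_zero : nw g θ (0 : MvPolynomial σ ℤ) = 0 := by
  simp [nw]

theorem nw_add (hθ : ∀ s, 0 ≤ θ s) (P Q : MvPolynomial σ ℤ) :
    nw g θ (P + Q) ≤ nw g θ P + nw g θ Q := by
  classical
  rw [nw_eq g (P + Q) _ support_add, nw_eq g P _ (subset_union_left (s₂ := Q.support)),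
    nw_eq g Q _ (subset_union_right (s₁ := P.support)), ← sum_add_distrib]
  refine sum_le_sum fun d _ => ?_
  rw [← add_mul, coeff_add]
  exact mul_le_mul_of_nonneg_right (g.add_le _ _) (w_nonneg hθ d)

theorem nw_sum (hθ : ∀ s, 0 ≤ θ s) {κ : Type} (I : Finset κ) (F : κ → MvPolynomial σ ℤ) :
    nw g θ (∑ k ∈ I, F k) ≤ ∑ k ∈ I, nw g θ (F k) := by
  classical
  induction I using Finset.induction_on with
  | empty => simp [nw_zero]
  | insert a s ha ih =>
    rw [sum_insert ha, sum_insert ha]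
    exact (nw_add g hθ _ _).trans (by linarith)

theorem nw_monomial (d : σ →₀ ℕ) (c : ℤ) :
    nw g θ (monomial d c) = g c * ∏ s, θ s ^ d s := by
  classical
  rw [nw_eq g _ {d} support_monomial_subset, sum_singleton, coeff_monomial, if_pos rfl]

theorem nw_mul (hθ : ∀ s, 0 ≤ θ s) (P Q : MvPolynomial σ ℤ) :
    nw g θ (P * Q) ≤ nw g θ P * nw g θ Q := by
  have e : P * Q = ∑ a ∈ P.support, ∑ b ∈ Q.support, monomial (a + b) (P.coeff a * Q.coeff b) := by
    conv_lhs => rw [P.as_sum, Q.as_sum]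
    rw [sum_mul_sum]
    simp only [monomial_mul]
  rw [e]
  refine (nw_sum g hθ _ _).trans ?_
  have e2 : nw g θ P * nw g θ Q = ∑ a ∈ P.support, ∑ b ∈ Q.support,
      (g (P.coeff a) * ∏ s, θ s ^ a s) * (g (Q.coeff b) * ∏ s, θ s ^ b s) := by
    unfold nw
    rw [sum_mul_sum]
  rw [e2]
  refine sum_le_sum fun a _ => (nw_sum g hθ _ _).trans (le_of_eq ?_)
  refine sum_congr rfl fun b _ => ?_
  rw [nw_monomial, g.map_mul]
  simp only [Finsupp.add_apply, pow_add, prod_mul_distrib]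
  ring

theorem nw_C (c : ℤ) : nw g θ (C c : MvPolynomial σ ℤ) = g c := by
  rw [C_apply, nw_monomial]
  simp

theorem nw_one : nw g θ (1 : MvPolynomial σ ℤ) = 1 := by
  rw [← C_1, nw_C, g.map_one]

theorem nw_X (s : σ) : nw g θ (X s : MvPolynomial σ ℤ) = θ s := by
  classical
  rw [X, nw_monomial, g.map_one, one_mul, prod_eq_single s]
  · simp
  · intro t _ ht
    simp [ht.symm]
  · simp

theorem nw_coeff (hθ : ∀ s, 0 ≤ θ s) (P : MvPolynomial σ ℤ) (d : σ →₀ ℕ) :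
    g (P.coeff d) * ∏ s, θ s ^ d s ≤ nw g θ P := by
  classical
  rw [nw_eq g P _ (subset_insert d P.support)]
  exact single_le_sum (f := fun d : σ →₀ ℕ => g (P.coeff d) * ∏ s, θ s ^ d s)
    (fun e _ => mul_nonneg (g.nonneg _) (w_nonneg hθ e)) (mem_insert_self _ _)

theorem nw_prod (hθ : ∀ s, 0 ≤ θ s) {κ : Type} (I : Finset κ) (F : κ → MvPolynomial σ ℤ) :
    nw g θ (∏ k ∈ I, F k) ≤ ∏ k ∈ I, nw g θ (F k) := by
  classical
  induction I using Finset.induction_on with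
  | empty => simp [nw_one]
  | insert a s ha ih =>
    rw [prod_insert ha, prod_insert ha]
    exact (nw_mul g hθ _ _).trans (mul_le_mul_of_nonneg_left ih (nw_nonneg g hθ _))

theorem nw_pow (hθ : ∀ s, 0 ≤ θ s) (P : MvPolynomial σ ℤ) (n : ℕ) :
    nw g θ (P ^ n) ≤ nw g θ P ^ n := by
  simpa using nw_prod g hθ (range n) fun _ => P

theorem nw_bind (hθ : ∀ s, 0 ≤ θ s) {τ : Type} [Fintype τ] (φ : τ → MvPolynomial σ ℤ) (b : τ → ℝ)
    (P : MvPolynomial τ ℤ) (hb : ∀ t, nw g θ (φ t) ≤ b t) : nw g θ (bind₁ φ P) ≤ nw g b P := by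
  have e : bind₁ φ P = ∑ d ∈ P.support, C (P.coeff d) * ∏ t, φ t ^ d t := by
    conv_lhs => rw [P.as_sum]
    rw [map_sum]
    refine sum_congr rfl fun d _ => ?_
    rw [bind₁_monomial]
    congr 1
    refine prod_subset (subset_univ _) fun t _ ht => ?_
    rw [Finsupp.notMem_support_iff.1 ht, pow_zero]
  rw [e]
  refine (nw_sum g hθ _ _).trans (sum_le_sum fun d _ => (nw_mul g hθ _ _).trans ?_)
  rw [nw_C]
  refine mul_le_mul_of_nonneg_left ((nw_prod g hθ _ _).trans ?_) (g.nonneg _)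
  exact prod_le_prod (fun t _ => nw_nonneg g hθ _) fun t _ =>
    (nw_pow g hθ _ _).trans (pow_le_pow_left₀ (nw_nonneg g hθ _) (hb t) _)

/-- The usual absolute value of an integer, as a real number. -/
noncomputable def ab : AbsoluteValue ℤ ℝ where
  toFun y := |(y : ℝ)|
  map_mul' x y := by simp [abs_mul]
  nonneg' x := abs_nonneg _
  eq_zero' x := by simp
  add_le' x y := by simpa using abs_add_le (x : ℝ) y

end NRM

theorem aNRM : St_NRM := by
  intro σ _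
  refine ⟨fun g θ hθ => ⟨NRM.nw_nonneg g hθ, NRM.nw_add g hθ, NRM.nw_mul g hθ, NRM.nw_C g, NRM.nw_X g,
    NRM.nw_coeff g hθ, fun κ I F => ⟨NRM.nw_sum g hθ I F, NRM.nw_prod g hθ I F⟩,
    fun τ _ φ b P hb => NRM.nw_bind g hθ φ b P hb⟩, NRM.ab, fun _ => rfl, fun P => ?_⟩
  unfold l1 nw
  refine sum_congr rfl fun d _ => ?_
  simp only [one_pow, prod_const_one, mul_one]
  rfl

end Pool.Agent.SU76
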