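import Pool.Agent.Lib.SU76.B_G

/-! The multipliers are bounded in terms of `M`: the form without parameters. -/

namespace Pool.Agent.SU76

open Finset Pool.Agent.Lib.MP_14338b_nt

namespace Div93

theorem tt_le_card (R : Finset ℕ) : (∀ p ∈ R, 1 ≤ p) → tt R ≤ R.card + 1 := by
  induction R using Finset.induction_on_max with
  | empty => intro _; simp [tt]
  | insert a s hs ih =>
    intro h
    have ha : a ∉ s := fun h' => lt_irrefl _ (hs a h')
    have h1 : s.card + 1 ≤ a := by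
      have h2 : s ⊆ Ico 1 a := fun x hx => mem_Ico.mpr ⟨h x (mem_insert_of_mem hx), hs x hx⟩
      have h3 := card_le_card h2
      have h4 := h a (mem_insert_self _ _)
      rw [Nat.card_Ico] at h3
      omega
    have h5 : ((s.card : ℝ) + 1) ≤ a := by exact_mod_cast h1
    have h6 : (0 : ℝ) < s.card + 1 := by positivity
    have h7 := ih fun p hp => h p (mem_insert_of_mem hp)
    have h8 : 1 / (a : ℝ) ≤ 1 / ((s.card : ℝ) + 1) := one_div_le_one_div_of_le h6 h5
    unfold tt at h7 ⊢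
    rw [prod_insert ha, card_insert_of_notMem ha]
    calc _ ≤ (1 + 1 / ((s.card : ℝ) + 1)) * (s.card + 1) :=
          mul_le_mul (by linarith) h7 (prod_nonneg fun p _ => by positivity) (by positivity)
      _ = _ := by push_cast; field_simp

theorem two_pow_le {M A be : ℕ} (hA : A ∈ M.smoothNumbers) (hbe : 0 < be) (s : Finset ℕ)
    (g : ℕ → ℕ) (hg : ∀ p ∈ s, g p ≠ 0 ∧ g p ∉ M.smoothNumbers) (hd : ∏ p ∈ s, g p ∣ be * A) :
    2 ^ s.card ≤ be := by
  have h1 : ∀ p ∈ s, ∃ l, l.Prime ∧ l ∣ g p ∧ ¬ l < M := fun p hp => by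
    by_contra hc
    refine (hg p hp).2 (Nat.mem_smoothNumbers'.2 fun l hl hdl => ?_)
    by_contra hlt
    exact hc ⟨l, hl, hdl, hlt⟩
  choose! l hl hlg hlM using h1
  have h2 : ∏ p ∈ s, l p ∣ be * A := (prod_dvd_prod_of_dvd _ _ hlg).trans hd
  have h3 : Nat.Coprime (∏ p ∈ s, l p) A := Nat.Coprime.prod_left fun p hp =>
    (Nat.Prime.coprime_iff_not_dvd (hl p hp)).2 fun h =>
      hlM p hp (Nat.mem_smoothNumbers'.1 hA _ (hl p hp) h)
  exact (pow_card_le_prod s l 2 fun p hp => (hl p hp).two_le).trans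
    (Nat.le_of_dvd hbe (h3.dvd_of_dvd_mul_right h2))

theorem sq_le (t : ℕ) : (t + 1) ^ 2 ≤ 4 * 2 ^ t := by
  induction t with
  | zero => norm_num
  | succ t ih =>
    have h : t + 1 ≤ 2 ^ t := Nat.lt_two_pow_self
    rw [pow_succ 2 t]
    nlinarith

theorem bound (hRK : St_RK) (M : ℕ) : ∃ K : ℕ, ∀ A B al be : ℕ, A ∈ M.smoothNumbers → 0 < B →
    0 < al → 0 < be → usigma A = al * B → usigma B = be * A → al * be ≤ K := by
  obtain ⟨C, hC, hrk⟩ := hRK M
  refine ⟨⌈4 * (2 ^ M * (1 + C)) ^ 2⌉₊, fun A B al be hA hB hal hbe h1 h2 => ?_⟩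
  have A0 : A ≠ 0 := hA.1
  rw [G.usigma_eq A A0] at h1
  rw [G.usigma_eq B hB.ne'] at h2
  have hA' : (0 : ℝ) < A := by exact_mod_cast Nat.pos_of_ne_zero A0
  have hB' : (0 : ℝ) < B := by exact_mod_cast hB
  set a : ℝ := ∏ p ∈ A.primeFactors, (1 + 1 / (p : ℝ) ^ A.factorization p) with ha
  set b : ℝ := ∏ p ∈ B.primeFactors, (1 + 1 / (p : ℝ) ^ B.factorization p) with hb
  have e1 : (al : ℝ) * B = A * a := by rw [ha, ← G.sp_eq A0, h1]; push_cast; rfl
  have e2 : (be : ℝ) * A = B * b := by rw [hb, ← G.sp_eq hB.ne', h2]; push_cast; rfl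
  have e3 : (al : ℝ) * be = a * b := by
    have : ((al : ℝ) * be) * (A * B) = (al * B) * (be * A) := by ring
    rw [e1, e2] at this
    refine mul_right_cancel₀ (mul_pos hA' hB').ne' ?_
    rw [this]; ring
  have hle : ∀ (n p : ℕ), p ∈ n.primeFactors →
      1 + 1 / (p : ℝ) ^ n.factorization p ≤ 1 + 1 / (p : ℝ) := fun n p hp => by
    have hp1 : (1 : ℝ) ≤ p := by exact_mod_cast (Nat.prime_of_mem_primeFactors hp).one_lt.le
    have he : n.factorization p ≠ 0 := Finsupp.mem_support_iff.1 (by simpa using hp)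
    have := one_div_le_one_div_of_le (by linarith) (le_self_pow₀ hp1 he)
    linarith
  have ha2 : a ≤ 2 ^ M := by
    have hc : A.primeFactors.card ≤ M := by
      have : A.primeFactors ⊆ range M := fun p hp => mem_range.2 (Nat.mem_smoothNumbers'.1 hA _
        (Nat.prime_of_mem_primeFactors hp) (Nat.dvd_of_mem_primeFactors hp))
      simpa using card_le_card this
    calc a ≤ ∏ _p ∈ A.primeFactors, (2 : ℝ) := by
          refine prod_le_prod (fun p _ => by positivity) fun p hp => (hle A p hp).trans ?_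
          have hp1 : (1 : ℝ) ≤ p := by exact_mod_cast (Nat.prime_of_mem_primeFactors hp).one_lt.le
          have := one_div_le_one_div_of_le one_pos hp1
          linarith
      _ ≤ 2 ^ M := by rw [prod_const]; exact pow_le_pow_right₀ one_le_two hc
  set s1 := B.primeFactors.filter (fun p => p ^ B.factorization p + 1 ∈ M.smoothNumbers) with hs1
  set s2 := B.primeFactors.filter (fun p => ¬ p ^ B.factorization p + 1 ∈ M.smoothNumbers) with hs2
  have ht : 2 ^ s2.card ≤ be := by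
    refine two_pow_le hA hbe s2 (fun p => p ^ B.factorization p + 1)
      (fun p hp => ⟨Nat.succ_ne_zero _, (mem_filter.1 hp).2⟩) ?_
    rw [← h2]
    exact prod_dvd_prod_of_subset _ _ _ (filter_subset _ _)
  have hb2 : ∏ p ∈ s2, (1 + 1 / (p : ℝ) ^ B.factorization p) ≤ s2.card + 1 :=
    (prod_le_prod (fun p _ => by positivity) fun p hp => hle B p (mem_filter.1 hp).1).trans
      (tt_le_card s2 fun p hp => (Nat.prime_of_mem_primeFactors (mem_filter.1 hp).1).one_lt.le)
  have hb1 : ∏ p ∈ s1, (1 + 1 / (p : ℝ) ^ B.factorization p) ≤ 1 + C := by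
    have hinj : ∀ p ∈ s1, ∀ q ∈ s1, p ^ B.factorization p = q ^ B.factorization q → p = q :=
      fun p hp q hq h => by
        have hp' := (mem_filter.1 hp).1
        have he : B.factorization p ≠ 0 := Finsupp.mem_support_iff.1 (by simpa using hp')
        exact (Nat.prime_dvd_prime_iff_eq (Nat.prime_of_mem_primeFactors hp')
          (Nat.prime_of_mem_primeFactors (mem_filter.1 hq).1)).1
          ((Nat.prime_of_mem_primeFactors hp').dvd_of_dvd_pow (h ▸ dvd_pow_self p he))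
    have h3 := hrk (s1.image fun p => p ^ B.factorization p) 1 le_rfl fun x hx => by
      obtain ⟨p, hp, rfl⟩ := mem_image.1 hx
      refine ⟨?_, (mem_filter.1 hp).2⟩
      exact_mod_cast Nat.one_le_pow _ _ (Nat.prime_of_mem_primeFactors (mem_filter.1 hp).1).pos
    unfold tt at h3
    rw [prod_image hinj, Real.one_rpow, mul_one] at h3
    simpa using h3
  have hbb : b ≤ (1 + C) * (s2.card + 1) := by
    rw [hb, ← prod_filter_mul_prod_filter_not B.primeFactors
      (fun p => p ^ B.factorization p + 1 ∈ M.smoothNumbers)]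
    exact mul_le_mul hb1 hb2 (prod_nonneg fun p _ => by positivity) (by linarith)
  have hb0 : 0 ≤ b := prod_nonneg fun p _ => by positivity
  have h4 : (al : ℝ) * be ≤ 2 ^ M * (1 + C) * (s2.card + 1) := by
    rw [e3, mul_assoc]; exact mul_le_mul ha2 hbb hb0 (by positivity)
  have h5 : ((s2.card : ℝ) + 1) ^ 2 ≤ 4 * (al * be) := by
    have h6 : (s2.card + 1) ^ 2 ≤ 4 * (al * be) :=
      (sq_le _).trans (Nat.mul_le_mul_left 4 (ht.trans (Nat.le_mul_of_pos_left be hal)))
    exact_mod_cast h6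
  have hK : (0 : ℝ) < 2 ^ M * (1 + C) := by positivity
  have h7 : (s2.card : ℝ) + 1 ≤ 4 * (2 ^ M * (1 + C)) := by
    refine le_of_mul_le_mul_right ?_ (show (0 : ℝ) < s2.card + 1 by positivity)
    nlinarith
  have h8 : ((al * be : ℕ) : ℝ) ≤ 4 * (2 ^ M * (1 + C)) ^ 2 := by
    push_cast
    nlinarith [mul_le_mul_of_nonneg_left h7 hK.le]
  exact_mod_cast h8.trans (Nat.le_ceil _)

end Div93

theorem div93 (hRK : St_RK) (hM : St_MAIN) (M : ℕ) :
    {x : ℕ × ℕ | x.1 ∈ M.smoothNumbers ∧ 0 < x.2 ∧ x.2 ∣ usigma x.1 ∧ x.1 ∣ usigma x.2}.Finite := by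
  obtain ⟨K, hK⟩ := Div93.bound hRK M
  have hpos : ∀ n, n ≠ 0 → 0 < usigma n := fun n hn => by
    rw [G.usigma_eq n hn]; exact prod_pos fun p _ => Nat.succ_pos _
  refine (Set.Finite.biUnion (Set.finite_Icc ((1, 1) : ℕ × ℕ) (K, K)) fun y hy =>
    hM M y.1 y.2 hy.1.1 hy.1.2).subset ?_
  rintro ⟨A, B⟩ ⟨hA, hB, ⟨al, h1⟩, ⟨be, h2⟩⟩
  simp only at hA hB h1 h2
  have hal : 0 < al := Nat.pos_of_ne_zero fun h => by
    have := hpos A hA.1; rw [h1, h] at this; simp at this
  have hbe : 0 < be := Nat.pos_of_ne_zero fun h => by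
    have := hpos B hB.ne'; rw [h2, h] at this; simp at this
  rw [mul_comm] at h1 h2
  have h3 := hK A B al be hA hB hal hbe h1 h2
  exact Set.mem_biUnion (x := (al, be))
    ⟨⟨hal, hbe⟩, (Nat.le_mul_of_pos_right al hbe).trans h3, (Nat.le_mul_of_pos_left be hal).trans h3⟩
    ⟨hA, hB, h1, h2⟩

end Pool.Agent.SU76
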